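import Pool.Agent.H15.SC.Kapb

/-! # [SC KSUM] Sum of the densities

`shell`: the number of points with `msz P = m ≥ 1` is `(2m+1)² - (2m-1)² = 8 m`, so
`∑_{P ∈ Pts B', B < msz P} kap n P ≤ ∑_{m > B} 8 m 2^n/m^n ≤ 8 * 2^n * B^(2-n) * 2` (`n ≥ 3`;
`m^(1-n) ≤ B^(3-n) m^(-2)`, `∑_{m > B} m^(-2) ≤ 1/B`, `B ≥ 1`). `kaps n` := supremum (or limit) of
the increasing bounded sequence `∑_{P ∈ Pts B} kap n P`; positive by `kap_zero`; also equal to the
sum over all integer points (`kaps_hasSum`). -/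

namespace Pool.Agent.H15.SC

open Finset Polynomial Pool.Agent.H72.ES Pool.Agent.H8.NoPt Pool.Agent.H8.MP

/-- the constant -/
noncomputable def kaps (n : ℕ) : ℝ := ∑' P : ℤ × ℤ, kap n P

private theorem Pts_mono {B B' : ℕ} (h : B ≤ B') : Pts B ⊆ Pts B' := by
  intro P hP
  rw [mem_Pts] at hP ⊢
  have : (B : ℤ) ≤ B' := by exact_mod_cast h
  exact hP.trans this

private theorem tele (k B : ℕ) (hB : 1 ≤ B) :
    1 / ((B : ℝ) + 1) ^ (k + 2) ≤ 1 / (B : ℝ) ^ (k + 1) - 1 / ((B : ℝ) + 1) ^ (k + 1) := by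
  have hB0 : (0 : ℝ) < B := by exact_mod_cast hB
  have h1 : 1 / ((B : ℝ) + 1) ^ k * (1 / B) ≤ 1 / (B : ℝ) ^ (k + 1) := by
    rw [pow_succ, ← one_div_mul_one_div]
    refine mul_le_mul_of_nonneg_right ?_ (by positivity)
    refine one_div_le_one_div_of_le (by positivity) ?_
    exact pow_le_pow_left₀ hB0.le (by linarith) k
  have h2 : 1 / ((B : ℝ) + 1) ^ 2 ≤ 1 / B - 1 / ((B : ℝ) + 1) := by
    rw [div_sub_div _ _ hB0.ne' (by positivity), div_le_div_iff₀ (by positivity) (by positivity)]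
    nlinarith
  have h3 : 1 / ((B : ℝ) + 1) ^ (k + 2) = 1 / ((B : ℝ) + 1) ^ k * (1 / ((B : ℝ) + 1) ^ 2) := by
    rw [pow_add, one_div_mul_one_div]
  have h4 : 1 / ((B : ℝ) + 1) ^ (k + 1) = 1 / ((B : ℝ) + 1) ^ k * (1 / ((B : ℝ) + 1)) := by
    rw [pow_succ, one_div_mul_one_div]
  have h5 := mul_le_mul_of_nonneg_left h2 (show (0 : ℝ) ≤ 1 / ((B : ℝ) + 1) ^ k by positivity)
  rw [h3, h4]
  linarith

private theorem step (n : ℕ) (hn : 3 ≤ n) (B : ℕ) (hB : 1 ≤ B) :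
    ∑ P ∈ Pts (B + 1), kap n P ≤ ∑ P ∈ Pts B, kap n P +
      8 * 2 ^ n * (1 / (B : ℝ) ^ (n - 2) - 1 / ((B : ℝ) + 1) ^ (n - 2)) := by
  classical
  have hB0 : (0 : ℝ) < B := by exact_mod_cast hB
  rw [← sum_sdiff (Pts_mono (Nat.le_succ B)), add_comm]
  refine add_le_add_right ?_ _
  have h1 : ∑ P ∈ Pts (B + 1) \ Pts B, kap n P ≤
      ∑ _P ∈ Pts (B + 1) \ Pts B, 2 ^ n / ((B : ℝ) + 1) ^ n := by
    refine sum_le_sum fun P hP => ?_
    rw [mem_sdiff, mem_Pts, mem_Pts] at hP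
    have hm : msz P = B + 1 := by
      have h2 := hP.2
      have h3 := hP.1
      push_cast at h3
      omega
    have h4 := kap_le n (by omega) P (by rw [hm]; omega)
    rw [hm] at h4
    push_cast at h4
    exact h4
  refine h1.trans ?_
  have hc : ((Pts (B + 1) \ Pts B).card : ℝ) = 8 * ((B : ℝ) + 1) := by
    have h2 := card_sdiff_add_card_eq_card (Pts_mono (Nat.le_succ B))
    rw [card_Pts, card_Pts] at h2
    have h3 : ((Pts (B + 1) \ Pts B).card : ℝ) + (2 * (B : ℝ) + 1) ^ 2 =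
        (2 * ((B : ℝ) + 1) + 1) ^ 2 := by exact_mod_cast h2
    linarith
  rw [sum_const, nsmul_eq_mul, hc]
  obtain ⟨k, rfl⟩ : ∃ k, n = k + 3 := ⟨n - 3, by omega⟩
  have h5 := tele k B hB
  have e1 : k + 3 - 2 = k + 1 := by omega
  rw [e1]
  have h6 : 8 * ((B : ℝ) + 1) * (2 ^ (k + 3) / ((B : ℝ) + 1) ^ (k + 3)) =
      8 * 2 ^ (k + 3) * (1 / ((B : ℝ) + 1) ^ (k + 2)) := by
    have h7 : ((B : ℝ) + 1) ^ (k + 3) = ((B : ℝ) + 1) ^ (k + 2) * ((B : ℝ) + 1) := pow_succ _ _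
    rw [h7]
    field_simp
  rw [h6]
  exact mul_le_mul_of_nonneg_left h5 (by positivity)

private theorem steps (n : ℕ) (hn : 3 ≤ n) (B : ℕ) (hB : 1 ≤ B) (d : ℕ) :
    ∑ P ∈ Pts (B + d), kap n P ≤ ∑ P ∈ Pts B, kap n P +
      8 * 2 ^ n * (1 / (B : ℝ) ^ (n - 2) - 1 / ((B : ℝ) + d) ^ (n - 2)) := by
  induction d with
  | zero =>
    rw [Nat.add_zero, Nat.cast_zero, add_zero, sub_self, mul_zero, add_zero]
  | succ d ih =>
    have h := step n hn (B + d) (by omega)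
    push_cast at h ⊢
    rw [← Nat.add_assoc, ← add_assoc]
    refine h.trans ?_
    linarith

private theorem fin_le (n : ℕ) (hn : 3 ≤ n) (B : ℕ) (hB : 1 ≤ B) (s : Finset (ℤ × ℤ)) :
    ∑ P ∈ s, kap n P ≤ ∑ P ∈ Pts B, kap n P + 16 * 2 ^ n / (B : ℝ) ^ (n - 2) := by
  classical
  have hB0 : (0 : ℝ) < B := by exact_mod_cast hB
  have h1 : s ⊆ Pts (B + s.sup fun P => (msz P).toNat) := by
    intro P hP
    rw [mem_Pts]
    have h2 : (msz P).toNat ≤ s.sup fun P => (msz P).toNat :=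
      le_sup (f := fun P => (msz P).toNat) hP
    push_cast
    omega
  refine (sum_le_sum_of_subset_of_nonneg h1 fun P _ _ => kap_nonneg n (by omega) P).trans ?_
  refine (steps n hn B hB _).trans ?_
  refine add_le_add_right ?_ _
  have h3 : (0 : ℝ) ≤ 1 / ((B : ℝ) + (s.sup fun P => (msz P).toNat : ℕ)) ^ (n - 2) := by
    positivity
  have h4 : (0 : ℝ) ≤ 8 * 2 ^ n := by positivity
  have h5 : (0 : ℝ) ≤ 8 * 2 ^ n * (1 / (B : ℝ) ^ (n - 2)) := by positivity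
  have h6 : 16 * 2 ^ n / (B : ℝ) ^ (n - 2) = 8 * 2 ^ n * (1 / (B : ℝ) ^ (n - 2)) +
      8 * 2 ^ n * (1 / (B : ℝ) ^ (n - 2)) := by ring
  rw [h6, mul_sub]
  have h7 := mul_nonneg h4 h3
  linarith

theorem kaps_summable (n : ℕ) (hn : 3 ≤ n) : Summable fun P : ℤ × ℤ => kap n P :=
  summable_of_sum_le (fun P => kap_nonneg n (by omega) P) (fin_le n hn 1 le_rfl)

theorem kaps_pos (n : ℕ) (hn : 3 ≤ n) : 0 < kaps n := by
  have h := (kaps_summable n hn).le_tsum (0, 0) fun P _ => kap_nonneg n (by omega) P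
  rw [kap_zero n (by omega)] at h
  exact lt_of_lt_of_le one_pos h

theorem kaps_tail (n : ℕ) (hn : 3 ≤ n) (B : ℕ) (hB : 1 ≤ B) :
    ∑ P ∈ Pts B, kap n P ≤ kaps n ∧
      kaps n ≤ ∑ P ∈ Pts B, kap n P + 16 * 2 ^ n / (B : ℝ) ^ (n - 2) := by
  constructor
  · exact (kaps_summable n hn).sum_le_tsum _ fun P _ => kap_nonneg n (by omega) P
  · exact (kaps_summable n hn).tsum_le_of_sum_le (fin_le n hn B hB)

end Pool.Agent.H15.SC
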