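import Mathlib

/-! # [SC FRA] From counts in fibres to proportions

`K = 2H + 1`. `R = ` set of restrictions of the vectors of `S` to `{i // ¬ p i}`. Every `r ∈ R` is
the restriction of some `a ∈ S`, `Q a`, so by `hQ` every box vector with restriction `r`
satisfies `Q`; there are `K^(card {i // p i})` of them, so
`#R K^(card {i // p i}) ≤ φ K^(card ι)` (`hφ` for the set of all box vectors whose restriction is
in `R`). `#S ≤ m #R`. -/

namespace Pool.Agent.H15.SC

open Finset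

theorem fra {ι : Type*} [Fintype ι] [DecidableEq ι] (p : ι → Prop) [DecidablePred p] (H : ℕ)
    (φ m : ℝ) (hm : 0 ≤ m) (Q : (ι → ℤ) → Prop)
    (hQ : ∀ a b : ι → ℤ, (∀ i, ¬ p i → a i = b i) → Q a → Q b)
    (hφ : ∀ S : Finset (ι → ℤ), (∀ a ∈ S, (∀ i, |a i| ≤ (H : ℤ)) ∧ Q a) →
      (S.card : ℝ) ≤ φ * (2 * H + 1 : ℝ) ^ (Fintype.card ι))
    (S : Finset (ι → ℤ)) (hS : ∀ a ∈ S, (∀ i, |a i| ≤ (H : ℤ)) ∧ Q a)
    (hfib : ∀ c ∈ S, ∀ T : Finset (ι → ℤ), (∀ a ∈ T, a ∈ S ∧ ∀ i, ¬ p i → a i = c i) →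
      (T.card : ℝ) ≤ m) :
    (S.card : ℝ) * (2 * H + 1 : ℝ) ^ (Fintype.card {i // p i}) ≤
      φ * m * (2 * H + 1 : ℝ) ^ (Fintype.card ι) := by
  classical
  let ρ : (ι → ℤ) → ({i // ¬ p i} → ℤ) := fun a i => a i.1
  let R : Finset ({i // ¬ p i} → ℤ) := S.image ρ
  let B : Finset ({i // p i} → ℤ) := Fintype.piFinset fun _ => Finset.Icc (-(H : ℤ)) H
  let comb : ({i // ¬ p i} → ℤ) × ({i // p i} → ℤ) → (ι → ℤ) := fun z i =>
    if h : p i then z.2 ⟨i, h⟩ else z.1 ⟨i, h⟩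
  have hcinj : Function.Injective comb := by
    rintro ⟨r, b⟩ ⟨r', b'⟩ h
    refine Prod.ext (funext fun i => ?_) (funext fun i => ?_)
    · have h1 := congrFun h i.1
      simpa [comb, i.2] using h1
    · have h1 := congrFun h i.1
      simpa [comb, i.2] using h1
  let T : Finset (ι → ℤ) := (R ×ˢ B).image comb
  have hBcard : (B.card : ℝ) = (2 * H + 1 : ℝ) ^ (Fintype.card {i // p i}) := by
    have h1 : B.card = (2 * H + 1) ^ (Fintype.card {i // p i}) := by
      have h2 : (Finset.Icc (-(H : ℤ)) H).card = 2 * H + 1 := by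
        rw [Int.card_Icc]
        omega
      rw [Fintype.card_piFinset, Finset.prod_const, h2, Finset.card_univ]
    rw [h1]
    push_cast
    rfl
  have hTcard : (T.card : ℝ) = R.card * (2 * H + 1 : ℝ) ^ (Fintype.card {i // p i}) := by
    have h1 : T.card = R.card * B.card := by
      rw [Finset.card_image_of_injective _ hcinj, Finset.card_product]
    rw [h1, Nat.cast_mul, hBcard]
  have hT : ∀ a ∈ T, (∀ i, |a i| ≤ (H : ℤ)) ∧ Q a := by
    intro a ha
    obtain ⟨z, hz, rfl⟩ := Finset.mem_image.1 ha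
    obtain ⟨hz1, hz2⟩ := Finset.mem_product.1 hz
    obtain ⟨s, hs, hsz⟩ := Finset.mem_image.1 hz1
    have hoff : ∀ i, ¬ p i → s i = comb z i := by
      intro i hi
      have h1 := congrFun hsz ⟨i, hi⟩
      simp only [comb, dif_neg hi]
      exact h1
    refine ⟨fun i => ?_, hQ s _ hoff (hS s hs).2⟩
    by_cases hi : p i
    · have h1 := (Fintype.mem_piFinset.1 hz2) ⟨i, hi⟩
      rw [Finset.mem_Icc] at h1
      have h2 : comb z i = z.2 ⟨i, hi⟩ := by simp only [comb, dif_pos hi]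
      rw [h2, abs_le]
      exact h1
    · rw [← hoff i hi]
      exact (hS s hs).1 i
  have h1 := hφ T hT
  rw [hTcard] at h1
  have h2 : (S.card : ℝ) ≤ m * R.card := by
    have h3 : S.card = ∑ r ∈ R, (S.filter fun a => ρ a = r).card :=
      Finset.card_eq_sum_card_fiberwise fun a ha => Finset.mem_image_of_mem ρ ha
    rw [h3, Nat.cast_sum, mul_comm, ← nsmul_eq_mul]
    refine Finset.sum_le_card_nsmul R _ m fun r hr => ?_
    obtain ⟨c, hc, hcr⟩ := Finset.mem_image.1 hr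
    refine hfib c hc _ fun a ha => ?_
    rw [Finset.mem_filter] at ha
    refine ⟨ha.1, fun i hi => ?_⟩
    exact congrFun (ha.2.trans hcr.symm) ⟨i, hi⟩
  have hK : (0 : ℝ) ≤ (2 * H + 1 : ℝ) ^ (Fintype.card {i // p i}) := by positivity
  calc (S.card : ℝ) * (2 * H + 1 : ℝ) ^ (Fintype.card {i // p i})
      ≤ m * R.card * (2 * H + 1 : ℝ) ^ (Fintype.card {i // p i}) :=
        mul_le_mul_of_nonneg_right h2 hK
    _ = m * (R.card * (2 * H + 1 : ℝ) ^ (Fintype.card {i // p i})) := by ring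
    _ ≤ m * (φ * (2 * H + 1 : ℝ) ^ (Fintype.card ι)) := mul_le_mul_of_nonneg_left h1 hm
    _ = φ * m * (2 * H + 1 : ℝ) ^ (Fintype.card ι) := by ring

end Pool.Agent.H15.SC
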