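import Pool.Agent.H15.SC.Kdef
import Pool.Agent.H15.SC.Fra
import Pool.Agent.H8.MP.FibS

/-! # [SC PAIR] Two points, and inclusion-exclusion

`pair_count`: `P ≠ Q`; `fiber_count` with the coordinates `(0,0)` and `(1,0)` free if
`P.1 ≠ Q.1`, `(0,0)` and `(0,1)` if `P.2 ≠ Q.2` (`n ≥ 1`): the difference of the two equations
fixes the second coordinate, then `(0,0)` is fixed: fibres have at most one element.
`one_count`: `fra` with `p i := i = ix n 0 0`, `Q = I`, `m = 1` (the constant coefficient is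
determined by the others, `ev_const` in `NoPt.Basic`); `Fintype.card {i // p i} = 1`.
`bonf`: for a finite set `T` of points, `U` = vectors of `W ⊆ Box` with a zero in `T`:
`#U ≤ ∑_{P ∈ T} #(W vanishing at P) ≤ #U + ∑_{P ≠ Q} #(...)` (a vector with `r ≥ 1` zeros in `T` is
counted `r ≤ 1 + r(r-1)` times). -/

namespace Pool.Agent.H15.SC

open Finset Polynomial Pool.Agent.H72.ES Pool.Agent.H8.NoPt Pool.Agent.H8.MP

private theorem zz (n : ℕ) : 0 + 0 ≤ n := by omega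

/-- two vectors which agree except at the constant term and at the index `j` -/
private theorem diff_two {n : ℕ} (j : Ix n) (hj : j ≠ ix n 0 0 (zz n)) (a b : Ix n → ℤ)
    (hab : ∀ i, ¬ (i = ix n 0 0 (zz n) ∨ i = j) → a i = b i) (P : ℤ × ℤ)
    (ha : ev n (arr a) P.1 P.2 = 0) (hb : ev n (arr b) P.1 P.2 = 0) :
    (a (ix n 0 0 (zz n)) - b (ix n 0 0 (zz n))) +
      (a j - b j) * (P.1 ^ (j.1.1 : ℕ) * P.2 ^ (j.1.2 : ℕ)) = 0 := by
  rw [ev_arr_sum] at ha hb
  have h1 : ∑ i : Ix n, (a i - b i) * (P.1 ^ (i.1.1 : ℕ) * P.2 ^ (i.1.2 : ℕ)) = 0 := by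
    simp only [sub_mul, sum_sub_distrib]
    rw [ha, hb, sub_zero]
  have h2 : ∑ i : Ix n, (a i - b i) * (P.1 ^ (i.1.1 : ℕ) * P.2 ^ (i.1.2 : ℕ)) =
      ∑ i ∈ ({ix n 0 0 (zz n), j} : Finset (Ix n)),
        (a i - b i) * (P.1 ^ (i.1.1 : ℕ) * P.2 ^ (i.1.2 : ℕ)) := by
    symm
    refine sum_subset (subset_univ _) fun i _ hi => ?_
    rw [mem_insert, mem_singleton] at hi
    rw [hab i hi, sub_self, zero_mul]
  rw [h2, sum_pair (Ne.symm hj)] at h1
  have h3 : (P.1 ^ ((ix n 0 0 (zz n) : Ix n).1.1 : ℕ) *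
      P.2 ^ ((ix n 0 0 (zz n) : Ix n).1.2 : ℕ)) = 1 := by
    show P.1 ^ 0 * P.2 ^ 0 = 1
    rw [pow_zero, pow_zero, one_mul]
  rw [h3, mul_one] at h1
  exact h1

private theorem pair_aux {n : ℕ} (j : Ix n) (hj : j ≠ ix n 0 0 (zz n)) (H : ℕ)
    (P Q : ℤ × ℤ)
    (hPQ : P.1 ^ (j.1.1 : ℕ) * P.2 ^ (j.1.2 : ℕ) ≠ Q.1 ^ (j.1.1 : ℕ) * Q.2 ^ (j.1.2 : ℕ))
    (S : Finset (Ix n → ℤ))
    (hS : ∀ a ∈ S, (∀ i, |a i| ≤ (H : ℤ)) ∧ ev n (arr a) P.1 P.2 = 0 ∧
      ev n (arr a) Q.1 Q.2 = 0) :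
    (S.card : ℝ) ≤ (2 * H + 1 : ℝ) ^ (Fintype.card (Ix n) - 2) := by
  classical
  have h := fiber_count (fun i : Ix n => i = ix n 0 0 (zz n) ∨ i = j) H S
    (fun a ha => (hS a ha).1) 1 zero_le_one ?_
  · have hc : Fintype.card {i : Ix n // ¬ (i = ix n 0 0 (zz n) ∨ i = j)} =
        Fintype.card (Ix n) - 2 := by
      rw [Fintype.card_subtype_compl]
      congr 1
      rw [Fintype.card_subtype]
      have : (univ.filter fun i : Ix n => i = ix n 0 0 (zz n) ∨ i = j) =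
          {ix n 0 0 (zz n), j} := by
        ext i
        simp
      rw [this, card_pair (Ne.symm hj)]
    rw [one_mul, hc] at h
    exact h
  · intro c _ T hT
    have h1 : T.card ≤ 1 := by
      rw [card_le_one]
      intro a ha b hb
      have hab : ∀ i, ¬ (i = ix n 0 0 (zz n) ∨ i = j) → a i = b i := fun i hi =>
        ((hT a ha).2 i hi).trans ((hT b hb).2 i hi).symm
      have hSa := hS a (hT a ha).1
      have hSb := hS b (hT b hb).1
      have e1 := diff_two j hj a b hab P hSa.2.1 hSb.2.1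
      have e2 := diff_two j hj a b hab Q hSa.2.2 hSb.2.2
      have e3 : (a j - b j) * (P.1 ^ (j.1.1 : ℕ) * P.2 ^ (j.1.2 : ℕ) -
          Q.1 ^ (j.1.1 : ℕ) * Q.2 ^ (j.1.2 : ℕ)) = 0 := by
        linear_combination e1 - e2
      have e4 : a j = b j := by
        rcases mul_eq_zero.1 e3 with e | e
        · exact sub_eq_zero.1 e
        · exact absurd (sub_eq_zero.1 e) hPQ
      have e5 : a (ix n 0 0 (zz n)) = b (ix n 0 0 (zz n)) := by
        rw [e4, sub_self, zero_mul, add_zero] at e1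
        exact sub_eq_zero.1 e1
      funext i
      by_cases hi : i = ix n 0 0 (zz n) ∨ i = j
      · rcases hi with rfl | rfl
        · exact e5
        · exact e4
      · exact hab i hi
    exact_mod_cast h1

theorem pair_count (n : ℕ) (hn : 1 ≤ n) (H : ℕ) (P Q : ℤ × ℤ) (hPQ : P ≠ Q)
    (S : Finset (Ix n → ℤ))
    (hS : ∀ a ∈ S, (∀ i, |a i| ≤ (H : ℤ)) ∧ ev n (arr a) P.1 P.2 = 0 ∧
      ev n (arr a) Q.1 Q.2 = 0) :
    (S.card : ℝ) ≤ (2 * H + 1 : ℝ) ^ (Fintype.card (Ix n) - 2) := by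
  by_cases h1 : P.1 = Q.1
  · have h2 : P.2 ≠ Q.2 := fun h => hPQ (Prod.ext h1 h)
    refine pair_aux (ix n 0 1 (by omega)) ?_ H P Q ?_ S hS
    · intro h
      have h3 := congrArg (fun i : Ix n => (i.1.2 : ℕ)) h
      have h4 : (1 : ℕ) = 0 := h3
      omega
    · show P.1 ^ 0 * P.2 ^ 1 ≠ Q.1 ^ 0 * Q.2 ^ 1
      rw [pow_zero, pow_zero, one_mul, one_mul, pow_one, pow_one]
      exact h2
  · refine pair_aux (ix n 1 0 (by omega)) ?_ H P Q ?_ S hS
    · intro h
      have h3 := congrArg (fun i : Ix n => (i.1.1 : ℕ)) h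
      have h4 : (1 : ℕ) = 0 := h3
      omega
    · show P.1 ^ 1 * P.2 ^ 0 ≠ Q.1 ^ 1 * Q.2 ^ 0
      rw [pow_zero, pow_zero, mul_one, mul_one, pow_one, pow_one]
      exact h1

/-- `I` does not depend on the constant term and has proportion at most `φ` -/
theorem one_count (n : ℕ) (H : ℕ) (P : ℤ × ℤ) (I : (Ix n → ℤ) → Prop) (φ : ℝ)
    (hI : ∀ a b : Ix n → ℤ, (∀ i, i ≠ ix n 0 0 (by omega) → a i = b i) → I a → I b)
    (hφ : ∀ S : Finset (Ix n → ℤ), (∀ a ∈ S, (∀ i, |a i| ≤ (H : ℤ)) ∧ I a) →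
      (S.card : ℝ) ≤ φ * (2 * H + 1 : ℝ) ^ (Fintype.card (Ix n)))
    (S : Finset (Ix n → ℤ))
    (hS : ∀ a ∈ S, (∀ i, |a i| ≤ (H : ℤ)) ∧ I a ∧ ev n (arr a) P.1 P.2 = 0) :
    (S.card : ℝ) ≤ φ * (2 * H + 1 : ℝ) ^ (Fintype.card (Ix n) - 1) := by
  classical
  have h := fra (fun i : Ix n => i = ix n 0 0 (zz n)) H φ 1 zero_le_one I hI hφ S
    (fun a ha => ⟨(hS a ha).1, (hS a ha).2.1⟩) ?_
  · have hN : 1 ≤ Fintype.card (Ix n) := Fintype.card_pos_iff.2 ⟨ix n 0 0 (zz n)⟩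
    have hK : (0 : ℝ) < 2 * H + 1 := by positivity
    have e : (2 * H + 1 : ℝ) ^ (Fintype.card (Ix n)) =
        (2 * H + 1 : ℝ) ^ (Fintype.card (Ix n) - 1) * (2 * H + 1 : ℝ) := by
      rw [← pow_succ]
      congr 1
      omega
    rw [Fintype.card_subtype_eq, pow_one, mul_one, e, ← mul_assoc] at h
    exact le_of_mul_le_mul_right h hK
  · intro c hc T hT
    have h1 : T.card ≤ 1 := by
      rw [card_le_one]
      intro a ha b hb
      have hab : ∀ i, i ≠ ix n 0 0 (zz n) → a i = b i := fun i hi =>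
        ((hT a ha).2 i hi).trans ((hT b hb).2 i hi).symm
      have hSa := (hS a (hT a ha).1).2.2
      have hSb := (hS b (hT b hb).1).2.2
      rw [ev_arr_sum] at hSa hSb
      have h1 : ∑ i : Ix n, (a i - b i) * (P.1 ^ (i.1.1 : ℕ) * P.2 ^ (i.1.2 : ℕ)) = 0 := by
        simp only [sub_mul, sum_sub_distrib]
        rw [hSa, hSb, sub_zero]
      rw [sum_eq_single (ix n 0 0 (zz n))] at h1
      · have h3 : (P.1 ^ ((ix n 0 0 (zz n) : Ix n).1.1 : ℕ) *
            P.2 ^ ((ix n 0 0 (zz n) : Ix n).1.2 : ℕ)) = 1 := by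
          show P.1 ^ 0 * P.2 ^ 0 = 1
          rw [pow_zero, pow_zero, one_mul]
        rw [h3, mul_one] at h1
        funext i
        by_cases hi : i = ix n 0 0 (zz n)
        · rw [hi]
          exact sub_eq_zero.1 h1
        · exact hab i hi
      · intro i _ hi
        rw [hab i hi, sub_self, zero_mul]
      · intro hh
        exact absurd (mem_univ _) hh
    exact_mod_cast h1

open Classical in
theorem bonf {α β : Type*} [DecidableEq α] (W : Finset α) (T : Finset β) (z : α → β → Prop)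
    (r : ℝ) (hr0 : 0 ≤ r)
    (hr : ∀ P ∈ T, ∀ Q ∈ T, P ≠ Q → ((W.filter fun a => z a P ∧ z a Q).card : ℝ) ≤ r) :
    |((W.filter fun a => ∃ P ∈ T, z a P).card : ℝ) -
      ∑ P ∈ T, ((W.filter fun a => z a P).card : ℝ)| ≤ (T.card : ℝ) ^ 2 * r ∧
    ((W.filter fun a => ∃ P ∈ T, ∃ Q ∈ T, P ≠ Q ∧ z a P ∧ z a Q).card : ℝ) ≤
      (T.card : ℝ) ^ 2 * r := by
  have hD : ∑ p ∈ T.offDiag, ((W.filter fun a => z a p.1 ∧ z a p.2).card : ℝ) ≤
      (T.card : ℝ) ^ 2 * r := by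
    have h1 : ∑ p ∈ T.offDiag, ((W.filter fun a => z a p.1 ∧ z a p.2).card : ℝ) ≤
        ∑ _p ∈ T.offDiag, r := by
      refine sum_le_sum fun p hp => ?_
      rw [mem_offDiag] at hp
      exact hr p.1 hp.1 p.2 hp.2.1 hp.2.2
    refine h1.trans ?_
    rw [sum_const, nsmul_eq_mul]
    refine mul_le_mul_of_nonneg_right ?_ hr0
    have h2 : T.offDiag.card ≤ T.card ^ 2 := by
      rw [offDiag_card, sq]
      exact Nat.sub_le _ _
    exact_mod_cast h2
  have hsum : ∑ p ∈ T.offDiag, ((W.filter fun a => z a p.1 ∧ z a p.2).card : ℝ) =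
      ∑ a ∈ W, ∑ p ∈ T.offDiag, (if z a p.1 ∧ z a p.2 then (1 : ℝ) else 0) := by
    rw [sum_comm]
    refine sum_congr rfl fun p _ => ?_
    rw [card_filter]
    push_cast
    rfl
  have hsum1 : ∑ P ∈ T, ((W.filter fun a => z a P).card : ℝ) =
      ∑ a ∈ W, ∑ P ∈ T, (if z a P then (1 : ℝ) else 0) := by
    rw [sum_comm]
    refine sum_congr rfl fun p _ => ?_
    rw [card_filter]
    push_cast
    rfl
  have hU : ((W.filter fun a => ∃ P ∈ T, z a P).card : ℝ) =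
      ∑ a ∈ W, (if ∃ P ∈ T, z a P then (1 : ℝ) else 0) := by
    rw [card_filter]
    push_cast
    rfl
  have hU2 : ((W.filter fun a => ∃ P ∈ T, ∃ Q ∈ T, P ≠ Q ∧ z a P ∧ z a Q).card : ℝ) =
      ∑ a ∈ W, (if ∃ P ∈ T, ∃ Q ∈ T, P ≠ Q ∧ z a P ∧ z a Q then (1 : ℝ) else 0) := by
    rw [card_filter]
    push_cast
    rfl
  have hnn : ∀ a, ∀ p : β × β, (0 : ℝ) ≤ (if z a p.1 ∧ z a p.2 then (1 : ℝ) else 0) := by
    intro a p
    split_ifs
    · exact zero_le_one
    · exact le_refl _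
  have hnn1 : ∀ a, ∀ P : β, (0 : ℝ) ≤ (if z a P then (1 : ℝ) else 0) := by
    intro a p
    split_ifs
    · exact zero_le_one
    · exact le_refl _
  have i1 : ∀ a, (if ∃ P ∈ T, z a P then (1 : ℝ) else 0) ≤
      ∑ P ∈ T, (if z a P then (1 : ℝ) else 0) := by
    intro a
    split_ifs with h
    · obtain ⟨P, hP, hz⟩ := h
      have h2 := single_le_sum (f := fun P => if z a P then (1 : ℝ) else 0)
        (fun Q _ => hnn1 a Q) hP
      simp only [hz, if_true] at h2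
      exact h2
    · exact sum_nonneg fun P _ => hnn1 a P
  have i2 : ∀ a, ∑ P ∈ T, (if z a P then (1 : ℝ) else 0) ≤
      (if ∃ P ∈ T, z a P then (1 : ℝ) else 0) +
        ∑ p ∈ T.offDiag, (if z a p.1 ∧ z a p.2 then (1 : ℝ) else 0) := by
    intro a
    by_cases h : ∃ P ∈ T, z a P
    · rw [if_pos h]
      obtain ⟨P, hP, hz⟩ := h
      rw [← add_sum_erase T _ hP, if_pos hz]
      refine add_le_add_right ?_ 1
      have h3 : ∑ Q ∈ T.erase P, (if z a Q then (1 : ℝ) else 0) =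
          ∑ p ∈ (T.erase P).image fun Q => (P, Q),
            (if z a p.1 ∧ z a p.2 then (1 : ℝ) else 0) := by
        rw [sum_image]
        · refine sum_congr rfl fun Q _ => ?_
          simp only [hz, true_and]
        · intro Q _ Q' _ h
          exact (Prod.ext_iff.1 h).2
      rw [h3]
      refine sum_le_sum_of_subset_of_nonneg ?_ fun p _ _ => hnn a p
      intro p hp
      rw [mem_image] at hp
      obtain ⟨Q, hQ, rfl⟩ := hp
      rw [mem_erase] at hQ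
      rw [mem_offDiag]
      exact ⟨hP, hQ.2, Ne.symm hQ.1⟩
    · rw [if_neg h, zero_add]
      have h4 : ∑ P ∈ T, (if z a P then (1 : ℝ) else 0) = 0 := by
        refine sum_eq_zero fun P hP => ?_
        rw [if_neg]
        intro hz
        exact h ⟨P, hP, hz⟩
      rw [h4]
      exact sum_nonneg fun p _ => hnn a p
  have i3 : ∀ a, (if ∃ P ∈ T, ∃ Q ∈ T, P ≠ Q ∧ z a P ∧ z a Q then (1 : ℝ) else 0) ≤
      ∑ p ∈ T.offDiag, (if z a p.1 ∧ z a p.2 then (1 : ℝ) else 0) := by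
    intro a
    split_ifs with h
    · obtain ⟨P, hP, Q, hQ, hPQ, hz⟩ := h
      have hm : ((P, Q) : β × β) ∈ T.offDiag := mem_offDiag.2 ⟨hP, hQ, hPQ⟩
      have h2 := single_le_sum (f := fun p : β × β => if z a p.1 ∧ z a p.2 then (1 : ℝ) else 0)
        (fun q _ => hnn a q) hm
      simp only [hz, and_self, if_true] at h2
      exact h2
    · exact sum_nonneg fun p _ => hnn a p
  constructor
  · rw [abs_le]
    constructor
    · have := sum_le_sum fun a (_ : a ∈ W) => i2 a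
      rw [sum_add_distrib, ← hU, ← hsum1, ← hsum] at this
      linarith
    · have := sum_le_sum fun a (_ : a ∈ W) => i1 a
      rw [← hU, ← hsum1] at this
      have h0 : 0 ≤ (T.card : ℝ) ^ 2 * r := by positivity
      linarith
  · have := sum_le_sum fun a (_ : a ∈ W) => i3 a
    rw [← hU2, ← hsum] at this
    exact this.trans hD

end Pool.Agent.H15.SC
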