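import Pool.Agent.H15.SC.Lev

/-! # [SC PT] Vectors vanishing at one given point

`pt_count`: `fiber_count` with `p i := Pur n i` (`card {i // ¬ p i} + (n + 1) = card (Ix n)`,
the indices `(k,0)`, `k ≤ n`) and `lev_vec` with `d = n`.
`pt_count_der`: `fiber_count` with `p i := Pur n i ∨ i = (n-1,1)`: if `a = c` outside `p`, then
`f'(z) = a (n-1,1) + (fixed)` (`f = hp n (arr a) = ∑_j a (n-j,j) X^j`, `z = y/x` real), so
`a (n-1,1)` has at most `2H/L + 1` values (`card_int_ball`), and for each of them `lev_vec`. -/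

namespace Pool.Agent.H15.SC

open Finset Polynomial Pool.Agent.H72.ES Pool.Agent.H8.NoPt Pool.Agent.H8.MP

private theorem pt_der (d : ℕ) (F : ℕ → ℕ → ℤ) (z : ℂ) :
    (derivative (hp d F)).eval z =
      ∑ j ∈ range (d + 1), (F (d - j) j : ℂ) * ((j : ℂ) * z ^ (j - 1)) := by
  simp [hp, lead, Polynomial.map_sum, eval_finsetSum, derivative_X_pow]

private theorem card_pur' (n : ℕ) : Fintype.card {i : Ix n // Pur n i} = n + 1 := by
  refine (Fintype.card_congr ?_).trans (Fintype.card_fin (n + 1))
  refine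
    { toFun := fun i => i.1.1.1
      invFun := fun k => ⟨ix n k 0 (by omega), by simp [ix], by simp only [ix]; omega⟩
      left_inv := ?_
      right_inv := ?_ }
  · rintro ⟨⟨⟨u, v⟩, h1⟩, h2⟩
    refine Subtype.ext (Subtype.ext (Prod.ext ?_ ?_))
    · apply Fin.ext
      simp only [ix]
    · apply Fin.ext
      simp only [ix]
      exact h2.1.symm
  · intro k
    apply Fin.ext
    simp only [ix]

theorem card_pur (n : ℕ) :
    Fintype.card {i : Ix n // ¬ Pur n i} + (n + 1) = Fintype.card (Ix n) := by
  have h2 := Fintype.card_congr (Equiv.sumCompl (fun i : Ix n => Pur n i))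
  rw [Fintype.card_sum, card_pur'] at h2
  rw [← h2, add_comm]

theorem pt_count (n H : ℕ) (P : ℤ × ℤ) (hx : P.1 ≠ 0) (S : Finset (Ix n → ℤ))
    (hS : ∀ a ∈ S, (∀ i, |a i| ≤ (H : ℤ)) ∧ ev n (arr a) P.1 P.2 = 0) :
    (S.card : ℝ) * (2 * H + 1 : ℝ) ^ (n + 1) ≤
      (2 * H / |(P.1 : ℝ)| + 1) ^ n * (2 * H + 1 : ℝ) ^ (Fintype.card (Ix n)) := by
  have h1 := fiber_count (fun i : Ix n => Pur n i) H S (fun a ha => (hS a ha).1)
    ((2 * H / |(P.1 : ℝ)| + 1) ^ n) (by positivity) (fun c _ T hT => by
      refine lev_vec n n H le_rfl P hx c T fun a ha => ?_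
      obtain ⟨h2, h3⟩ := hT a ha
      exact ⟨(hS a h2).1, h3, (hS a h2).2⟩)
  rw [← card_pur n, pow_add (2 * (H : ℝ) + 1) (Fintype.card _) (n + 1), ← mul_assoc]
  exact mul_le_mul_of_nonneg_right h1 (by positivity)

private theorem card_pur1 (n : ℕ) (hn : 1 ≤ n) :
    Fintype.card {i : Ix n // ¬ (Pur n i ∨ i = ix n (n - 1) 1 (by omega))} + (n + 2) =
      Fintype.card (Ix n) := by
  have h1 := card_pur n
  have h2 : Fintype.card {i : Ix n // ¬ (Pur n i ∨ i = ix n (n - 1) 1 (by omega))} + 1 =
      Fintype.card {i : Ix n // ¬ Pur n i} := by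
    have h0 : ¬ Pur n (ix n (n - 1) 1 (by omega)) := by
      intro h
      have := h.1
      simp [ix] at this
    rw [Fintype.card_subtype, Fintype.card_subtype,
      ← Finset.card_erase_add_one (s := Finset.univ.filter fun i : Ix n => ¬ Pur n i)
        (a := ix n (n - 1) 1 (by omega)) (Finset.mem_filter.2 ⟨Finset.mem_univ _, h0⟩)]
    congr 2
    ext i
    simp only [Finset.mem_filter, Finset.mem_erase, Finset.mem_univ, true_and, not_or]
    exact ⟨fun h => ⟨h.2, h.1⟩, fun h => ⟨h.2, h.1⟩⟩
  omega

theorem pt_count_der (n : ℕ) (hn : 1 ≤ n) (H : ℕ) (L : ℝ) (hL : 1 ≤ L) (P : ℤ × ℤ)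
    (hx : P.1 ≠ 0) (S : Finset (Ix n → ℤ))
    (hS : ∀ a ∈ S, (∀ i, |a i| ≤ (H : ℤ)) ∧ ev n (arr a) P.1 P.2 = 0 ∧
      dz n (arr a) P ≤ H / L) :
    (S.card : ℝ) * (2 * H + 1 : ℝ) ^ (n + 2) ≤
      (2 * H / L + 1) * (2 * H / |(P.1 : ℝ)| + 1) ^ n *
        (2 * H + 1 : ℝ) ^ (Fintype.card (Ix n)) := by
  classical
  have hL0 : (0 : ℝ) < L := by linarith
  have hn' : n - 1 + 1 ≤ n := by omega
  obtain ⟨i1, hi1⟩ : ∃ i1 : Ix n, i1 = ix n (n - 1) 1 hn' := ⟨_, rfl⟩
  have h1 := fiber_count (fun i : Ix n => Pur n i ∨ i = ix n (n - 1) 1 (by omega)) H S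
    (fun a ha => (hS a ha).1)
    ((2 * H / L + 1) * (2 * H / |(P.1 : ℝ)| + 1) ^ n) (by positivity) (fun c _ T hT => by
      have hfix : ∀ a ∈ T, ∀ i, ¬ Pur n i → i ≠ i1 → a i = c i := by
        intro a ha i hi hi'
        refine (hT a ha).2 i fun h => ?_
        rcases h with h | h
        · exact hi h
        · exact hi' (by rw [h, hi1])
      have hv : ((T.image fun a => a i1).card : ℝ) ≤ 2 * (H / L) + 1 := by
        refine card_int_ball _ (-(∑ j ∈ (range (n + 1)).filter (fun j => 2 ≤ j),
          (arr c (n - j) j : ℂ) * ((j : ℂ) * ((P.2 : ℂ) / P.1) ^ (j - 1))).re) (H / L)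
          (by positivity) ?_
        intro v hv
        obtain ⟨a, ha, rfl⟩ := Finset.mem_image.1 hv
        have h2 := (hS a (hT a ha).1).2.2
        unfold dz at h2
        rw [pt_der] at h2
        have h3 : ∑ j ∈ range (n + 1), (arr a (n - j) j : ℂ) *
            ((j : ℂ) * ((P.2 : ℂ) / P.1) ^ (j - 1)) = (a i1 : ℂ) +
            ∑ j ∈ (range (n + 1)).filter (fun j => 2 ≤ j),
              (arr c (n - j) j : ℂ) * ((j : ℂ) * ((P.2 : ℂ) / P.1) ^ (j - 1)) := by
          rw [← Finset.sum_filter_add_sum_filter_not (range (n + 1)) (fun j => 2 ≤ j), add_comm]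
          congr 1
          · have h4 : (range (n + 1)).filter (fun j => ¬ 2 ≤ j) = range 2 := by
              ext j
              simp only [Finset.mem_filter, Finset.mem_range]
              omega
            rw [h4, Finset.sum_range_succ, Finset.sum_range_one]
            have h5 : arr a (n - 1) 1 = a i1 := by
              rw [hi1]
              unfold arr
              rw [dif_pos]
            rw [h5]
            simp
          · refine Finset.sum_congr rfl fun j hj => ?_
            obtain ⟨hj1, hj2⟩ := Finset.mem_filter.1 hj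
            rw [Finset.mem_range] at hj1
            have h5 : arr a (n - j) j = arr c (n - j) j := by
              unfold arr
              rw [dif_pos (by omega), dif_pos (by omega)]
              apply hfix a ha
              · intro h
                have h6 := h.1
                simp only [ix] at h6
                omega
              · intro h
                rw [hi1] at h
                have h6 := congrArg (fun t : Ix n => (t.1.2 : ℕ)) h
                simp only [ix] at h6
                omega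
            rw [h5]
        rw [h3] at h2
        refine le_trans ?_ h2
        refine le_trans (le_of_eq ?_) (Complex.abs_re_le_norm _)
        rw [Complex.add_re, Complex.intCast_re, sub_neg_eq_add]
      have hfib : ∀ v ∈ T.image (fun a => a i1),
          (((T.filter fun a => a i1 = v).card : ℕ) : ℝ) ≤ (2 * H / |(P.1 : ℝ)| + 1) ^ n := by
        intro v _
        refine lev_vec n n H le_rfl P hx (Function.update c i1 v) _ fun a ha => ?_
        obtain ⟨ha1, ha2⟩ := Finset.mem_filter.1 ha
        refine ⟨(hS a (hT a ha1).1).1, fun i hi => ?_, (hS a (hT a ha1).1).2.1⟩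
        by_cases h : i = i1
        · rw [h, Function.update_self, ha2]
        · rw [Function.update_of_ne h]
          exact hfix a ha1 i hi h
      rw [Finset.card_eq_sum_card_image (fun a => a i1) T]
      push_cast
      refine (Finset.sum_le_card_nsmul _ _ _ hfib).trans ?_
      rw [nsmul_eq_mul]
      refine mul_le_mul_of_nonneg_right ?_ (by positivity)
      rw [mul_div_assoc]
      exact hv)
  rw [← card_pur1 n hn, pow_add (2 * (H : ℝ) + 1) (Fintype.card _) (n + 2), ← mul_assoc]
  exact mul_le_mul_of_nonneg_right h1 (by positivity)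

end Pool.Agent.H15.SC
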