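import Pool.Agent.H15.SC.Kapb

/-! # [SC VOL] The densities are volumes -/

namespace Pool.Agent.H15.SC

open Finset Polynomial Pool.Agent.H72.ES Pool.Agent.H8.NoPt Pool.Agent.H8.MP

open MeasureTheory Filter Topology Pointwise

/-- exponents of the nonconstant monomials of degree at most `n` -/
abbrev Nc (n : ℕ) : Type :=
  {i : Fin (n + 1) × Fin (n + 1) // 0 < (i.1 : ℕ) + i.2 ∧ (i.1 : ℕ) + i.2 ≤ n}

/-- the body attached to `P` -/
def Om (n : ℕ) (P : ℤ × ℤ) : Set (Nc n → ℝ) :=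
  {u | (∀ i, |u i| ≤ 1) ∧
    |∑ i, u i * ((P.1 : ℝ) ^ (i.1.1 : ℕ) * (P.2 : ℝ) ^ (i.1.2 : ℕ))| ≤ 1}

theorem om_closed (n : ℕ) (P : ℤ × ℤ) : IsClosed (Om n P) := by
  have h : Om n P = (⋂ i, {u : Nc n → ℝ | |u i| ≤ 1}) ∩ {u : Nc n → ℝ |
      |∑ i, u i * ((P.1 : ℝ) ^ (i.1.1 : ℕ) * (P.2 : ℝ) ^ (i.1.2 : ℕ))| ≤ 1} := by
    ext u
    simp [Om]
  rw [h]
  refine IsClosed.inter (isClosed_iInter fun i => ?_) ?_
  · exact isClosed_le (by fun_prop) continuous_const
  · exact isClosed_le (by fun_prop) continuous_const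

theorem om_convex (n : ℕ) (P : ℤ × ℤ) : Convex ℝ (Om n P) := by
  rintro u ⟨hu1, hu2⟩ v ⟨hv1, hv2⟩ a b ha hb hab
  constructor
  · intro i
    rw [Pi.add_apply, Pi.smul_apply, Pi.smul_apply, smul_eq_mul, smul_eq_mul]
    calc |a * u i + b * v i| ≤ |a * u i| + |b * v i| := abs_add_le _ _
      _ = a * |u i| + b * |v i| := by rw [abs_mul, abs_mul, abs_of_nonneg ha, abs_of_nonneg hb]
      _ ≤ a * 1 + b * 1 := by gcongr <;> [exact hu1 i; exact hv1 i]
      _ = 1 := by linarith
  · set m : Nc n → ℝ := fun i => (P.1 : ℝ) ^ (i.1.1 : ℕ) * (P.2 : ℝ) ^ (i.1.2 : ℕ) with hm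
    have e : ∑ i, (a • u + b • v) i * m i = a * ∑ i, u i * m i + b * ∑ i, v i * m i := by
      rw [mul_sum, mul_sum, ← sum_add_distrib]
      refine sum_congr rfl fun i _ => ?_
      rw [Pi.add_apply, Pi.smul_apply, Pi.smul_apply, smul_eq_mul, smul_eq_mul]
      ring
    change |∑ i, (a • u + b • v) i * m i| ≤ 1
    rw [e]
    calc |a * ∑ i, u i * m i + b * ∑ i, v i * m i|
        ≤ |a * ∑ i, u i * m i| + |b * ∑ i, v i * m i| := abs_add_le _ _
      _ = a * |∑ i, u i * m i| + b * |∑ i, v i * m i| := by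
          rw [abs_mul, abs_mul, abs_of_nonneg ha, abs_of_nonneg hb]
      _ ≤ a * 1 + b * 1 := by gcongr
      _ = 1 := by linarith

theorem om_bounded (n : ℕ) (P : ℤ × ℤ) : Bornology.IsBounded (Om n P) := by
  refine (Metric.isBounded_closedBall (x := (0 : Nc n → ℝ)) (r := 1)).subset ?_
  rintro u ⟨hu1, _⟩
  rw [mem_closedBall_zero_iff, pi_norm_le_iff_of_nonneg zero_le_one]
  intro i
  rw [Real.norm_eq_abs]
  exact hu1 i

/-- splitting off the constant coefficient -/
theorem ev_split (n : ℕ) (a : Ix n → ℤ) (x y : ℤ) : ev n (arr a) x y =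
    a (ix n 0 0 (by omega)) +
      ∑ i : Nc n, a ⟨i.1, i.2.2⟩ * (x ^ (i.1.1 : ℕ) * y ^ (i.1.2 : ℕ)) := by
  classical
  rw [ev_arr_sum, ← add_sum_erase univ _ (mem_univ (ix n 0 0 (by omega)))]
  congr 1
  · simp [ix]
  · symm
    refine sum_bij (fun i _ => (⟨i.1, i.2.2⟩ : Ix n)) ?_ ?_ ?_ ?_
    · intro i _
      rw [mem_erase]
      refine ⟨fun h => ?_, mem_univ _⟩
      have h1 := i.2.1
      have h2 : i.1 = (⟨0, by omega⟩, ⟨0, by omega⟩) := by
        have := congrArg Subtype.val h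
        exact this
      rw [h2] at h1
      simp at h1
    · intro i _ j _ h
      have := congrArg Subtype.val h
      exact Subtype.ext this
    · intro k hk
      rw [mem_erase] at hk
      refine ⟨⟨k.1, ?_, k.2⟩, mem_univ _, rfl⟩
      by_contra hcon
      apply hk.1
      have h1 : (k.1.1 : ℕ) = 0 := by omega
      have h2 : (k.1.2 : ℕ) = 0 := by omega
      exact Subtype.ext (Prod.ext (Fin.ext h1) (Fin.ext h2))
    · intro i _
      rfl

theorem card_Nc (n : ℕ) : Fintype.card (Nc n) = Fintype.card (Ix n) - 1 := by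
  classical
  have h : Fintype.card (Nc n) = (univ.erase (ix n 0 0 (by omega))).card := by
    rw [← card_univ]
    refine card_bij (fun i _ => (⟨i.1, i.2.2⟩ : Ix n)) ?_ ?_ ?_
    · intro i _
      rw [mem_erase]
      refine ⟨fun h => ?_, mem_univ _⟩
      have h1 := i.2.1
      have h2 : i.1 = (⟨0, by omega⟩, ⟨0, by omega⟩) := by
        have := congrArg Subtype.val h
        exact this
      rw [h2] at h1
      simp at h1
    · intro i _ j _ h
      have := congrArg Subtype.val h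
      exact Subtype.ext this
    · intro k hk
      rw [mem_erase] at hk
      refine ⟨⟨k.1, ?_, k.2⟩, mem_univ _, rfl⟩
      by_contra hcon
      apply hk.1
      have h1 : (k.1.1 : ℕ) = 0 := by omega
      have h2 : (k.1.2 : ℕ) = 0 := by omega
      exact Subtype.ext (Prod.ext (Fin.ext h1) (Fin.ext h2))
  rw [h, card_erase_of_mem (mem_univ _), card_univ]

theorem card_om (n : ℕ) (P : ℤ × ℤ) (H : ℕ) (hH : 1 ≤ H) :
    Nat.card ↑(Om n P ∩ (H : ℝ)⁻¹ • (Submodule.span ℤ (Set.range (Pi.basisFun ℝ (Nc n))) :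
      Set (Nc n → ℝ))) = (ZA n H P).card := by
  classical
  have : NeZero H := ⟨by omega⟩
  have hH0 : (0 : ℝ) < H := by exact_mod_cast hH
  set φ : (Ix n → ℤ) → (Nc n → ℝ) := fun a i => (a ⟨i.1, i.2.2⟩ : ℝ) / H with hφ
  have hsum : ∀ a : Ix n → ℤ, ∑ i : Nc n, φ a i *
      ((P.1 : ℝ) ^ (i.1.1 : ℕ) * (P.2 : ℝ) ^ (i.1.2 : ℕ)) =
      ((∑ i : Nc n, a ⟨i.1, i.2.2⟩ * (P.1 ^ (i.1.1 : ℕ) * P.2 ^ (i.1.2 : ℕ)) : ℤ) : ℝ) / H := by
    intro a
    push_cast
    rw [sum_div]
    refine sum_congr rfl fun i _ => ?_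
    rw [hφ]
    ring
  have himg : φ '' (ZA n H P : Set (Ix n → ℤ)) = Om n P ∩ (H : ℝ)⁻¹ •
      (Submodule.span ℤ (Set.range (Pi.basisFun ℝ (Nc n))) : Set (Nc n → ℝ)) := by
    ext u
    constructor
    · rintro ⟨a, ha, rfl⟩
      rw [mem_coe, ZA, mem_filter, mem_Box] at ha
      obtain ⟨ha1, ha2⟩ := ha
      refine ⟨⟨fun i => ?_, ?_⟩, ?_⟩
      · rw [hφ]
        simp only
        rw [abs_div, abs_of_pos hH0, div_le_one hH0]
        exact_mod_cast ha1 _
      · rw [hsum, abs_div, abs_of_pos hH0, div_le_one hH0]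
        rw [ev_split] at ha2
        have h1 := ha1 (ix n 0 0 (by omega))
        have h2 : ∑ i : Nc n, a ⟨i.1, i.2.2⟩ * (P.1 ^ (i.1.1 : ℕ) * P.2 ^ (i.1.2 : ℕ)) =
            -a (ix n 0 0 (by omega)) := by linarith
        rw [h2]
        push_cast
        rw [abs_neg]
        exact_mod_cast h1
      · refine (BoxIntegral.unitPartition.mem_smul_span_iff (n := H)).2 fun i => ?_
        refine ⟨a ⟨i.1, i.2.2⟩, ?_⟩
        rw [hφ]
        simp only [algebraMap_int_eq, eq_intCast]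
        field_simp
    · rintro ⟨⟨hu1, hu2⟩, hu3⟩
      have hu4 := (BoxIntegral.unitPartition.mem_smul_span_iff (n := H)).1 hu3
      choose k hk using hu4
      simp only [algebraMap_int_eq, eq_intCast] at hk
      set a : Ix n → ℤ := fun i => if h : 0 < (i.1.1 : ℕ) + i.1.2 then k ⟨i.1, h, i.2⟩
        else -∑ i : Nc n, k i * (P.1 ^ (i.1.1 : ℕ) * P.2 ^ (i.1.2 : ℕ)) with ha
      have ha1 : ∀ i : Nc n, a ⟨i.1, i.2.2⟩ = k i := by
        intro i
        rw [ha]
        simp only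
        rw [dif_pos i.2.1]
      have ha0 : a (ix n 0 0 (by omega)) =
          -∑ i : Nc n, k i * (P.1 ^ (i.1.1 : ℕ) * P.2 ^ (i.1.2 : ℕ)) := by
        rw [ha]
        simp only
        rw [dif_neg]
        simp [ix]
      have hφa : φ a = u := by
        funext i
        rw [hφ]
        simp only
        rw [ha1, hk]
        field_simp
      refine ⟨a, ?_, hφa⟩
      rw [mem_coe, ZA, mem_filter, mem_Box]
      constructor
      · intro i
        by_cases h : 0 < (i.1.1 : ℕ) + i.1.2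
        · have h1 := ha1 ⟨i.1, h, i.2⟩
          have h2 : a i = k ⟨i.1, h, i.2⟩ := h1
          rw [h2]
          have h3 := hu1 ⟨i.1, h, i.2⟩
          have h4 : |((k ⟨i.1, h, i.2⟩ : ℤ) : ℝ)| ≤ H := by
            rw [hk, abs_mul, abs_of_pos hH0]
            nlinarith
          exact_mod_cast h4
        · have h1 : i = ix n 0 0 (by omega) := by
            have h1 : (i.1.1 : ℕ) = 0 := by omega
            have h2 : (i.1.2 : ℕ) = 0 := by omega
            exact Subtype.ext (Prod.ext (Fin.ext h1) (Fin.ext h2))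
          rw [h1, ha0, abs_neg]
          have h2 := hsum a
          rw [hφa] at h2
          simp only [ha1] at h2
          rw [h2, abs_div, abs_of_pos hH0, div_le_one hH0] at hu2
          exact_mod_cast hu2
      · rw [ev_split, ha0]
        simp only [ha1]
        ring
  have hinj : Set.InjOn φ (ZA n H P : Set (Ix n → ℤ)) := by
    intro a ha b hb hab
    rw [mem_coe, ZA, mem_filter] at ha hb
    have h1 : ∀ i : Nc n, a ⟨i.1, i.2.2⟩ = b ⟨i.1, i.2.2⟩ := by
      intro i
      have h2 := congrFun hab i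
      rw [hφ] at h2
      simp only at h2
      rw [div_left_inj' hH0.ne'] at h2
      exact_mod_cast h2
    have h3 := ha.2
    have h4 := hb.2
    rw [ev_split] at h3 h4
    simp only [h1] at h3
    funext i
    by_cases h : 0 < (i.1.1 : ℕ) + i.1.2
    · exact h1 ⟨i.1, h, i.2⟩
    · have h5 : i = ix n 0 0 (by omega) := by
        have h1 : (i.1.1 : ℕ) = 0 := by omega
        have h2 : (i.1.2 : ℕ) = 0 := by omega
        exact Subtype.ext (Prod.ext (Fin.ext h1) (Fin.ext h2))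
      rw [h5]
      linarith
  rw [← himg]
  change Nat.card ↑(φ '' (ZA n H P : Set (Ix n → ℤ))) = _
  rw [Nat.card_coe_set_eq, Set.InjOn.ncard_image hinj, Set.ncard_coe_finset]

theorem kap_vol (n : ℕ) (hn : 1 ≤ n) (P : ℤ × ℤ) :
    kap n P = volume.real (Om n P) / 2 ^ (Fintype.card (Nc n)) := by
  have h1 := tendsto_card_div_pow_atTop_volume (Om n P) (om_bounded n P)
    (om_closed n P).measurableSet ((om_convex n P).addHaar_frontier volume)
  have h2 : Tendsto (fun H : ℕ => pr n H P) atTop (𝓝 (kap n P)) := by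
    rw [Metric.tendsto_atTop]
    intro ε hε
    obtain ⟨H0, hH0⟩ := exists_nat_gt ((4 * Fintype.card (Ix n) + 6) / ε)
    refine ⟨H0 + 1, fun H hH => ?_⟩
    rw [Real.dist_eq]
    refine (kap_close n hn P H (by omega)).trans_lt ?_
    have h3 : ((H0 : ℝ) + 1) ≤ H := by exact_mod_cast hH
    rw [div_lt_iff₀ hε] at hH0
    have h4 : (0 : ℝ) ≤ H0 := Nat.cast_nonneg _
    rw [div_lt_iff₀ (by linarith)]
    nlinarith
  have h3 : Tendsto (fun H : ℕ => (H : ℝ) / (2 * H + 1)) atTop (𝓝 (1 / 2)) := by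
    have h4 : Tendsto (fun H : ℕ => 1 / (2 + 1 / (H : ℝ))) atTop (𝓝 (1 / (2 + 0))) :=
      (tendsto_const_nhds).div (tendsto_const_nhds.add tendsto_one_div_atTop_nhds_zero_nat)
        (by norm_num)
    rw [add_zero] at h4
    refine h4.congr' ?_
    filter_upwards [eventually_ge_atTop 1] with H hH
    have : (0 : ℝ) < H := by exact_mod_cast hH
    field_simp
  have h4 := h1.mul (h3.pow (Fintype.card (Nc n)))
  refine tendsto_nhds_unique h2 ?_
  have e : volume.real (Om n P) / 2 ^ (Fintype.card (Nc n)) =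
      volume.real (Om n P) * (1 / 2) ^ (Fintype.card (Nc n)) := by
    rw [div_pow, one_pow]
    ring
  rw [e]
  refine h4.congr' ?_
  filter_upwards [eventually_ge_atTop 1] with H hH
  have hH0 : (0 : ℝ) < H := by exact_mod_cast hH
  rw [card_om n P H hH, pr, card_Nc, div_pow]
  field_simp

end Pool.Agent.H15.SC
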