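import Pool.Agent.H15.SC.Rfin
import Pool.Agent.H97.RU.RUN

/-! # [SC RRUN] Interface to Runge's theorem -/

namespace Pool.Agent.H15.SC

open Finset Polynomial Pool.Agent.H72.ES Pool.Agent.H8.NoPt Pool.Agent.H8.MP

/-- the form of degree `d` with coefficients `c j` of `x^(d-j) y^j` -/
noncomputable def fm (R : Type) [CommRing R] (d : ℕ) (c : ℕ → R) : MvPolynomial (Fin 2) R :=
  ∑ j ∈ range (d + 1), MvPolynomial.monomial (expo (d - j) j) (c j)

theorem fm_eval (d : ℕ) (c : ℕ → ℤ) (u v : ℤ) :
    MvPolynomial.eval ![u, v] (fm ℤ d c) = ∑ j ∈ range (d + 1), c j * u ^ (d - j) * v ^ j := by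
  unfold fm
  rw [map_sum]
  refine sum_congr rfl fun j _ => ?_
  rw [MvPolynomial.eval_monomial, Finsupp.prod_fintype _ _ (fun _ => pow_zero _),
    Fin.prod_univ_two, mv_expo_zero, mv_expo_one]
  simp [mul_assoc]

theorem fm_evalQ (d : ℕ) (c : ℕ → ℚ) (u v : ℚ) :
    MvPolynomial.eval ![u, v] (fm ℚ d c) = ∑ j ∈ range (d + 1), c j * u ^ (d - j) * v ^ j := by
  unfold fm
  rw [map_sum]
  refine sum_congr rfl fun j _ => ?_
  rw [MvPolynomial.eval_monomial, Finsupp.prod_fintype _ _ (fun _ => pow_zero _),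
    Fin.prod_univ_two, mv_expo_zero, mv_expo_one]
  simp [mul_assoc]

theorem fm_map (d : ℕ) (c : ℕ → ℤ) : MvPolynomial.map (Int.castRingHom ℚ) (fm ℤ d c) =
    fm ℚ d fun j => (c j : ℚ) := by
  unfold fm
  rw [map_sum]
  refine sum_congr rfl fun j _ => ?_
  rw [MvPolynomial.map_monomial]
  rfl

theorem fm_hom (d : ℕ) (c : ℕ → ℚ) : (fm ℚ d c).IsHomogeneous d := by
  refine MvPolynomial.IsHomogeneous.sum _ _ _ fun j hj => ?_
  refine MvPolynomial.isHomogeneous_monomial _ ?_
  have h1 := mem_range.1 hj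
  rw [Finsupp.degree_eq_sum, Fin.sum_univ_two, mv_expo_zero, mv_expo_one]
  omega

theorem top_fm (n : ℕ) (a : Ix n → ℤ) : MvPolynomial.homogeneousComponent n (mvPoly n a) =
    fm ℤ n fun j => arr a (n - j) j := by
  classical
  ext m
  rw [MvPolynomial.coeff_homogeneousComponent]
  unfold fm
  rw [MvPolynomial.coeff_sum]
  simp only [MvPolynomial.coeff_monomial]
  have hdeg : m.degree = m 0 + m 1 := by
    rw [Finsupp.degree_eq_sum, Fin.sum_univ_two]
  by_cases h : m.degree = n
  · rw [if_pos h]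
    have h1 : m 0 + m 1 = n := by rw [← hdeg, h]
    have e1 : expo (n - m 1) (m 1) = m := by
      have : n - m 1 = m 0 := by omega
      rw [this, mv_expo_eta]
    rw [sum_eq_single (m 1)]
    · rw [if_pos e1, arr, dif_pos (by omega)]
      have h2 := congrFun (mv_toVec_poly n a) (ix n (n - m 1) (m 1) (by omega))
      rw [← h2, toVec]
      change _ = MvPolynomial.coeff (expo (n - m 1) (m 1)) _
      rw [e1]
    · intro j _ hj
      refine if_neg fun h2 => hj ?_
      rw [← e1] at h2
      exact (mv_expo_inj h2).2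
    · intro h2
      exact absurd (mem_range.2 (by omega)) h2
  · rw [if_neg h]
    symm
    refine sum_eq_zero fun j hj => if_neg fun h2 => h ?_
    have h1 := mem_range.1 hj
    rw [hdeg, ← h2, mv_expo_zero, mv_expo_one]
    omega

theorem runge_of (n : ℕ) (hn : 5 ≤ n) : Runge n := by
  obtain ⟨K, hK⟩ := Pool.Agent.H97.RU.runge n
  refine ⟨K, fun H hH a ha p q h hL hI P hP => ?_⟩
  set lf : ℕ → ℤ := fun j => if j = 0 then q else -p with hlf
  have hprod : fm ℤ n (fun j => arr a (n - j) j) = fm ℤ 1 lf * fm ℤ (n - 1) h.coeff := by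
    refine MvPolynomial.funext fun z => ?_
    have hz : z = ![z 0, z 1] := by
      ext i
      fin_cases i <;> rfl
    rw [hz, map_mul, fm_eval, fm_eval, fm_eval, fv_lin (by omega) hL, fv]
    congr 1
    rw [sum_range_succ, sum_range_one, hlf]
    simp
    ring
  have hl0 : lead n (arr a) ≠ 0 := by
    rw [hL.eq]
    refine mul_ne_zero ?_ ?_
    · intro h1
      have h2 : (C q - C p * X : ℤ[X]).coeff 0 = 0 := by rw [h1, coeff_zero]
      have h3 : (C q - C p * X : ℤ[X]).coeff 1 = 0 := by rw [h1, coeff_zero]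
      have h4 : q = 0 := by simpa using h2
      have h5 : p = 0 := by
        rw [coeff_sub, coeff_C_mul, coeff_X_one, coeff_C] at h3
        simpa using h3
      have h6 := hL.cop
      rw [h4, h5, isCoprime_zero_left] at h6
      exact not_isUnit_zero h6
    · rintro rfl
      exact hL.irr.ne_zero (by simp)
  have htd : (mvPoly n a).totalDegree = 1 + (n - 1) := by
    refine le_antisymm ((mv_degree_poly n a).trans (by omega)) ?_
    obtain ⟨j, hj⟩ : ∃ j, (lead n (arr a)).coeff j ≠ 0 := by
      by_contra hcon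
      push Not at hcon
      exact hl0 (Polynomial.ext fun j => by rw [hcon, coeff_zero])
    have hjc : (lead n (arr a)).coeff j = if j ≤ n then arr a (n - j) j else 0 := by
      unfold lead
      rw [finsetSum_coeff]
      simp only [coeff_C_mul, coeff_X_pow, mul_ite, mul_one, mul_zero]
      rw [Finset.sum_ite_eq]
      simp only [Finset.mem_range, Nat.lt_succ_iff]
    rw [hjc] at hj
    have hjn : j ≤ n := by
      by_contra hcon
      rw [if_neg hcon] at hj
      exact hj rfl
    rw [if_pos hjn, arr, dif_pos (by omega)] at hj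
    have h2 := congrFun (mv_toVec_poly n a) (ix n (n - j) j (by omega))
    rw [← h2, toVec] at hj
    have h3 := MvPolynomial.le_totalDegree (MvPolynomial.mem_support_iff.2 hj)
    rw [mv_sum, mv_expo_zero, mv_expo_one] at h3
    change n - j + j ≤ _ at h3
    omega
  have htop : MvPolynomial.homogeneousComponent (1 + (n - 1))
      (MvPolynomial.map (Int.castRingHom ℚ) (mvPoly n a)) =
      fm ℚ 1 (fun j => (lf j : ℚ)) * fm ℚ (n - 1) fun j => (h.coeff j : ℚ) := by
    rw [← fm_map, ← fm_map, ← map_mul, ← hprod, ← top_fm]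
    have e : 1 + (n - 1) = n := by omega
    rw [e]
    ext m
    rw [MvPolynomial.coeff_homogeneousComponent, MvPolynomial.coeff_map,
      MvPolynomial.coeff_map, MvPolynomial.coeff_homogeneousComponent]
    split_ifs
    · rfl
    · simp
  have hpq : p ≠ 0 ∨ q ≠ 0 := by
    by_contra hcon
    push Not at hcon
    have h6 := hL.cop
    rw [hcon.1, hcon.2, isCoprime_zero_left] at h6
    exact not_isUnit_zero h6
  have hfv := fv_ne (by omega) hL p q hpq
  have hg0 : fm ℚ 1 (fun j => (lf j : ℚ)) ≠ 0 := by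
    intro h1
    have h2 : ∀ u v : ℚ, (q : ℚ) * u + -p * v = 0 := by
      intro u v
      have h3 := fm_evalQ 1 (fun j => (lf j : ℚ)) u v
      rw [h1, map_zero, sum_range_succ, sum_range_one, hlf] at h3
      simp at h3
      linarith
    have h4 := h2 1 0
    have h5 := h2 0 1
    simp at h4 h5
    rcases hpq with h6 | h6
    · exact h6 (by exact_mod_cast h5)
    · exact h6 (by exact_mod_cast h4)
  have hrel : IsRelPrime (fm ℚ 1 (fun j => (lf j : ℚ))) (fm ℚ (n - 1) fun j => (h.coeff j : ℚ)) := by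
    rintro d ⟨e, he⟩ ⟨k, hk⟩
    have hd0 : d ≠ 0 := by
      rintro rfl
      rw [zero_mul] at he
      exact hg0 he
    have he0 : e ≠ 0 := by
      rintro rfl
      rw [mul_zero] at he
      exact hg0 he
    have h1 : MvPolynomial.eval ![(p : ℚ), (q : ℚ)] (fm ℚ 1 (fun j => (lf j : ℚ))) = 0 := by
      rw [fm_evalQ, sum_range_succ, sum_range_one, hlf]
      simp
      ring
    have h2 : MvPolynomial.eval ![(p : ℚ), (q : ℚ)] (fm ℚ (n - 1) fun j => (h.coeff j : ℚ)) =
        (fv (n - 1) h p q : ℚ) := by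
      rw [fm_evalQ, fv]
      push_cast
      rfl
    have h3 : MvPolynomial.eval ![(p : ℚ), (q : ℚ)] d ≠ 0 := by
      intro h4
      rw [hk, map_mul, h4, zero_mul] at h2
      exact hfv (by exact_mod_cast h2.symm)
    have h5 : MvPolynomial.eval ![(p : ℚ), (q : ℚ)] e = 0 := by
      rw [he, map_mul] at h1
      exact (mul_eq_zero.1 h1).resolve_left h3
    have h6 : (fm ℚ 1 (fun j => (lf j : ℚ))).totalDegree ≤ 1 :=
      (fm_hom 1 _).totalDegree_le
    rw [he, MvPolynomial.totalDegree_mul_of_isDomain hd0 he0] at h6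
    have h7 : e.totalDegree ≠ 0 := by
      intro h8
      rw [MvPolynomial.totalDegree_eq_zero_iff_eq_C] at h8
      rw [h8, MvPolynomial.eval_C] at h5
      rw [h8, h5, MvPolynomial.C_0] at he0
      exact he0 rfl
    have h9 : d.totalDegree = 0 := by omega
    rw [MvPolynomial.totalDegree_eq_zero_iff_eq_C] at h9
    rw [h9]
    refine (isUnit_iff_ne_zero.2 ?_).map MvPolynomial.C
    intro h10
    rw [h10, MvPolynomial.C_0] at h9
    exact hd0 h9
  have h1 := (hK H (mvPoly n a) hH (mv_degree_poly n a) ?_ hI 1 (n - 1) _ _ (fm_hom 1 _)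
    (fm_hom (n - 1) _) (by norm_num) (by omega) hrel htop htd P.1 P.2 ?_).1
  · exact h1
  · intro m
    rcases mv_coeff_poly n a m with h1 | ⟨k, h1⟩
    · rw [h1, abs_zero]
      exact Int.natCast_nonneg H
    · rw [h1]
      exact ha k
  · rw [eval_toVec n (mv_degree_poly n a), mv_toVec_poly]
    exact hP

end Pool.Agent.H15.SC
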