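import Pool.Agent.H15.SC.Rfin

/-! # The number of curves with an integer point of size more than `T` -/

namespace Pool.Agent.H15.SC

open Finset Polynomial Pool.Agent.H72.ES Pool.Agent.H8.NoPt Pool.Agent.H8.MP

private theorem exps' {H : ℕ} (hH : 1 ≤ H) (s : ℝ) (hs : s ≤ -(1 / 100)) :
    (H : ℝ) ^ s ≤ (H : ℝ) ^ (-(1 / 100 : ℝ)) := by
  have h1 : (1 : ℝ) ≤ H := by exact_mod_cast hH
  exact Real.rpow_le_rpow_of_exponent_le h1 hs

open Classical in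
theorem vec_tail (n : ℕ) (hn : 5 ≤ n) (hR : Runge n) : ∃ C : ℝ, 0 ≤ C ∧ ∀ H T : ℕ, 1 ≤ H → 1 ≤ T →
    (((Box n H).filter fun a => ∃ P : ℤ × ℤ, (T : ℤ) < msz P ∧
      ev n (arr a) P.1 P.2 = 0).card : ℝ) ≤
      C * (1 / (T : ℝ) ^ (n - 2) + (H : ℝ) ^ (-(1 / 100 : ℝ))) *
        (2 * H + 1 : ℝ) ^ (Fintype.card (Ix n) - 1) := by
  obtain ⟨C1, hC1, hb⟩ := (big_all n hn hR).pos
  have hN2 : 1 ≤ Fintype.card (Ix n) := Fintype.card_pos_iff.2 ⟨ix n 0 0 (by omega)⟩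
  set N := Fintype.card (Ix n) with hN
  refine ⟨3 * C1 + 9 * (4 * N + 6) + 16 * 2 ^ n, by positivity, fun H T hH hT => ?_⟩
  have h1 : (1 : ℝ) ≤ H := by exact_mod_cast hH
  have h0 : (0 : ℝ) < H := by linarith
  have hT1 : (1 : ℝ) ≤ T := by exact_mod_cast hT
  obtain ⟨B, hB⟩ : ∃ B : ℕ, B = ⌊(H : ℝ) ^ (1 / 8 : ℝ)⌋₊ := ⟨_, rfl⟩
  have hB1 : (B : ℝ) ≤ (H : ℝ) ^ (1 / 8 : ℝ) := by rw [hB]; exact Nat.floor_le (by positivity)
  have hB2 : (H : ℝ) ^ (1 / 8 : ℝ) < (B : ℝ) + 1 := by rw [hB]; exact Nat.lt_floor_add_one _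
  obtain ⟨u, hu⟩ : ∃ u : ℝ, u = (H : ℝ) ^ (-(1 / 100 : ℝ)) := ⟨_, rfl⟩
  have hu0 : 0 ≤ u := by rw [hu]; positivity
  obtain ⟨Km, hKm⟩ : ∃ Km : ℝ, Km = (2 * H + 1 : ℝ) ^ (N - 1) := ⟨_, rfl⟩
  have hKm0 : 0 < Km := by rw [hKm]; positivity
  rw [← hu, ← hKm]
  obtain ⟨bad, hbad⟩ : ∃ bad : Finset (Ix n → ℤ),
      bad = (Box n H).filter fun a => ∃ P : ℤ × ℤ, ev n (arr a) P.1 P.2 = 0 ∧ P ∉ Pts B :=
    ⟨_, rfl⟩
  have hbadc : (bad.card : ℝ) ≤ 3 * C1 * u * Km := by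
    have h2 := hb H hH bad fun a ha => by
      rw [hbad, mem_filter, mem_Box] at ha
      obtain ⟨ha1, P, hP, hPT⟩ := ha
      refine ⟨ha1, trivial, P, hP, ?_⟩
      rw [mem_Pts] at hPT
      have h3 : (B : ℤ) + 1 ≤ msz P := by omega
      have h4 : ((B : ℝ) + 1) ≤ ((msz P : ℤ) : ℝ) := by exact_mod_cast h3
      have h5 : ((msz P : ℤ) : ℝ) = max |(P.1 : ℝ)| |(P.2 : ℝ)| := by
        unfold msz
        push_cast
        rfl
      rw [← h5]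
      exact hB2.le.trans h4
    refine h2.trans ?_
    have e1 : (2 * H + 1 : ℝ) ^ N = (2 * H + 1 : ℝ) * Km := by
      rw [hKm, ← pow_succ', Nat.sub_add_cancel hN2]
    have e2 : (H : ℝ) ^ (-(101 / 100) : ℝ) * H = u := by
      rw [hu, ← Real.rpow_add_one h0.ne']
      norm_num
    rw [e1]
    have e3 : (2 * H + 1 : ℝ) ≤ 3 * H := by linarith
    have e4 : (0 : ℝ) ≤ C1 * (H : ℝ) ^ (-(101 / 100) : ℝ) := by positivity
    calc C1 * (H : ℝ) ^ (-(101 / 100) : ℝ) * ((2 * H + 1) * Km)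
        ≤ C1 * (H : ℝ) ^ (-(101 / 100) : ℝ) * (3 * H * Km) :=
          mul_le_mul_of_nonneg_left (mul_le_mul_of_nonneg_right e3 hKm0.le) e4
      _ = 3 * C1 * ((H : ℝ) ^ (-(101 / 100) : ℝ) * H) * Km := by ring
      _ = 3 * C1 * u * Km := by rw [e2]
  obtain ⟨M, hM⟩ : ∃ M : Finset (ℤ × ℤ), M = Pts B \ Pts T := ⟨_, rfl⟩
  have hsub : ((Box n H).filter fun a => ∃ P : ℤ × ℤ, (T : ℤ) < msz P ∧
      ev n (arr a) P.1 P.2 = 0) ⊆ bad ∪ M.biUnion fun P => ZA n H P := by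
    intro a ha
    rw [mem_filter] at ha
    obtain ⟨ha1, P, hP1, hP2⟩ := ha
    rw [mem_union]
    by_cases hPB : P ∈ Pts B
    · right
      rw [mem_biUnion]
      refine ⟨P, ?_, ?_⟩
      · rw [hM, mem_sdiff]
        refine ⟨hPB, fun h => ?_⟩
        rw [mem_Pts] at h
        omega
      · unfold ZA
        rw [mem_filter]
        exact ⟨ha1, hP2⟩
    · left
      rw [hbad, mem_filter]
      exact ⟨ha1, P, hP2, hPB⟩
  have hcard : (((Box n H).filter fun a => ∃ P : ℤ × ℤ, (T : ℤ) < msz P ∧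
      ev n (arr a) P.1 P.2 = 0).card : ℝ) ≤ (bad.card : ℝ) + ∑ P ∈ M, ((ZA n H P).card : ℝ) := by
    have h2 := (card_le_card hsub).trans (card_union_le _ _)
    have h3 : (M.biUnion fun P => ZA n H P).card ≤ ∑ P ∈ M, (ZA n H P).card := card_biUnion_le
    exact_mod_cast h2.trans (Nat.add_le_add_left h3 _)
  have hpr : ∀ P : ℤ × ℤ, ((ZA n H P).card : ℝ) = pr n H P * Km := by
    intro P
    unfold pr
    rw [← hN, ← hKm]
    exact (div_mul_cancel₀ _ hKm0.ne').symm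
  have hpk : ∀ P : ℤ × ℤ, pr n H P ≤ kap n P + (4 * N + 6) / H := by
    intro P
    have h2 := kap_close n (by omega) P H hH
    rw [← hN] at h2
    have h3 : (4 * N + 6 : ℝ) / (2 * H + 1) ≤ (4 * N + 6 : ℝ) / H :=
      div_le_div_of_nonneg_left (by positivity) h0 (by linarith)
    have h4 := (abs_le.1 h2).2
    linarith
  have hkap : ∑ P ∈ M, kap n P ≤ 16 * 2 ^ n / (T : ℝ) ^ (n - 2) := by
    have h2 := (kaps_tail n (by omega) T hT).2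
    have hd : Disjoint M (Pts T) := by
      rw [hM]
      exact sdiff_disjoint
    have h3 := (kaps_summable n (by omega)).sum_le_tsum (M ∪ Pts T)
      fun P _ => kap_nonneg n (by omega) P
    rw [sum_union hd] at h3
    have h4 : ∑' P : ℤ × ℤ, kap n P = kaps n := rfl
    rw [h4] at h3
    linarith
  have hMc : (M.card : ℝ) * ((4 * N + 6) / H) ≤ 9 * (4 * N + 6) * u := by
    have h3 : (1 : ℝ) ≤ (H : ℝ) ^ (1 / 8 : ℝ) := Real.one_le_rpow h1 (by norm_num)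
    have h4 : (H : ℝ) ^ (1 / 4 : ℝ) = (H : ℝ) ^ (1 / 8 : ℝ) * (H : ℝ) ^ (1 / 8 : ℝ) := by
      rw [← Real.rpow_add h0]
      norm_num
    have h5 : (M.card : ℝ) ≤ 9 * (H : ℝ) ^ (1 / 4 : ℝ) := by
      have h6 : M.card ≤ (Pts B).card := by
        rw [hM]
        exact card_le_card sdiff_subset
      have h7 : (M.card : ℝ) ≤ (2 * (B : ℝ) + 1) ^ 2 := by
        rw [card_Pts] at h6
        exact_mod_cast h6
      refine h7.trans ?_
      rw [h4]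
      have h8 : (0 : ℝ) ≤ B := Nat.cast_nonneg _
      nlinarith
    have h6 : (H : ℝ) ^ (1 / 4 : ℝ) / H = (H : ℝ) ^ (-(3 / 4) : ℝ) := by
      rw [← Real.rpow_sub_one h0.ne']
      norm_num
    have h7 := exps' hH (-(3 / 4)) (by norm_num)
    rw [← hu] at h7
    calc (M.card : ℝ) * ((4 * N + 6) / H)
        ≤ (9 * (H : ℝ) ^ (1 / 4 : ℝ)) * ((4 * N + 6) / H) :=
          mul_le_mul_of_nonneg_right h5 (by positivity)
      _ = 9 * (4 * N + 6) * ((H : ℝ) ^ (1 / 4 : ℝ) / H) := by ring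
      _ = 9 * (4 * N + 6) * (H : ℝ) ^ (-(3 / 4) : ℝ) := by rw [h6]
      _ ≤ _ := mul_le_mul_of_nonneg_left h7 (by positivity)
  have hsum : ∑ P ∈ M, ((ZA n H P).card : ℝ) ≤
      (16 * 2 ^ n / (T : ℝ) ^ (n - 2) + 9 * (4 * N + 6) * u) * Km := by
    have h2 : ∑ P ∈ M, ((ZA n H P).card : ℝ) = (∑ P ∈ M, pr n H P) * Km := by
      rw [sum_mul]
      exact sum_congr rfl fun P _ => hpr P
    rw [h2]
    refine mul_le_mul_of_nonneg_right ?_ hKm0.le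
    have h3 : ∑ P ∈ M, pr n H P ≤ ∑ P ∈ M, (kap n P + (4 * N + 6) / H) :=
      sum_le_sum fun P _ => hpk P
    rw [sum_add_distrib, sum_const, nsmul_eq_mul] at h3
    linarith
  have hTp : (0 : ℝ) ≤ 1 / (T : ℝ) ^ (n - 2) := by positivity
  have e5 : 16 * 2 ^ n / (T : ℝ) ^ (n - 2) = 16 * 2 ^ n * (1 / (T : ℝ) ^ (n - 2)) := by ring
  rw [e5] at hsum
  refine hcard.trans ((add_le_add hbadc hsum).trans ?_)
  have e6 : 3 * C1 * u * Km + (16 * 2 ^ n * (1 / (T : ℝ) ^ (n - 2)) + 9 * (4 * N + 6) * u) * Km =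
      (3 * C1 * u + 16 * 2 ^ n * (1 / (T : ℝ) ^ (n - 2)) + 9 * (4 * N + 6) * u) * Km := by ring
  rw [e6]
  refine mul_le_mul_of_nonneg_right ?_ hKm0.le
  have p1 : 0 ≤ 3 * C1 * (1 / (T : ℝ) ^ (n - 2)) := by positivity
  have p2 : 0 ≤ 16 * 2 ^ n * u := by positivity
  have p3 : 0 ≤ 9 * (4 * N + 6) * (1 / (T : ℝ) ^ (n - 2)) := by positivity
  nlinarith

end Pool.Agent.H15.SC
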