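import Pool.Agent.H15.SC.Defs
import Pool.Agent.H8.MP.Asym3
import Pool.Agent.H8.MP.Mid3

/-! # [SC ASY] The branch at infinity near one point (Step 4)

`near_loc`, `asym_loc`: copies of `MP.near`, `MP.asym3` with `hd : H/M ≤ |f'(z₀)|` instead of
`Simp` (`Simp` is used there only to get this inequality at `z₀ = y/x`; copy the private lemmas of
`MP/Asym3.lean`). `‖θ‖ ≤ 1 + L/|x| ≤ 3/2` as `L² ≤ |x|`, `L ≥ 64` (`L = 8^(2n) M`).
`e2` from `e3` and `de` (`13 L⁵/|x|² + 250 L⁷/|x|³ ≤ 263 L⁵/|x|²`, `L² ≤ |x|`); `ga` from `e2` and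
`‖w - be‖ ≤ 11 L³/|x|`: `‖ga‖/|x| ≤ 11 L³/|x| + 263 L⁵/|x|² ≤ 274 L³/|x|`.
`fz_le`: `‖f(z₀)‖ ≤ 8^n H/|x|` (step 1 in the proof of `MP.near`).
`nearB_cand`: `Cand` gives `F` with `Top4 n F G`; `hp_top4`, `tc_top4`, `bgd_top4`. -/

namespace Pool.Agent.H15.SC

open Finset Polynomial Pool.Agent.H72.ES Pool.Agent.H8.NoPt Pool.Agent.H8.MP

private theorem asy_sq (n : ℕ) (hn : 1 ≤ n) : (n : ℝ) ^ 2 + 1 ≤ 8 ^ n := by
  rcases Nat.lt_or_ge n 2 with h | h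
  · have : n = 1 := by omega
    rw [this]
    norm_num
  · exact (AsymAux.sq_le_eight n h).1

theorem fz_le {n H : ℕ} (hn : 1 ≤ n) {F : ℕ → ℕ → ℤ} (hF : Bdd n H F) (P : ℤ × ℤ)
    (hP : ZP n F P) (hx : P.1 ≠ 0) :
    ‖(hp n F).eval ((P.2 : ℂ) / P.1)‖ ≤ 8 ^ n * H / |(P.1 : ℝ)| := by
  obtain ⟨hv, hyx⟩ := hP
  obtain ⟨x, y⟩ := P
  change ev n F x y = 0 at hv
  change |y| ≤ |x| at hyx
  change x ≠ 0 at hx
  change ‖(hp n F).eval ((y : ℂ) / x)‖ ≤ 8 ^ n * H / |(x : ℝ)|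
  have hb1 := asy_sq n hn
  set b : ℝ := 8 ^ n with hb
  set X : ℝ := |(x : ℝ)| with hX
  have hX1 : 1 ≤ X := by
    have h1 : 1 ≤ |x| := Int.one_le_abs hx
    rw [hX]
    exact_mod_cast h1
  have hXp : 0 < X := by linarith
  have hxc : (x : ℂ) ≠ 0 := by exact_mod_cast hx
  have hnx : ‖(x : ℂ)‖ = X := by rw [Complex.norm_intCast]
  have hnx1 : 1 ≤ ‖(x : ℂ)‖ := by rw [hnx]; exact hX1
  have hyxr : |(y : ℝ)| ≤ |(x : ℝ)| := by exact_mod_cast hyx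
  have hz0r : |(y : ℝ) / x| ≤ 1 := by
    rw [abs_div]
    exact div_le_one_of_le₀ hyxr (abs_nonneg _)
  set z0 : ℂ := (y : ℂ) / x with hz0
  have hz0e : (((y : ℝ) / x : ℝ) : ℂ) = z0 := by
    rw [hz0]
    push_cast
    rfl
  have hz0n : ‖z0‖ ≤ 1 := by
    rw [← hz0e, Complex.norm_real, Real.norm_eq_abs]
    exact hz0r
  set f := hp n F with hf
  have hev := AsymAux.ev_hp n F x y hx
  rw [← hz0] at hev
  have hevn : ‖((ev n F x y : ℤ) : ℂ)‖ ≤ H := by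
    rw [hv]
    simp
  rw [Finset.sum_range_succ] at hev
  obtain ⟨m, rfl⟩ : ∃ m, n = m + 1 := ⟨n - 1, by omega⟩
  have hlow := AsymAux.low_part (m := m) hF le_rfl (x : ℂ) z0 hz0n hnx1
  have h1 : (x : ℂ) ^ (m + 1) * f.eval z0 = ((ev (m + 1) F x y : ℤ) : ℂ) -
      ∑ d ∈ range (m + 1), (x : ℂ) ^ d * (hp d F).eval z0 := by
    rw [hev]
    ring
  have h2 : X ^ (m + 1) * ‖f.eval z0‖ ≤ H + ((m + 1 : ℕ) : ℝ) ^ 2 * H * X ^ m := by
    rw [← hnx, ← norm_pow, ← norm_mul, h1]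
    exact (norm_sub_le _ _).trans (add_le_add hevn hlow)
  have hXm : 1 ≤ X ^ m := one_le_pow₀ hX1
  have h3 : X ^ m * (X * ‖f.eval z0‖) ≤ X ^ m * (b * H) := by
    calc X ^ m * (X * ‖f.eval z0‖) = X ^ (m + 1) * ‖f.eval z0‖ := by ring
      _ ≤ H + ((m + 1 : ℕ) : ℝ) ^ 2 * H * X ^ m := h2
      _ ≤ H * X ^ m + ((m + 1 : ℕ) : ℝ) ^ 2 * H * X ^ m := by
          have : (H : ℝ) * 1 ≤ H * X ^ m := by gcongr
          linarith
      _ = X ^ m * ((((m + 1 : ℕ) : ℝ) ^ 2 + 1) * H) := by ring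
      _ ≤ X ^ m * (b * H) := by gcongr
  have h4 := le_of_mul_le_mul_left h3 (by positivity)
  rw [le_div_iff₀ hXp]
  linarith

private theorem near_loc {n H : ℕ} (hn : 2 ≤ n) (hH : 1 ≤ H) {M : ℝ} (hM : 1 ≤ M) {F : ℕ → ℕ → ℤ}
    (hF : Bdd n H F) (x y : ℤ) (hv : ev n F x y = 0) (hd : (H : ℝ) / M ≤ dz n F (x, y))
    (hyx : |y| ≤ |x|) (hx : (8 : ℝ) ^ (4 * n) * M ^ 2 ≤ |(x : ℝ)|) :
    ∃ θ : ℂ, (hp n F).IsRoot θ ∧ ‖(y : ℂ) / x - θ‖ ≤ 8 ^ (2 * n) * M / |(x : ℝ)| ∧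
      (H : ℝ) / (2 * M) ≤ ‖tc n F θ 0 1‖ ∧ ‖θ‖ ≤ 2 := by
  classical
  obtain ⟨hb1, hb2, hb3⟩ := AsymAux.sq_le_eight n hn
  set b : ℝ := 8 ^ n with hb
  have hb8 : (8 : ℝ) ≤ b := by
    rw [hb]
    calc (8 : ℝ) = 8 ^ 1 := by norm_num
      _ ≤ 8 ^ n := pow_le_pow_right₀ (by norm_num) (by omega)
  have hbb4 : (8 : ℝ) ^ (4 * n) = b ^ 4 := by rw [hb, ← pow_mul, mul_comm]
  have hbb2 : (8 : ℝ) ^ (2 * n) = b ^ 2 := by rw [hb, ← pow_mul, mul_comm]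
  rw [hbb4] at hx
  rw [hbb2]
  have hHr : (1 : ℝ) ≤ (H : ℝ) := by exact_mod_cast hH
  have hn' : (2 : ℝ) ≤ n := by exact_mod_cast hn
  set X : ℝ := |(x : ℝ)| with hX
  have hbp : 0 < b := by linarith
  have hMp : 0 < M := by linarith
  have hb43 : b ^ 3 ≤ b ^ 4 := pow_le_pow_right₀ (by linarith) (by norm_num)
  replace hx : b ^ 3 * M ^ 2 ≤ |(x : ℝ)| :=
    (mul_le_mul_of_nonneg_right hb43 (by positivity)).trans hx
  have hb31 : (1 : ℝ) ≤ b ^ 3 := one_le_pow₀ (by linarith)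
  have hM21 : (1 : ℝ) ≤ M ^ 2 := one_le_pow₀ hM
  have hX1 : 1 ≤ X := by
    calc (1 : ℝ) = 1 * 1 := by norm_num
      _ ≤ b ^ 3 * M ^ 2 := mul_le_mul hb31 hM21 (by norm_num) (by positivity)
      _ ≤ X := hx
  have hXp : 0 < X := by linarith
  have hx0 : x ≠ 0 := by
    rintro rfl
    simp at hX
    linarith
  have hxc : (x : ℂ) ≠ 0 := by exact_mod_cast hx0
  have hnx : ‖(x : ℂ)‖ = X := by rw [Complex.norm_intCast]
  have hnx1 : 1 ≤ ‖(x : ℂ)‖ := by rw [hnx]; exact hX1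
  -- the point z0
  have hyxr : |(y : ℝ)| ≤ |(x : ℝ)| := by exact_mod_cast hyx
  have hz0r : |(y : ℝ) / x| ≤ 1 := by
    rw [abs_div]
    exact div_le_one_of_le₀ hyxr (abs_nonneg _)
  set z0 : ℂ := (y : ℂ) / x with hz0
  have hz0e : (((y : ℝ) / x : ℝ) : ℂ) = z0 := by
    rw [hz0]
    push_cast
    rfl
  have hz0n : ‖z0‖ ≤ 1 := by
    rw [← hz0e, Complex.norm_real, Real.norm_eq_abs]
    exact hz0r
  set f := hp n F with hf
  have hev := AsymAux.ev_hp n F x y hx0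
  rw [← hz0] at hev
  have hevn : ‖((ev n F x y : ℤ) : ℂ)‖ ≤ H := by
    rw [hv]
    simp
  -- step 1
  have hstep1 : ‖f.eval z0‖ ≤ b * H / X := by
    rw [Finset.sum_range_succ] at hev
    obtain ⟨m, rfl⟩ : ∃ m, n = m + 1 := ⟨n - 1, by omega⟩
    have hlow := AsymAux.low_part (m := m) hF le_rfl (x : ℂ) z0 hz0n hnx1
    have h1 : (x : ℂ) ^ (m + 1) * f.eval z0 = ((ev (m + 1) F x y : ℤ) : ℂ) -
        ∑ d ∈ range (m + 1), (x : ℂ) ^ d * (hp d F).eval z0 := by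
      rw [hev]
      ring
    have h2 : X ^ (m + 1) * ‖f.eval z0‖ ≤ H + ((m + 1 : ℕ) : ℝ) ^ 2 * H * X ^ m := by
      rw [← hnx, ← norm_pow, ← norm_mul, h1]
      exact (norm_sub_le _ _).trans (add_le_add hevn hlow)
    have hXm : 1 ≤ X ^ m := one_le_pow₀ hX1
    have h3 : X ^ m * (X * ‖f.eval z0‖) ≤ X ^ m * (b * H) := by
      calc X ^ m * (X * ‖f.eval z0‖) = X ^ (m + 1) * ‖f.eval z0‖ := by ring
        _ ≤ H + ((m + 1 : ℕ) : ℝ) ^ 2 * H * X ^ m := h2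
        _ ≤ H * X ^ m + ((m + 1 : ℕ) : ℝ) ^ 2 * H * X ^ m := by
            have : (H : ℝ) * 1 ≤ H * X ^ m := by gcongr
            linarith
        _ = X ^ m * ((((m + 1 : ℕ) : ℝ) ^ 2 + 1) * H) := by ring
        _ ≤ X ^ m * (b * H) := by gcongr
    have h4 := le_of_mul_le_mul_left h3 (by positivity)
    rw [le_div_iff₀ hXp]
    linarith
  have hsimp : (H : ℝ) / M ≤ ‖(derivative f).eval z0‖ := hd
  have hHMp : 0 < (H : ℝ) / M := by positivity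
  have hder0 : (derivative f).eval z0 ≠ 0 := by
    intro h
    rw [h, norm_zero] at hsimp
    linarith
  obtain ⟨θ, hθr, hθ⟩ := near_root f z0 hder0
  have hdeg : (f.natDegree : ℝ) ≤ n := by
    have : f.natDegree ≤ n := by
      rw [Polynomial.natDegree_le_iff_coeff_eq_zero]
      intro k hk
      rw [hf, hp, lead, Polynomial.coeff_map, finsetSum_coeff]
      simp only [coeff_C_mul_X_pow]
      rw [Finset.sum_eq_zero]
      · simp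
      · intro j hj
        have := Finset.mem_range.1 hj
        rw [if_neg (by omega)]
    exact_mod_cast this
  set δ : ℝ := ‖z0 - θ‖ with hδ
  have hδ0 : 0 ≤ δ := norm_nonneg _
  -- step 2
  have hδX : δ * X ≤ n * b * M := by
    have h1 : δ * (H / M) ≤ n * (b * H / X) :=
      calc δ * (H / M) ≤ δ * ‖(derivative f).eval z0‖ := by gcongr
        _ ≤ f.natDegree * ‖f.eval z0‖ := hθ
        _ ≤ n * (b * H / X) := by gcongr
    have h2 : δ * (H / M) * (X * M) ≤ n * (b * H / X) * (X * M) := by gcongr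
    have h3 : δ * (H / M) * (X * M) = H * (δ * X) := by field_simp
    have h4 : n * (b * H / X) * (X * M) = H * (n * b * M) := by field_simp
    rw [h3, h4] at h2
    exact le_of_mul_le_mul_left h2 (by linarith)
  have hδb : δ * (2 * b * M) ≤ 1 := by
    have h1 : δ * (b ^ 3 * M ^ 2) ≤ n * b * M := (mul_le_mul_of_nonneg_left hx hδ0).trans hδX
    have h2 : (b * M) * (δ * (b * b * M)) ≤ (b * M) * n := by nlinarith
    have h3 := le_of_mul_le_mul_left h2 (by positivity)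
    have h4 : b * (δ * (2 * b * M)) ≤ b * 1 := by nlinarith
    exact le_of_mul_le_mul_left h4 hbp
  have hδ1 : δ ≤ 1 := by
    have h1 : 1 ≤ 2 * b * M := by nlinarith
    nlinarith
  have hθ2 : ‖θ‖ ≤ 2 := by
    have h1 : θ = z0 - (z0 - θ) := by ring
    rw [h1]
    refine (norm_sub_le _ _).trans ?_
    rw [← hδ]
    linarith
  have hz02 : ‖z0‖ ≤ 2 := by linarith
  have hfθ : f.eval θ = 0 := hθr
  have hdθ : (H : ℝ) / (2 * M) ≤ ‖(derivative f).eval θ‖ := by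
    have h1 := AsymAux.hpd_lip hF le_rfl z0 θ hz02 hθ2
    rw [← hf, ← hb, ← hδ] at h1
    have h2 : ‖(derivative f).eval z0‖ ≤ ‖(derivative f).eval z0 - (derivative f).eval θ‖ +
        ‖(derivative f).eval θ‖ := by
      have := norm_add_le ((derivative f).eval z0 - (derivative f).eval θ) ((derivative f).eval θ)
      rwa [sub_add_cancel] at this
    have h3 : b * H * δ ≤ H / (2 * M) := by
      rw [le_div_iff₀ (by positivity)]
      calc b * H * δ * (2 * M) = H * (δ * (2 * b * M)) := by ring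
        _ ≤ H * 1 := by gcongr
        _ = H := mul_one _
    have h4 : (H : ℝ) / M = H / (2 * M) + H / (2 * M) := by
      field_simp
      ring
    linarith
  refine ⟨θ, hθr, ?_, ?_, hθ2⟩
  · rw [le_div_iff₀ hXp, ← hδ]
    refine hδX.trans ?_
    have h1 : (n : ℝ) ≤ b := by linarith
    calc (n : ℝ) * b * M ≤ b * b * M := by gcongr
      _ = b ^ 2 * M := by ring
  · rw [tc_zero_one_eq]
    exact hdθ

private theorem asy_low (n : ℕ) (hn : 4 ≤ n) (G : ℕ → ℕ → ℂ) :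
    ∑ i ∈ range (n + 1), ∑ j ∈ range (n + 1), G i j =
      (G 0 0 + G 0 1 + G 0 2 + G 0 3 + G 1 0 + G 1 1 + G 1 2 + G 2 0 + G 2 1 + G 3 0) +
      ∑ p ∈ (range (n + 1) ×ˢ range (n + 1)).filter (fun p => 4 ≤ p.1 + p.2), G p.1 p.2 := by
  rw [← sum_product' (range (n + 1)) (range (n + 1)) G,
    ← sum_filter_add_sum_filter_not (range (n + 1) ×ˢ range (n + 1)) (fun p => p.1 + p.2 ≤ 3)]
  congr 1
  · have h1 : (range (n + 1) ×ˢ range (n + 1)).filter (fun p => p.1 + p.2 ≤ 3) =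
        (range 4 ×ˢ range 4).filter (fun p => p.1 + p.2 ≤ 3) := by
      ext ⟨i, j⟩
      simp only [mem_filter, mem_product, mem_range]
      omega
    rw [h1, sum_filter, sum_product]
    simp [sum_range_succ]
    ring
  · refine sum_congr ?_ fun _ _ => rfl
    ext ⟨i, j⟩
    simp only [mem_filter, mem_product, mem_range]
    omega

private theorem asy_rest {n H : ℕ} (hn : 4 ≤ n) {F : ℕ → ℕ → ℤ} (hF : Bdd n H F) (θ u v : ℂ)
    (hθ : ‖θ‖ ≤ 2) (huv : ‖u‖ + ‖v‖ ≤ 1) :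
    ‖∑ p ∈ (range (n + 1) ×ˢ range (n + 1)).filter (fun p => 4 ≤ p.1 + p.2),
      tc n F θ p.1 p.2 * u ^ p.1 * v ^ p.2‖ ≤ 8 ^ n * H * (‖u‖ + ‖v‖) ^ 4 := by
  have hu0 := norm_nonneg u
  have hv0 := norm_nonneg v
  calc ‖∑ p ∈ (range (n + 1) ×ˢ range (n + 1)).filter (fun p => 4 ≤ p.1 + p.2),
      tc n F θ p.1 p.2 * u ^ p.1 * v ^ p.2‖
      ≤ ∑ p ∈ (range (n + 1) ×ˢ range (n + 1)).filter (fun p => 4 ≤ p.1 + p.2),
        ‖tc n F θ p.1 p.2‖ * (‖u‖ + ‖v‖) ^ 4 := by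
        refine (norm_sum_le _ _).trans (sum_le_sum fun p hp => ?_)
        rw [mem_filter] at hp
        rw [norm_mul, norm_mul, norm_pow, norm_pow, mul_assoc]
        refine mul_le_mul_of_nonneg_left ?_ (norm_nonneg _)
        have h1 : ‖u‖ ^ p.1 ≤ (‖u‖ + ‖v‖) ^ p.1 := pow_le_pow_left₀ hu0 (by linarith) _
        have h2 : ‖v‖ ^ p.2 ≤ (‖u‖ + ‖v‖) ^ p.2 := pow_le_pow_left₀ hv0 (by linarith) _
        calc ‖u‖ ^ p.1 * ‖v‖ ^ p.2 ≤ (‖u‖ + ‖v‖) ^ p.1 * (‖u‖ + ‖v‖) ^ p.2 :=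
              mul_le_mul h1 h2 (by positivity) (by positivity)
          _ = (‖u‖ + ‖v‖) ^ (p.1 + p.2) := by rw [pow_add]
          _ ≤ (‖u‖ + ‖v‖) ^ 4 := pow_le_pow_of_le_one (by positivity) huv hp.2
    _ ≤ ∑ p ∈ range (n + 1) ×ˢ range (n + 1), ‖tc n F θ p.1 p.2‖ * (‖u‖ + ‖v‖) ^ 4 :=
        sum_le_sum_of_subset_of_nonneg (filter_subset _ _) fun _ _ _ => by positivity
    _ = (∑ i ∈ range (n + 1), ∑ j ∈ range (n + 1), ‖tc n F θ i j‖) * (‖u‖ + ‖v‖) ^ 4 := by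
        rw [← sum_mul, sum_product]
    _ ≤ 8 ^ n * H * (‖u‖ + ‖v‖) ^ 4 :=
        mul_le_mul_of_nonneg_right (tc_sum hn hF θ hθ) (by positivity)

private theorem asy_evt (n : ℕ) (F : ℕ → ℕ → ℤ) (x y : ℤ) (hx : (x : ℂ) ≠ 0)
    (h : ev n F x y = 0) (θ : ℂ) :
    ∑ i ∈ range (n + 1), ∑ j ∈ range (n + 1),
      tc n F θ i j * (1 / (x : ℂ)) ^ i * ((y : ℂ) / x - θ) ^ j = 0 := by
  rw [← evt_taylor, add_sub_cancel]
  have h2 : (y : ℂ) / x = (1 / (x : ℂ)) * y := by ring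
  have h3 : ((ev n F x y : ℤ) : ℂ) = ev n (cst ℂ F) (x : ℂ) (y : ℂ) := by
    have := ev_map (Int.castRingHom ℂ) n F x y
    rw [eq_intCast, eq_intCast, eq_intCast] at this
    exact this
  rw [h2, evt_eq_ev n (cst ℂ F) (x : ℂ) (y : ℂ) (1 / (x : ℂ)) (by field_simp), ← h3, h]
  simp

theorem asym_loc {n H : ℕ} (hn : 4 ≤ n) (hH : 1 ≤ H) {M : ℝ} (hM : 1 ≤ M) {F : ℕ → ℕ → ℤ}
    (hF : Bdd n H F) (P : ℤ × ℤ) (hP : ZP n F P) (hd : (H : ℝ) / M ≤ dz n F P)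
    (hx : (8 : ℝ) ^ (4 * n) * M ^ 2 ≤ |(P.1 : ℝ)|) :
    ∃ θ : ℂ, NearB n F (8 ^ (2 * n) * M) θ P := by
  obtain ⟨hv, hyx⟩ := hP
  obtain ⟨x, y⟩ := P
  change ev n F x y = 0 at hv
  change |y| ≤ |x| at hyx
  change (8 : ℝ) ^ (4 * n) * M ^ 2 ≤ |(x : ℝ)| at hx
  obtain ⟨θ, hθr, hnear, hf1, hθ2⟩ := near_loc (by omega : 2 ≤ n) hH hM hF x y hv hd hyx hx
  obtain ⟨b, hb⟩ : ∃ b : ℝ, b = 8 ^ n := ⟨_, rfl⟩
  have hb8 : 8 ≤ b := by
    rw [hb]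
    calc (8 : ℝ) = 8 ^ 1 := by norm_num
      _ ≤ 8 ^ n := pow_le_pow_right₀ (by norm_num) (by omega)
  have hb2n : (8 : ℝ) ^ (2 * n) = b ^ 2 := by rw [hb, ← pow_mul, mul_comm]
  have hb4n : (8 : ℝ) ^ (4 * n) = b ^ 4 := by rw [hb, ← pow_mul, mul_comm]
  rw [hb2n] at hnear ⊢
  rw [hb4n] at hx
  obtain ⟨L, hL⟩ : ∃ L : ℝ, L = b ^ 2 * M := ⟨_, rfl⟩
  have hHr : (1 : ℝ) ≤ (H : ℝ) := by exact_mod_cast hH
  have hb2 : 64 ≤ b ^ 2 := by nlinarith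
  have hL64 : 64 ≤ L := by
    rw [hL]
    nlinarith
  have hL1 : 1 ≤ L := by linarith
  obtain ⟨X, hX⟩ : ∃ X : ℝ, X = |(x : ℝ)| := ⟨_, rfl⟩
  rw [← hX] at hx hnear
  rw [← hL] at hnear ⊢
  have hLX : L ^ 2 ≤ X := by
    refine le_trans (le_of_eq ?_) hx
    rw [hL]
    ring
  have hLX2 : 2 * L ≤ X := by nlinarith
  have hXp : 0 < X := by linarith
  have hx0 : x ≠ 0 := by
    rintro rfl
    simp at hX
    linarith
  have hxc : (x : ℂ) ≠ 0 := by exact_mod_cast hx0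
  have hnx : ‖(x : ℂ)‖ = X := by rw [Complex.norm_intCast, hX]
  obtain ⟨u, hu⟩ : ∃ u : ℂ, u = 1 / (x : ℂ) := ⟨_, rfl⟩
  obtain ⟨v, hvv⟩ : ∃ v : ℂ, v = (y : ℂ) / x - θ := ⟨_, rfl⟩
  have hun : ‖u‖ = 1 / X := by rw [hu, norm_div, norm_one, hnx]
  have hvn : ‖v‖ ≤ L * ‖u‖ := by
    rw [hun, hvv]
    refine hnear.trans (le_of_eq ?_)
    ring
  have hus : 2 * L * ‖u‖ ≤ 1 := by
    rw [hun, mul_one_div, div_le_one hXp]
    exact hLX2
  have hu0 := norm_nonneg u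
  have huL : ‖u‖ ≤ L * ‖u‖ := by nlinarith
  have huv : ‖u‖ + ‖v‖ ≤ 1 := by nlinarith
  have hsum := asy_evt n F x y hxc hv θ
  rw [← hu, ← hvv, asy_low n hn (fun i j => tc n F θ i j * u ^ i * v ^ j)] at hsum
  have hrest := asy_rest hn hF θ u v hθ2 huv
  obtain ⟨S, hS'⟩ : ∃ S, S = ∑ p ∈ (range (n + 1) ×ˢ range (n + 1)).filter
    (fun p => 4 ≤ p.1 + p.2), tc n F θ p.1 p.2 * u ^ p.1 * v ^ p.2 := ⟨_, rfl⟩
  rw [← hS', ← hb] at hrest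
  rw [← hS'] at hsum
  have h00 : tc n F θ 0 0 = 0 := by
    rw [tc_zero_zero]
    have h1 : (hp n F).eval θ = 0 := hθr
    rw [hp, eval_map] at h1
    rw [aeval_def, algebraMap_int_eq]
    exact h1
  obtain ⟨f1, hf1e⟩ : ∃ f1, f1 = tc n F θ 0 1 := ⟨_, rfl⟩
  have hf1' := hf1
  rw [← hf1e] at hf1'
  have hHM : (0 : ℝ) < H / (2 * M) := by positivity
  have hf1p : 0 < ‖f1‖ := lt_of_lt_of_le hHM hf1'
  have hf10 : f1 ≠ 0 := norm_pos_iff.1 hf1p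
  have hAf : b * H / ‖f1‖ ≤ L := by
    rw [div_le_iff₀ hf1p, hL]
    have h1 : b ^ 2 * M * (H / (2 * M)) ≤ b ^ 2 * M * ‖f1‖ := by
      refine mul_le_mul_of_nonneg_left hf1' (by positivity)
    refine le_trans ?_ h1
    have h2 : b ^ 2 * M * (H / (2 * M)) = b * (b / 2) * H := by
      field_simp
    rw [h2]
    have h3 : b * 1 ≤ b * (b / 2) := mul_le_mul_of_nonneg_left (by linarith) (by linarith)
    have h4 := mul_le_mul_of_nonneg_right h3 (by linarith : (0 : ℝ) ≤ H)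
    linarith
  have hc : ∀ i j : ℕ, i ≤ n → j ≤ n → ‖tc n F θ i j / f1‖ ≤ L := by
    intro i j hi hj
    rw [norm_div]
    refine le_trans ?_ hAf
    have h1 := tc_le hn hF θ hθ2 hi hj
    rw [← hb] at h1
    gcongr
  have hr : ‖-S / f1‖ ≤ L * (‖u‖ + ‖v‖) ^ 4 := by
    rw [norm_div, norm_neg]
    calc ‖S‖ / ‖f1‖ ≤ (b * H * (‖u‖ + ‖v‖) ^ 4) / ‖f1‖ := by gcongr
      _ = b * H / ‖f1‖ * (‖u‖ + ‖v‖) ^ 4 := by ring
      _ ≤ L * (‖u‖ + ‖v‖) ^ 4 := by gcongr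
  have hmain := alg3 L hL1 (tc n F θ 0 2 / f1) (tc n F θ 0 3 / f1) (tc n F θ 1 0 / f1)
    (tc n F θ 1 1 / f1) (tc n F θ 1 2 / f1) (tc n F θ 2 0 / f1) (tc n F θ 2 1 / f1)
    (tc n F θ 3 0 / f1) (-S / f1) u v (be n F θ) (ga n F θ) (de n F θ)
    (hc _ _ (by omega) (by omega)) (hc _ _ (by omega) (by omega)) (hc _ _ (by omega) (by omega))
    (hc _ _ (by omega) (by omega)) (hc _ _ (by omega) (by omega)) (hc _ _ (by omega) (by omega))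
    (hc _ _ (by omega) (by omega)) (hc _ _ (by omega) (by omega)) hr hvn hus
    (by
      simp only [pow_zero, pow_one, mul_one] at hsum
      rw [h00, ← hf1e] at hsum
      field_simp
      linear_combination hsum)
    (by
      unfold be
      rw [← hf1e]
      ring)
    (by
      unfold ga
      rw [← hf1e]
      ring)
    (by
      unfold de
      rw [← hf1e]
      ring)
  obtain ⟨-, m2, m3, m4, m5⟩ := hmain
  have hu1 : ‖u‖ = 1 / X := hun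
  have q3 : ‖(y : ℂ) - θ * x - be n F θ - ga n F θ / x - de n F θ / x ^ 2‖ ≤
      250 * L ^ 7 / X ^ 3 := by
    have e : (y : ℂ) - θ * x - be n F θ - ga n F θ / x - de n F θ / x ^ 2 =
        x * (v - be n F θ * u - ga n F θ * u ^ 2 - de n F θ * u ^ 3) := by
      rw [hvv, hu]
      field_simp
    rw [e, norm_mul, hnx]
    refine (mul_le_mul_of_nonneg_left m5 hXp.le).trans (le_of_eq ?_)
    rw [hun]
    field_simp
  refine ⟨θ, ⟨hθr, ?_, ?_, ?_, ?_, m3, ?_, ?_⟩⟩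
  · have h1 : θ = (y : ℂ) / x - v := by
      rw [hvv]
      ring
    have h2 : ‖(y : ℂ) / x‖ ≤ 1 := by
      rw [norm_div, Complex.norm_intCast, Complex.norm_intCast]
      exact div_le_one_of_le₀ (by exact_mod_cast hyx) (abs_nonneg _)
    have h3 : ‖v‖ ≤ 1 / 2 := by
      refine hvn.trans ?_
      linarith
    rw [h1]
    refine (norm_sub_le _ _).trans ?_
    linarith
  · change ‖(y : ℂ) / x - θ‖ ≤ L / |(x : ℝ)|
    rw [← hvv]
    refine hvn.trans (le_of_eq ?_)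
    rw [hun, hX]
    ring
  · rw [← hf1e]
    exact hf10
  · refine m2.trans ?_
    have : 0 ≤ L ^ 3 := by positivity
    linarith
  · change ‖(y : ℂ) - θ * x - be n F θ - ga n F θ / x‖ ≤ 263 * L ^ 5 / |(x : ℝ)| ^ 2
    rw [← hX]
    have e : (y : ℂ) - θ * x - be n F θ - ga n F θ / x =
        ((y : ℂ) - θ * x - be n F θ - ga n F θ / x - de n F θ / x ^ 2) + de n F θ / x ^ 2 := by
      ring
    rw [e]
    refine (norm_add_le _ _).trans ?_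
    have h1 : ‖de n F θ / (x : ℂ) ^ 2‖ ≤ 13 * L ^ 5 / X ^ 2 := by
      rw [norm_div, norm_pow, hnx]
      gcongr
    have h2 : 250 * L ^ 7 / X ^ 3 ≤ 250 * L ^ 5 / X ^ 2 := by
      rw [div_le_div_iff₀ (by positivity) (by positivity)]
      calc 250 * L ^ 7 * X ^ 2 = 250 * L ^ 5 * X ^ 2 * L ^ 2 := by ring
        _ ≤ 250 * L ^ 5 * X ^ 2 * X := by gcongr
        _ = 250 * L ^ 5 * X ^ 3 := by ring
    calc _ ≤ 250 * L ^ 7 / X ^ 3 + 13 * L ^ 5 / X ^ 2 := add_le_add q3 h1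
      _ ≤ 250 * L ^ 5 / X ^ 2 + 13 * L ^ 5 / X ^ 2 := by linarith
      _ = 263 * L ^ 5 / X ^ 2 := by ring
  · change ‖(y : ℂ) - θ * x - be n F θ - ga n F θ / x - de n F θ / x ^ 2‖ ≤
      250 * L ^ 7 / |(x : ℝ)| ^ 3
    rw [← hX]
    exact q3

theorem nearB_cand {n H : ℕ} (hn : 4 ≤ n) (hH : 1 ≤ H) {M : ℝ} (hM : 1 ≤ M) {G : ℕ → ℕ → ℤ}
    (P : ℤ × ℤ) (hC : Cand n H G P) (hyx : |P.2| ≤ |P.1|) (hd : (H : ℝ) / M ≤ dz n G P)
    (hx : (8 : ℝ) ^ (4 * n) * M ^ 2 ≤ |(P.1 : ℝ)|) :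
    ∃ θ : ℂ, NearB n G (8 ^ (2 * n) * M) θ P := by
  obtain ⟨F, hF, hT, hv⟩ := hC
  have e0 := hp_top4 hn hT
  have hd' : (H : ℝ) / M ≤ dz n F P := by
    unfold dz at hd ⊢
    rw [e0]
    exact hd
  obtain ⟨θ, h1, h2, h2', h3, h4, h5, h6, h7⟩ := asym_loc hn hH hM hF P ⟨hv, hyx⟩ hd' hx
  obtain ⟨e1, e2, e3⟩ := bgd_top4 hn hT θ
  rw [e0] at h1
  rw [tc_top4 hn hT θ (show 0 ≤ 3 by norm_num)] at h3
  rw [e2] at h4
  rw [e3] at h5
  rw [e1, e2] at h6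
  rw [e1, e2, e3] at h7
  exact ⟨θ, ⟨h1, h2, h2', h3, h4, h5, h6, h7⟩⟩

end Pool.Agent.H15.SC
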