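import Pool.Agent.H15.SC.Nda
import Pool.Agent.H8.NoPt.Asym

/-! # [SC NDB] Few leading forms have a near double root (Step 3)

`m = s²`, `b = 8^n`. Dirichlet (`Real.exists_rat_abs_sub_le_and_den_le` or
`Real.exists_int_int_abs_mul_sub_le` with `N = ⌊s⌋`): `p/q` with `1 ≤ q ≤ s`,
`|z - p/q| ≤ 1/((N+1) q) ≤ 1/(q s)`, `gcd = 1`, `|p/q| ≤ 2`. Taylor (`AsymAux.hp_tay`,
`AsymAux.hpd_lip`, `AsymAux.hp_lip`, for `‖z‖ ≤ 2`): `|f(p/q)| ≤ |f(z)| + |f'(z)| /(q s) +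
b H/(q s)² ≤ b H/s⁴ + b H/(q s³) + b H/(q² s²) ≤ 3 b H/(q² s²) =: e0` (`q ≤ s`),
`|f'(p/q)| ≤ b H/s² + b H/(q s) ≤ 2 b H/(q s) =: e1`. By `nd_pq`, for given `q` and `p`
(`|p| ≤ 2q`, at most `5q` values):
`#S_{p,q} K³ ≤ (6 b H/s² + 1)(2H/q + 1)(4 b H/(q² s) + 1) K^N`. With `s² ≤ H`:
`6bH/s² + 1 ≤ 7bH/s²`, `2H/q + 1 ≤ 3H/q`, `4bH/(q²s) + 1`: sum over `q ≤ s`, times `5q`:
`∑_q 5q (7bH/s²)(3H/q)(4bH/(q²s) + 1) ≤ 105 b H²/s² (8 b H/s + s) ≤ C H³/s³` as `s² ≤ H`. -/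

namespace Pool.Agent.H15.SC

open Finset Polynomial Pool.Agent.H72.ES Pool.Agent.H8.NoPt Pool.Agent.H8.MP

private theorem sum_sq (N : ℕ) : ∑ q ∈ Finset.Icc 1 (N + 1), 1 / (q : ℝ) ^ 2 ≤ 2 - 1 / ((N : ℝ) + 1) := by
  induction N with
  | zero => norm_num
  | succ N ih =>
    rw [Finset.sum_Icc_succ_top (by omega)]
    have h1 : 1 / (((N + 1 + 1 : ℕ)) : ℝ) ^ 2 ≤ 1 / ((N : ℝ) + 1) - 1 / ((N : ℝ) + 1 + 1) := by
      push_cast
      have h0 : (0 : ℝ) < (N : ℝ) + 1 := by positivity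
      rw [div_sub_div _ _ h0.ne' (by positivity), div_le_div_iff₀ (by positivity) (by positivity)]
      nlinarith
    push_cast at h1 ⊢
    linarith

private theorem bd (n H : ℕ) (s : ℝ) (hs : 1 ≤ s) (a : Ix n → ℤ)
    (ha : ∀ i, |a i| ≤ (H : ℤ)) (z : ℝ) (hz : |z| ≤ 1)
    (h0 : ‖(hp n (arr a)).eval (z : ℂ)‖ ≤ 8 ^ n * H / s ^ 4)
    (h1 : ‖(derivative (hp n (arr a))).eval (z : ℂ)‖ ≤ 8 ^ n * H / s ^ 2) :
    ∃ q ∈ Finset.Icc 1 ⌊s⌋₊, ∃ p ∈ Finset.Icc (-(2 * (q : ℤ))) (2 * q), IsCoprime p (q : ℤ) ∧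
      ‖(hp n (arr a)).eval ((p : ℂ) / q)‖ ≤ 3 * 8 ^ n * H / (q ^ 2 * s ^ 2) ∧
      ‖(derivative (hp n (arr a))).eval ((p : ℂ) / q)‖ ≤ 2 * 8 ^ n * H / (q * s) := by
  have hs0 : 0 < s := by linarith
  have hN : 0 < ⌊s⌋₊ := Nat.floor_pos.2 hs
  obtain ⟨r, hr, hrd⟩ := Real.exists_rat_abs_sub_le_and_den_le z hN
  have hB : Bdd n H (arr a) := by
    intro i j hij
    unfold arr
    rw [dif_pos hij]
    exact ha _
  have hq1 : 1 ≤ r.den := r.den_pos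
  have hq0 : (0 : ℝ) < r.den := by exact_mod_cast r.den_pos
  have hq1' : (1 : ℝ) ≤ r.den := by exact_mod_cast hq1
  have hqs : (r.den : ℝ) ≤ s := by
    have : (r.den : ℝ) ≤ ⌊s⌋₊ := by exact_mod_cast hrd
    exact this.trans (Nat.floor_le hs0.le)
  have hd : |z - r| ≤ 1 / (r.den * s) := by
    refine hr.trans (one_div_le_one_div_of_le (by positivity) ?_)
    rw [mul_comm]
    have : s ≤ (⌊s⌋₊ : ℝ) + 1 := (Nat.lt_floor_add_one s).le
    gcongr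
  have hd1 : |z - r| ≤ 1 := by
    refine hd.trans ?_
    rw [div_le_one (by positivity)]
    nlinarith
  have hr2 : |(r : ℝ)| ≤ 2 := by
    have : (r : ℝ) = z - (z - r) := by ring
    rw [this]
    exact (abs_sub _ _).trans (by linarith)
  have hrq : (r : ℝ) = (r.num : ℝ) / r.den := by exact_mod_cast (Rat.num_div_den r).symm
  have hnum : |(r.num : ℝ)| ≤ 2 * r.den := by
    rw [hrq, abs_div, abs_of_pos hq0, div_le_iff₀ hq0] at hr2
    exact hr2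
  have hnum' : |r.num| ≤ 2 * (r.den : ℤ) := by exact_mod_cast hnum
  have hcz : ((r.num : ℂ) / (r.den : ℕ)) = ((r : ℝ) : ℂ) := by
    rw [hrq]
    push_cast
    rfl
  have hzn : ‖((z : ℝ) : ℂ)‖ ≤ 2 := by
    rw [Complex.norm_real, Real.norm_eq_abs]
    linarith
  have hrn : ‖((r : ℝ) : ℂ)‖ ≤ 2 := by
    rw [Complex.norm_real, Real.norm_eq_abs]
    exact hr2
  have hdn : ‖((r : ℝ) : ℂ) - (z : ℂ)‖ ≤ 1 / (r.den * s) := by
    rw [← Complex.ofReal_sub, Complex.norm_real, Real.norm_eq_abs, abs_sub_comm]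
    exact hd
  have hH0 : (0 : ℝ) ≤ H := Nat.cast_nonneg _
  have t1 := AsymAux.hp_tay hB le_rfl _ _ hrn hzn
  have t2 := AsymAux.hpd_lip hB le_rfl _ _ hrn hzn
  refine ⟨r.den, Finset.mem_Icc.2 ⟨hq1, hrd⟩, r.num, Finset.mem_Icc.2 (abs_le.1 hnum'),
    Int.isCoprime_iff_gcd_eq_one.2 r.reduced, ?_, ?_⟩
  · rw [hcz]
    have e : (hp n (arr a)).eval ((r : ℝ) : ℂ) =
        ((hp n (arr a)).eval ((r : ℝ) : ℂ) - (hp n (arr a)).eval (z : ℂ) -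
          (derivative (hp n (arr a))).eval (z : ℂ) * (((r : ℝ) : ℂ) - z)) +
        (hp n (arr a)).eval (z : ℂ) +
          (derivative (hp n (arr a))).eval (z : ℂ) * (((r : ℝ) : ℂ) - z) := by ring
    rw [e]
    refine (norm_add₃_le).trans ?_
    rw [norm_mul]
    have f1 : ‖((r : ℝ) : ℂ) - (z : ℂ)‖ ^ 2 ≤ (1 / (r.den * s)) ^ 2 :=
      pow_le_pow_left₀ (norm_nonneg _) hdn 2
    have f2 : (8 : ℝ) ^ n * H * ‖((r : ℝ) : ℂ) - (z : ℂ)‖ ^ 2 ≤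
        8 ^ n * H * (1 / (r.den * s)) ^ 2 := by gcongr
    have f3 : ‖(derivative (hp n (arr a))).eval (z : ℂ)‖ * ‖((r : ℝ) : ℂ) - (z : ℂ)‖ ≤
        8 ^ n * H / s ^ 2 * (1 / (r.den * s)) := by gcongr
    have g1 : 1 / s ^ 4 ≤ 1 / ((r.den : ℝ) ^ 2 * s ^ 2) := by
      refine one_div_le_one_div_of_le (by positivity) ?_
      have : (r.den : ℝ) ^ 2 ≤ s ^ 2 := pow_le_pow_left₀ hq0.le hqs 2
      calc (r.den : ℝ) ^ 2 * s ^ 2 ≤ s ^ 2 * s ^ 2 := by gcongr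
        _ = s ^ 4 := by ring
    have g2 : 1 / (r.den * s ^ 3) ≤ 1 / ((r.den : ℝ) ^ 2 * s ^ 2) := by
      refine one_div_le_one_div_of_le (by positivity) ?_
      calc (r.den : ℝ) ^ 2 * s ^ 2 = (r.den * s ^ 2) * r.den := by ring
        _ ≤ (r.den * s ^ 2) * s := by gcongr
        _ = r.den * s ^ 3 := by ring
    have hA : (0 : ℝ) ≤ 8 ^ n * H := by positivity
    calc _ ≤ 8 ^ n * H * (1 / (r.den * s)) ^ 2 + 8 ^ n * H / s ^ 4 +
          8 ^ n * H / s ^ 2 * (1 / (r.den * s)) := by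
          refine add_le_add (add_le_add (t1.trans f2) h0) f3
      _ = 8 ^ n * H * (1 / ((r.den : ℝ) ^ 2 * s ^ 2)) + 8 ^ n * H * (1 / s ^ 4) +
          8 ^ n * H * (1 / (r.den * s ^ 3)) := by
          field_simp
      _ ≤ 8 ^ n * H * (1 / ((r.den : ℝ) ^ 2 * s ^ 2)) + 8 ^ n * H *
          (1 / ((r.den : ℝ) ^ 2 * s ^ 2)) + 8 ^ n * H * (1 / ((r.den : ℝ) ^ 2 * s ^ 2)) := by
          gcongr
      _ = _ := by ring
  · rw [hcz]
    have e : (derivative (hp n (arr a))).eval ((r : ℝ) : ℂ) =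
        ((derivative (hp n (arr a))).eval ((r : ℝ) : ℂ) -
          (derivative (hp n (arr a))).eval (z : ℂ)) +
        (derivative (hp n (arr a))).eval (z : ℂ) := by ring
    rw [e]
    refine (norm_add_le _ _).trans ?_
    have f2 : (8 : ℝ) ^ n * H * ‖((r : ℝ) : ℂ) - (z : ℂ)‖ ≤
        8 ^ n * H * (1 / (r.den * s)) := by gcongr
    have g1 : 1 / s ^ 2 ≤ 1 / ((r.den : ℝ) * s) := by
      refine one_div_le_one_div_of_le (by positivity) ?_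
      nlinarith
    have hA : (0 : ℝ) ≤ 8 ^ n * H := by positivity
    calc _ ≤ 8 ^ n * H * (1 / (r.den * s)) + 8 ^ n * H / s ^ 2 := add_le_add (t2.trans f2) h1
      _ = 8 ^ n * H * (1 / ((r.den : ℝ) * s)) + 8 ^ n * H * (1 / s ^ 2) := by ring
      _ ≤ 8 ^ n * H * (1 / ((r.den : ℝ) * s)) + 8 ^ n * H * (1 / ((r.den : ℝ) * s)) := by
          gcongr
      _ = _ := by ring

theorem nd_count (n : ℕ) (hn : 2 ≤ n) : ∃ C : ℝ, 0 < C ∧ ∀ H : ℕ, 1 ≤ H → ∀ s : ℝ, 1 ≤ s →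
    s ^ 2 ≤ H → ∀ S : Finset (Ix n → ℤ),
    (∀ a ∈ S, (∀ i, |a i| ≤ (H : ℤ)) ∧ ∃ z : ℝ, |z| ≤ 1 ∧
      ‖(hp n (arr a)).eval (z : ℂ)‖ ≤ 8 ^ n * H / s ^ 4 ∧
      ‖(derivative (hp n (arr a))).eval (z : ℂ)‖ ≤ 8 ^ n * H / s ^ 2) →
    (S.card : ℝ) ≤ C / s ^ 3 * (2 * H + 1 : ℝ) ^ (Fintype.card (Ix n)) := by
  classical
  set b : ℝ := 8 ^ n with hb
  have hb1 : 1 ≤ b := one_le_pow₀ (by norm_num)
  refine ⟨945 * b ^ 2, by positivity, ?_⟩
  intro H hH s hs hsH S hS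
  have hs0 : 0 < s := by linarith
  have hH0 : (0 : ℝ) < H := by exact_mod_cast (by omega : 0 < H)
  set X : ℝ := (2 * H + 1 : ℝ) ^ (Fintype.card (Ix n)) with hX
  have hX0 : 0 < X := by positivity
  let P : ℕ → ℤ → (Ix n → ℤ) → Prop := fun q p a => IsCoprime p (q : ℤ) ∧
      ‖(hp n (arr a)).eval ((p : ℂ) / q)‖ ≤ 3 * 8 ^ n * H / (q ^ 2 * s ^ 2) ∧
      ‖(derivative (hp n (arr a))).eval ((p : ℂ) / q)‖ ≤ 2 * 8 ^ n * H / (q * s)
  have hcov : S ⊆ (Finset.Icc 1 ⌊s⌋₊).biUnion fun q =>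
      (Finset.Icc (-(2 * (q : ℤ))) (2 * q)).biUnion fun p => S.filter (P q p) := by
    intro a ha
    obtain ⟨h1, z, hz, h2, h3⟩ := hS a ha
    obtain ⟨q, hq, p, hp, h4⟩ := bd n H s hs a h1 z hz h2 h3
    rw [Finset.mem_biUnion]
    refine ⟨q, hq, ?_⟩
    rw [Finset.mem_biUnion]
    exact ⟨p, hp, Finset.mem_filter.2 ⟨ha, h4⟩⟩
  have hone : ∀ q ∈ Finset.Icc 1 ⌊s⌋₊, ∀ p : ℤ, ((S.filter (P q p)).card : ℝ) * (2 * H + 1 : ℝ) ^ 3 ≤
      (7 * b * H / s ^ 2) * (3 * H / q) * (4 * b * H / (q ^ 2 * s) + 1) * X := by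
    intro q hq p
    rw [Finset.mem_Icc] at hq
    have hq0 : (0 : ℝ) < q := by exact_mod_cast (by omega : 0 < q)
    have hq1 : (1 : ℝ) ≤ q := by exact_mod_cast hq.1
    have hqs : (q : ℝ) ≤ s := by
      have : (q : ℝ) ≤ ⌊s⌋₊ := by exact_mod_cast hq.2
      exact this.trans (Nat.floor_le hs0.le)
    by_cases hc : IsCoprime p (q : ℤ)
    · have h := nd_pq n H hn p q hq.1 hc (3 * 8 ^ n * H / (q ^ 2 * s ^ 2)) (2 * 8 ^ n * H / (q * s))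
        (by positivity) (by positivity) (S.filter (P q p)) (fun a ha => by
          rw [Finset.mem_filter] at ha
          exact ⟨(hS a ha.1).1, ha.2.2⟩)
      refine h.trans ?_
      have k1 : 2 * (q : ℝ) ^ 2 * (3 * 8 ^ n * H / (q ^ 2 * s ^ 2)) + 1 ≤ 7 * b * H / s ^ 2 := by
        have e : 2 * (q : ℝ) ^ 2 * (3 * 8 ^ n * H / (q ^ 2 * s ^ 2)) = 6 * b * H / s ^ 2 := by
          rw [hb]
          field_simp
          ring
        rw [e]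
        have h1 : 1 ≤ b * H / s ^ 2 := by
          rw [le_div_iff₀ (by positivity), one_mul]
          nlinarith
        have e2 : 7 * b * H / s ^ 2 = 6 * b * H / s ^ 2 + b * H / s ^ 2 := by ring
        rw [e2]
        linarith
      have k2 : 2 * (H : ℝ) / q + 1 ≤ 3 * H / q := by
        have h1 : 1 ≤ (H : ℝ) / q := by
          rw [le_div_iff₀ hq0, one_mul]
          nlinarith
        have e2 : 3 * (H : ℝ) / q = 2 * H / q + H / q := by ring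
        rw [e2]
        linarith
      have k3 : 2 * (2 * 8 ^ n * (H : ℝ) / (q * s)) / q + 1 = 4 * b * H / (q ^ 2 * s) + 1 := by
        rw [hb]
        field_simp
        ring
      rw [k3]
      have k4 : 0 ≤ 4 * b * H / (q ^ 2 * s) + 1 := by positivity
      have k5 : 0 ≤ 2 * (H : ℝ) / q + 1 := by positivity
      gcongr
    · have h0 : S.filter (P q p) = ∅ := by
        rw [Finset.filter_eq_empty_iff]
        intro a _ ha
        exact hc ha.1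
      rw [h0, Finset.card_empty, Nat.cast_zero, zero_mul]
      positivity
  have hsum : (S.card : ℝ) * (2 * H + 1 : ℝ) ^ 3 ≤ ∑ q ∈ Finset.Icc 1 ⌊s⌋₊,
      105 * b * H ^ 2 / s ^ 2 * (4 * b * H / s * (1 / (q : ℝ) ^ 2) + 1) * X := by
    have h1 : S.card ≤ ∑ q ∈ Finset.Icc 1 ⌊s⌋₊, ∑ p ∈ Finset.Icc (-(2 * (q : ℤ))) (2 * q),
        (S.filter (P q p)).card :=
      (Finset.card_le_card hcov).trans (Finset.card_biUnion_le.trans
        (Finset.sum_le_sum fun q _ => Finset.card_biUnion_le))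
    have h2 : (S.card : ℝ) ≤ ∑ q ∈ Finset.Icc 1 ⌊s⌋₊, ∑ p ∈ Finset.Icc (-(2 * (q : ℤ))) (2 * q),
        ((S.filter (P q p)).card : ℝ) := by exact_mod_cast h1
    calc (S.card : ℝ) * (2 * H + 1 : ℝ) ^ 3 ≤ (∑ q ∈ Finset.Icc 1 ⌊s⌋₊,
          ∑ p ∈ Finset.Icc (-(2 * (q : ℤ))) (2 * q), ((S.filter (P q p)).card : ℝ)) *
          (2 * H + 1 : ℝ) ^ 3 := by gcongr
      _ = ∑ q ∈ Finset.Icc 1 ⌊s⌋₊, ∑ p ∈ Finset.Icc (-(2 * (q : ℤ))) (2 * q),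
          ((S.filter (P q p)).card : ℝ) * (2 * H + 1 : ℝ) ^ 3 := by
          rw [Finset.sum_mul]
          refine Finset.sum_congr rfl fun q _ => ?_
          rw [Finset.sum_mul]
      _ ≤ _ := by
          refine Finset.sum_le_sum fun q hq => ?_
          refine (Finset.sum_le_sum fun p _ => hone q hq p).trans ?_
          rw [Finset.sum_const, nsmul_eq_mul, Int.card_Icc]
          have hq' := Finset.mem_Icc.1 hq
          have hq0 : (0 : ℝ) < q := by exact_mod_cast (by omega : 0 < q)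
          have hq1 : (1 : ℝ) ≤ q := by exact_mod_cast hq'.1
          have e1 : ((2 * (q : ℤ) + 1 - -(2 * (q : ℤ))).toNat : ℝ) ≤ 5 * q := by
            have : (2 * (q : ℤ) + 1 - -(2 * (q : ℤ))).toNat = 4 * q + 1 := by omega
            rw [this]
            push_cast
            linarith
          calc _ ≤ (5 * q) * ((7 * b * H / s ^ 2) * (3 * H / q) *
                (4 * b * H / (q ^ 2 * s) + 1) * X) := by gcongr
            _ = _ := by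
              field_simp
              ring
  have hsq : ∑ q ∈ Finset.Icc 1 ⌊s⌋₊, 1 / (q : ℝ) ^ 2 ≤ 2 := by
    obtain ⟨N, hN⟩ := Nat.exists_eq_succ_of_ne_zero (Nat.floor_pos.2 hs).ne'
    rw [hN]
    have h1 := sum_sq N
    have h2 : (0 : ℝ) ≤ 1 / ((N : ℝ) + 1) := by positivity
    exact h1.trans (by linarith)
  have hfin : ∑ q ∈ Finset.Icc 1 ⌊s⌋₊,
      105 * b * H ^ 2 / s ^ 2 * (4 * b * H / s * (1 / (q : ℝ) ^ 2) + 1) * X ≤
      945 * b ^ 2 / s ^ 3 * X * (2 * H + 1 : ℝ) ^ 3 := by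
    have e1 : ∑ q ∈ Finset.Icc 1 ⌊s⌋₊,
        105 * b * H ^ 2 / s ^ 2 * (4 * b * H / s * (1 / (q : ℝ) ^ 2) + 1) * X =
        105 * b * H ^ 2 / s ^ 2 * (4 * b * H / s * (∑ q ∈ Finset.Icc 1 ⌊s⌋₊, 1 / (q : ℝ) ^ 2) +
          ⌊s⌋₊) * X := by
      rw [← Finset.sum_mul, ← Finset.mul_sum, Finset.sum_add_distrib, ← Finset.mul_sum,
        Finset.sum_const, Nat.card_Icc, nsmul_eq_mul, mul_one, Nat.add_sub_cancel]
    rw [e1]
    have h1 : (⌊s⌋₊ : ℝ) ≤ b * H / s := by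
      rw [le_div_iff₀ hs0]
      have : (⌊s⌋₊ : ℝ) ≤ s := Nat.floor_le hs0.le
      nlinarith
    have h2 : 4 * b * H / s * (∑ q ∈ Finset.Icc 1 ⌊s⌋₊, 1 / (q : ℝ) ^ 2) + ⌊s⌋₊ ≤
        9 * b * H / s := by
      have h3 : 4 * b * H / s * (∑ q ∈ Finset.Icc 1 ⌊s⌋₊, 1 / (q : ℝ) ^ 2) ≤
          4 * b * H / s * 2 := by gcongr
      have h4 : 9 * b * H / s = 4 * b * H / s * 2 + b * H / s := by ring
      rw [h4]
      linarith
    have h5 : (H : ℝ) ^ 3 ≤ (2 * H + 1) ^ 3 := pow_le_pow_left₀ hH0.le (by linarith) 3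
    calc _ ≤ 105 * b * H ^ 2 / s ^ 2 * (9 * b * H / s) * X := by gcongr
      _ = 945 * b ^ 2 / s ^ 3 * X * H ^ 3 := by
        field_simp
        ring
      _ ≤ _ := by gcongr
  have hk : (0 : ℝ) < (2 * H + 1 : ℝ) ^ 3 := by positivity
  exact le_of_mul_le_mul_right (hsum.trans hfin) hk

end Pool.Agent.H15.SC
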