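import Pool.Agent.H15.SC.Pt

/-! # [SC UN] Union bounds (Step 2)

Cover `S` by the sets of its vectors vanishing at a given `P` (`card_biUnion_le` over the finite
set of integer points `P` with `|y| ≤ |x|`, `A ≤ |x| ≤ B`), use `pt_count`, `pt_count_der`.
`un_a`: `#S K^(n+1) ≤ ∑_{|x| = k ≤ H} 2 (2k+1) (2H/k + 1)^n K^N`, `2H/k + 1 ≤ 3H/k`,
`2(2k+1) ≤ 6k`, `∑_{k ≥ A} k^(1-n) ≤ 2 A^(2-n)` (`n ≥ 3`: `k^(1-n) ≤ A^(3-n) k^(-2)` and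
`∑_{k ≥ A} k^(-2) ≤ 2/A`). `un_b`, `un_c`: `2H/|x| + 1 ≤ 3`, at most `(2B+1)^2 ≤ 9 B^2` points. -/

namespace Pool.Agent.H15.SC

open Finset Polynomial Pool.Agent.H72.ES Pool.Agent.H8.NoPt Pool.Agent.H8.MP

private theorem un_cover {α β : Type*} (S : Finset α) (T : Finset β) (R : α → β → Prop)
    (hS : ∀ a ∈ S, ∃ P ∈ T, R a P) (b : β → ℝ)
    (hb : ∀ P ∈ T, ∀ U : Finset α, (∀ a ∈ U, a ∈ S ∧ R a P) → (U.card : ℝ) ≤ b P) :
    (S.card : ℝ) ≤ ∑ P ∈ T, b P := by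
  classical
  have h1 : S ⊆ T.biUnion fun P => S.filter fun a => R a P := by
    intro a ha
    obtain ⟨P, hP, hR⟩ := hS a ha
    exact mem_biUnion.2 ⟨P, hP, mem_filter.2 ⟨ha, hR⟩⟩
  have h2 := (card_le_card h1).trans card_biUnion_le
  have h3 : (S.card : ℝ) ≤ ∑ P ∈ T, ((S.filter fun a => R a P).card : ℝ) := by exact_mod_cast h2
  refine h3.trans (sum_le_sum fun P hP => hb P hP _ fun a ha => ?_)
  rwa [mem_filter] at ha

private theorem un_two (A H : ℕ) (g : ℕ → ℝ) (hg : ∀ k, 0 ≤ g k) :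
    ∑ x ∈ (Icc (-(H : ℤ)) H).filter (fun x => (A : ℤ) ≤ |x|), g x.natAbs ≤
      2 * ∑ k ∈ Icc A H, g k := by
  classical
  have h1 : (Icc (-(H : ℤ)) H).filter (fun x => (A : ℤ) ≤ |x|) ⊆
      (Icc A H).image (fun k : ℕ => (k : ℤ)) ∪ (Icc A H).image (fun k : ℕ => -(k : ℤ)) := by
    intro x hx
    rw [mem_filter, mem_Icc] at hx
    obtain ⟨⟨h1, h2⟩, h3⟩ := hx
    rw [mem_union, mem_image, mem_image]
    rcases le_total 0 x with h | h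
    · left
      refine ⟨x.natAbs, ?_, ?_⟩
      · rw [mem_Icc]
        rw [abs_of_nonneg h] at h3
        omega
      · omega
    · right
      refine ⟨x.natAbs, ?_, ?_⟩
      · rw [mem_Icc]
        rw [abs_of_nonpos h] at h3
        omega
      · omega
  refine (sum_le_sum_of_subset_of_nonneg h1 fun _ _ _ => hg _).trans ?_
  have h2 : ∑ x ∈ (Icc A H).image (fun k : ℕ => (k : ℤ)) ∪
      (Icc A H).image (fun k : ℕ => -(k : ℤ)), g x.natAbs ≤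
      ∑ x ∈ (Icc A H).image (fun k : ℕ => (k : ℤ)), g x.natAbs +
      ∑ x ∈ (Icc A H).image (fun k : ℕ => -(k : ℤ)), g x.natAbs := by
    rw [← sum_union_inter]
    have : 0 ≤ ∑ x ∈ (Icc A H).image (fun k : ℕ => (k : ℤ)) ∩
      (Icc A H).image (fun k : ℕ => -(k : ℤ)), g x.natAbs := sum_nonneg fun _ _ => hg _
    linarith
  refine h2.trans ?_
  rw [sum_image (fun a _ b _ h => by simpa using h), sum_image (fun a _ b _ h => by simpa using h),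
    two_mul]
  refine le_of_eq ?_
  have e1 : ∑ k ∈ Icc A H, g ((k : ℤ)).natAbs = ∑ k ∈ Icc A H, g k :=
    sum_congr rfl fun k _ => by rw [Int.natAbs_natCast]
  have e2 : ∑ k ∈ Icc A H, g (-(k : ℤ)).natAbs = ∑ k ∈ Icc A H, g k :=
    sum_congr rfl fun k _ => by rw [Int.natAbs_neg, Int.natAbs_natCast]
  rw [e1, e2]

private theorem un_inv (A H n : ℕ) (hA : 1 ≤ A) (hn : 3 ≤ n) :
    ∑ k ∈ Icc A H, (k : ℝ) * (1 / (k : ℝ)) ^ n ≤ 2 / (A : ℝ) ^ (n - 2) := by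
  have hA0 : (0 : ℝ) < A := by exact_mod_cast hA
  have h1 : ∀ k ∈ Icc A H, (k : ℝ) * (1 / (k : ℝ)) ^ n ≤
      (1 / (A : ℝ) ^ (n - 3)) * ((k : ℝ) ^ 2)⁻¹ := by
    intro k hk
    rw [mem_Icc] at hk
    have hk0 : (0 : ℝ) < k := by exact_mod_cast (by omega : 0 < k)
    have hAk : (A : ℝ) ≤ k := by exact_mod_cast hk.1
    obtain ⟨m, rfl⟩ : ∃ m, n = m + 3 := ⟨n - 3, by omega⟩
    have h2 : (k : ℝ) * (1 / (k : ℝ)) ^ (m + 3) = (1 / (k : ℝ) ^ m) * ((k : ℝ) ^ 2)⁻¹ := by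
      rw [div_pow, one_pow]
      field_simp
      ring
    rw [h2, Nat.add_sub_cancel]
    gcongr
  refine (sum_le_sum h1).trans ?_
  rw [← mul_sum]
  have h2 : Icc A H = Ioo (A - 1) (H + 1) := by
    ext k
    rw [mem_Icc, mem_Ioo]
    omega
  have h3 := sum_Ioo_inv_sq_le (α := ℝ) (A - 1) (H + 1)
  rw [← h2] at h3
  have h4 : (((A - 1 : ℕ) : ℝ) + 1) = A := by
    have : A - 1 + 1 = A := by omega
    exact_mod_cast this
  rw [h4] at h3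
  calc 1 / (A : ℝ) ^ (n - 3) * ∑ i ∈ Icc A H, ((i : ℝ) ^ 2)⁻¹ ≤
      1 / (A : ℝ) ^ (n - 3) * (2 / A) := by gcongr
    _ = 2 / (A : ℝ) ^ (n - 2) := by
      obtain ⟨m, rfl⟩ : ∃ m, n = m + 3 := ⟨n - 3, by omega⟩
      have e1 : m + 3 - 3 = m := by omega
      have e2 : m + 3 - 2 = m + 1 := by omega
      rw [e1, e2]
      field_simp
      ring

theorem un_a (n : ℕ) (hn : 3 ≤ n) : ∃ C : ℝ, 0 < C ∧ ∀ H : ℕ, 1 ≤ H → ∀ A : ℕ, 1 ≤ A →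
    ∀ S : Finset (Ix n → ℤ),
    (∀ a ∈ S, (∀ i, |a i| ≤ (H : ℤ)) ∧ ∃ P : ℤ × ℤ, ZP n (arr a) P ∧
      (A : ℤ) ≤ |P.1| ∧ |P.1| ≤ (H : ℤ)) →
    (S.card : ℝ) ≤ C / (H * (A : ℝ) ^ (n - 2)) * (2 * H + 1 : ℝ) ^ (Fintype.card (Ix n)) := by
  classical
  refine ⟨12 * 3 ^ n, by positivity, fun H hH A hA S hS => ?_⟩
  have hH1 : (1 : ℝ) ≤ H := by exact_mod_cast hH
  have hA0 : (0 : ℝ) < A := by exact_mod_cast hA
  obtain ⟨K, hK⟩ : ∃ K : ℝ, K = 2 * H + 1 := ⟨_, rfl⟩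
  have hKH : (H : ℝ) ≤ K := by rw [hK]; linarith
  have hK0 : 0 < K := by linarith
  obtain ⟨V, hV⟩ : ∃ V : ℝ, V = K ^ (Fintype.card (Ix n)) := ⟨_, rfl⟩
  have hV0 : 0 < V := by rw [hV]; positivity
  rw [← hK, ← hV]
  -- one point
  have h1 : ∀ P : ℤ × ℤ, P.1 ≠ 0 → |P.1| ≤ (H : ℤ) → ∀ U : Finset (Ix n → ℤ),
      (∀ a ∈ U, a ∈ S ∧ ev n (arr a) P.1 P.2 = 0) →
      (U.card : ℝ) ≤ (3 * H * (1 / (P.1.natAbs : ℝ))) ^ n * (V / K ^ (n + 1)) := by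
    intro P hP hPH U hU
    have h2 := pt_count n H P hP U fun a ha => ⟨(hS a (hU a ha).1).1, (hU a ha).2⟩
    rw [← hK, ← hV] at h2
    have h3 : |(P.1 : ℝ)| = (P.1.natAbs : ℝ) := by
      rw [Nat.cast_natAbs, Int.cast_abs]
    rw [h3] at h2
    have h4 : (0 : ℝ) < P.1.natAbs := by exact_mod_cast Int.natAbs_pos.2 hP
    have h5 : (P.1.natAbs : ℝ) ≤ H := by
      have : P.1.natAbs ≤ H := by
        rw [Int.abs_eq_natAbs] at hPH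
        omega
      exact_mod_cast this
    have h6 : 2 * H / (P.1.natAbs : ℝ) + 1 ≤ 3 * H * (1 / (P.1.natAbs : ℝ)) := by
      rw [div_add_one h4.ne', mul_one_div]
      gcongr
      linarith
    rw [← mul_div_assoc, le_div_iff₀ (by positivity)]
    refine h2.trans ?_
    gcongr
  -- the sum over the second coordinate
  have h2 : ∀ x : ℤ, x ≠ 0 → |x| ≤ (H : ℤ) → ∀ U : Finset (Ix n → ℤ),
      (∀ a ∈ U, a ∈ S ∧ ∃ y : ℤ, |y| ≤ |x| ∧ ev n (arr a) x y = 0) →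
      (U.card : ℝ) ≤ 3 * (x.natAbs : ℝ) * ((3 * H * (1 / (x.natAbs : ℝ))) ^ n *
        (V / K ^ (n + 1))) := by
    intro x hx hxH U hU
    have h3 := un_cover U (Icc (-|x|) |x|) (fun a y => ev n (arr a) x y = 0) (fun a ha => by
      obtain ⟨-, y, hy, h⟩ := hU a ha
      exact ⟨y, mem_Icc.2 (abs_le.1 hy), h⟩)
      (fun _ => (3 * H * (1 / (x.natAbs : ℝ))) ^ n * (V / K ^ (n + 1))) (fun y _ W hW =>
        h1 (x, y) hx hxH W fun a ha => ⟨(hU a (hW a ha).1).1, (hW a ha).2⟩)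
    refine h3.trans ?_
    rw [sum_const, nsmul_eq_mul, Int.card_Icc]
    have h4 : 1 ≤ x.natAbs := Int.natAbs_pos.2 hx
    have h5 : (|x| + 1 - -|x|).toNat ≤ 3 * x.natAbs := by
      rw [Int.abs_eq_natAbs]
      omega
    have h6 : (((|x| + 1 - -|x|).toNat : ℕ) : ℝ) ≤ 3 * (x.natAbs : ℝ) := by exact_mod_cast h5
    gcongr
  -- the sum over the first coordinate
  have h3 := un_cover S ((Icc (-(H : ℤ)) H).filter (fun x => (A : ℤ) ≤ |x|))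
    (fun a x => ∃ y : ℤ, |y| ≤ |x| ∧ ev n (arr a) x y = 0) (fun a ha => by
      obtain ⟨-, P, ⟨h4, h5⟩, h6, h7⟩ := hS a ha
      exact ⟨P.1, mem_filter.2 ⟨mem_Icc.2 (abs_le.1 h7), h6⟩, P.2, h5, h4⟩)
    (fun x => (fun k : ℕ => 3 * (k : ℝ) * ((3 * H * (1 / (k : ℝ))) ^ n *
        (V / K ^ (n + 1)))) x.natAbs) (fun x hx W hW => by
      rw [mem_filter, mem_Icc] at hx
      refine h2 x ?_ (abs_le.2 hx.1) W hW
      rintro rfl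
      have := hx.2
      rw [abs_zero] at this
      omega)
  refine (h3.trans (un_two A H (fun k : ℕ => 3 * (k : ℝ) * ((3 * H * (1 / (k : ℝ))) ^ n *
    (V / K ^ (n + 1)))) fun k => by positivity)).trans ?_
  have h4 : ∀ k : ℕ, 3 * (k : ℝ) * ((3 * H * (1 / (k : ℝ))) ^ n * (V / K ^ (n + 1))) =
      (3 * (3 * H) ^ n * (V / K ^ (n + 1))) * ((k : ℝ) * (1 / (k : ℝ)) ^ n) := by
    intro k
    rw [mul_pow]
    ring
  rw [sum_congr rfl fun k _ => h4 k, ← mul_sum]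
  have h5 := un_inv A H n hA hn
  calc 2 * (3 * (3 * (H : ℝ)) ^ n * (V / K ^ (n + 1)) * ∑ k ∈ Icc A H, (k : ℝ) * (1 / (k : ℝ)) ^ n) ≤
      2 * (3 * (3 * (H : ℝ)) ^ n * (V / K ^ (n + 1)) * (2 / (A : ℝ) ^ (n - 2))) := by gcongr
    _ = 12 * 3 ^ n / (A : ℝ) ^ (n - 2) * V * ((H : ℝ) ^ n / K ^ (n + 1)) := by
      rw [mul_pow]
      ring
    _ ≤ 12 * 3 ^ n / (A : ℝ) ^ (n - 2) * V * (1 / H) := by
      have h6 : (H : ℝ) ^ n / K ^ (n + 1) ≤ 1 / H := by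
        rw [div_le_div_iff₀ (by positivity) (by positivity), one_mul, ← pow_succ]
        gcongr
      gcongr
    _ = _ := by
      field_simp

/-- boxes of points -/
private theorem un_box (B : ℝ) (hB : 1 ≤ B) {n : ℕ} (S : Finset (Ix n → ℤ)) (Q : (Ix n → ℤ) → ℤ × ℤ → Prop)
    (hS : ∀ a ∈ S, ∃ P : ℤ × ℤ, |P.2| ≤ |P.1| ∧ |(P.1 : ℝ)| ≤ B ∧ Q a P) (c : ℝ) (hc : 0 ≤ c)
    (hQ : ∀ P : ℤ × ℤ, ∀ U : Finset (Ix n → ℤ), (∀ a ∈ U, a ∈ S ∧ Q a P) → (U.card : ℝ) ≤ c) :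
    (S.card : ℝ) ≤ 9 * B ^ 2 * c := by
  have hm : (⌊B⌋₊ : ℝ) ≤ B := Nat.floor_le (by linarith)
  have h1 := un_cover S (Icc (-(⌊B⌋₊ : ℤ)) ⌊B⌋₊ ×ˢ Icc (-(⌊B⌋₊ : ℤ)) ⌊B⌋₊) Q (fun a ha => by
    obtain ⟨P, h1, h2, h3⟩ := hS a ha
    have h4 : P.1.natAbs ≤ ⌊B⌋₊ := by
      apply Nat.le_floor
      rwa [Nat.cast_natAbs, Int.cast_abs]
    have h5 : |P.1| ≤ (⌊B⌋₊ : ℤ) := by
      rw [Int.abs_eq_natAbs]
      omega
    exact ⟨P, mem_product.2 ⟨mem_Icc.2 (abs_le.1 h5), mem_Icc.2 (abs_le.1 (h1.trans h5))⟩, h3⟩)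
    (fun _ => c) (fun P _ => hQ P)
  refine h1.trans ?_
  rw [sum_const, nsmul_eq_mul, card_product, Int.card_Icc]
  have h2 : (((⌊B⌋₊ : ℤ) + 1 - -(⌊B⌋₊ : ℤ)).toNat : ℝ) ≤ 3 * B := by
    have h3 : ((⌊B⌋₊ : ℤ) + 1 - -(⌊B⌋₊ : ℤ)).toNat = 2 * ⌊B⌋₊ + 1 := by omega
    rw [h3]
    push_cast
    linarith
  push_cast
  have h0 : (0 : ℝ) ≤ (((⌊B⌋₊ : ℤ) + 1 - -(⌊B⌋₊ : ℤ)).toNat : ℝ) := Nat.cast_nonneg _
  refine mul_le_mul_of_nonneg_right ?_ hc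
  nlinarith

theorem un_b (n : ℕ) : ∃ C : ℝ, 0 < C ∧ ∀ H : ℕ, 1 ≤ H → ∀ B : ℝ, 1 ≤ B →
    ∀ S : Finset (Ix n → ℤ),
    (∀ a ∈ S, (∀ i, |a i| ≤ (H : ℤ)) ∧ ∃ P : ℤ × ℤ, ZP n (arr a) P ∧
      (H : ℤ) ≤ |P.1| ∧ |(P.1 : ℝ)| ≤ B) →
    (S.card : ℝ) ≤ C * B ^ 2 / (H : ℝ) ^ (n + 1) *
      (2 * H + 1 : ℝ) ^ (Fintype.card (Ix n)) := by
  refine ⟨9 * 3 ^ n, by positivity, fun H hH B hB S hS => ?_⟩
  have hH1 : (1 : ℝ) ≤ H := by exact_mod_cast hH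
  obtain ⟨K, hK⟩ : ∃ K : ℝ, K = 2 * H + 1 := ⟨_, rfl⟩
  have hKH : (H : ℝ) ≤ K := by rw [hK]; linarith
  have hK0 : 0 < K := by linarith
  obtain ⟨V, hV⟩ : ∃ V : ℝ, V = K ^ (Fintype.card (Ix n)) := ⟨_, rfl⟩
  have hV0 : 0 < V := by rw [hV]; positivity
  rw [← hK, ← hV]
  have h1 := un_box B hB S (fun a P => ev n (arr a) P.1 P.2 = 0 ∧ (H : ℤ) ≤ |P.1|) (fun a ha => by
    obtain ⟨-, P, h1, h2, h3⟩ := hS a ha
    exact ⟨P, h1.2, h3, h1.1, h2⟩) (3 ^ n * (V / (H : ℝ) ^ (n + 1))) (by positivity) (by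
    intro P U hU
    rcases U.eq_empty_or_nonempty with rfl | ⟨a0, ha0⟩
    · rw [card_empty, Nat.cast_zero]
      positivity
    · have hPH : (H : ℤ) ≤ |P.1| := (hU a0 ha0).2.2
      have hP : P.1 ≠ 0 := by
        intro h
        rw [h, abs_zero] at hPH
        omega
      have hPr : (H : ℝ) ≤ |(P.1 : ℝ)| := by exact_mod_cast hPH
      have h2 := pt_count n H P hP U fun a ha => ⟨(hS a (hU a ha).1).1, (hU a ha).2.1⟩
      rw [← hK, ← hV] at h2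
      have h3 : 2 * H / |(P.1 : ℝ)| + 1 ≤ 3 := by
        have : 2 * H / |(P.1 : ℝ)| ≤ 2 := by
          rw [div_le_iff₀ (by linarith)]
          linarith
        linarith
      have h4 : 0 ≤ 2 * H / |(P.1 : ℝ)| + 1 := by positivity
      rw [← mul_div_assoc, le_div_iff₀ (by positivity)]
      calc (U.card : ℝ) * (H : ℝ) ^ (n + 1) ≤ (U.card : ℝ) * K ^ (n + 1) := by gcongr
        _ ≤ _ := h2
        _ ≤ _ := by gcongr)
  refine h1.trans (le_of_eq ?_)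
  ring

theorem un_c (n : ℕ) (hn : 1 ≤ n) : ∃ C : ℝ, 0 < C ∧ ∀ H : ℕ, 1 ≤ H → ∀ L B : ℝ, 1 ≤ L →
    L ≤ H → 1 ≤ B → ∀ S : Finset (Ix n → ℤ),
    (∀ a ∈ S, (∀ i, |a i| ≤ (H : ℤ)) ∧ ∃ P : ℤ × ℤ, ZP n (arr a) P ∧
      (H : ℤ) ≤ |P.1| ∧ |(P.1 : ℝ)| ≤ B ∧ dz n (arr a) P ≤ H / L) →
    (S.card : ℝ) ≤ C * B ^ 2 / (L * (H : ℝ) ^ (n + 1)) *
      (2 * H + 1 : ℝ) ^ (Fintype.card (Ix n)) := by
  refine ⟨27 * 3 ^ n, by positivity, fun H hH L B hL hLH hB S hS => ?_⟩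
  have hH1 : (1 : ℝ) ≤ H := by exact_mod_cast hH
  obtain ⟨K, hK⟩ : ∃ K : ℝ, K = 2 * H + 1 := ⟨_, rfl⟩
  have hKH : (H : ℝ) ≤ K := by rw [hK]; linarith
  have hK0 : 0 < K := by linarith
  obtain ⟨V, hV⟩ : ∃ V : ℝ, V = K ^ (Fintype.card (Ix n)) := ⟨_, rfl⟩
  have hV0 : 0 < V := by rw [hV]; positivity
  rw [← hK, ← hV]
  have h1 := un_box B hB S (fun a P => ev n (arr a) P.1 P.2 = 0 ∧ (H : ℤ) ≤ |P.1| ∧
    dz n (arr a) P ≤ H / L) (fun a ha => by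
    obtain ⟨-, P, h1, h2, h3, h4⟩ := hS a ha
    exact ⟨P, h1.2, h3, h1.1, h2, h4⟩) (3 * 3 ^ n * (V / (L * (H : ℝ) ^ (n + 1))))
    (by positivity) (by
    intro P U hU
    rcases U.eq_empty_or_nonempty with rfl | ⟨a0, ha0⟩
    · rw [card_empty, Nat.cast_zero]
      positivity
    · have hPH : (H : ℤ) ≤ |P.1| := (hU a0 ha0).2.2.1
      have hP : P.1 ≠ 0 := by
        intro h
        rw [h, abs_zero] at hPH
        omega
      have hPr : (H : ℝ) ≤ |(P.1 : ℝ)| := by exact_mod_cast hPH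
      have h2 := pt_count_der n hn H L hL P hP U fun a ha =>
        ⟨(hS a (hU a ha).1).1, (hU a ha).2.1, (hU a ha).2.2.2⟩
      rw [← hK, ← hV] at h2
      have h3 : 2 * H / |(P.1 : ℝ)| + 1 ≤ 3 := by
        have : 2 * H / |(P.1 : ℝ)| ≤ 2 := by
          rw [div_le_iff₀ (by linarith)]
          linarith
        linarith
      have h5 : 2 * H / L + 1 ≤ 3 * H / L := by
        rw [div_add_one (by linarith)]
        gcongr
        linarith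
      have h4 : 0 ≤ 2 * H / |(P.1 : ℝ)| + 1 := by positivity
      rw [← mul_div_assoc, le_div_iff₀ (by positivity)]
      have h6 : (U.card : ℝ) * ((H : ℝ) ^ (n + 2)) ≤ 3 * H / L * 3 ^ n * V := by
        calc (U.card : ℝ) * (H : ℝ) ^ (n + 2) ≤ (U.card : ℝ) * K ^ (n + 2) := by gcongr
          _ ≤ _ := h2
          _ ≤ _ := by gcongr
      have h7 : (U.card : ℝ) * (L * (H : ℝ) ^ (n + 1)) * (H / L) ≤ 3 * 3 ^ n * V * (H / L) := by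
        calc (U.card : ℝ) * (L * (H : ℝ) ^ (n + 1)) * (H / L) =
            (U.card : ℝ) * ((H : ℝ) ^ (n + 2)) := by
              field_simp
              ring
          _ ≤ _ := h6
          _ = _ := by ring
      exact le_of_mul_le_mul_right h7 (by positivity))
  refine h1.trans (le_of_eq ?_)
  ring

end Pool.Agent.H15.SC
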