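import Pool.Agent.H15.SC.Core
import Pool.Agent.H15.SC.Un
import Pool.Agent.H15.SC.Ndb
import Pool.Agent.H15.SC.Asy

/-! # [SC S7] Steps (7a) and (2c), (2a), (2b)

`s7a`: `nd_count` with `s = H^(203/600)` (`s² = H^(203/300) ≤ H`, `H/s² = H^(97/300)`,
`s⁴ ≤ X1`), `z = y/x`, `fz_le`; bound `C H^(-203/200)`.
`s7b1`: `un_c`, `L = H^(1/2)`, `B = X2`: `C H^(-1-1/50)`.
`s2a`: `un_a`, `A = ⌈H^(1/8)⌉`; `s2b`: `un_b`, `B = X1`. -/

namespace Pool.Agent.H15.SC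

open Finset Polynomial Pool.Agent.H72.ES Pool.Agent.H8.NoPt Pool.Agent.H8.MP

private theorem bdd_arr {n H : ℕ} {a : Ix n → ℤ} (ha : ∀ i, |a i| ≤ (H : ℤ)) :
    Bdd n H (arr a) := by
  intro i j hij
  unfold arr
  rw [dif_pos hij]
  exact ha _

private theorem rp_pow {h : ℝ} (h0 : 0 ≤ h) (c : ℝ) (k : ℕ) (d : ℝ) (hd : c * k = d) :
    (h ^ c) ^ k = h ^ d := by
  rw [← Real.rpow_natCast, ← Real.rpow_mul h0, hd]

private theorem x1_ge {n H : ℕ} (hn : 5 ≤ n) (hH : 1 ≤ H) {c : ℝ} (hc : c ≤ 249 / 100) :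
    (H : ℝ) ^ c ≤ X1 n H := by
  have h1 : (1 : ℝ) ≤ H := by exact_mod_cast hH
  have hn5 : (5 : ℝ) ≤ n := by exact_mod_cast hn
  unfold X1
  exact Real.rpow_le_rpow_of_exponent_le h1 (by linarith)

theorem s7a (n : ℕ) (hn : 5 ≤ n) : Small n (101 / 100) fun H a => ∃ P : ℤ × ℤ,
    ZP n (arr a) P ∧ X1 n H ≤ |(P.1 : ℝ)| ∧ dz n (arr a) P ≤ (H : ℝ) ^ (97 / 300 : ℝ) := by
  obtain ⟨C, hC0, hC⟩ := nd_count n (by omega)
  refine ⟨C, fun H hH S hS => ?_⟩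
  have h1 : (1 : ℝ) ≤ H := by exact_mod_cast hH
  have h0 : (0 : ℝ) < H := by linarith
  set s : ℝ := (H : ℝ) ^ (203 / 600 : ℝ) with hs
  have hs1 : 1 ≤ s := Real.one_le_rpow h1 (by norm_num)
  have hs2 : s ^ 2 = (H : ℝ) ^ (203 / 300 : ℝ) := rp_pow h0.le _ 2 _ (by norm_num)
  have hs3 : s ^ 3 = (H : ℝ) ^ (203 / 200 : ℝ) := rp_pow h0.le _ 3 _ (by norm_num)
  have hs4 : s ^ 4 = (H : ℝ) ^ (203 / 150 : ℝ) := rp_pow h0.le _ 4 _ (by norm_num)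
  have hb : (1 : ℝ) ≤ 8 ^ n := one_le_pow₀ (by norm_num)
  have hs2H : s ^ 2 ≤ H := by
    rw [hs2]
    calc (H : ℝ) ^ (203 / 300 : ℝ) ≤ (H : ℝ) ^ (1 : ℝ) :=
          Real.rpow_le_rpow_of_exponent_le h1 (by norm_num)
      _ = H := Real.rpow_one _
  have hHs : (H : ℝ) / s ^ 2 = (H : ℝ) ^ (97 / 300 : ℝ) := by
    rw [hs2, div_eq_iff (by positivity), ← Real.rpow_add h0]
    norm_num
  have hs4X : s ^ 4 ≤ X1 n H := by
    rw [hs4]
    exact x1_ge hn hH (by norm_num)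
  refine (hC H hH s hs1 hs2H S fun a ha => ?_).trans ?_
  · obtain ⟨hb1, P, hZ, hX, hd⟩ := hS a ha
    have hX1 : 1 ≤ X1 n H := by
      have := x1_ge (c := 0) hn hH (by norm_num)
      rwa [Real.rpow_zero] at this
    have hxr : 1 ≤ |(P.1 : ℝ)| := hX1.trans hX
    have hx : P.1 ≠ 0 := by
      intro h
      rw [h] at hxr
      norm_num at hxr
    refine ⟨hb1, (P.2 : ℝ) / P.1, ?_, ?_, ?_⟩
    · rw [abs_div]
      have h2 : |(P.2 : ℝ)| ≤ |(P.1 : ℝ)| := by exact_mod_cast hZ.2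
      exact (div_le_one (by linarith)).2 h2
    · have h3 := fz_le (by omega) (bdd_arr hb1) P hZ hx
      have h4 : (((P.2 : ℝ) / P.1 : ℝ) : ℂ) = (P.2 : ℂ) / P.1 := by push_cast; rfl
      rw [h4]
      refine h3.trans ?_
      have h5 : s ^ 4 ≤ |(P.1 : ℝ)| := hs4X.trans hX
      gcongr
    · have h4 : (((P.2 : ℝ) / P.1 : ℝ) : ℂ) = (P.2 : ℂ) / P.1 := by push_cast; rfl
      rw [h4]
      have h5 : ‖(derivative (hp n (arr a))).eval ((P.2 : ℂ) / P.1)‖ ≤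
          (H : ℝ) ^ (97 / 300 : ℝ) := hd
      refine h5.trans ?_
      rw [← hHs, mul_div_assoc]
      exact le_mul_of_one_le_left (by positivity) hb
  · refine mul_le_mul_of_nonneg_right ?_ (by positivity)
    rw [hs3, div_eq_mul_inv, ← Real.rpow_neg h0.le]
    refine mul_le_mul_of_nonneg_left ?_ hC0.le
    exact Real.rpow_le_rpow_of_exponent_le h1 (by norm_num)

theorem s7b1 (n : ℕ) (hn : 5 ≤ n) : Small n (101 / 100) fun H a => ∃ P : ℤ × ℤ,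
    ZP n (arr a) P ∧ X1 n H ≤ |(P.1 : ℝ)| ∧ |(P.1 : ℝ)| ≤ X2 n H ∧
      dz n (arr a) P ≤ (H : ℝ) ^ (1 / 2 : ℝ) := by
  obtain ⟨C, hC0, hC⟩ := un_c n (by omega)
  refine ⟨C, fun H hH S hS => ?_⟩
  have h1 : (1 : ℝ) ≤ H := by exact_mod_cast hH
  have h0 : (0 : ℝ) < H := by linarith
  have hn5 : (5 : ℝ) ≤ n := by exact_mod_cast hn
  set L : ℝ := (H : ℝ) ^ (1 / 2 : ℝ) with hL
  have hL1 : 1 ≤ L := Real.one_le_rpow h1 (by norm_num)
  have hLH : L ≤ H := by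
    calc L ≤ (H : ℝ) ^ (1 : ℝ) := Real.rpow_le_rpow_of_exponent_le h1 (by norm_num)
      _ = H := Real.rpow_one _
  have hB1 : 1 ≤ X2 n H := Real.one_le_rpow h1 (by linarith)
  have hHL : (H : ℝ) / L = (H : ℝ) ^ (1 / 2 : ℝ) := by
    rw [div_eq_iff (by positivity), hL, ← Real.rpow_add h0]
    norm_num
  have hX1 : (H : ℝ) ≤ X1 n H := by
    have := x1_ge (c := 1) hn hH (by norm_num)
    rwa [Real.rpow_one] at this
  refine (hC H hH L (X2 n H) hL1 hLH hB1 S fun a ha => ?_).trans ?_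
  · obtain ⟨hb1, P, hZ, hX, hX2, hd⟩ := hS a ha
    refine ⟨hb1, P, hZ, ?_, hX2, ?_⟩
    · have := hX1.trans hX
      exact_mod_cast this
    · rw [hHL]
      exact hd
  · refine mul_le_mul_of_nonneg_right ?_ (by positivity)
    rw [mul_div_assoc]
    refine mul_le_mul_of_nonneg_left ?_ hC0.le
    have h2 : (X2 n H) ^ 2 = (H : ℝ) ^ ((n : ℝ) + 1 / 2 - 1 / 50) := by
      unfold X2
      exact rp_pow h0.le _ 2 _ (by push_cast; ring)
    have h3 : L * (H : ℝ) ^ (n + 1) = (H : ℝ) ^ ((n : ℝ) + 3 / 2) := by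
      rw [hL, ← Real.rpow_natCast, ← Real.rpow_add h0]
      congr 1
      push_cast
      ring
    rw [h2, h3, ← Real.rpow_sub h0]
    exact Real.rpow_le_rpow_of_exponent_le h1 (by linarith)

theorem s2a (n : ℕ) (hn : 5 ≤ n) : Small n (101 / 100) fun H a => ∃ P : ℤ × ℤ,
    ZP n (arr a) P ∧ (H : ℝ) ^ (1 / 8 : ℝ) ≤ |(P.1 : ℝ)| ∧ |(P.1 : ℝ)| ≤ H := by
  obtain ⟨C, hC0, hC⟩ := un_a n (by omega)
  refine ⟨C, fun H hH S hS => ?_⟩
  have h1 : (1 : ℝ) ≤ H := by exact_mod_cast hH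
  have h0 : (0 : ℝ) < H := by linarith
  set A : ℕ := ⌈(H : ℝ) ^ (1 / 8 : ℝ)⌉₊ with hA
  have hAr : (H : ℝ) ^ (1 / 8 : ℝ) ≤ A := Nat.le_ceil _
  have h2 : 1 ≤ (H : ℝ) ^ (1 / 8 : ℝ) := Real.one_le_rpow h1 (by norm_num)
  have hA1 : 1 ≤ A := by
    have : (1 : ℝ) ≤ A := h2.trans hAr
    exact_mod_cast this
  refine (hC H hH A hA1 S fun a ha => ?_).trans ?_
  · obtain ⟨hb1, P, hZ, hX, hX2⟩ := hS a ha
    refine ⟨hb1, P, hZ, ?_, ?_⟩
    · have h3 : A ≤ P.1.natAbs := by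
        rw [hA]
        refine Nat.ceil_le.2 ?_
        rw [Nat.cast_natAbs]
        exact_mod_cast hX
      have h4 : ((P.1.natAbs : ℕ) : ℤ) = |P.1| := Int.natCast_natAbs _
      rw [← h4]
      exact_mod_cast h3
    · exact_mod_cast hX2
  · refine mul_le_mul_of_nonneg_right ?_ (by positivity)
    rw [div_eq_mul_inv]
    refine mul_le_mul_of_nonneg_left ?_ hC0.le
    have h3 : (H : ℝ) ^ (101 / 100 : ℝ) ≤ H * (A : ℝ) ^ (n - 2) := by
      calc (H : ℝ) ^ (101 / 100 : ℝ) ≤ (H : ℝ) ^ (11 / 8 : ℝ) :=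
            Real.rpow_le_rpow_of_exponent_le h1 (by norm_num)
        _ = H * ((H : ℝ) ^ (1 / 8 : ℝ)) ^ 3 := by
            rw [rp_pow h0.le (1 / 8) 3 (3 / 8) (by norm_num)]
            nth_rewrite 2 [← Real.rpow_one (H : ℝ)]
            rw [← Real.rpow_add h0]
            norm_num
        _ ≤ H * ((H : ℝ) ^ (1 / 8 : ℝ)) ^ (n - 2) := by
            refine mul_le_mul_of_nonneg_left ?_ h0.le
            exact pow_le_pow_right₀ h2 (by omega)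
        _ ≤ H * (A : ℝ) ^ (n - 2) := by gcongr
    rw [Real.rpow_neg h0.le]
    exact inv_anti₀ (by positivity) h3

theorem s2b (n : ℕ) (hn : 5 ≤ n) : Small n (101 / 100) fun H a => ∃ P : ℤ × ℤ,
    ZP n (arr a) P ∧ (H : ℝ) ≤ |(P.1 : ℝ)| ∧ |(P.1 : ℝ)| ≤ X1 n H := by
  obtain ⟨C, hC0, hC⟩ := un_b n
  refine ⟨C, fun H hH S hS => ?_⟩
  have h1 : (1 : ℝ) ≤ H := by exact_mod_cast hH
  have h0 : (0 : ℝ) < H := by linarith
  have hn5 : (5 : ℝ) ≤ n := by exact_mod_cast hn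
  have hB1 : 1 ≤ X1 n H := Real.one_le_rpow h1 (by linarith)
  refine (hC H hH (X1 n H) hB1 S fun a ha => ?_).trans ?_
  · obtain ⟨hb1, P, hZ, hX, hX2⟩ := hS a ha
    refine ⟨hb1, P, hZ, ?_, hX2⟩
    exact_mod_cast hX
  · refine mul_le_mul_of_nonneg_right ?_ (by positivity)
    rw [mul_div_assoc]
    refine mul_le_mul_of_nonneg_left ?_ hC0.le
    have h2 : (X1 n H) ^ 2 = (H : ℝ) ^ ((n : ℝ) - 1 / 50) := by
      unfold X1
      exact rp_pow h0.le _ 2 _ (by push_cast; ring)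
    have h3 : (H : ℝ) ^ (n + 1) = (H : ℝ) ^ ((n : ℝ) + 1) := by
      rw [← Real.rpow_natCast]
      congr 1
      push_cast
      ring
    rw [h2, h3, ← Real.rpow_sub h0]
    exact Real.rpow_le_rpow_of_exponent_le h1 (by linarith)

end Pool.Agent.H15.SC
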