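import Pool.Agent.H15.SC.S7b

/-! # [SC S7C] Step (7c), dyadic classes

`H` large. `H/dz ∈ [H^(11/50), H^(1/2)]`; `k` with `2^k ≤ H/dz < 2^(k+1)` (`k ≤ log₂ H`);
`2^(k+1) > H^(11/50)`, `2^k ≤ H^(1/2)`. `S_k = ` the `a ∈ S` with a zero of class `k`
(`card_biUnion_le` over `k ≤ log₂ H + 1 ≤ 2 (1 + log H)`). For each `k`: `M' = 2^k/2 ≥ 1`,
`Q = ¬ Simp n H M'` (`not_simp`, `H/M' > dz`), `φ = 8^(3n+2)/M'^2 = 4 * 8^(3n+2)/4^k`, `frc` with
`M = 2^(k+1)`, `X0 = X1`: `φ (M + M⁵/X0) ≤ C (2^(-k) + 8^k/X1) ≤ 4 C H^(-11/50)`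
(`8^k ≤ H^(3/2)`, `X1 ≥ H^(249/100)`), so the bound is
`C H^(-11/50 + 1/5 - 1) (1 + log H)² = C H^(-51/50) (1 + log H)²`; `small_of_large`. -/

namespace Pool.Agent.H15.SC

open Finset Polynomial Pool.Agent.H72.ES Pool.Agent.H8.NoPt Pool.Agent.H8.MP

/-- the constant for one class -/
private noncomputable def cst (n : ℕ) : ℝ := 8 ^ (24 * n) * (8 ^ (3 * n + 2) * 144)

private theorem cst_pos (n : ℕ) : 0 < cst n := by unfold cst; positivity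

/-- `H` large -/
private theorem large (n : ℕ) : ∃ H0 : ℕ, ∀ H : ℕ, H0 ≤ H →
    (4 : ℝ) ≤ (H : ℝ) ^ (11 / 50 : ℝ) ∧ (8 : ℝ) ^ (4 * n) * 4 ≤ (H : ℝ) ^ (149 / 100 : ℝ) := by
  have h1 : Filter.Tendsto (fun H : ℕ => (H : ℝ) ^ (11 / 50 : ℝ)) Filter.atTop Filter.atTop :=
    (tendsto_rpow_atTop (by norm_num)).comp tendsto_natCast_atTop_atTop
  have h2 : Filter.Tendsto (fun H : ℕ => (H : ℝ) ^ (149 / 100 : ℝ)) Filter.atTop Filter.atTop :=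
    (tendsto_rpow_atTop (by norm_num)).comp tendsto_natCast_atTop_atTop
  have h3 := (h1.eventually_ge_atTop 4).and (h2.eventually_ge_atTop ((8 : ℝ) ^ (4 * n) * 4))
  obtain ⟨H0, hH0⟩ := Filter.eventually_atTop.1 h3
  exact ⟨H0, fun H hH => hH0 H hH⟩

/-- one dyadic class -/
private theorem one_class (n : ℕ) (hn : 5 ≤ n) (H : ℕ) (hH2 : 2 ≤ H)
    (hl1 : (4 : ℝ) ≤ (H : ℝ) ^ (11 / 50 : ℝ))
    (hl2 : (8 : ℝ) ^ (4 * n) * 4 ≤ (H : ℝ) ^ (149 / 100 : ℝ)) (k : ℕ)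
    (hk1 : (2 : ℝ) ^ k ≤ (H : ℝ) ^ (1 / 2 : ℝ))
    (hk2 : (H : ℝ) ^ (11 / 50 : ℝ) < 2 ^ (k + 1)) (S : Finset (Ix n → ℤ))
    (hS : ∀ a ∈ S, (∀ i, |a i| ≤ (H : ℤ)) ∧ LeadIrr n (arr a) ∧
      ∃ P : ℤ × ℤ, ZP n (arr a) P ∧ X1 n H ≤ |(P.1 : ℝ)| ∧ 0 < dz n (arr a) P ∧
        2 ^ k * dz n (arr a) P ≤ H ∧ (H : ℝ) < 2 ^ (k + 1) * dz n (arr a) P) :
    (S.card : ℝ) ≤ cst n * (1 + Real.log H) * (H : ℝ) ^ (-(51 / 50) : ℝ) *
      (2 * H + 1 : ℝ) ^ (Fintype.card (Ix n)) := by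
  have h1 : (1 : ℝ) ≤ H := by
    have : (2 : ℝ) ≤ H := by exact_mod_cast hH2
    linarith
  have h0 : (0 : ℝ) < H := by linarith
  have hlog : 0 ≤ Real.log H := Real.log_nonneg h1
  -- `k ≥ 1`
  have hk0 : (2 : ℝ) ≤ 2 ^ k := by
    have : (4 : ℝ) < 2 ^ (k + 1) := lt_of_le_of_lt hl1 hk2
    rw [pow_succ] at this
    linarith
  have hkpos : (0 : ℝ) < 2 ^ k := by positivity
  -- squares
  have hsq : ((2 : ℝ) ^ k) ^ 2 ≤ H := by
    have h3 : ((2 : ℝ) ^ k) ^ 2 ≤ ((H : ℝ) ^ (1 / 2 : ℝ)) ^ 2 := pow_le_pow_left₀ hkpos.le hk1 2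
    have h4 : ((H : ℝ) ^ (1 / 2 : ℝ)) ^ 2 = H := by
      rw [← Real.rpow_natCast, ← Real.rpow_mul h0.le]
      norm_num
    rwa [h4] at h3
  -- `X1`
  have hX1 : (H : ℝ) ^ (249 / 100 : ℝ) ≤ X1 n H := by
    unfold X1
    apply Real.rpow_le_rpow_of_exponent_le h1
    have : (5 : ℝ) ≤ n := by exact_mod_cast hn
    linarith
  have hX1' : (8 : ℝ) ^ (4 * n) * (4 * H) ≤ X1 n H := by
    refine le_trans ?_ hX1
    calc (8 : ℝ) ^ (4 * n) * (4 * H) = (8 : ℝ) ^ (4 * n) * 4 * H := by ring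
      _ ≤ (H : ℝ) ^ (149 / 100 : ℝ) * H := by gcongr
      _ = (H : ℝ) ^ (249 / 100 : ℝ) := by
        nth_rewrite 2 [← Real.rpow_one (H : ℝ)]
        rw [← Real.rpow_add h0]
        norm_num
  have hX1p : 0 < X1 n H := lt_of_lt_of_le (by positivity) hX1
  set M' : ℝ := 2 ^ k / 2 with hM'
  have hM'1 : 1 ≤ M' := by rw [hM']; linarith
  have hM'0 : 0 < M' := by linarith
  have hM'H : M' ^ 2 ≤ H := by
    rw [hM', div_pow]
    have : (0 : ℝ) ≤ (2 ^ k) ^ 2 := by positivity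
    linarith
  have key := frc n (by omega) H hH2 (8 ^ (3 * n + 2) / M' ^ 2) (by positivity)
    (fun a => ¬ Simp n H M' (arr a))
    (fun a b hab ha => simp_const (by omega) M' hab ha)
    (fun T hT => by
      have := simp_count n (by omega) H M' hM'1 hM'H T hT
      calc _ ≤ _ := this
        _ = _ := by ring)
    (2 ^ (k + 1)) (X1 n H) (one_le_pow₀ (by norm_num))
    (by
      refine le_trans ?_ hX1'
      have : ((2 : ℝ) ^ (k + 1)) ^ 2 ≤ 4 * H := by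
        rw [pow_succ (2 : ℝ) k, mul_pow]
        linarith
      gcongr) S
    (fun a ha => by
      obtain ⟨hb, hirr, P, hP, hPX, hd0, hd1, hd2⟩ := hS a ha
      have hF : Bdd n H (arr a) := by
        intro i j hij
        unfold arr
        rw [dif_pos hij]
        exact hb _
      have hPne : P.1 ≠ 0 := by
        intro h
        rw [h] at hPX
        simp at hPX
        linarith
      refine ⟨hb, ?_, hirr, P, hP, hPX, ?_⟩
      · refine not_simp (by omega) hF P hP hPne M' hM'1 ?_ (by omega) ?_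
        · refine lt_of_lt_of_le ?_ hPX
          refine lt_of_lt_of_le ?_ hX1'
          have e1 : (8 : ℝ) ^ n ≤ 8 ^ (4 * n) := pow_le_pow_right₀ (by norm_num) (by omega)
          have e2 : M' ^ 2 < 4 * H := by linarith
          have e3 : (8 : ℝ) ^ n * M' ^ 2 ≤ (8 : ℝ) ^ (4 * n) * M' ^ 2 := by gcongr
          have e4 : (8 : ℝ) ^ (4 * n) * M' ^ 2 < (8 : ℝ) ^ (4 * n) * (4 * (H : ℝ)) := by gcongr
          exact lt_of_le_of_lt e3 e4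
        · rw [lt_div_iff₀ hM'0, hM']
          have : 0 < dz n (arr a) P * 2 ^ k := by positivity
          nlinarith
      · rw [div_le_iff₀ (by positivity)]
        linarith)
  refine key.trans ?_
  refine mul_le_mul_of_nonneg_right ?_ (by positivity)
  -- the main factor
  have hpow : (H : ℝ) ^ (1 / (n : ℝ)) ≤ (H : ℝ) ^ (1 / 5 : ℝ) := by
    apply Real.rpow_le_rpow_of_exponent_le h1
    have : (5 : ℝ) ≤ n := by exact_mod_cast hn
    exact one_div_le_one_div_of_le (by norm_num) this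
  have hmain : 8 ^ (3 * n + 2) / M' ^ 2 * ((2 : ℝ) ^ (k + 1) + (2 ^ (k + 1)) ^ 5 / X1 n H) ≤
      8 ^ (3 * n + 2) * 144 * (H : ℝ) ^ (-(11 / 50) : ℝ) := by
    have e1 : 8 ^ (3 * n + 2) / M' ^ 2 * ((2 : ℝ) ^ (k + 1) + (2 ^ (k + 1)) ^ 5 / X1 n H) =
        8 ^ (3 * n + 2) * (8 / 2 ^ k + 128 * ((2 ^ k) ^ 3 / X1 n H)) := by
      rw [hM', pow_succ (2 : ℝ) k]
      field_simp
      ring
    rw [e1, mul_assoc]
    refine mul_le_mul_of_nonneg_left ?_ (by positivity)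
    have e2 : (8 : ℝ) / 2 ^ k ≤ 16 * (H : ℝ) ^ (-(11 / 50) : ℝ) := by
      rw [Real.rpow_neg h0.le, div_le_iff₀ hkpos]
      have h5 : (0 : ℝ) < (H : ℝ) ^ (11 / 50 : ℝ) := by positivity
      rw [mul_assoc, ← div_eq_inv_mul, ← mul_div_assoc, le_div_iff₀ h5]
      rw [pow_succ] at hk2
      linarith
    have e3 : ((2 : ℝ) ^ k) ^ 3 / X1 n H ≤ (H : ℝ) ^ (-(11 / 50) : ℝ) := by
      rw [div_le_iff₀ hX1p]
      have h5 : ((2 : ℝ) ^ k) ^ 3 ≤ (H : ℝ) ^ (3 / 2 : ℝ) := by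
        calc ((2 : ℝ) ^ k) ^ 3 ≤ ((H : ℝ) ^ (1 / 2 : ℝ)) ^ 3 := pow_le_pow_left₀ hkpos.le hk1 3
          _ = (H : ℝ) ^ (3 / 2 : ℝ) := by
            rw [← Real.rpow_natCast, ← Real.rpow_mul h0.le]
            norm_num
      calc ((2 : ℝ) ^ k) ^ 3 ≤ (H : ℝ) ^ (3 / 2 : ℝ) := h5
        _ ≤ (H : ℝ) ^ (-(11 / 50) + 249 / 100 : ℝ) := by
          apply Real.rpow_le_rpow_of_exponent_le h1
          norm_num
        _ = (H : ℝ) ^ (-(11 / 50) : ℝ) * (H : ℝ) ^ (249 / 100 : ℝ) := Real.rpow_add h0 _ _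
        _ ≤ _ := by gcongr
    linarith
  calc 8 ^ (24 * n) * (8 ^ (3 * n + 2) / M' ^ 2) *
        ((2 : ℝ) ^ (k + 1) + (2 ^ (k + 1)) ^ 5 / X1 n H) * (1 + Real.log H) *
        (H : ℝ) ^ (1 / (n : ℝ)) / H
      = 8 ^ (24 * n) * (8 ^ (3 * n + 2) / M' ^ 2 *
        ((2 : ℝ) ^ (k + 1) + (2 ^ (k + 1)) ^ 5 / X1 n H)) * (1 + Real.log H) *
        ((H : ℝ) ^ (1 / (n : ℝ)) / H) := by ring
    _ ≤ 8 ^ (24 * n) * (8 ^ (3 * n + 2) * 144 * (H : ℝ) ^ (-(11 / 50) : ℝ)) *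
        (1 + Real.log H) * ((H : ℝ) ^ (1 / 5 : ℝ) / H) := by gcongr
    _ = cst n * (1 + Real.log H) * ((H : ℝ) ^ (-(11 / 50) : ℝ) * (H : ℝ) ^ (1 / 5 : ℝ) / H) := by
        unfold cst; ring
    _ = cst n * (1 + Real.log H) * (H : ℝ) ^ (-(51 / 50) : ℝ) := by
        congr 1
        rw [div_eq_mul_inv, ← Real.rpow_add h0, ← Real.rpow_neg_one (H : ℝ),
          ← Real.rpow_add h0]
        norm_num

theorem s7c (n : ℕ) (hn : 5 ≤ n) : Small n (101 / 100) fun H a => LeadIrr n (arr a) ∧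
    ∃ P : ℤ × ℤ, ZP n (arr a) P ∧ X1 n H ≤ |(P.1 : ℝ)| ∧
      (H : ℝ) ^ (1 / 2 : ℝ) ≤ dz n (arr a) P ∧ dz n (arr a) P ≤ (H : ℝ) ^ (39 / 50 : ℝ) := by
  classical
  obtain ⟨H0, hH0⟩ := large n
  refine small_of_large (s := 51 / 50) (by norm_num) H0 (2 * cst n) 2 fun H hH hH2 S hS => ?_
  obtain ⟨hl1, hl2⟩ := hH0 H hH
  have h1 : (1 : ℝ) ≤ H := by
    have : (2 : ℝ) ≤ H := by exact_mod_cast hH2
    linarith
  have h0 : (0 : ℝ) < H := by linarith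
  have hlog : 0 ≤ Real.log H := Real.log_nonneg h1
  set R : ℕ → (Ix n → ℤ) → Prop := fun k a => (2 : ℝ) ^ k ≤ (H : ℝ) ^ (1 / 2 : ℝ) ∧
    (H : ℝ) ^ (11 / 50 : ℝ) < 2 ^ (k + 1) ∧
    ∃ P : ℤ × ℤ, ZP n (arr a) P ∧ X1 n H ≤ |(P.1 : ℝ)| ∧ 0 < dz n (arr a) P ∧
        2 ^ k * dz n (arr a) P ≤ H ∧ (H : ℝ) < 2 ^ (k + 1) * dz n (arr a) P with hR
  have hcov : S ⊆ (range (Nat.log 2 H + 1)).biUnion fun k => S.filter (R k) := by
    intro a ha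
    obtain ⟨hb, hirr, P, hP, hPX, hd1, hd2⟩ := hS a ha
    have hd0 : 0 < dz n (arr a) P := lt_of_lt_of_le (by positivity) hd1
    have ht1 : (1 : ℝ) ≤ H / dz n (arr a) P := by
      rw [le_div_iff₀ hd0, one_mul]
      refine hd2.trans ?_
      calc (H : ℝ) ^ (39 / 50 : ℝ) ≤ (H : ℝ) ^ (1 : ℝ) :=
            Real.rpow_le_rpow_of_exponent_le h1 (by norm_num)
        _ = H := Real.rpow_one _
    obtain ⟨k, hk1, hk2⟩ := exists_nat_pow_near ht1 (by norm_num : (1 : ℝ) < 2)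
    have hk1' : 2 ^ k * dz n (arr a) P ≤ H := by rwa [le_div_iff₀ hd0] at hk1
    have hk2' : (H : ℝ) < 2 ^ (k + 1) * dz n (arr a) P := by rwa [div_lt_iff₀ hd0] at hk2
    have hk3 : (2 : ℝ) ^ k ≤ (H : ℝ) ^ (1 / 2 : ℝ) := by
      refine hk1.trans ?_
      rw [div_le_iff₀ hd0]
      calc (H : ℝ) = (H : ℝ) ^ (1 / 2 : ℝ) * (H : ℝ) ^ (1 / 2 : ℝ) := by
            rw [← Real.rpow_add h0]; norm_num
        _ ≤ _ := by gcongr
    have hk4 : (H : ℝ) ^ (11 / 50 : ℝ) < 2 ^ (k + 1) := by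
      refine lt_of_le_of_lt ?_ hk2
      rw [le_div_iff₀ hd0]
      calc (H : ℝ) ^ (11 / 50 : ℝ) * dz n (arr a) P
          ≤ (H : ℝ) ^ (11 / 50 : ℝ) * (H : ℝ) ^ (39 / 50 : ℝ) := by gcongr
        _ = H := by rw [← Real.rpow_add h0]; norm_num
    have hkH : 2 ^ k ≤ H := by
      have : (2 : ℝ) ^ k ≤ H := by
        refine hk3.trans ?_
        calc (H : ℝ) ^ (1 / 2 : ℝ) ≤ (H : ℝ) ^ (1 : ℝ) :=
            Real.rpow_le_rpow_of_exponent_le h1 (by norm_num)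
        _ = H := Real.rpow_one _
      exact_mod_cast this
    rw [mem_biUnion]
    refine ⟨k, ?_, ?_⟩
    · rw [mem_range]
      have := Nat.le_log_of_pow_le (by norm_num) hkH
      omega
    · rw [mem_filter]
      exact ⟨ha, hk3, hk4, P, hP, hPX, hd0, hk1', hk2'⟩
  set B : ℝ := cst n * (1 + Real.log H) * (H : ℝ) ^ (-(51 / 50) : ℝ) *
      (2 * H + 1 : ℝ) ^ (Fintype.card (Ix n)) with hB
  have hc0 := cst_pos n
  have hB0 : 0 ≤ B := by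
    rw [hB]; positivity
  have hone : ∀ k, (((S.filter (R k)).card : ℕ) : ℝ) ≤ B := by
    intro k
    by_cases hk : (2 : ℝ) ^ k ≤ (H : ℝ) ^ (1 / 2 : ℝ) ∧ (H : ℝ) ^ (11 / 50 : ℝ) < 2 ^ (k + 1)
    · refine one_class n hn H hH2 hl1 hl2 k hk.1 hk.2 _ fun a ha => ?_
      obtain ⟨haS, _, _, h⟩ := mem_filter.1 ha
      exact ⟨(hS a haS).1, (hS a haS).2.1, h⟩
    · have : S.filter (R k) = ∅ := by
        rw [filter_eq_empty_iff]
        intro a _ h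
        exact hk ⟨h.1, h.2.1⟩
      rw [this]
      simpa using hB0
  have hcount : ((Nat.log 2 H + 1 : ℕ) : ℝ) ≤ 2 * (1 + Real.log H) := by
    have e1 : (2 : ℝ) ^ Nat.log 2 H ≤ H := by
      have := Nat.pow_log_le_self 2 (by omega : H ≠ 0)
      exact_mod_cast this
    have e2 : (Nat.log 2 H : ℝ) * Real.log 2 ≤ Real.log H := by
      have := Real.log_le_log (by positivity) e1
      rwa [Real.log_pow] at this
    have e3 : (1 / 2 : ℝ) ≤ Real.log 2 := by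
      have := Real.log_two_gt_d9
      linarith
    have e4 : (0 : ℝ) ≤ (Nat.log 2 H : ℝ) := Nat.cast_nonneg _
    push_cast
    nlinarith
  calc (S.card : ℝ) ≤ (((range (Nat.log 2 H + 1)).biUnion fun k => S.filter (R k)).card : ℝ) := by
        exact_mod_cast card_le_card hcov
    _ ≤ ∑ k ∈ range (Nat.log 2 H + 1), (((S.filter (R k)).card : ℕ) : ℝ) := by
        exact_mod_cast card_biUnion_le
    _ ≤ ∑ _k ∈ range (Nat.log 2 H + 1), B := sum_le_sum fun k _ => hone k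
    _ = ((Nat.log 2 H + 1 : ℕ) : ℝ) * B := by
        rw [sum_const, card_range, nsmul_eq_mul]
    _ ≤ 2 * (1 + Real.log H) * B := by gcongr
    _ = _ := by rw [hB]; ring

end Pool.Agent.H15.SC
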