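import Pool.Agent.H15.SC.Cl
import Pool.Agent.H8.NoPt.Final

/-! # [SC CLT] Few points at constant level (Step 6)

Points with `|x| ≤ Y = H^(2500 n⁴)`: `cl_count`, `log Y = 2500 n⁴ log H`; the others satisfy
`H^(2500 n⁴) < |x| ≤ max |x| |y|`: `bigPts n`: at most `1000 n⁴ H^(1/n)`. `M + M⁵/X0 ≥ 1`. -/

namespace Pool.Agent.H15.SC

open Finset Polynomial Pool.Agent.H72.ES Pool.Agent.H8.NoPt Pool.Agent.H8.MP

/-- the points of very large height, without absolute values -/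
private theorem big_of {n : ℕ} (hn : 4 ≤ n) {H : ℕ} (hH : 2 ≤ H) {G : ℕ → ℕ → ℤ}
    (hG : Bdd n H G) (hI : LeadIrr n G) (S : Finset (ℤ × ℤ))
    (hS : ∀ P ∈ S, |ev n G P.1 P.2| ≤ (H : ℤ) ∧ (H : ℤ) ^ (2500 * n ^ 4) < max |P.1| |P.2|) :
    (S.card : ℝ) ≤ 1000 * n ^ 4 * (H : ℝ) ^ (1 / (n : ℝ)) :=
  bigPts n hn H hH G hG hI S hS

theorem clt_count {n H : ℕ} (hn : 4 ≤ n) (hH : 2 ≤ H) {G : ℕ → ℕ → ℤ} (hG : Bdd n H G)
    (h0 : G 0 0 = 0) (hI : LeadIrr n G) (M X0 : ℝ) (hM : 1 ≤ M)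
    (hX0 : (8 : ℝ) ^ (4 * n) * M ^ 2 ≤ X0) (S : Finset (ℤ × ℤ))
    (hS : ∀ P ∈ S, |ev n G P.1 P.2| ≤ (H : ℤ) ∧ |P.2| ≤ |P.1| ∧ X0 ≤ |(P.1 : ℝ)| ∧
      (H : ℝ) / M ≤ dz n G P) :
    (S.card : ℝ) ≤ 8 ^ (24 * n) * (M + M ^ 5 / X0) * (1 + Real.log H) *
      (H : ℝ) ^ (1 / (n : ℝ)) := by
  classical
  have hH1 : (1 : ℝ) ≤ H := by exact_mod_cast (by omega : 1 ≤ H)
  have hH0 : (0 : ℝ) < H := by linarith
  have hM0 : 0 < M := by linarith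
  have hlog : 0 ≤ Real.log H := Real.log_nonneg hH1
  have hnR : (4 : ℝ) ≤ n := by exact_mod_cast hn
  have h8 : (1 : ℝ) ≤ 8 ^ (4 * n) := one_le_pow₀ (by norm_num)
  have hX01 : 1 ≤ X0 := by
    have h3 : 1 ≤ M ^ 2 := one_le_pow₀ hM
    nlinarith
  have hX00 : 0 < X0 := by linarith
  set HR : ℝ := (H : ℝ) ^ (1 / (n : ℝ)) with hHR
  have hHR1 : 1 ≤ HR := Real.one_le_rpow hH1 (by positivity)
  set B : ℝ := M + M ^ 5 / X0 with hB
  have hB1 : 1 ≤ B := by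
    have : 0 ≤ M ^ 5 / X0 := by positivity
    rw [hB]; linarith
  set Y : ℝ := (H : ℝ) ^ (2500 * n ^ 4) with hY
  have hY1 : 1 ≤ Y := one_le_pow₀ hH1
  have hlogY : Real.log Y = 2500 * (n : ℝ) ^ 4 * Real.log H := by
    rw [hY, Real.log_pow]
    push_cast
    ring
  have h1 := cl_count hn (by omega) hG h0 (hI.nz (by omega)) M X0 Y hM hX0 hY1
    (S.filter fun P => |(P.1 : ℝ)| ≤ Y) (fun P hP => by
      rw [mem_filter] at hP
      obtain ⟨g1, g2, g3, g4⟩ := hS P hP.1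
      exact ⟨g1, g2, g3, hP.2, g4⟩)
  have h2 := big_of hn hH hG hI (S.filter fun P => ¬ |(P.1 : ℝ)| ≤ Y) (fun P hP => by
      rw [mem_filter] at hP
      obtain ⟨g1, g2, g3, g4⟩ := hS P hP.1
      refine ⟨g1, lt_of_lt_of_le ?_ (le_max_left _ _)⟩
      have h3 := not_le.1 hP.2
      rw [hY] at h3
      exact_mod_cast h3)
  have h3 := card_filter_add_card_filter_not (s := S) (fun P => |(P.1 : ℝ)| ≤ Y)
  have h4 : (S.card : ℝ) = ((S.filter fun P => |(P.1 : ℝ)| ≤ Y).card : ℝ) +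
      ((S.filter fun P => ¬ |(P.1 : ℝ)| ≤ Y).card : ℝ) := by exact_mod_cast h3.symm
  have hl1 : 1 ≤ 1 + Real.log H := by linarith
  have hn4 : (1 : ℝ) ≤ 2500 * (n : ℝ) ^ 4 := by
    have : (1 : ℝ) ≤ (n : ℝ) ^ 4 := one_le_pow₀ (by linarith)
    linarith
  have h5 : 1 + Real.log Y ≤ 2500 * (n : ℝ) ^ 4 * (1 + Real.log H) := by
    rw [hlogY]
    nlinarith
  have h6 : (8 : ℝ) ^ (16 * n) * (2500 * (n : ℝ) ^ 4) + 1000 * (n : ℝ) ^ 4 ≤ 8 ^ (24 * n) := by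
    have h7 : 3500 * (n : ℝ) ^ 4 ≤ 8 ^ (8 * n) := by
      have : ∀ m : ℕ, 4 ≤ m → 3500 * m ^ 4 ≤ 8 ^ (8 * m) := by
        intro m hm
        induction m, hm using Nat.le_induction with
        | base => norm_num
        | succ k hk ih =>
          have e1 : 8 ^ (8 * (k + 1)) = 16777216 * 8 ^ (8 * k) := by ring
          have e2 : (k + 1) ^ 4 ≤ (2 * k) ^ 4 := Nat.pow_le_pow_left (by omega) 4
          have e3 : (2 * k) ^ 4 = 16 * k ^ 4 := by ring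
          rw [e1]
          omega
      exact_mod_cast this n hn
    have h8' : (1 : ℝ) ≤ 8 ^ (16 * n) := one_le_pow₀ (by norm_num)
    have h9 : (8 : ℝ) ^ (24 * n) = 8 ^ (16 * n) * 8 ^ (8 * n) := by
      rw [← pow_add]
      congr 1
      ring
    rw [h9]
    have h10 : 0 ≤ (n : ℝ) ^ 4 := by positivity
    nlinarith
  rw [h4]
  have h11 : 1000 * (n : ℝ) ^ 4 * HR ≤ 1000 * (n : ℝ) ^ 4 * B * (1 + Real.log H) * HR := by
    have h12 : 1 ≤ B * (1 + Real.log H) := one_le_mul_of_one_le_of_one_le hB1 hl1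
    have h13 : 0 ≤ 1000 * (n : ℝ) ^ 4 * HR := by positivity
    calc 1000 * (n : ℝ) ^ 4 * HR ≤ 1000 * (n : ℝ) ^ 4 * HR * (B * (1 + Real.log H)) :=
          le_mul_of_one_le_right h13 h12
      _ = _ := by ring
  have hB0 : 0 ≤ B := by linarith
  calc _ ≤ 8 ^ (16 * n) * B * (1 + Real.log Y) * HR + 1000 * (n : ℝ) ^ 4 * HR :=
        add_le_add h1 h2
    _ ≤ 8 ^ (16 * n) * B * (2500 * (n : ℝ) ^ 4 * (1 + Real.log H)) * HR +
        1000 * (n : ℝ) ^ 4 * B * (1 + Real.log H) * HR := by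
        refine add_le_add ?_ h11
        gcongr
    _ = (8 ^ (16 * n) * (2500 * (n : ℝ) ^ 4) + 1000 * (n : ℝ) ^ 4) * B *
        (1 + Real.log H) * HR := by ring
    _ ≤ 8 ^ (24 * n) * B * (1 + Real.log H) * HR := by
        have : 0 ≤ 1 + Real.log H := by linarith
        gcongr

end Pool.Agent.H15.SC
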