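import Pool.Agent.H15.SC.Fra
import Pool.Agent.H15.SC.Clt

/-! # [SC FRC] Proportion at constant level (Step 6)

`fra` with `p i := i = ix n 0 0` (`card {i // p i} = 1`), the property `Q a ∧ LeadIrr n (arr a)`
may be replaced by `Q`. Fibre of `c ∈ S`: choose a zero `P a` for every `a ∈ T`; `a ↦ P a` is
injective (`a 0 0 = -G(P)`, `G = arr` of the vector `c` with constant coefficient `0`, see
`ev_const` in `NoPt.Basic`), `|G(P a)| = |a 0 0| ≤ H`, `dz n (arr a) = dz n G` (`lead_congr`),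
so `#T ≤` the bound of `clt_count` for `G`. Divide by `K = 2H + 1 ≥ H`. -/

namespace Pool.Agent.H15.SC

open Finset Polynomial Pool.Agent.H72.ES Pool.Agent.H8.NoPt Pool.Agent.H8.MP

private theorem ix_ne {n : ℕ} (hn : 1 ≤ n) {i j : ℕ} (hij : i + j = n) :
    ix n i j (by omega) ≠ ix n 0 0 (by omega) := by
  intro he
  simp only [ix, Subtype.mk.injEq, Prod.mk.injEq, Fin.mk.injEq] at he
  omega

theorem frc (n : ℕ) (hn : 4 ≤ n) (H : ℕ) (hH : 2 ≤ H) (φ : ℝ) (hφ0 : 0 ≤ φ)
    (Q : (Ix n → ℤ) → Prop)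
    (hQ : ∀ a b : Ix n → ℤ, (∀ i, i ≠ ix n 0 0 (by omega) → a i = b i) → Q a → Q b)
    (hφ : ∀ S : Finset (Ix n → ℤ), (∀ a ∈ S, (∀ i, |a i| ≤ (H : ℤ)) ∧ Q a) →
      (S.card : ℝ) ≤ φ * (2 * H + 1 : ℝ) ^ (Fintype.card (Ix n)))
    (M X0 : ℝ) (hM : 1 ≤ M) (hX0 : (8 : ℝ) ^ (4 * n) * M ^ 2 ≤ X0)
    (S : Finset (Ix n → ℤ))
    (hS : ∀ a ∈ S, (∀ i, |a i| ≤ (H : ℤ)) ∧ Q a ∧ LeadIrr n (arr a) ∧
      ∃ P : ℤ × ℤ, ZP n (arr a) P ∧ X0 ≤ |(P.1 : ℝ)| ∧ (H : ℝ) / M ≤ dz n (arr a) P) :
    (S.card : ℝ) ≤ 8 ^ (24 * n) * φ * (M + M ^ 5 / X0) * (1 + Real.log H) *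
      (H : ℝ) ^ (1 / (n : ℝ)) / H * (2 * H + 1 : ℝ) ^ (Fintype.card (Ix n)) := by
  classical
  have hH1 : (1 : ℝ) ≤ H := by exact_mod_cast (by omega : 1 ≤ H)
  have hH0 : (0 : ℝ) < H := by linarith
  have hM0 : 0 < M := by linarith
  have hlog : 0 ≤ Real.log H := Real.log_nonneg hH1
  have h8 : (1 : ℝ) ≤ 8 ^ (4 * n) := one_le_pow₀ (by norm_num)
  have hX01 : 1 ≤ X0 := by
    have h3 : 1 ≤ M ^ 2 := one_le_pow₀ hM
    nlinarith
  have hX00 : 0 < X0 := by linarith
  set o : Ix n := ix n 0 0 (by omega) with ho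
  set m : ℝ := 8 ^ (24 * n) * (M + M ^ 5 / X0) * (1 + Real.log H) *
      (H : ℝ) ^ (1 / (n : ℝ)) with hm
  have hm0 : 0 ≤ m := by
    have : 0 ≤ 1 + Real.log H := by linarith
    positivity
  have key := fra (fun i : Ix n => i = o) H φ m hm0 Q hQ hφ S
    (fun a ha => ⟨(hS a ha).1, (hS a ha).2.1⟩) ?_
  · simp only [Fintype.card_subtype_eq, pow_one] at key
    have hK : (H : ℝ) ≤ 2 * H + 1 := by linarith
    have h5 : (S.card : ℝ) * H ≤ φ * m * (2 * H + 1 : ℝ) ^ (Fintype.card (Ix n)) := by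
      refine le_trans ?_ key
      gcongr
    rw [← le_div_iff₀ hH0] at h5
    refine h5.trans (le_of_eq ?_)
    rw [hm]
    ring
  · intro c hc T hT
    -- choose a zero for every vector
    have hex : ∀ a ∈ T, ∃ P : ℤ × ℤ, ZP n (arr a) P ∧ X0 ≤ |(P.1 : ℝ)| ∧
        (H : ℝ) / M ≤ dz n (arr a) P := fun a ha => (hS a (hT a ha).1).2.2.2
    choose! g hg using hex
    set c0 : Ix n → ℤ := Function.update c o 0 with hc0
    have hup : ∀ a ∈ T, Function.update a o 0 = c0 := by
      intro a ha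
      funext i
      by_cases hi : i = o
      · rw [hi, hc0, Function.update_self, Function.update_self]
      · rw [hc0, Function.update_of_ne hi, Function.update_of_ne hi]
        exact (hT a ha).2 i hi
    have hev : ∀ a ∈ T, ∀ x y : ℤ, ev n (arr a) x y = a o + ev n (arr c0) x y := by
      intro a ha x y
      rw [ev_const a x y, ← ho, hup a ha]
    have hlead : ∀ a ∈ T, lead n (arr a) = lead n (arr c0) := by
      intro a ha
      refine lead_congr fun i j hij => ?_
      unfold arr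
      rw [dif_pos (by omega), dif_pos (by omega), ← hup a ha, Function.update_of_ne]
      exact ix_ne (by omega) hij
    have hinj : Set.InjOn g T := by
      intro a ha a' ha' hgg
      have h1 := (hg a ha).1.1
      have h2 := (hg a' ha').1.1
      rw [hev a ha] at h1
      rw [hev a' ha', ← hgg] at h2
      funext i
      by_cases hi : i = o
      · rw [hi]; linarith
      · rw [(hT a ha).2 i hi, (hT a' ha').2 i hi]
    have hcardT : T.card = (T.image g).card := (card_image_of_injOn hinj).symm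
    rw [hcardT]
    have hcS := hS c hc
    refine clt_count hn hH (G := arr c0) ?_ ?_ ?_ M X0 hM hX0 (T.image g) ?_
    · intro i j hij
      unfold arr
      rw [dif_pos hij, hc0]
      by_cases hi : ix n i j hij = o
      · rw [hi, Function.update_self]
        simp
      · rw [Function.update_of_ne hi]
        exact hcS.1 _
    · unfold arr
      rw [dif_pos (by omega), hc0, ← ho, Function.update_self]
    · refine LeadIrr.congr (F := arr c) (fun i j hij => ?_) hcS.2.2.1
      unfold arr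
      rw [dif_pos (by omega), dif_pos (by omega), hc0, Function.update_of_ne]
      exact ix_ne (by omega) hij
    · intro P hP
      rw [mem_image] at hP
      obtain ⟨a, ha, rfl⟩ := hP
      obtain ⟨g1, g2, g3⟩ := hg a ha
      refine ⟨?_, g1.2, g2, ?_⟩
      · have h1 := g1.1
        rw [hev a ha] at h1
        have h2 : ev n (arr c0) (g a).1 (g a).2 = -a o := by linarith
        rw [h2, abs_neg]
        exact (hS a (hT a ha).1).1 o
      · unfold dz hp at g3 ⊢
        rw [← hlead a ha]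
        exact g3

end Pool.Agent.H15.SC
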