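import Pool.Agent.H15.SC.Core
import Pool.Agent.H15.SC.Frc
import Pool.Agent.H8.MP.GamC
import Pool.Agent.H8.MP.VecC

/-! # [SC S8A] Step (8a)

`H` large. `Q = ¬ Gam n H (arr a)` does not depend on the constant coefficient (`Gam.congr`,
`top4_arr`, `n ≥ 4`), `φ = 8^(3n)/H` (`gam_count` with `M = H`), `frc` with `M = H^(11/50)`,
`X0 = X1`: `M + M⁵/X0 ≤ 2 H^(11/50)`; exponent `-1 + 11/50 + 1/5 - 1 < -3/2`. -/

namespace Pool.Agent.H15.SC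

open Finset Polynomial Pool.Agent.H72.ES Pool.Agent.H8.NoPt Pool.Agent.H8.MP

theorem s8a (n : ℕ) (hn : 5 ≤ n) : Small n (101 / 100) fun H a => LeadIrr n (arr a) ∧
    ¬ Gam n H (arr a) ∧ ∃ P : ℤ × ℤ, ZP n (arr a) P ∧ X1 n H ≤ |(P.1 : ℝ)| ∧
      (H : ℝ) ^ (39 / 50 : ℝ) ≤ dz n (arr a) P := by
  have hn5 : (5 : ℝ) ≤ n := by exact_mod_cast hn
  refine small_of_large (s := 3 / 2) (t := 101 / 100) (by norm_num) (8 ^ (4 * n))
    (8 ^ (24 * n) * 8 ^ (3 * n) * 2) 1 ?_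
  intro H hH0 hH2 S hS
  have hH2' : (2 : ℝ) ≤ H := by exact_mod_cast hH2
  have hH1 : (1 : ℝ) ≤ H := by linarith
  have hHp : (0 : ℝ) < H := by linarith
  have hH8 : (8 : ℝ) ^ (4 * n) ≤ H := by exact_mod_cast hH0
  have hlog : 0 ≤ Real.log H := Real.log_nonneg hH1
  have hM1 : (1 : ℝ) ≤ (H : ℝ) ^ (11 / 50 : ℝ) := Real.one_le_rpow hH1 (by norm_num)
  have hX1 : (8 : ℝ) ^ (4 * n) * ((H : ℝ) ^ (11 / 50 : ℝ)) ^ 2 ≤ X1 n H := by
    unfold X1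
    rw [← Real.rpow_natCast ((H : ℝ) ^ (11 / 50 : ℝ)) 2, ← Real.rpow_mul hHp.le]
    calc (8 : ℝ) ^ (4 * n) * (H : ℝ) ^ ((11 / 50 : ℝ) * (2 : ℕ))
        ≤ (H : ℝ) ^ (1 : ℝ) * (H : ℝ) ^ ((11 / 50 : ℝ) * (2 : ℕ)) := by
          rw [Real.rpow_one]
          gcongr
      _ = (H : ℝ) ^ ((1 : ℝ) + (11 / 50 : ℝ) * (2 : ℕ)) := by
          rw [← Real.rpow_add hHp]
      _ ≤ (H : ℝ) ^ ((n : ℝ) / 2 - 1 / 100) := by
          refine Real.rpow_le_rpow_of_exponent_le hH1 ?_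
          push_cast
          linarith
  have hX15 : ((H : ℝ) ^ (11 / 50 : ℝ)) ^ 5 / X1 n H ≤ (H : ℝ) ^ (11 / 50 : ℝ) := by
    have hXp : 0 < X1 n H := by
      unfold X1
      exact Real.rpow_pos_of_pos hHp _
    rw [div_le_iff₀ hXp]
    unfold X1
    rw [← Real.rpow_natCast ((H : ℝ) ^ (11 / 50 : ℝ)) 5, ← Real.rpow_mul hHp.le,
      ← Real.rpow_add hHp]
    refine Real.rpow_le_rpow_of_exponent_le hH1 ?_
    push_cast
    linarith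
  have hdivM : (H : ℝ) / (H : ℝ) ^ (11 / 50 : ℝ) = (H : ℝ) ^ (39 / 50 : ℝ) := by
    rw [div_eq_iff (Real.rpow_pos_of_pos hHp _).ne', ← Real.rpow_add hHp]
    norm_num
  have key := frc n (by omega) H hH2 (8 ^ (3 * n) / H) (by positivity)
    (fun a => ¬ Gam n H (arr a)) ?_ ?_ ((H : ℝ) ^ (11 / 50 : ℝ)) (X1 n H) hM1 hX1 S ?_
  · refine key.trans ?_
    refine mul_le_mul_of_nonneg_right ?_ (by positivity)
    have h1 : (H : ℝ) ^ (1 / (n : ℝ)) ≤ (H : ℝ) ^ (1 / 5 : ℝ) := by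
      refine Real.rpow_le_rpow_of_exponent_le hH1 ?_
      exact one_div_le_one_div_of_le (by norm_num) hn5
    have h2 : (H : ℝ) ^ (11 / 50 : ℝ) + ((H : ℝ) ^ (11 / 50 : ℝ)) ^ 5 / X1 n H ≤
        2 * (H : ℝ) ^ (11 / 50 : ℝ) := by linarith
    have h3 : (H : ℝ) ^ (11 / 50 : ℝ) * (H : ℝ) ^ (1 / 5 : ℝ) / H / H ≤
        (H : ℝ) ^ (-(3 / 2) : ℝ) := by
      have e1 : (H : ℝ) ^ (11 / 50 : ℝ) * (H : ℝ) ^ (1 / 5 : ℝ) / H / H =
          (H : ℝ) ^ ((11 / 50 : ℝ) + 1 / 5 - 1 - 1) := by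
        rw [Real.rpow_sub_one hHp.ne', Real.rpow_sub_one hHp.ne', Real.rpow_add hHp]
      rw [e1]
      refine Real.rpow_le_rpow_of_exponent_le hH1 (by norm_num)
    calc (8 : ℝ) ^ (24 * n) * (8 ^ (3 * n) / H) *
          ((H : ℝ) ^ (11 / 50 : ℝ) + ((H : ℝ) ^ (11 / 50 : ℝ)) ^ 5 / X1 n H) *
          (1 + Real.log H) * (H : ℝ) ^ (1 / (n : ℝ)) / H
        ≤ (8 : ℝ) ^ (24 * n) * (8 ^ (3 * n) / H) *
          (2 * (H : ℝ) ^ (11 / 50 : ℝ)) *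
          (1 + Real.log H) * (H : ℝ) ^ (1 / 5 : ℝ) / H := by
          gcongr
      _ = (8 : ℝ) ^ (24 * n) * 8 ^ (3 * n) * 2 * (1 + Real.log H) ^ 1 *
          ((H : ℝ) ^ (11 / 50 : ℝ) * (H : ℝ) ^ (1 / 5 : ℝ) / H / H) := by
          rw [pow_one]
          field_simp
      _ ≤ (8 : ℝ) ^ (24 * n) * 8 ^ (3 * n) * 2 * (1 + Real.log H) ^ 1 *
          (H : ℝ) ^ (-(3 / 2) : ℝ) := by
          gcongr
  · intro a b hab ha hb
    apply ha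
    have h1 : Top4 n (arr b) (arr a) := by
      intro i j h1 h2
      unfold arr
      rw [dif_pos h1, dif_pos h1]
      symm
      apply hab
      intro h3
      have h4 := congrArg (fun q : Ix n => (q.1.1 : ℕ)) h3
      have h5 := congrArg (fun q : Ix n => (q.1.2 : ℕ)) h3
      have h4' : i = 0 := h4
      have h5' : j = 0 := h5
      omega
    exact hb.congr (by omega) h1
  · intro S' hS'
    have h1 := gam_count n (by omega) H (H : ℝ) hH1 le_rfl S' hS'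
    refine h1.trans (le_of_eq ?_)
    ring
  · intro a ha
    obtain ⟨h1, h2, h3, P, h4, h5, h6⟩ := hS a ha
    refine ⟨h1, h3, h2, P, h4, h5, ?_⟩
    rw [hdivM]
    exact h6

end Pool.Agent.H15.SC
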