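import Pool.Agent.H8.MP.Three

/-! # [SC CLU] Collinear points near a curved branch, with spacing

As `MP.col_count` (copy its proof and its private lemmas): `x1` least, `x3` largest first
coordinate; every `x2` satisfies `(x2-x1)(x3-x2) ≤ B = 32 K/‖γ‖`, so `x2 - x1 ≤ √B` or
`x3 - x2 ≤ √B`; integers with pairwise distances `≥ q` in an interval of length `√B`: at most
`√B/q + 1`. -/

namespace Pool.Agent.H15.SC

open Finset Pool.Agent.H8.MP

private theorem clu_side (s q : ℝ) (hs : 0 ≤ s) (hq : 0 < q) (U : Finset (ℤ × ℤ)) (m : ℝ)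
    (h1 : ∀ P ∈ U, m ≤ (P.1 : ℝ)) (h2 : ∀ P ∈ U, (P.1 : ℝ) - m ≤ s)
    (hsp : ∀ P ∈ U, ∀ Q ∈ U, P ≠ Q → q ≤ |(P.1 : ℝ) - Q.1|) : (U.card : ℝ) ≤ s / q + 1 := by
  have hsq : 0 ≤ s / q := div_nonneg hs hq.le
  have hf : 0 ≤ ⌊s / q⌋ := Int.floor_nonneg.2 hsq
  have hc : U.card ≤ (Finset.Icc 0 ⌊s / q⌋).card := by
    apply Finset.card_le_card_of_injOn (fun P => ⌊((P.1 : ℝ) - m) / q⌋)
    · intro P hP
      rw [Finset.mem_coe] at hP
      rw [Finset.mem_coe, Finset.mem_Icc]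
      refine ⟨?_, ?_⟩
      · apply Int.floor_nonneg.2
        have := h1 P hP
        exact div_nonneg (by linarith) hq.le
      · apply Int.floor_le_floor
        exact div_le_div_of_nonneg_right (h2 P hP) hq.le
    · intro P hP Q hQ h
      by_contra hne
      have hab := hsp P hP Q hQ hne
      have h3 : |((P.1 : ℝ) - m) / q - ((Q.1 : ℝ) - m) / q| < 1 := Int.abs_sub_lt_one_of_floor_eq_floor h
      have h4 : ((P.1 : ℝ) - m) / q - ((Q.1 : ℝ) - m) / q = ((P.1 : ℝ) - Q.1) / q := by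
        rw [← sub_div]
        congr 1
        ring
      rw [h4, abs_div, abs_of_pos hq, div_lt_one hq] at h3
      linarith
  rw [Int.card_Icc] at hc
  have h3 : ((⌊s / q⌋ + 1 - 0).toNat : ℝ) = (⌊s / q⌋ : ℝ) + 1 := by
    have h4 : (((⌊s / q⌋ + 1 - 0).toNat : ℕ) : ℤ) = ⌊s / q⌋ + 1 := by
      rw [Int.toNat_of_nonneg (by omega)]
      ring
    have h5 := congrArg (fun z : ℤ => (z : ℝ)) h4
    push_cast at h5
    exact h5
  calc (U.card : ℝ) ≤ ((⌊s / q⌋ + 1 - 0).toNat : ℝ) := by exact_mod_cast hc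
    _ = (⌊s / q⌋ : ℝ) + 1 := h3
    _ ≤ s / q + 1 := by
        have := Int.floor_le (s / q)
        linarith

theorem clu_count (θ β γ δ : ℂ) (K X q : ℝ) (hX : 0 < X) (hK : 0 ≤ K) (hγ : 0 < ‖γ‖)
    (hq : 0 < q)
    (U : Finset (ℤ × ℤ)) (hU : ∀ P ∈ U, X ≤ |(P.1 : ℝ)| ∧ |(P.1 : ℝ)| ≤ 2 * X)
    (hE : ∀ P ∈ U, ‖(P.2 : ℂ) - θ * P.1 - β - γ / P.1 - δ / P.1 ^ 2‖ ≤ K / X ^ 3)
    (hδ : 6 * ‖δ‖ ≤ ‖γ‖ * X)
    (hcol : ∀ P ∈ U, ∀ Q ∈ U, ∀ R ∈ U, (Q.1 - P.1) * (R.2 - P.2) = (R.1 - P.1) * (Q.2 - P.2))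
    (hsp : ∀ P ∈ U, ∀ Q ∈ U, P ≠ Q → q ≤ |(P.1 : ℝ) - Q.1|) :
    (U.card : ℝ) ≤ 2 * (Real.sqrt (32 * K / ‖γ‖) / q + 1) := by
  classical
  obtain ⟨s, hs⟩ : ∃ s : ℝ, s = Real.sqrt (32 * K / ‖γ‖) := ⟨_, rfl⟩
  rw [← hs]
  have hs0 : 0 ≤ s := by rw [hs]; exact Real.sqrt_nonneg _
  have hss : s ^ 2 = 32 * K / ‖γ‖ := by
    rw [hs]; exact Real.sq_sqrt (by positivity)
  have hsq : 0 ≤ s / q := div_nonneg hs0 hq.le
  rcases U.eq_empty_or_nonempty with hemp | hne
  · rw [hemp, Finset.card_empty]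
    push_cast
    positivity
  · obtain ⟨P1, hP1, hmin⟩ := U.exists_min_image (fun P => P.1) hne
    obtain ⟨P3, hP3, hmax⟩ := U.exists_max_image (fun P => P.1) hne
    rcases eq_or_lt_of_le (hmin P3 hP3) with heq | hlt
    · have hc : U.card ≤ 1 := by
        rw [Finset.card_le_one]
        intro P hP Q hQ
        by_contra hPQ
        have hab := hsp P hP Q hQ hPQ
        have a1 := hmin P hP
        have a2 := hmax P hP
        have a3 := hmin Q hQ
        have a4 := hmax Q hQ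
        have a5 : P.1 = Q.1 := by omega
        rw [a5, sub_self, abs_zero] at hab
        linarith
      have hc' : (U.card : ℝ) ≤ 1 := by exact_mod_cast hc
      linarith
    · have key : ∀ P ∈ U, (P.1 : ℝ) - P1.1 ≤ s ∨ (P3.1 : ℝ) - P.1 ≤ s := by
        intro P hP
        have h := three_col θ β γ δ K X hX hK P1.1 P.1 P3.1 P1.2 P.2 P3.2 (hU P1 hP1) (hU P hP)
          (hU P3 hP3) (hE P1 hP1) (hE P hP) (hE P3 hP3) hδ (hcol P1 hP1 P hP P3 hP3) hlt
          (hmin P hP) (hmax P hP)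
        by_contra hcon
        push Not at hcon
        have h1 : s * s < ((P.1 : ℝ) - P1.1) * ((P3.1 : ℝ) - P.1) :=
          mul_lt_mul'' hcon.1 hcon.2 hs0 hs0
        have h2 : ‖γ‖ * (s * s) < ‖γ‖ * (((P.1 : ℝ) - P1.1) * ((P3.1 : ℝ) - P.1)) :=
          mul_lt_mul_of_pos_left h1 hγ
        have h3 : ‖γ‖ * (s * s) = 32 * K := by
          rw [← sq, hss]
          field_simp
        linarith
      have hA := clu_side s q hs0 hq (U.filter (fun P => (P.1 : ℝ) - P1.1 ≤ s)) P1.1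
        (fun P hP => by exact_mod_cast hmin P (Finset.mem_filter.1 hP).1)
        (fun P hP => (Finset.mem_filter.1 hP).2)
        (fun P hP Q hQ => hsp P (Finset.mem_filter.1 hP).1 Q (Finset.mem_filter.1 hQ).1)
      have hB := clu_side s q hs0 hq (U.filter (fun P => (P3.1 : ℝ) - P.1 ≤ s)) (P3.1 - s)
        (fun P hP => by
          have := (Finset.mem_filter.1 hP).2
          linarith)
        (fun P hP => by
          have h5 := hmax P (Finset.mem_filter.1 hP).1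
          have h6 : (P.1 : ℝ) ≤ P3.1 := by exact_mod_cast h5
          linarith)
        (fun P hP Q hQ => hsp P (Finset.mem_filter.1 hP).1 Q (Finset.mem_filter.1 hQ).1)
      have hsub : U ⊆ U.filter (fun P => (P.1 : ℝ) - P1.1 ≤ s) ∪
          U.filter (fun P => (P3.1 : ℝ) - P.1 ≤ s) := by
        intro P hP
        rw [Finset.mem_union, Finset.mem_filter, Finset.mem_filter]
        rcases key P hP with h | h
        · exact Or.inl ⟨hP, h⟩
        · exact Or.inr ⟨hP, h⟩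
      have hcard : (U.card : ℝ) ≤ ((U.filter (fun P => (P.1 : ℝ) - P1.1 ≤ s)).card : ℝ) +
          ((U.filter (fun P => (P3.1 : ℝ) - P.1 ≤ s)).card : ℝ) := by
        exact_mod_cast (Finset.card_le_card hsub).trans (Finset.card_union_le _ _)
      linarith

end Pool.Agent.H15.SC
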