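import Pool.Agent.H15.SC.Defs
import Pool.Agent.H8.NoPt.Asym

/-! # [SC SPA] Spacing of the points near one branch (Step 8b)

`a = x' - x ≠ 0`, `b = y' - y`; `b - θ a = ga (1/x' - 1/x) + E' - E`, so
`‖b - θ a‖ ≤ 274 L³ |a|/X² + 526 L⁵/X² ≤ 800 L⁵ |a|/X²`. `g = gcd a b`, `(a,b) = g (u1,u2)`,
`1 ≤ |u1| ≤ |a|`, `‖u2/u1 - θ‖ ≤ 800 L⁵/X² ≤ 1/2`, so `|u2/u1| ≤ 2`; `AsymAux.hp_lip`:
`‖f(u2/u1)‖ = ‖f(u2/u1) - f(θ)‖ ≤ 8^n H 800 L⁵/X²`; `u1^n f(u2/u1)` is the nonzero integer of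
`NZ n F`. So `1 ≤ |u1|^n 8^n H 800 L⁵/X²`. -/

namespace Pool.Agent.H15.SC

open Finset Polynomial Pool.Agent.H72.ES Pool.Agent.H8.NoPt Pool.Agent.H8.MP

/-- the remainder at a point -/
private theorem spa_rem {n : ℕ} {F : ℕ → ℕ → ℤ} {L X : ℝ} (hL : 1 ≤ L) (hX : 0 < X) {θ : ℂ}
    {P : ℤ × ℤ} (h : NearB n F L θ P) (hx : X ≤ |(P.1 : ℝ)|) :
    ‖(P.2 : ℂ) - θ * P.1 - be n F θ - Pool.Agent.H8.MP.ga n F θ / P.1‖ ≤ 263 * L ^ 5 / X ^ 2 := by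
  refine h.e2.trans ?_
  have h1 : (0 : ℝ) ≤ 263 * L ^ 5 := by positivity
  exact div_le_div_of_nonneg_left h1 (by positivity) (pow_le_pow_left₀ hX.le hx 2)

/-- the value of the form is a nonzero integer -/
private theorem spa_int {n : ℕ} {F : ℕ → ℕ → ℤ} (hNZ : NZ n F) {a b : ℤ} (ha : a ≠ 0) :
    1 ≤ |(a : ℝ)| ^ n * ‖(hp n F).eval ((b : ℂ) / a)‖ := by
  have ha' : (a : ℂ) ≠ 0 := by exact_mod_cast ha
  have h1 : ((∑ j ∈ range (n + 1), F (n - j) j * a ^ (n - j) * b ^ j : ℤ) : ℂ) =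
      (a : ℂ) ^ n * (hp n F).eval ((b : ℂ) / a) := by
    rw [AsymAux.hp_eval, Finset.mul_sum]
    push_cast
    refine Finset.sum_congr rfl fun j hj => ?_
    have hj' := Finset.mem_range.1 hj
    have h1 : (a : ℂ) ^ n = (a : ℂ) ^ (n - j) * (a : ℂ) ^ j := by
      rw [← pow_add]
      congr 1
      omega
    rw [h1, div_pow]
    field_simp
  have h2 : (∑ j ∈ range (n + 1), F (n - j) j * a ^ (n - j) * b ^ j : ℤ) ≠ 0 :=
    hNZ a b (Or.inl ha)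
  have h3 : (1 : ℝ) ≤ ‖((∑ j ∈ range (n + 1), F (n - j) j * a ^ (n - j) * b ^ j : ℤ) : ℂ)‖ := by
    rw [Complex.norm_intCast]
    have h4 : (1 : ℤ) ≤ |∑ j ∈ range (n + 1), F (n - j) j * a ^ (n - j) * b ^ j| :=
      Int.one_le_abs h2
    exact_mod_cast h4
  rw [h1, norm_mul, norm_pow, Complex.norm_intCast] at h3
  exact h3

theorem spacing {n H : ℕ} (hn : 1 ≤ n) {F : ℕ → ℕ → ℤ} (hF : Bdd n H F) (hNZ : NZ n F)
    {L X : ℝ} (hL : 1 ≤ L) (hX : 0 < X) (hLX : 1600 * L ^ 5 ≤ X ^ 2) {θ : ℂ} {P P' : ℤ × ℤ}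
    (h : NearB n F L θ P) (h' : NearB n F L θ P') (hx : X ≤ |(P.1 : ℝ)|)
    (hx' : X ≤ |(P'.1 : ℝ)|) (hne : P.1 ≠ P'.1) :
    X ^ 2 ≤ 800 * 8 ^ n * H * L ^ 5 * |(P.1 : ℝ) - P'.1| ^ n := by
  have _ := hn
  obtain ⟨x, y⟩ := P
  obtain ⟨x', y'⟩ := P'
  simp only at hx hx' hne
  have hr := spa_rem hL hX h hx
  have hr' := spa_rem hL hX h' hx'
  simp only at hr hr'
  have hXX : 0 < X ^ 2 := by positivity
  have hx0 : (x : ℝ) ≠ 0 := by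
    intro h0
    rw [h0, abs_zero] at hx
    linarith
  have hx0' : (x' : ℝ) ≠ 0 := by
    intro h0
    rw [h0, abs_zero] at hx'
    linarith
  have hc : (x : ℂ) ≠ 0 := by exact_mod_cast hx0
  have hc' : (x' : ℂ) ≠ 0 := by exact_mod_cast hx0'
  have ha : x - x' ≠ 0 := sub_ne_zero.2 hne
  have ha1 : (1 : ℝ) ≤ |((x - x' : ℤ) : ℝ)| := by exact_mod_cast Int.one_le_abs ha
  have hac : ((x - x' : ℤ) : ℂ) ≠ 0 := by exact_mod_cast ha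
  have hL5 : 1 ≤ L ^ 5 := one_le_pow₀ hL
  have hL35 : L ^ 3 ≤ L ^ 5 := pow_le_pow_right₀ hL (by norm_num)
  have hL3 : 0 < L ^ 3 := by positivity
  -- the term with `ga`
  have hga : ‖Pool.Agent.H8.MP.ga n F θ / x - Pool.Agent.H8.MP.ga n F θ / x'‖ ≤
      274 * L ^ 3 * |((x - x' : ℤ) : ℝ)| / X ^ 2 := by
    have h1 : Pool.Agent.H8.MP.ga n F θ / x - Pool.Agent.H8.MP.ga n F θ / x' =
        Pool.Agent.H8.MP.ga n F θ * (-((x - x' : ℤ) : ℂ)) / ((x : ℂ) * x') := by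
      push_cast
      field_simp
      ring
    rw [h1, norm_div, norm_mul, norm_mul, norm_neg, Complex.norm_intCast, Complex.norm_intCast,
      Complex.norm_intCast]
    have h2 : X ^ 2 ≤ |(x : ℝ)| * |(x' : ℝ)| := by
      rw [sq]
      exact mul_le_mul hx hx' hX.le (abs_nonneg _)
    exact div_le_div₀ (by positivity) (mul_le_mul_of_nonneg_right h.ga (abs_nonneg _)) hXX h2
  have hdiff : ‖((y - y' : ℤ) : ℂ) - θ * ((x - x' : ℤ) : ℂ)‖ ≤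
      800 * L ^ 5 * |((x - x' : ℤ) : ℝ)| / X ^ 2 := by
    have h1 : ((y - y' : ℤ) : ℂ) - θ * ((x - x' : ℤ) : ℂ) =
        ((y : ℂ) - θ * x - be n F θ - Pool.Agent.H8.MP.ga n F θ / x) -
        ((y' : ℂ) - θ * x' - be n F θ - Pool.Agent.H8.MP.ga n F θ / x') +
        (Pool.Agent.H8.MP.ga n F θ / x - Pool.Agent.H8.MP.ga n F θ / x') := by
      push_cast
      ring
    rw [h1]
    refine (norm_add_le _ _).trans ((add_le_add (norm_sub_le _ _) le_rfl).trans ?_)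
    refine (add_le_add (add_le_add hr hr') hga).trans ?_
    rw [← add_div, ← add_div]
    refine div_le_div_of_nonneg_right ?_ hXX.le
    have h2 : 274 * L ^ 3 * |((x - x' : ℤ) : ℝ)| ≤ 274 * L ^ 5 * |((x - x' : ℤ) : ℝ)| := by
      gcongr
    nlinarith [mul_le_mul_of_nonneg_left ha1 (by positivity : (0 : ℝ) ≤ L ^ 5)]
  have hq : ‖((y - y' : ℤ) : ℂ) / ((x - x' : ℤ) : ℂ) - θ‖ ≤ 800 * L ^ 5 / X ^ 2 := by
    have h1 : ((y - y' : ℤ) : ℂ) / ((x - x' : ℤ) : ℂ) - θ =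
        (((y - y' : ℤ) : ℂ) - θ * ((x - x' : ℤ) : ℂ)) / ((x - x' : ℤ) : ℂ) := by
      field_simp
    rw [h1, norm_div, Complex.norm_intCast, div_le_iff₀ (by linarith)]
    refine hdiff.trans (le_of_eq ?_)
    ring
  have hhalf : 800 * L ^ 5 / X ^ 2 ≤ 1 / 2 := by
    rw [div_le_iff₀ hXX]
    linarith
  have hu : ‖((y - y' : ℤ) : ℂ) / ((x - x' : ℤ) : ℂ)‖ ≤ 2 := by
    have h1 : ‖((y - y' : ℤ) : ℂ) / ((x - x' : ℤ) : ℂ)‖ ≤
        ‖((y - y' : ℤ) : ℂ) / ((x - x' : ℤ) : ℂ) - θ‖ + ‖θ‖ := by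
      have h2 := norm_add_le (((y - y' : ℤ) : ℂ) / ((x - x' : ℤ) : ℂ) - θ) θ
      rwa [sub_add_cancel] at h2
    linarith [h.th]
  have hlip := AsymAux.hp_lip hF le_rfl (((y - y' : ℤ) : ℂ) / ((x - x' : ℤ) : ℂ)) θ hu
    (by linarith [h.th])
  have hroot : (hp n F).eval θ = 0 := h.root
  rw [hroot, sub_zero] at hlip
  have hone := spa_int hNZ (b := y - y') ha
  have h8 : (0 : ℝ) ≤ 8 ^ n * H := by positivity
  have h9 : ‖(hp n F).eval (((y - y' : ℤ) : ℂ) / ((x - x' : ℤ) : ℂ))‖ ≤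
      8 ^ n * H * (800 * L ^ 5 / X ^ 2) :=
    hlip.trans (mul_le_mul_of_nonneg_left hq h8)
  have h10 : (1 : ℝ) ≤ |((x - x' : ℤ) : ℝ)| ^ n * (8 ^ n * H * (800 * L ^ 5 / X ^ 2)) :=
    hone.trans (mul_le_mul_of_nonneg_left h9 (by positivity))
  have h11 : |((x - x' : ℤ) : ℝ)| ^ n * (8 ^ n * H * (800 * L ^ 5 / X ^ 2)) =
      800 * 8 ^ n * H * L ^ 5 * |(x : ℝ) - x'| ^ n / X ^ 2 := by
    push_cast
    ring
  rw [h11, le_div_iff₀ hXX, one_mul] at h10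
  exact h10

/-- points near one branch with the same `x` are equal -/
theorem near_inj {n : ℕ} {F : ℕ → ℕ → ℤ} {L X : ℝ} (hL : 1 ≤ L) (hX : 0 < X)
    (hLX : 1600 * L ^ 5 ≤ X ^ 2) {θ : ℂ} {P P' : ℤ × ℤ}
    (h : NearB n F L θ P) (h' : NearB n F L θ P') (hx : X ≤ |(P.1 : ℝ)|)
    (hx' : X ≤ |(P'.1 : ℝ)|) (he : P.1 = P'.1) : P = P' := by
  obtain ⟨x, y⟩ := P
  obtain ⟨x', y'⟩ := P'
  simp only at he
  subst he
  have hr := spa_rem hL hX h hx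
  have hr' := spa_rem hL hX h' hx'
  simp only at hr hr'
  have hXX : 0 < X ^ 2 := by positivity
  have h1 : ((y - y' : ℤ) : ℂ) =
      ((y : ℂ) - θ * x - be n F θ - Pool.Agent.H8.MP.ga n F θ / x) -
      ((y' : ℂ) - θ * x - be n F θ - Pool.Agent.H8.MP.ga n F θ / x) := by
    push_cast
    ring
  have h2 : ‖((y - y' : ℤ) : ℂ)‖ ≤ 263 * L ^ 5 / X ^ 2 + 263 * L ^ 5 / X ^ 2 := by
    rw [h1]
    exact (norm_sub_le _ _).trans (add_le_add hr hr')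
  have h3 : 263 * L ^ 5 / X ^ 2 + 263 * L ^ 5 / X ^ 2 < 1 := by
    rw [← add_div, div_lt_one hXX]
    have h4 : 0 < L ^ 5 := by positivity
    linarith
  rw [Complex.norm_intCast] at h2
  have h5 : |((y - y' : ℤ) : ℝ)| < 1 := lt_of_le_of_lt h2 h3
  have h6 : |y - y'| < 1 := by exact_mod_cast h5
  have h7 : y - y' = 0 := Int.abs_lt_one_iff.1 h6
  rw [sub_eq_zero] at h7
  rw [h7]

end Pool.Agent.H15.SC
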