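import Pool.Agent.H15.SC.Cl
import Pool.Agent.H15.SC.Spa
import Pool.Agent.H15.SC.Clu
import Pool.Agent.H8.MP.CandC

/-! # [SC CAN] Candidates for one top part (Step 8b)

`L = 8^(2n) M`.
`can_class`: points of one class (same `θ`, `|x| ∈ [X, (1+η) X]`, differences `≤ η X`).
`X'' = min |x|` over `U` (`U` not empty), `X0 ≤ X''`, `|x| ≤ 2 X''`. `win_class`: collinear.
Different points have different `x` (`near_inj`) and distance `≥ q` (`spacing` with `X = X0`, and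
`hq'`; `n ≥ 1`). `ga_lower` (`MP.Mid3`): `‖ga‖ ≥ 1/H` (`‖θ‖ ≤ 2`), `6 ‖de‖ ≤ 78 L⁵ ≤ X0/H ≤
‖ga‖ X''` (`78 * 8^(10n) ≤ 8^(12n)`). `clu_count` with `K = 250 L⁷`: at most
`2 (√(8000 L⁷ H)/q + 1)` points, `√(8000 L⁷ H) ≤ 8^(9n) √(M⁷ H)` (`8000 * 8^(14n) ≤ 8^(18n)`).
`can_mid`: points with `|x| ≤ Y`: `nearB_cand` gives `θ` (choose), `class_count` with
`R = (hp n G).roots.toFinset`, `η = 1/(4000 (L + L⁵/X0))`: number
`≤ 2n * 2 (8^(9n) √(M⁷ H)/q + 1) (8000 (L + L⁵/X0) log Y + 1)`.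
`can_count`: `Y = H^(5300000 n⁵)`, the others by `large_cand` (`MP.CandC`): at most `39 n³`. -/

namespace Pool.Agent.H15.SC

open Finset Polynomial Pool.Agent.H72.ES Pool.Agent.H8.NoPt Pool.Agent.H8.MP

theorem can_class {n H : ℕ} (hn : 4 ≤ n) (hH : 1 ≤ H) {G : ℕ → ℕ → ℤ} (hG : Bdd n H G)
    (hNZ : NZ n G) (hGam : Gam n H G) (M X0 X η q : ℝ) (hM : 1 ≤ M) (hX : 0 < X)
    (hX0 : (8 : ℝ) ^ (4 * n) * M ^ 2 ≤ X0) (hX0' : 8 ^ (12 * n) * M ^ 5 * H ≤ X0)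
    (hq : 0 < q) (hq' : q ^ n * (800 * 8 ^ n * H * (8 ^ (2 * n) * M) ^ 5) ≤ X0 ^ 2)
    (hη : η = 1 / (4000 * (8 ^ (2 * n) * M + (8 ^ (2 * n) * M) ^ 5 / X0))) (θ : ℂ)
    (U : Finset (ℤ × ℤ))
    (hU : ∀ P ∈ U, NearB n G (8 ^ (2 * n) * M) θ P ∧ X0 ≤ |(P.1 : ℝ)| ∧ X ≤ |(P.1 : ℝ)| ∧
      |(P.1 : ℝ)| ≤ X * (1 + η))
    (hdiff : ∀ A ∈ U, ∀ B ∈ U, |(A.1 : ℝ) - B.1| ≤ η * X) :
    (U.card : ℝ) ≤ 2 * (8 ^ (9 * n) * Real.sqrt (M ^ 7 * H) / q + 1) := by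
  classical
  obtain ⟨L, hLd⟩ : ∃ L : ℝ, L = 8 ^ (2 * n) * M := ⟨_, rfl⟩
  have hL1 : 1 ≤ L := by
    rw [hLd]
    have h1 : (1 : ℝ) ≤ 8 ^ (2 * n) := one_le_pow₀ (by norm_num)
    nlinarith
  have hL0 : 0 < L := by linarith
  rw [← hLd] at hq' hη hU
  have hH1 : (1 : ℝ) ≤ H := by exact_mod_cast hH
  have hL5 : L ^ 5 = 8 ^ (10 * n) * M ^ 5 := by
    rw [hLd, mul_pow, ← pow_mul]
    congr 2
    ring
  have hL7 : L ^ 7 = 8 ^ (14 * n) * M ^ 7 := by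
    rw [hLd, mul_pow, ← pow_mul]
    congr 2
    ring
  have hbig : 1600 * (L ^ 5 * H) ≤ X0 := by
    refine le_trans ?_ hX0'
    rw [hL5]
    have e1 : (8 : ℝ) ^ (12 * n) = 8 ^ (2 * n) * 8 ^ (10 * n) := by
      rw [← pow_add]
      congr 1
      ring
    have e2 : (1600 : ℝ) ≤ 8 ^ (2 * n) :=
      (by norm_num : (1600 : ℝ) ≤ 8 ^ 8).trans (pow_le_pow_right₀ (by norm_num) (by omega))
    rw [e1]
    calc 1600 * (8 ^ (10 * n) * M ^ 5 * H)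
        ≤ 8 ^ (2 * n) * (8 ^ (10 * n) * M ^ 5 * H) :=
          mul_le_mul_of_nonneg_right e2 (by positivity)
      _ = 8 ^ (2 * n) * 8 ^ (10 * n) * M ^ 5 * H := by ring
  have h5 : 1 ≤ L ^ 5 := one_le_pow₀ hL1
  have hLH : L ^ 5 ≤ L ^ 5 * H := le_mul_of_one_le_right (by positivity) hH1
  have hX01 : 1 ≤ X0 := by linarith
  have hX00 : 0 < X0 := by linarith
  have hLX : 1600 * L ^ 5 ≤ X0 ^ 2 := by nlinarith
  have hη0 : 0 < η := by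
    rw [hη]
    positivity
  have hη1 : η ≤ 1 := by
    rw [hη, div_le_one (by positivity)]
    have : 0 ≤ L ^ 5 / X0 := by positivity
    linarith
  rcases U.eq_empty_or_nonempty with hemp | hne
  · rw [hemp, card_empty, Nat.cast_zero]
    positivity
  obtain ⟨P₀, hP₀, hmin⟩ := U.exists_min_image (fun P => |(P.1 : ℝ)|) hne
  obtain ⟨Z, hZ⟩ : ∃ Z : ℝ, Z = |(P₀.1 : ℝ)| := ⟨_, rfl⟩
  have hZ0 : X0 ≤ Z := by
    rw [hZ]
    exact (hU P₀ hP₀).2.1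
  have hZX : X ≤ Z := by
    rw [hZ]
    exact (hU P₀ hP₀).2.2.1
  have hZpos : 0 < Z := by linarith
  have hZmin : ∀ P ∈ U, Z ≤ |(P.1 : ℝ)| := by
    intro P hP
    rw [hZ]
    exact hmin P hP
  have hcol : ∀ P ∈ U, ∀ Q ∈ U, ∀ R ∈ U,
      (Q.1 - P.1) * (R.2 - P.2) = (R.1 - P.1) * (Q.2 - P.2) := by
    intro P hP Q hQ R hR
    exact win_class hL1 hX00 hX hη ⟨(hU P hP).1, (hU P hP).2.2.1, (hU P hP).2.1⟩
      ⟨(hU Q hQ).1, (hU Q hQ).2.2.1, (hU Q hQ).2.1⟩ ⟨(hU R hR).1, (hU R hR).2.2.1, (hU R hR).2.1⟩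
      (hdiff P hP Q hQ) (hdiff P hP R hR) (hdiff Q hQ R hR)
  have hsp : ∀ P ∈ U, ∀ Q ∈ U, P ≠ Q → q ≤ |(P.1 : ℝ) - Q.1| := by
    intro P hP Q hQ hPQ
    have h1 : P.1 ≠ Q.1 := fun h => hPQ (near_inj hL1 hX00 hLX (hU P hP).1 (hU Q hQ).1
      (hU P hP).2.1 (hU Q hQ).2.1 h)
    have h2 := spacing (by omega) hG hNZ hL1 hX00 hLX (hU P hP).1 (hU Q hQ).1
      (hU P hP).2.1 (hU Q hQ).2.1 h1
    have h3 := hq'.trans h2
    rw [mul_comm] at h3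
    have h4 := le_of_mul_le_mul_left h3 (by positivity)
    exact (pow_le_pow_iff_left₀ hq.le (abs_nonneg _) (by omega)).1 h4
  have hga : 1 / (H : ℝ) ≤ ‖Pool.Agent.H8.MP.ga n G θ‖ :=
    ga_lower hH1 hGam θ (hU P₀ hP₀).1.root (hU P₀ hP₀).1.tc
      ((hU P₀ hP₀).1.th.trans (by norm_num))
  have hga0 : 0 < ‖Pool.Agent.H8.MP.ga n G θ‖ := lt_of_lt_of_le (by positivity) hga
  have hδ : 6 * ‖Pool.Agent.H8.MP.de n G θ‖ ≤ ‖Pool.Agent.H8.MP.ga n G θ‖ * Z := by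
    have h1 := (hU P₀ hP₀).1.de
    have h2 : 78 * L ^ 5 ≤ 1 / (H : ℝ) * X0 := by
      rw [one_div, ← div_eq_inv_mul, le_div_iff₀ (by linarith)]
      nlinarith
    calc 6 * ‖Pool.Agent.H8.MP.de n G θ‖ ≤ 78 * L ^ 5 := by linarith
      _ ≤ 1 / (H : ℝ) * X0 := h2
      _ ≤ ‖Pool.Agent.H8.MP.ga n G θ‖ * Z := mul_le_mul hga hZ0 hX00.le (norm_nonneg _)
  have hmain := clu_count θ (Pool.Agent.H8.MP.be n G θ) (Pool.Agent.H8.MP.ga n G θ)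
    (Pool.Agent.H8.MP.de n G θ) (250 * L ^ 7) Z q hZpos (by positivity) hga0 hq U
    (fun P hP => ⟨hZmin P hP, by
      have h1 := (hU P hP).2.2.2
      nlinarith⟩)
    (fun P hP => by
      refine (hU P hP).1.e3.trans ?_
      exact div_le_div_of_nonneg_left (by positivity) (by positivity)
        (pow_le_pow_left₀ hZpos.le (hZmin P hP) 3)) hδ hcol hsp
  refine hmain.trans ?_
  have hsq : Real.sqrt (32 * (250 * L ^ 7) / ‖Pool.Agent.H8.MP.ga n G θ‖) ≤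
      8 ^ (9 * n) * Real.sqrt (M ^ 7 * H) := by
    apply Real.sqrt_le_iff.2
    refine ⟨by positivity, ?_⟩
    rw [mul_pow, Real.sq_sqrt (by positivity), div_le_iff₀ hga0]
    have e1 : ((8 : ℝ) ^ (9 * n)) ^ 2 = 8 ^ (4 * n) * 8 ^ (14 * n) := by
      rw [← pow_mul, ← pow_add]
      congr 1
      ring
    have e2 : (8000 : ℝ) ≤ 8 ^ (4 * n) :=
      (by norm_num : (8000 : ℝ) ≤ 8 ^ 16).trans (pow_le_pow_right₀ (by norm_num) (by omega))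
    have e3 : (1 : ℝ) ≤ H * ‖Pool.Agent.H8.MP.ga n G θ‖ := by
      rw [div_le_iff₀ (by linarith)] at hga
      linarith
    rw [e1, hL7]
    calc 32 * (250 * (8 ^ (14 * n) * M ^ 7)) = 8000 * (8 ^ (14 * n) * M ^ 7) * 1 := by ring
      _ ≤ 8 ^ (4 * n) * (8 ^ (14 * n) * M ^ 7) * (H * ‖Pool.Agent.H8.MP.ga n G θ‖) :=
          mul_le_mul (mul_le_mul_of_nonneg_right e2 (by positivity)) e3 (by norm_num)
            (by positivity)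
      _ = 8 ^ (4 * n) * 8 ^ (14 * n) * (M ^ 7 * H) * ‖Pool.Agent.H8.MP.ga n G θ‖ := by ring
  have h6 := div_le_div_of_nonneg_right hsq hq.le
  linarith

theorem can_mid {n H : ℕ} (hn : 4 ≤ n) (hH : 1 ≤ H) {G : ℕ → ℕ → ℤ} (hG : Bdd n H G)
    (hNZ : NZ n G) (hGam : Gam n H G) (M X0 Y q : ℝ) (hM : 1 ≤ M)
    (hX0 : (8 : ℝ) ^ (4 * n) * M ^ 2 ≤ X0) (hX0' : 8 ^ (12 * n) * M ^ 5 * H ≤ X0)
    (hq : 0 < q) (hq' : q ^ n * (800 * 8 ^ n * H * (8 ^ (2 * n) * M) ^ 5) ≤ X0 ^ 2)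
    (hY : 1 ≤ Y) (S : Finset (ℤ × ℤ))
    (hS : ∀ P ∈ S, Cand n H G P ∧ |P.2| ≤ |P.1| ∧ X0 ≤ |(P.1 : ℝ)| ∧ |(P.1 : ℝ)| ≤ Y ∧
      (H : ℝ) / M ≤ dz n G P) :
    (S.card : ℝ) ≤ 8 ^ (25 * n) * (M + M ^ 5 / X0) * (1 + Real.log Y) *
      (Real.sqrt (M ^ 7 * H) / q + 1) := by
  classical
  obtain ⟨L, hLd⟩ : ∃ L : ℝ, L = 8 ^ (2 * n) * M := ⟨_, rfl⟩
  have hL1 : 1 ≤ L := by
    rw [hLd]
    have h1 : (1 : ℝ) ≤ 8 ^ (2 * n) := one_le_pow₀ (by norm_num)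
    nlinarith
  have hL0 : 0 < L := by linarith
  have hX01 : 1 ≤ X0 := by
    refine le_trans ?_ hX0
    have h1 : (1 : ℝ) ≤ 8 ^ (4 * n) := one_le_pow₀ (by norm_num)
    have h2 : 1 ≤ M ^ 2 := one_le_pow₀ hM
    nlinarith
  have hX00 : 0 < X0 := by linarith
  obtain ⟨η, hη⟩ : ∃ η : ℝ, η = 1 / (4000 * (L + L ^ 5 / X0)) := ⟨_, rfl⟩
  have hT0 : 0 < L + L ^ 5 / X0 := by positivity
  have hη0 : 0 < η := by
    rw [hη]
    positivity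
  have hη1 : η ≤ 1 := by
    rw [hη, div_le_one (by positivity)]
    have : 0 ≤ L ^ 5 / X0 := by positivity
    linarith
  have hch : ∀ P ∈ S, ∃ θ : ℂ, NearB n G (8 ^ (2 * n) * M) θ P := fun P hP =>
    nearB_cand hn hH hM P (hS P hP).1 (hS P hP).2.1 (hS P hP).2.2.2.2
      (hX0.trans (hS P hP).2.2.1)
  choose! θ hθ using hch
  have hR : ((hp n G).roots.toFinset.card : ℝ) ≤ n := by
    have : (hp n G).roots.toFinset.card ≤ n :=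
      (Multiset.toFinset_card_le _).trans ((card_roots' _).trans (hp_natDegree_le n G))
    exact_mod_cast this
  have hsq0 : 0 ≤ Real.sqrt (M ^ 7 * H) / q := by positivity
  have hmain := class_count n (hp n G).roots.toFinset hR η Y
    (2 * (8 ^ (9 * n) * Real.sqrt (M ^ 7 * H) / q + 1)) hη0 hη1 hY (by positivity) S θ (by
      intro P hP
      rw [Multiset.mem_toFinset, mem_roots (hp_ne_zero hNZ)]
      exact (hθ P hP).root) (fun P hP => ⟨hX01.trans (hS P hP).2.2.1, (hS P hP).2.2.2.1⟩) (by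
      intro U hUS t _ X hX h1 h2
      refine can_class hn hH hG hNZ hGam M X0 X η q hM hX hX0 hX0' hq hq' (by rw [hη, hLd]) t U
        ?_ h2
      intro P hP
      have h3 := hθ P (hUS hP)
      rw [(h1 P hP).1] at h3
      exact ⟨h3, (hS P (hUS hP)).2.2.1, (h1 P hP).2.1, (h1 P hP).2.2⟩)
  have hlY : 0 ≤ Real.log Y := Real.log_nonneg hY
  refine hmain.trans ?_
  have e1 : 2 * Real.log Y / η = 8000 * (L + L ^ 5 / X0) * Real.log Y := by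
    rw [hη]
    field_simp
    ring
  rw [e1]
  have hMX : 0 ≤ M ^ 5 / X0 := by positivity
  have h10 : (1 : ℝ) ≤ 8 ^ (10 * n) := one_le_pow₀ (by norm_num)
  have e2 : L + L ^ 5 / X0 ≤ 8 ^ (10 * n) * (M + M ^ 5 / X0) := by
    have h1 : L ≤ 8 ^ (10 * n) * M := by
      rw [hLd]
      exact mul_le_mul_of_nonneg_right (pow_le_pow_right₀ (by norm_num) (by omega)) (by linarith)
    have h2 : L ^ 5 / X0 = 8 ^ (10 * n) * (M ^ 5 / X0) := by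
      rw [hLd, mul_pow, ← pow_mul, mul_div_assoc]
      congr 2
      ring
    rw [h2]
    linarith
  obtain ⟨W, hW⟩ : ∃ W : ℝ, W = M + M ^ 5 / X0 := ⟨_, rfl⟩
  rw [← hW] at e2 ⊢
  have hW1 : 1 ≤ W := by linarith
  obtain ⟨ℓ, hℓ⟩ : ∃ ℓ : ℝ, ℓ = Real.log Y := ⟨_, rfl⟩
  rw [← hℓ] at hlY ⊢
  obtain ⟨σ, hσ⟩ : ∃ σ : ℝ, σ = Real.sqrt (M ^ 7 * H) / q := ⟨_, rfl⟩
  rw [mul_div_assoc, ← hσ]
  rw [← hσ] at hsq0
  have e3 : 8000 * (L + L ^ 5 / X0) * ℓ + 1 ≤ 8001 * (8 ^ (10 * n) * W) * (1 + ℓ) := by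
    have h1 : (L + L ^ 5 / X0) * ℓ ≤ 8 ^ (10 * n) * W * ℓ := mul_le_mul_of_nonneg_right e2 hlY
    have h2 : 1 ≤ 8 ^ (10 * n) * W := one_le_mul_of_one_le_of_one_le h10 hW1
    have h3 : 0 ≤ 8 ^ (10 * n) * W * ℓ := by positivity
    linarith
  have h9 : (1 : ℝ) ≤ 8 ^ (9 * n) := one_le_pow₀ (by norm_num)
  have e4 : 2 * (8 ^ (9 * n) * σ + 1) ≤ 2 * 8 ^ (9 * n) * (σ + 1) := by linarith
  have hnn : (n : ℝ) ≤ 8 ^ n := by exact_mod_cast (Nat.lt_pow_self (by norm_num : 1 < 8)).le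
  have e5 : 32004 * (n : ℝ) * (8 ^ (9 * n) * 8 ^ (10 * n)) ≤ 8 ^ (25 * n) := by
    have h1 : (8 : ℝ) ^ (25 * n) = 8 ^ (5 * n) * 8 ^ n * (8 ^ (9 * n) * 8 ^ (10 * n)) := by
      rw [← pow_add, ← pow_add, ← pow_add]
      congr 1
      ring
    have h2 : (32004 : ℝ) ≤ 8 ^ (5 * n) :=
      (by norm_num : (32004 : ℝ) ≤ 8 ^ 20).trans (pow_le_pow_right₀ (by norm_num) (by omega))
    rw [h1]
    exact mul_le_mul_of_nonneg_right (mul_le_mul h2 hnn (by positivity) (by positivity))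
      (by positivity)
  calc 2 * n * (2 * (8 ^ (9 * n) * σ + 1)) * (8000 * (L + L ^ 5 / X0) * ℓ + 1)
      ≤ 2 * n * (2 * 8 ^ (9 * n) * (σ + 1)) * (8001 * (8 ^ (10 * n) * W) * (1 + ℓ)) := by
        refine mul_le_mul (mul_le_mul_of_nonneg_left e4 (by positivity)) e3 (by positivity)
          (by positivity)
    _ = 32004 * (n : ℝ) * (8 ^ (9 * n) * 8 ^ (10 * n)) * (W * (1 + ℓ) * (σ + 1)) := by ring
    _ ≤ 8 ^ (25 * n) * (W * (1 + ℓ) * (σ + 1)) := mul_le_mul_of_nonneg_right e5 (by positivity)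
    _ = 8 ^ (25 * n) * W * (1 + ℓ) * (σ + 1) := by ring

theorem can_count {n H : ℕ} (hn : 4 ≤ n) (hH : 2 ≤ H) {G : ℕ → ℕ → ℤ} (hG : Bdd n H G)
    (hI : LeadIrr n G) (hGam : Gam n H G) (M X0 q : ℝ) (hM : 1 ≤ M)
    (hX0 : (8 : ℝ) ^ (4 * n) * M ^ 2 ≤ X0) (hX0' : 8 ^ (12 * n) * M ^ 5 * H ≤ X0)
    (hq : 0 < q) (hq' : q ^ n * (800 * 8 ^ n * H * (8 ^ (2 * n) * M) ^ 5) ≤ X0 ^ 2)
    (S : Finset (ℤ × ℤ))
    (hS : ∀ P ∈ S, Cand n H G P ∧ |P.2| ≤ |P.1| ∧ X0 ≤ |(P.1 : ℝ)| ∧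
      (H : ℝ) / M ≤ dz n G P) :
    (S.card : ℝ) ≤ 8 ^ (45 * n) * (M + M ^ 5 / X0) * (1 + Real.log H) *
      (Real.sqrt (M ^ 7 * H) / q + 1) := by
  classical
  have hH1 : (1 : ℝ) ≤ H := by exact_mod_cast (by omega : 1 ≤ H)
  have hNZ := hI.nz (by omega)
  obtain ⟨E, hE⟩ : ∃ E : ℕ, E = 5300000 * n ^ 5 := ⟨_, rfl⟩
  have hY1 : (1 : ℝ) ≤ (H : ℝ) ^ E := one_le_pow₀ hH1
  have hX01 : 1 ≤ X0 := by
    refine le_trans ?_ hX0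
    have h1 : (1 : ℝ) ≤ 8 ^ (4 * n) := one_le_pow₀ (by norm_num)
    have h2 : 1 ≤ M ^ 2 := one_le_pow₀ hM
    nlinarith
  have hsplit : S.card = (S.filter fun P => |(P.1 : ℝ)| ≤ (H : ℝ) ^ E).card +
      (S.filter fun P => ¬ |(P.1 : ℝ)| ≤ (H : ℝ) ^ E).card :=
    (card_filter_add_card_filter_not _).symm
  have b1 := can_mid hn (by omega) hG hNZ hGam M X0 ((H : ℝ) ^ E) q hM hX0 hX0' hq hq' hY1
    (S.filter fun P => |(P.1 : ℝ)| ≤ (H : ℝ) ^ E) (by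
      intro P hP
      rw [mem_filter] at hP
      exact ⟨(hS P hP.1).1, (hS P hP.1).2.1, (hS P hP.1).2.2.1, hP.2, (hS P hP.1).2.2.2⟩)
  have b2 := large_cand hn hH hI hGam (S.filter fun P => ¬ |(P.1 : ℝ)| ≤ (H : ℝ) ^ E) (by
      intro P hP
      rw [mem_filter, not_le] at hP
      refine ⟨(hS P hP.1).1, ?_⟩
      rw [← hE]
      refine lt_of_lt_of_le ?_ (le_max_left _ _)
      have h1 := hP.2
      have h2 : (((H : ℤ) ^ E : ℤ) : ℝ) < ((|P.1| : ℤ) : ℝ) := by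
        push_cast
        exact h1
      exact_mod_cast h2)
  have b2' : ((S.filter fun P => ¬ |(P.1 : ℝ)| ≤ (H : ℝ) ^ E).card : ℝ) ≤ 39 * (n : ℝ) ^ 3 := by
    exact_mod_cast b2
  have hs' : (S.card : ℝ) = ((S.filter fun P => |(P.1 : ℝ)| ≤ (H : ℝ) ^ E).card : ℝ) +
      ((S.filter fun P => ¬ |(P.1 : ℝ)| ≤ (H : ℝ) ^ E).card : ℝ) := by exact_mod_cast hsplit
  have hℓ0 : 0 ≤ Real.log H := Real.log_nonneg hH1
  rw [Real.log_pow] at b1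
  obtain ⟨ℓ, hℓ⟩ : ∃ ℓ : ℝ, ℓ = Real.log H := ⟨_, rfl⟩
  obtain ⟨σ, hσ⟩ : ∃ σ : ℝ, σ = Real.sqrt (M ^ 7 * H) / q := ⟨_, rfl⟩
  obtain ⟨W, hW⟩ : ∃ W : ℝ, W = M + M ^ 5 / X0 := ⟨_, rfl⟩
  have hσ0 : 0 ≤ σ := by
    rw [hσ]
    positivity
  have hW1 : 1 ≤ W := by
    rw [hW]
    have : 0 ≤ M ^ 5 / X0 := by positivity
    linarith
  rw [← hℓ, ← hσ, ← hW] at b1
  rw [← hℓ] at hℓ0
  rw [← hℓ, ← hσ, ← hW]
  have hE0 : (0 : ℝ) ≤ E := by positivity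
  have c1 : 1 + (E : ℝ) * ℓ ≤ (E + 1) * (1 + ℓ) := by
    have : 0 ≤ (E : ℝ) * ℓ := by positivity
    nlinarith
  obtain ⟨V, hV⟩ : ∃ V : ℝ, V = W * (1 + ℓ) * (σ + 1) := ⟨_, rfl⟩
  have hV1 : 1 ≤ V := by
    rw [hV]
    exact one_le_mul_of_one_le_of_one_le (one_le_mul_of_one_le_of_one_le hW1 (by linarith))
      (by linarith)
  have c2 : (8 : ℝ) ^ (25 * n) * W * (1 + (E : ℝ) * ℓ) * (σ + 1) ≤ 8 ^ (25 * n) * (E + 1) * V := by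
    rw [hV]
    calc (8 : ℝ) ^ (25 * n) * W * (1 + (E : ℝ) * ℓ) * (σ + 1)
        ≤ (8 : ℝ) ^ (25 * n) * W * ((E + 1) * (1 + ℓ)) * (σ + 1) :=
          mul_le_mul_of_nonneg_right (mul_le_mul_of_nonneg_left c1 (by positivity)) (by linarith)
      _ = 8 ^ (25 * n) * (E + 1) * (W * (1 + ℓ) * (σ + 1)) := by ring
  have hn8 : (n : ℝ) ≤ 8 ^ n := by exact_mod_cast (Nat.lt_pow_self (by norm_num : 1 < 8)).le
  have c3 : (E : ℝ) ≤ 8 ^ (7 * n) := by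
    have h1 : (n : ℝ) ^ 5 ≤ (8 ^ n) ^ 5 := pow_le_pow_left₀ (by positivity) hn8 5
    have h2 : (5300000 : ℝ) ≤ 8 ^ (2 * n) :=
      (by norm_num : (5300000 : ℝ) ≤ 8 ^ 8).trans (pow_le_pow_right₀ (by norm_num) (by omega))
    have h3 : (8 : ℝ) ^ (7 * n) = 8 ^ (2 * n) * (8 ^ n) ^ 5 := by
      rw [← pow_mul, ← pow_add]
      congr 1
      ring
    rw [hE, h3]
    push_cast
    exact mul_le_mul h2 h1 (by positivity) (by positivity)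
  have c4 : 39 * (n : ℝ) ^ 3 ≤ 8 ^ (7 * n) := by
    have h1 : (n : ℝ) ^ 3 ≤ (8 ^ n) ^ 3 := pow_le_pow_left₀ (by positivity) hn8 3
    have h2 : (39 : ℝ) ≤ 8 ^ (4 * n) :=
      (by norm_num : (39 : ℝ) ≤ 8 ^ 16).trans (pow_le_pow_right₀ (by norm_num) (by omega))
    have h3 : (8 : ℝ) ^ (7 * n) = 8 ^ (4 * n) * (8 ^ n) ^ 3 := by
      rw [← pow_mul, ← pow_add]
      congr 1
      ring
    rw [h3]
    exact mul_le_mul h2 h1 (by positivity) (by positivity)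
  have c5 : (1 : ℝ) ≤ 8 ^ (7 * n) := one_le_pow₀ (by norm_num)
  have c6 : (8 : ℝ) ^ (25 * n) * (E + 1) + 39 * (n : ℝ) ^ 3 ≤ 8 ^ (45 * n) := by
    have h1 : (8 : ℝ) ^ (45 * n) = 8 ^ (25 * n) * (8 ^ (13 * n) * 8 ^ (7 * n)) := by
      rw [← pow_add, ← pow_add]
      congr 1
      ring
    have h2 : (8 : ℝ) ≤ 8 ^ (13 * n) := by
      calc (8 : ℝ) = 8 ^ 1 := by norm_num
        _ ≤ 8 ^ (13 * n) := pow_le_pow_right₀ (by norm_num) (by omega)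
    have h3 : (1 : ℝ) ≤ 8 ^ (25 * n) := one_le_pow₀ (by norm_num)
    have h4 : 39 * (n : ℝ) ^ 3 ≤ 8 ^ (25 * n) * 8 ^ (7 * n) :=
      c4.trans (le_mul_of_one_le_left (by positivity) h3)
    have h5 : (8 : ℝ) ^ (25 * n) * (E + 1) ≤ 8 ^ (25 * n) * (2 * 8 ^ (7 * n)) :=
      mul_le_mul_of_nonneg_left (by linarith) (by positivity)
    have h6 : (8 : ℝ) ^ (25 * n) * (8 * 8 ^ (7 * n)) ≤ 8 ^ (25 * n) * (8 ^ (13 * n) * 8 ^ (7 * n)) :=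
      mul_le_mul_of_nonneg_left (mul_le_mul_of_nonneg_right h2 (by positivity)) (by positivity)
    rw [h1]
    refine le_trans ?_ h6
    have h7 : (0 : ℝ) ≤ 8 ^ (25 * n) * 8 ^ (7 * n) := by positivity
    linarith
  have c7 : 39 * (n : ℝ) ^ 3 ≤ 39 * (n : ℝ) ^ 3 * V := le_mul_of_one_le_right (by positivity) hV1
  calc (S.card : ℝ) ≤ 8 ^ (25 * n) * (E + 1) * V + 39 * (n : ℝ) ^ 3 * V := by
        rw [hs']
        exact add_le_add (b1.trans c2) (b2'.trans c7)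
    _ = (8 ^ (25 * n) * (E + 1) + 39 * (n : ℝ) ^ 3) * V := by ring
    _ ≤ 8 ^ (45 * n) * V := mul_le_mul_of_nonneg_right c6 (by linarith)
    _ = 8 ^ (45 * n) * W * (1 + ℓ) * (σ + 1) := by
        rw [hV]
        ring

end Pool.Agent.H15.SC
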