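import Pool.Agent.H15.SC.Lev
import Pool.Agent.H15.SC.Fra

/-! # [SC LOWP] Vectors with a given top part vanishing at one of few points

`K = 2H + 1`, `D = card {i // Low i}`.
`low_pt`: vectors of the box that agree outside the low indices and vanish at `P`, `|x| > 2H`:
the `(n-3)` indices `(k,0)`, `k ≤ n-4`, are determined by the other low ones up to
`(2H/|x| + 1)^(n-4) ≤ 2^n` choices (`lev_vec` with `d = n - 4`, `c := ` a member of the fibre);
the other `D - (n-3)` low coordinates have `K` values each: the restriction map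
`a ↦ (a i)_{i low, not Pur (n-4)}` has fibres of at most `2^n` elements.
`low_fra`: `fra` with `p = Low`, `Q = True`, `φ = 1`: the fibre of `c ∈ S` is covered by the sets
of its vectors vanishing at `P`, `P` in the finite set `E` of the chosen zeros of its elements,
`#E ≤ m` by hypothesis; so the fibre has at most `m 2^n K^D/K^(n-3)` elements. -/

namespace Pool.Agent.H15.SC

open Finset Polynomial Pool.Agent.H72.ES Pool.Agent.H8.NoPt Pool.Agent.H8.MP

theorem low_pt (n : ℕ) (hn : 4 ≤ n) (H : ℕ) (P : ℤ × ℤ) (hx : 2 * (H : ℤ) < |P.1|)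
    (T : Finset (Ix n → ℤ))
    (hT : ∀ a ∈ T, (∀ i, |a i| ≤ (H : ℤ)) ∧ ev n (arr a) P.1 P.2 = 0)
    (hT' : ∀ a ∈ T, ∀ b ∈ T, ∀ i, ¬ Low i → a i = b i) :
    (T.card : ℝ) * (2 * H + 1 : ℝ) ^ (n - 3) ≤
      2 ^ n * (2 * H + 1 : ℝ) ^ (Fintype.card {i : Ix n // Low i}) := by
  classical
  obtain ⟨ρ, hρ⟩ : ∃ ρ : (Ix n → ℤ) → ({i : Ix n // Low i} → ℤ), ρ = fun a i => a i.1 := ⟨_, rfl⟩
  have hx0 : P.1 ≠ 0 := by
    intro h
    rw [h, abs_zero] at hx
    have : (0 : ℤ) ≤ H := by positivity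
    linarith
  have hinj : Set.InjOn ρ (T : Set (Ix n → ℤ)) := by
    intro a ha b hb hab
    rw [hρ] at hab
    funext i
    by_cases hi : Low i
    · exact congrFun hab ⟨i, hi⟩
    · exact hT' a ha b hb i hi
  have hcard : Fintype.card {j : {i : Ix n // Low i} // ¬ Pur (n - 4) j.1} + (n - 3) ≤
      Fintype.card {i : Ix n // Low i} := by
    have h1 : n - 3 ≤ Fintype.card {j : {i : Ix n // Low i} // Pur (n - 4) j.1} := by
      have h2 := Fintype.card_le_of_injective (fun k : Fin (n - 3) =>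
        (⟨⟨ix n (k : ℕ) 0 (by omega), by
          have h := k.2
          change (k : ℕ) + 0 + 4 ≤ n
          omega⟩, ⟨rfl, by
          have h := k.2
          change (k : ℕ) ≤ n - 4
          omega⟩⟩ : {j : {i : Ix n // Low i} // Pur (n - 4) j.1})) (by
        intro k l hkl
        have h3 := congrArg (fun j : {j : {i : Ix n // Low i} // Pur (n - 4) j.1} =>
          (j.1.1.1.1 : ℕ)) hkl
        exact Fin.ext h3)
      rwa [Fintype.card_fin] at h2
    have h3 := Fintype.card_subtype_compl (fun j : {i : Ix n // Low i} => Pur (n - 4) j.1)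
    have h4 := Fintype.card_subtype_le (fun j : {i : Ix n // Low i} => Pur (n - 4) j.1)
    omega
  have hm := fiber_count (fun j : {i : Ix n // Low i} => Pur (n - 4) j.1) H (T.image ρ) (by
    intro b hb i
    obtain ⟨a, ha, rfl⟩ := mem_image.1 hb
    rw [hρ]
    exact (hT a ha).1 i.1) ((2 : ℝ) ^ n) (by positivity) (by
    intro c _ U hU
    have h1 : U.card ≤ (T.filter fun a => ρ a ∈ U).card := by
      have h2 : U ⊆ (T.filter fun a => ρ a ∈ U).image ρ := by
        intro b hb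
        obtain ⟨a, ha, hab⟩ := mem_image.1 (hU b hb).1
        rw [mem_image]
        refine ⟨a, mem_filter.2 ⟨ha, ?_⟩, hab⟩
        rw [hab]
        exact hb
      exact (card_le_card h2).trans card_image_le
    rcases (T.filter fun a => ρ a ∈ U).eq_empty_or_nonempty with h0 | ⟨c', hc'⟩
    · rw [h0, card_empty] at h1
      have h3 : U.card = 0 := by omega
      rw [h3]
      push_cast
      positivity
    · rw [mem_filter] at hc'
      have h3 := lev_vec n (n - 4) H (by omega) P hx0 c' (T.filter fun a => ρ a ∈ U) (by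
        intro a ha
        rw [mem_filter] at ha
        refine ⟨(hT a ha.1).1, fun i hi => ?_, (hT a ha.1).2⟩
        by_cases hl : Low i
        · have h4 := (hU _ ha.2).2 ⟨i, hl⟩ hi
          have h5 := (hU _ hc'.2).2 ⟨i, hl⟩ hi
          rw [hρ] at h4 h5
          exact h4.trans h5.symm
        · exact hT' a ha.1 c' hc'.1 i hl)
      have hxR : (0 : ℝ) < |(P.1 : ℝ)| := abs_pos.2 (by exact_mod_cast hx0)
      have h6 : 2 * (H : ℝ) / |(P.1 : ℝ)| + 1 ≤ 2 := by
        have h7 : 2 * (H : ℝ) / |(P.1 : ℝ)| ≤ 1 := by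
          rw [div_le_one hxR]
          have h8 : ((2 * (H : ℤ) : ℤ) : ℝ) < ((|P.1| : ℤ) : ℝ) := by exact_mod_cast hx
          push_cast at h8
          exact h8.le
        linarith
      calc (U.card : ℝ) ≤ ((T.filter fun a => ρ a ∈ U).card : ℝ) := by exact_mod_cast h1
        _ ≤ (2 * (H : ℝ) / |(P.1 : ℝ)| + 1) ^ (n - 4) := h3
        _ ≤ 2 ^ (n - 4) := pow_le_pow_left₀ (by positivity) h6 _
        _ ≤ 2 ^ n := pow_le_pow_right₀ (by norm_num) (by omega))
  rw [card_image_of_injOn hinj] at hm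
  calc (T.card : ℝ) * (2 * H + 1 : ℝ) ^ (n - 3)
      ≤ 2 ^ n * (2 * H + 1 : ℝ) ^ (Fintype.card {j : {i : Ix n // Low i} // ¬ Pur (n - 4) j.1}) *
        (2 * H + 1 : ℝ) ^ (n - 3) := mul_le_mul_of_nonneg_right hm (by positivity)
    _ = 2 ^ n * (2 * H + 1 : ℝ) ^ (Fintype.card {j : {i : Ix n // Low i} // ¬ Pur (n - 4) j.1} +
        (n - 3)) := by rw [pow_add, mul_assoc]
    _ ≤ 2 ^ n * (2 * H + 1 : ℝ) ^ (Fintype.card {i : Ix n // Low i}) := by
        refine mul_le_mul_of_nonneg_left (pow_le_pow_right₀ ?_ hcard) (by positivity)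
        have : (0 : ℝ) ≤ H := by positivity
        linarith

theorem low_fra (n : ℕ) (hn : 4 ≤ n) (H : ℕ) (m : ℝ) (hm : 0 ≤ m) (S : Finset (Ix n → ℤ))
    (Z : (Ix n → ℤ) → ℤ × ℤ → Prop)
    (hS : ∀ a ∈ S, (∀ i, |a i| ≤ (H : ℤ)) ∧ ∃ P : ℤ × ℤ, 2 * (H : ℤ) < |P.1| ∧
      ev n (arr a) P.1 P.2 = 0 ∧ Z a P)
    (hm' : ∀ c ∈ S, ∀ E : Finset (ℤ × ℤ), (∀ P ∈ E, 2 * (H : ℤ) < |P.1| ∧ ∃ a ∈ S,
      (∀ i, ¬ Low i → a i = c i) ∧ ev n (arr a) P.1 P.2 = 0 ∧ Z a P) → (E.card : ℝ) ≤ m) :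
    (S.card : ℝ) * (2 * H + 1 : ℝ) ^ (n - 3) ≤
      2 ^ n * m * (2 * H + 1 : ℝ) ^ (Fintype.card (Ix n)) := by
  classical
  have hK : (0 : ℝ) < 2 * H + 1 := by positivity
  obtain ⟨D, hD⟩ : ∃ D, D = Fintype.card {i : Ix n // Low i} := ⟨_, rfl⟩
  have hch : ∀ a ∈ S, ∃ P : ℤ × ℤ, 2 * (H : ℤ) < |P.1| ∧ ev n (arr a) P.1 P.2 = 0 ∧ Z a P :=
    fun a ha => (hS a ha).2
  choose! f hf using hch
  have key := fra (ι := Ix n) (fun i => Low i) H 1 (2 ^ n * m * (2 * H + 1 : ℝ) ^ D /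
    (2 * H + 1 : ℝ) ^ (n - 3)) (by positivity) (fun _ => True) (fun _ _ _ _ => trivial) (by
    intro S' hS'
    have h1 : S' ⊆ Fintype.piFinset fun _ : Ix n => Icc (-(H : ℤ)) H := by
      intro a ha
      rw [Fintype.mem_piFinset]
      intro i
      rw [mem_Icc]
      exact abs_le.1 ((hS' a ha).1 i)
    have h2 := card_le_card h1
    rw [Fintype.card_piFinset] at h2
    simp only [Int.card_Icc, prod_const, card_univ] at h2
    have h3 : ((H : ℤ) + 1 - -(H : ℤ)).toNat = 2 * H + 1 := by omega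
    rw [h3] at h2
    rw [one_mul]
    exact_mod_cast h2) S (fun a ha => ⟨(hS a ha).1, trivial⟩) (by
    intro c hc T hT
    rw [le_div_iff₀ (by positivity)]
    have h1 : (T.card : ℝ) = ∑ b ∈ T.image f, ((T.filter fun a => f a = b).card : ℝ) := by
      rw [card_eq_sum_card_image f T]
      push_cast
      rfl
    have h2 : ∀ b ∈ T.image f, ((T.filter fun a => f a = b).card : ℝ) *
        (2 * H + 1 : ℝ) ^ (n - 3) ≤ 2 ^ n * (2 * H + 1 : ℝ) ^ D := by
      intro b hb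
      obtain ⟨a0, ha0, hab⟩ := mem_image.1 hb
      rw [hD]
      refine low_pt n hn H b ?_ _ ?_ ?_
      · rw [← hab]
        exact (hf a0 (hT a0 ha0).1).1
      · intro a ha
        rw [mem_filter] at ha
        refine ⟨(hS a (hT a ha.1).1).1, ?_⟩
        rw [← ha.2]
        exact (hf a (hT a ha.1).1).2.1
      · intro a ha b' hb' i hi
        rw [mem_filter] at ha hb'
        rw [(hT a ha.1).2 i hi, (hT b' hb'.1).2 i hi]
    have h3 : ((T.image f).card : ℝ) ≤ m := by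
      refine hm' c hc _ ?_
      intro b hb
      obtain ⟨a0, ha0, hab⟩ := mem_image.1 hb
      rw [← hab]
      exact ⟨(hf a0 (hT a0 ha0).1).1, a0, (hT a0 ha0).1, (hT a0 ha0).2,
        (hf a0 (hT a0 ha0).1).2.1, (hf a0 (hT a0 ha0).1).2.2⟩
    calc (T.card : ℝ) * (2 * H + 1 : ℝ) ^ (n - 3)
        = ∑ b ∈ T.image f, ((T.filter fun a => f a = b).card : ℝ) * (2 * H + 1 : ℝ) ^ (n - 3) := by
          rw [h1, sum_mul]
      _ ≤ ∑ _b ∈ T.image f, 2 ^ n * (2 * H + 1 : ℝ) ^ D := sum_le_sum h2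
      _ = (T.image f).card * (2 ^ n * (2 * H + 1 : ℝ) ^ D) := by rw [sum_const, nsmul_eq_mul]
      _ ≤ m * (2 ^ n * (2 * H + 1 : ℝ) ^ D) := mul_le_mul_of_nonneg_right h3 (by positivity)
      _ = 2 ^ n * m * (2 * H + 1 : ℝ) ^ D := by ring)
  rw [← hD] at key
  have h4 : (0 : ℝ) < (2 * H + 1 : ℝ) ^ D := by positivity
  have h5 : (0 : ℝ) < (2 * H + 1 : ℝ) ^ (n - 3) := by positivity
  have h6 : 1 * (2 ^ n * m * (2 * H + 1 : ℝ) ^ D / (2 * H + 1 : ℝ) ^ (n - 3)) *
      (2 * H + 1 : ℝ) ^ (Fintype.card (Ix n)) =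
      (2 ^ n * m * (2 * H + 1 : ℝ) ^ (Fintype.card (Ix n)) / (2 * H + 1 : ℝ) ^ (n - 3)) *
      (2 * H + 1 : ℝ) ^ D := by
    field_simp
  rw [h6] at key
  have h7 := le_of_mul_le_mul_right key h4
  rwa [le_div_iff₀ h5] at h7

end Pool.Agent.H15.SC
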