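import Pool.Agent.H15.SC.Core
import Pool.Agent.H15.SC.Can
import Pool.Agent.H15.SC.Lowp
import Pool.Agent.H8.MP.VecC

/-! # [SC S8B] Step (8b)

`H` large, `M = H^(11/50)`, `X0 = X1 = H^(n/2 - 1/100)`,
`q = (X1²/(800 * 8^n * H * (8^(2n) M)^5))^(1/n)`, so `q = H^(1 - (53/25)/n)/C` (`C` depends on `n`)
and `q ≥ H^(72/125)/C` (`n ≥ 5`: `1 - 53/125 = 72/125`). `low_fra` with
`Z a P := ZP n (arr a) P ∧ X1 ≤ |x| ∧ H^(39/50) ≤ dz n (arr a) P` (and `LeadIrr`, `Gam` of `a`);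
for `c ∈ S` the points of `E` are candidates (`Cand n H (arr c)`, `top4_arr`), `dz` depends only on
the top part, so `m = 8^(45n) (M + M⁵/X1)(1 + log H)(√(M⁷ H)/q + 1)` (`can_count` for `arr c`;
`LeadIrr`, `Gam` of `c` by `c ∈ S`). `M⁵/X1 ≤ M`. `√(M⁷ H)/q = C H^(127/100 - 72/125)`; exponent
of `m`: `11/50 + 127/100 - 72/125 = 914/1000`; `K^(n-3) ≥ H²`: total
`C (1 + log H) H^(914/1000 - 2)`. -/

namespace Pool.Agent.H15.SC

open Finset Polynomial Pool.Agent.H72.ES Pool.Agent.H8.NoPt Pool.Agent.H8.MP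

private theorem s8b_q (n : ℕ) (hn : 5 ≤ n) (H : ℝ) (hH : 1 ≤ H) : ∃ q : ℝ, 0 < q ∧
    q ^ n * (800 * 8 ^ n * H * (8 ^ (2 * n) * H ^ (11 / 50 : ℝ)) ^ 5) ≤
      (H ^ ((n : ℝ) / 2 - 1 / 100)) ^ 2 ∧
    H ^ (72 / 125 : ℝ) / 8 ^ 12 ≤ q := by
  have h0 : 0 < H := by linarith
  have hn5 : (5 : ℝ) ≤ n := by exact_mod_cast hn
  obtain ⟨A, hA⟩ : ∃ A : ℝ, A = 800 * 8 ^ n * H * (8 ^ (2 * n) * H ^ (11 / 50 : ℝ)) ^ 5 := ⟨_, rfl⟩
  have hA0 : 0 < A := by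
    rw [hA]
    positivity
  obtain ⟨B, hB⟩ : ∃ B : ℝ, B = (H ^ ((n : ℝ) / 2 - 1 / 100)) ^ 2 := ⟨_, rfl⟩
  have hB0 : 0 < B := by
    rw [hB]
    positivity
  rw [← hA, ← hB]
  have hq : ((B / A) ^ ((n : ℝ)⁻¹)) ^ n = B / A :=
    Real.rpow_inv_natCast_pow (by positivity) (by omega)
  refine ⟨(B / A) ^ ((n : ℝ)⁻¹), by positivity, ?_, ?_⟩
  · rw [hq, div_mul_cancel₀ _ hA0.ne']
  · rw [← pow_le_pow_iff_left₀ (by positivity) (by positivity) (show n ≠ 0 by omega), hq,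
      le_div_iff₀ hA0, div_pow, div_mul_eq_mul_div, div_le_iff₀ (by positivity)]
    have e1 : A = 800 * 8 ^ (11 * n) * H ^ (21 / 10 : ℝ) := by
      have h1 : (H ^ (11 / 50 : ℝ)) ^ 5 = H ^ (11 / 10 : ℝ) := by
        rw [← Real.rpow_natCast, ← Real.rpow_mul h0.le]
        norm_num
      have h2 : H * H ^ (11 / 10 : ℝ) = H ^ (21 / 10 : ℝ) := by
        rw [← Real.rpow_one_add' h0.le (by norm_num)]
        norm_num
      have h3 : (8 : ℝ) ^ (11 * n) = 8 ^ n * (8 ^ (2 * n)) ^ 5 := by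
        rw [← pow_mul, ← pow_add]
        congr 1
        ring
      rw [hA, mul_pow, h1, ← h2, h3]
      ring
    have e2 : B = H ^ ((n : ℝ) - 1 / 50) := by
      rw [hB, ← Real.rpow_natCast, ← Real.rpow_mul h0.le]
      congr 1
      push_cast
      ring
    have e3 : (H ^ (72 / 125 : ℝ)) ^ n = H ^ (72 / 125 * (n : ℝ)) := by
      rw [← Real.rpow_natCast, ← Real.rpow_mul h0.le]
    have e4 : H ^ (72 / 125 * (n : ℝ)) * H ^ (21 / 10 : ℝ) ≤ H ^ ((n : ℝ) - 1 / 50) := by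
      rw [← Real.rpow_add h0]
      exact Real.rpow_le_rpow_of_exponent_le hH (by linarith)
    have e5 : (800 : ℝ) * 8 ^ (11 * n) ≤ (8 ^ 12) ^ n := by
      have h1 : ((8 : ℝ) ^ 12) ^ n = 8 ^ n * 8 ^ (11 * n) := by
        rw [← pow_mul, ← pow_add]
        congr 1
        ring
      have h2 : (800 : ℝ) ≤ 8 ^ n :=
        (by norm_num : (800 : ℝ) ≤ 8 ^ 5).trans (pow_le_pow_right₀ (by norm_num) hn)
      rw [h1]
      exact mul_le_mul_of_nonneg_right h2 (by positivity)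
    rw [e1, e2, e3]
    calc H ^ (72 / 125 * (n : ℝ)) * (800 * 8 ^ (11 * n) * H ^ (21 / 10 : ℝ))
        = (H ^ (72 / 125 * (n : ℝ)) * H ^ (21 / 10 : ℝ)) * (800 * 8 ^ (11 * n)) := by ring
      _ ≤ H ^ ((n : ℝ) - 1 / 50) * (8 ^ 12) ^ n :=
          mul_le_mul e4 e5 (by positivity) (by positivity)

theorem s8b (n : ℕ) (hn : 5 ≤ n) : Small n (101 / 100) fun H a => LeadIrr n (arr a) ∧
    Gam n H (arr a) ∧ ∃ P : ℤ × ℤ, ZP n (arr a) P ∧ X1 n H ≤ |(P.1 : ℝ)| ∧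
      (H : ℝ) ^ (39 / 50 : ℝ) ≤ dz n (arr a) P := by
  classical
  refine small_of_large (s := 543 / 500) (by norm_num) (8 ^ (31 * n))
    (2 ^ n * (4 * 8 ^ (45 * n) * 8 ^ 12)) 1 ?_
  intro H hH0 hH2 S hS
  have hH1 : (1 : ℝ) ≤ H := by exact_mod_cast (by omega : 1 ≤ H)
  have h0 : (0 : ℝ) < H := by linarith
  have hn5 : (5 : ℝ) ≤ n := by exact_mod_cast hn
  have hHb : (8 : ℝ) ^ (31 * n) ≤ H := by exact_mod_cast hH0
  obtain ⟨q, hq0, hq1, hq2⟩ := s8b_q n hn H hH1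
  obtain ⟨M, hM⟩ : ∃ M : ℝ, M = (H : ℝ) ^ (11 / 50 : ℝ) := ⟨_, rfl⟩
  obtain ⟨X0, hX⟩ : ∃ X0 : ℝ, X0 = (H : ℝ) ^ ((n : ℝ) / 2 - 1 / 100) := ⟨_, rfl⟩
  rw [← hM, ← hX] at hq1
  have hX1 : X1 n H = X0 := by rw [hX]; rfl
  have hM1 : 1 ≤ M := by
    rw [hM]
    exact Real.one_le_rpow hH1 (by norm_num)
  have hM5 : M ^ 5 = (H : ℝ) ^ (11 / 10 : ℝ) := by
    rw [hM, ← Real.rpow_natCast, ← Real.rpow_mul h0.le]
    norm_num
  have hb39 : (8 : ℝ) ^ (12 * n) ≤ (H : ℝ) ^ (39 / 100 : ℝ) := by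
    have h1 : ((8 : ℝ) ^ (31 * n)) ^ (39 / 100 : ℝ) ≤ (H : ℝ) ^ (39 / 100 : ℝ) :=
      Real.rpow_le_rpow (by positivity) hHb (by norm_num)
    refine le_trans ?_ h1
    rw [← Real.rpow_natCast, ← Real.rpow_natCast, ← Real.rpow_mul (by norm_num)]
    refine Real.rpow_le_rpow_of_exponent_le (by norm_num) ?_
    push_cast
    linarith
  have hX0' : 8 ^ (12 * n) * M ^ 5 * H ≤ X0 := by
    rw [hM5, hX]
    calc 8 ^ (12 * n) * (H : ℝ) ^ (11 / 10 : ℝ) * H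
        ≤ (H : ℝ) ^ (39 / 100 : ℝ) * (H : ℝ) ^ (11 / 10 : ℝ) * (H : ℝ) ^ (1 : ℝ) := by
          rw [Real.rpow_one]
          exact mul_le_mul_of_nonneg_right (mul_le_mul_of_nonneg_right hb39 (by positivity)) h0.le
      _ = (H : ℝ) ^ (249 / 100 : ℝ) := by
          rw [← Real.rpow_add h0, ← Real.rpow_add h0]
          norm_num
      _ ≤ (H : ℝ) ^ ((n : ℝ) / 2 - 1 / 100) :=
          Real.rpow_le_rpow_of_exponent_le hH1 (by linarith)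
  have h12 : (8 : ℝ) ^ 60 ≤ 8 ^ (12 * n) := pow_le_pow_right₀ (by norm_num) (by omega)
  have h60 : (3 : ℝ) ≤ 8 ^ 60 := by norm_num
  have hM51 : 1 ≤ M ^ 5 := one_le_pow₀ hM1
  have hX0 : (8 : ℝ) ^ (4 * n) * M ^ 2 ≤ X0 := by
    refine le_trans ?_ hX0'
    have h1 : (8 : ℝ) ^ (4 * n) ≤ 8 ^ (12 * n) := pow_le_pow_right₀ (by norm_num) (by omega)
    have h2 : M ^ 2 ≤ M ^ 5 := pow_le_pow_right₀ hM1 (by norm_num)
    calc (8 : ℝ) ^ (4 * n) * M ^ 2 ≤ 8 ^ (12 * n) * M ^ 5 :=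
          mul_le_mul h1 h2 (by positivity) (by positivity)
      _ ≤ 8 ^ (12 * n) * M ^ 5 * H := le_mul_of_one_le_right (by positivity) hH1
  have hXH : 2 * (H : ℝ) < X0 := by
    have h1 : 3 * (H : ℝ) ≤ 8 ^ (12 * n) * M ^ 5 * H := by
      refine mul_le_mul_of_nonneg_right ?_ h0.le
      nlinarith
    linarith
  have hMX : M ^ 5 / X0 ≤ M := by
    have hX00 : 0 < X0 := by linarith
    rw [div_le_iff₀ hX00]
    have h1 : M ^ 5 ≤ X0 := by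
      refine le_trans ?_ hX0'
      have h2 : (1 : ℝ) ≤ 8 ^ (12 * n) := by linarith
      calc M ^ 5 = 1 * M ^ 5 * 1 := by ring
        _ ≤ 8 ^ (12 * n) * M ^ 5 * H := mul_le_mul (mul_le_mul_of_nonneg_right h2 (by positivity))
          hH1 (by norm_num) (by positivity)
    nlinarith
  have hHM : (H : ℝ) / M = (H : ℝ) ^ (39 / 50 : ℝ) := by
    rw [hM, div_eq_iff (by positivity), ← Real.rpow_add h0]
    norm_num
  have hℓ0 : 0 ≤ Real.log H := Real.log_nonneg hH1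
  have hσ0 : 0 ≤ Real.sqrt (M ^ 7 * H) / q := by positivity
  obtain ⟨m, hm⟩ : ∃ m : ℝ, m = 8 ^ (45 * n) * (M + M ^ 5 / X0) * (1 + Real.log H) *
      (Real.sqrt (M ^ 7 * H) / q + 1) := ⟨_, rfl⟩
  have hX00 : 0 < X0 := by linarith
  have hm0 : 0 ≤ m := by
    rw [hm]
    positivity
  have key := low_fra n (by omega) H m hm0 S (fun a P => ZP n (arr a) P ∧ X1 n H ≤ |(P.1 : ℝ)| ∧
    (H : ℝ) ^ (39 / 50 : ℝ) ≤ dz n (arr a) P) (by
      intro a ha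
      obtain ⟨h1, _, _, P, h4, h5, h6⟩ := hS a ha
      refine ⟨h1, P, ?_, h4.1, h4, h5, h6⟩
      rw [hX1] at h5
      have h7 : 2 * (H : ℝ) < |(P.1 : ℝ)| := lt_of_lt_of_le hXH h5
      exact_mod_cast h7) (by
      intro c hc E hE
      obtain ⟨c1, c2, c3, _⟩ := hS c hc
      rw [hm]
      refine can_count (by omega) hH2 (bdd_arr c1) c2 c3 M X0 q hM1 hX0 hX0' hq0 hq1 E ?_
      intro P hP
      obtain ⟨_, a, ha, hac, hev, hz, hx, hd⟩ := hE P hP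
      have htop := top4_arr hac
      refine ⟨⟨arr a, bdd_arr (hS a ha).1, htop, hev⟩, hz.2, by rw [← hX1]; exact hx, ?_⟩
      rw [hHM]
      unfold dz at hd ⊢
      rw [← hp_top4 (by omega) htop]
      exact hd)
  -- the size of `m`
  have hsq : Real.sqrt (M ^ 7 * H) = (H : ℝ) ^ (127 / 100 : ℝ) := by
    have h1 : M ^ 7 * H = ((H : ℝ) ^ (127 / 100 : ℝ)) ^ 2 := by
      have h2 : M ^ 7 = (H : ℝ) ^ (77 / 50 : ℝ) := by
        rw [hM, ← Real.rpow_natCast, ← Real.rpow_mul h0.le]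
        norm_num
      rw [h2, ← Real.rpow_natCast, ← Real.rpow_mul h0.le, ← Real.rpow_add_one h0.ne']
      norm_num
    rw [h1, Real.sqrt_sq (by positivity)]
  have hσ : Real.sqrt (M ^ 7 * H) / q + 1 ≤ 2 * 8 ^ 12 * (H : ℝ) ^ (347 / 500 : ℝ) := by
    have h1 : Real.sqrt (M ^ 7 * H) / q ≤ 8 ^ 12 * (H : ℝ) ^ (347 / 500 : ℝ) := by
      rw [hsq, div_le_iff₀ hq0]
      have h2 : (H : ℝ) ^ (127 / 100 : ℝ) = 8 ^ 12 * (H : ℝ) ^ (347 / 500 : ℝ) *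
          ((H : ℝ) ^ (72 / 125 : ℝ) / 8 ^ 12) := by
        have h3 : (H : ℝ) ^ (127 / 100 : ℝ) = (H : ℝ) ^ (347 / 500 : ℝ) * (H : ℝ) ^ (72 / 125 : ℝ) := by
          rw [← Real.rpow_add h0]
          norm_num
        rw [h3]
        ring
      rw [h2]
      exact mul_le_mul_of_nonneg_left hq2 (by positivity)
    have h4 : (1 : ℝ) ≤ (H : ℝ) ^ (347 / 500 : ℝ) := Real.one_le_rpow hH1 (by norm_num)
    have h5 : (1 : ℝ) ≤ 8 ^ 12 * (H : ℝ) ^ (347 / 500 : ℝ) :=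
      one_le_mul_of_one_le_of_one_le (by norm_num) h4
    linarith
  have hm1 : m ≤ (4 * 8 ^ (45 * n) * 8 ^ 12) * (1 + Real.log H) * (H : ℝ) ^ (457 / 500 : ℝ) := by
    have h1 : (H : ℝ) ^ (457 / 500 : ℝ) = M * (H : ℝ) ^ (347 / 500 : ℝ) := by
      rw [hM, ← Real.rpow_add h0]
      norm_num
    rw [hm, h1]
    calc 8 ^ (45 * n) * (M + M ^ 5 / X0) * (1 + Real.log H) * (Real.sqrt (M ^ 7 * H) / q + 1)
        ≤ 8 ^ (45 * n) * (2 * M) * (1 + Real.log H) * (2 * 8 ^ 12 * (H : ℝ) ^ (347 / 500 : ℝ)) := by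
          refine mul_le_mul (mul_le_mul_of_nonneg_right (mul_le_mul_of_nonneg_left (by linarith)
            (by positivity)) (by positivity)) hσ (by positivity) (by positivity)
      _ = (4 * 8 ^ (45 * n) * 8 ^ 12) * (1 + Real.log H) * (M * (H : ℝ) ^ (347 / 500 : ℝ)) := by
          ring
  have hK : (H : ℝ) ^ 2 ≤ (2 * H + 1 : ℝ) ^ (n - 3) := by
    calc (H : ℝ) ^ 2 ≤ (2 * H + 1 : ℝ) ^ 2 := pow_le_pow_left₀ h0.le (by linarith) 2
      _ ≤ (2 * H + 1 : ℝ) ^ (n - 3) := pow_le_pow_right₀ (by linarith) (by omega)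
  have hexp : (H : ℝ) ^ (-(543 / 500) : ℝ) = (H : ℝ) ^ (457 / 500 : ℝ) / (H : ℝ) ^ 2 := by
    rw [eq_div_iff (by positivity), ← Real.rpow_natCast, ← Real.rpow_add h0]
    norm_num
  rw [pow_one, hexp]
  have h9 : (S.card : ℝ) * (H : ℝ) ^ 2 ≤ 2 ^ n * m * (2 * H + 1 : ℝ) ^ (Fintype.card (Ix n)) :=
    (mul_le_mul_of_nonneg_left hK (by positivity)).trans key
  have h10 : (S.card : ℝ) ≤ 2 ^ n * m * (2 * H + 1 : ℝ) ^ (Fintype.card (Ix n)) / (H : ℝ) ^ 2 := by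
    rw [le_div_iff₀ (by positivity)]
    exact h9
  refine h10.trans ?_
  calc 2 ^ n * m * (2 * H + 1 : ℝ) ^ (Fintype.card (Ix n)) / (H : ℝ) ^ 2
      ≤ 2 ^ n * ((4 * 8 ^ (45 * n) * 8 ^ 12) * (1 + Real.log H) * (H : ℝ) ^ (457 / 500 : ℝ)) *
        (2 * H + 1 : ℝ) ^ (Fintype.card (Ix n)) / (H : ℝ) ^ 2 := by
        refine div_le_div_of_nonneg_right (mul_le_mul_of_nonneg_right
          (mul_le_mul_of_nonneg_left hm1 (by positivity)) (by positivity)) (by positivity)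
    _ = 2 ^ n * (4 * 8 ^ (45 * n) * 8 ^ 12) * (1 + Real.log H) *
        ((H : ℝ) ^ (457 / 500 : ℝ) / (H : ℝ) ^ 2) * (2 * H + 1 : ℝ) ^ (Fintype.card (Ix n)) := by
        ring

end Pool.Agent.H15.SC
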