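import Pool.Agent.H15.SC.Tr
import Pool.Agent.H15.SC.S7
import Pool.Agent.H15.SC.S7c
import Pool.Agent.H15.SC.S8a
import Pool.Agent.H15.SC.S8b

/-! # [SC BIG] Zeros that are not small, irreducible leading form (Step 9) -/

namespace Pool.Agent.H15.SC

open Finset Polynomial Pool.Agent.H72.ES Pool.Agent.H8.NoPt Pool.Agent.H8.MP

theorem big_x (n : ℕ) (hn : 5 ≤ n) : Small n (101 / 100) fun H a => LeadIrr n (arr a) ∧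
    ∃ P : ℤ × ℤ, ZP n (arr a) P ∧ (H : ℝ) ^ (1 / 8 : ℝ) ≤ |(P.1 : ℝ)| := by
  have h := ((s2a n hn).or (s2b n hn)).or (((s7a n hn).or (s7b1 n hn)).or
    (((s7b2 n hn).or (s7c n hn)).or ((s8a n hn).or (s8b n hn))))
  refine h.mono ?_
  rintro H a ⟨hI, P, hP, hx⟩
  by_cases h1 : |(P.1 : ℝ)| ≤ H
  · exact Or.inl (Or.inl ⟨P, hP, hx, h1⟩)
  push Not at h1
  by_cases h2 : |(P.1 : ℝ)| ≤ X1 n H
  · exact Or.inl (Or.inr ⟨P, hP, h1.le, h2⟩)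
  push Not at h2
  right
  by_cases h3 : dz n (arr a) P ≤ (H : ℝ) ^ (97 / 300 : ℝ)
  · exact Or.inl (Or.inl ⟨P, hP, h2.le, h3⟩)
  push Not at h3
  by_cases h4 : dz n (arr a) P ≤ (H : ℝ) ^ (1 / 2 : ℝ)
  · by_cases h5 : |(P.1 : ℝ)| ≤ X2 n H
    · exact Or.inl (Or.inr ⟨P, hP, h2.le, h5, h4⟩)
    · push Not at h5
      exact Or.inr (Or.inl (Or.inl ⟨hI, P, hP, h5.le, h3.le, h4⟩))
  push Not at h4
  by_cases h6 : dz n (arr a) P ≤ (H : ℝ) ^ (39 / 50 : ℝ)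
  · exact Or.inr (Or.inl (Or.inr ⟨hI, P, hP, h2.le, h4.le, h6⟩))
  push Not at h6
  by_cases h7 : Gam n H (arr a)
  · exact Or.inr (Or.inr (Or.inr ⟨hI, h7, P, hP, h2.le, h6.le⟩))
  · exact Or.inr (Or.inr (Or.inl ⟨hI, h7, P, hP, h2.le, h6.le⟩))

/-- from `|y| ≤ |x|` to all points; `I` a property of arrays invariant under transposition -/
theorem big_of_x (n : ℕ) (I : (ℕ → ℕ → ℤ) → Prop) (hI : ∀ F, I F → I (tr F))
    (h : Small n (101 / 100) fun H a => I (arr a) ∧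
      ∃ P : ℤ × ℤ, ZP n (arr a) P ∧ (H : ℝ) ^ (1 / 8 : ℝ) ≤ |(P.1 : ℝ)|) :
    Small n (101 / 100) fun H a => I (arr a) ∧
      ∃ P : ℤ × ℤ, ev n (arr a) P.1 P.2 = 0 ∧
        (H : ℝ) ^ (1 / 8 : ℝ) ≤ max |(P.1 : ℝ)| |(P.2 : ℝ)| := by
  have h' := Small.tr (n := n) (Q := fun H F => I F ∧
      ∃ P : ℤ × ℤ, ZP n F P ∧ (H : ℝ) ^ (1 / 8 : ℝ) ≤ |(P.1 : ℝ)|) h
  refine (h.or h').mono ?_
  rintro H a ⟨hIa, P, hP, hx⟩
  rcases le_total |P.2| |P.1| with hyx | hyx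
  · left
    refine ⟨hIa, P, ⟨hP, hyx⟩, ?_⟩
    have : |(P.2 : ℝ)| ≤ |(P.1 : ℝ)| := by exact_mod_cast hyx
    rwa [max_eq_left this] at hx
  · right
    refine ⟨hI _ hIa, P.swap, ⟨?_, hyx⟩, ?_⟩
    · rw [Prod.fst_swap, Prod.snd_swap, ev_tr]
      exact hP
    · have : |(P.1 : ℝ)| ≤ |(P.2 : ℝ)| := by exact_mod_cast hyx
      rwa [max_eq_right this] at hx

theorem big (n : ℕ) (hn : 5 ≤ n) : Small n (101 / 100) fun H a => LeadIrr n (arr a) ∧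
    ∃ P : ℤ × ℤ, ev n (arr a) P.1 P.2 = 0 ∧
      (H : ℝ) ^ (1 / 8 : ℝ) ≤ max |(P.1 : ℝ)| |(P.2 : ℝ)| :=
  big_of_x n (LeadIrr n) (fun _ h => leadIrr_tr (by omega) h) (big_x n hn)

end Pool.Agent.H15.SC
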