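import Pool.Agent.H15.SC.Defs

/-! # [SC CLS] Covering by windows

As in `NoPt.mid_count`: classes `(θ P, sign of x, k = ⌊log |x| / log (1+η)⌋)`; in one class all
`|x| ∈ [X, (1+η) X]`, `X = (1+η)^k`, and all `x` have one sign, so `|x - x'| ≤ η X`. Number of
classes `≤ n * 2 * (log Y / log (1+η) + 1)`, `log (1+η) ≥ η/2`. -/

namespace Pool.Agent.H15.SC

open Finset

theorem class_count (n : ℕ) (R : Finset ℂ) (hR : (R.card : ℝ) ≤ n) (η Y m : ℝ) (hη : 0 < η)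
    (hη1 : η ≤ 1) (hY : 1 ≤ Y) (hm : 0 ≤ m) (S : Finset (ℤ × ℤ)) (θ : ℤ × ℤ → ℂ)
    (hθ : ∀ P ∈ S, θ P ∈ R) (hx : ∀ P ∈ S, 1 ≤ |(P.1 : ℝ)| ∧ |(P.1 : ℝ)| ≤ Y)
    (hU : ∀ U ⊆ S, ∀ t ∈ R, ∀ X : ℝ, 0 < X →
      (∀ P ∈ U, θ P = t ∧ X ≤ |(P.1 : ℝ)| ∧ |(P.1 : ℝ)| ≤ X * (1 + η)) →
      (∀ A ∈ U, ∀ B ∈ U, |(A.1 : ℝ) - B.1| ≤ η * X) → (U.card : ℝ) ≤ m) :
    (S.card : ℝ) ≤ 2 * n * m * (2 * Real.log Y / η + 1) := by
  classical
  set ℓ : ℝ := Real.log (1 + η) with hℓ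
  have hℓ0 : η / 2 ≤ ℓ := by
    have h1 := Real.one_sub_inv_le_log_of_pos (show 0 < 1 + η by positivity)
    have h2 : η / 2 ≤ 1 - (1 + η)⁻¹ := by
      have : 1 - (1 + η)⁻¹ = η / (1 + η) := by field_simp; ring
      rw [this]
      exact div_le_div_of_nonneg_left hη.le (by positivity) (by linarith)
    linarith
  have hℓpos : 0 < ℓ := by linarith [half_pos hη]
  have hlY : 0 ≤ Real.log Y := Real.log_nonneg hY
  set K : ℕ := ⌊Real.log Y / ℓ⌋₊ with hK
  set key : ℤ × ℤ → ℂ × Bool × ℕ := fun P =>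
    (θ P, decide (0 ≤ P.1), ⌊Real.log |(P.1 : ℝ)| / ℓ⌋₊) with hkey
  set T : Finset (ℂ × Bool × ℕ) := R ×ˢ ((univ : Finset Bool) ×ˢ range (K + 1)) with hT
  have hmaps : ∀ P ∈ S, key P ∈ T := by
    intro P hPS
    rw [hT, mem_product, mem_product]
    refine ⟨hθ P hPS, mem_univ _, ?_⟩
    rw [mem_range, Nat.lt_succ_iff]
    apply Nat.floor_le_floor
    apply div_le_div_of_nonneg_right _ hℓpos.le
    exact Real.log_le_log (by linarith [(hx P hPS).1]) (hx P hPS).2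
  have hfib : ∀ k ∈ T, (((S.filter fun P => key P = k).card : ℕ) : ℝ) ≤ m := by
    intro k hk
    set U := S.filter fun P => key P = k with hUdef
    have hfac : ∀ P ∈ U, P ∈ S ∧ θ P = k.1 ∧ (decide (0 ≤ P.1)) = k.2.1 ∧
        (1 + η) ^ k.2.2 ≤ |(P.1 : ℝ)| ∧ |(P.1 : ℝ)| ≤ (1 + η) ^ k.2.2 * (1 + η) := by
      intro P hP
      rw [hUdef, mem_filter] at hP
      obtain ⟨hPS, hPk⟩ := hP
      have e1 : θ P = k.1 := by rw [← hPk]
      have e2 : (decide (0 ≤ P.1)) = k.2.1 := by rw [← hPk]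
      have e3 : ⌊Real.log |(P.1 : ℝ)| / ℓ⌋₊ = k.2.2 := by rw [← hPk]
      have hx1 := (hx P hPS).1
      have hx0 : 0 < |(P.1 : ℝ)| := by linarith
      have hlog0 : 0 ≤ Real.log |(P.1 : ℝ)| := Real.log_nonneg hx1
      refine ⟨hPS, e1, e2, ?_, ?_⟩
      · have h1 : (k.2.2 : ℝ) ≤ Real.log |(P.1 : ℝ)| / ℓ := by
          rw [← e3]; exact Nat.floor_le (div_nonneg hlog0 hℓpos.le)
        rw [le_div_iff₀ hℓpos] at h1
        rw [← Real.log_le_log_iff (by positivity) hx0, Real.log_pow]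
        exact h1
      · have h1 : Real.log |(P.1 : ℝ)| / ℓ < (k.2.2 : ℝ) + 1 := by
          rw [← e3]; exact Nat.lt_floor_add_one _
        rw [div_lt_iff₀ hℓpos] at h1
        rw [← Real.log_le_log_iff hx0 (by positivity), ← pow_succ, Real.log_pow]
        push_cast
        exact h1.le
    refine hU U (filter_subset _ _) k.1 (mem_product.1 hk).1 ((1 + η) ^ k.2.2) (by positivity)
      (fun P hP => ⟨(hfac P hP).2.1, (hfac P hP).2.2.2⟩) ?_
    intro A hA B hB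
    obtain ⟨_, _, sA, lA, uA⟩ := hfac A hA
    obtain ⟨_, _, sB, lB, uB⟩ := hfac B hB
    by_cases h0 : 0 ≤ A.1
    · have h0' : 0 ≤ B.1 := by
        have : decide (0 ≤ B.1) = true := by rw [sB, ← sA]; exact decide_eq_true h0
        exact of_decide_eq_true this
      have hA0 : (0 : ℝ) ≤ A.1 := by exact_mod_cast h0
      have hB0 : (0 : ℝ) ≤ B.1 := by exact_mod_cast h0'
      rw [abs_of_nonneg hA0] at lA uA
      rw [abs_of_nonneg hB0] at lB uB
      rw [abs_le]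
      constructor <;> nlinarith
    · have h0' : ¬ 0 ≤ B.1 := by
        intro hB0
        have : decide (0 ≤ A.1) = true := by rw [sA, ← sB]; exact decide_eq_true hB0
        exact h0 (of_decide_eq_true this)
      push Not at h0 h0'
      have hA0 : (A.1 : ℝ) < 0 := by exact_mod_cast h0
      have hB0 : (B.1 : ℝ) < 0 := by exact_mod_cast h0'
      rw [abs_of_neg hA0] at lA uA
      rw [abs_of_neg hB0] at lB uB
      rw [abs_le]
      constructor <;> nlinarith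
  have hsum : (S.card : ℝ) ≤ (T.card : ℝ) * m := by
    rw [card_eq_sum_card_fiberwise hmaps, Nat.cast_sum]
    refine (sum_le_sum hfib).trans ?_
    rw [sum_const, nsmul_eq_mul]
  have hTcard : (T.card : ℝ) ≤ n * (2 * (2 * Real.log Y / η + 1)) := by
    rw [hT, card_product, card_product, card_range, card_univ, Fintype.card_bool]
    push_cast
    have h2 : (K : ℝ) ≤ 2 * Real.log Y / η := by
      have h3 : (K : ℝ) ≤ Real.log Y / ℓ := Nat.floor_le (div_nonneg hlY hℓpos.le)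
      refine h3.trans ?_
      rw [div_le_div_iff₀ hℓpos hη]
      nlinarith
    have h5 : (0 : ℝ) ≤ (K : ℝ) := Nat.cast_nonneg _
    gcongr
  calc (S.card : ℝ) ≤ (T.card : ℝ) * m := hsum
    _ ≤ (n * (2 * (2 * Real.log Y / η + 1))) * m := by gcongr
    _ = 2 * n * m * (2 * Real.log Y / η + 1) := by ring

end Pool.Agent.H15.SC
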