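import Pool.Agent.H15.SC.Defs

/-! # [SC WIN] Three points in one window are collinear (Step 5)

`D = (x2-x1)(y3-y1) - (x3-x1)(y2-y1)` does not change if `y_i` is replaced by
`e_i = y_i - θ x_i - β = γ/x_i + E_i`. `D = ∑_cyc e_i (x_{i+2} - x_{i+1})` (sign as in
`NoPt.col_of_close`), `∑_cyc (x_{i+1}-x_{i+2})/x_i = -V/(x1x2x3)` with
`V = (x1-x2)(x2-x3)(x3-x1)`. So `|D| ≤ ‖γ‖ W³/X³ + 3 W E < 1` and `D = 0`. -/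

namespace Pool.Agent.H15.SC

theorem win_three (θ β γ : ℂ) (E W X : ℝ) (hX : 0 < X) (hE : 0 ≤ E) (hW : 0 ≤ W)
    (hlt : ‖γ‖ * W ^ 3 / X ^ 3 + 3 * W * E < 1) (P P' R : ℤ × ℤ)
    (h1 : X ≤ |(P.1 : ℝ)|) (h2 : X ≤ |(P'.1 : ℝ)|) (h3 : X ≤ |(R.1 : ℝ)|)
    (e1 : ‖(P.2 : ℂ) - θ * P.1 - β - γ / P.1‖ ≤ E)
    (e2 : ‖(P'.2 : ℂ) - θ * P'.1 - β - γ / P'.1‖ ≤ E)
    (e3 : ‖(R.2 : ℂ) - θ * R.1 - β - γ / R.1‖ ≤ E)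
    (h12 : |(P.1 : ℝ) - P'.1| ≤ W) (h13 : |(P.1 : ℝ) - R.1| ≤ W)
    (h23 : |(P'.1 : ℝ) - R.1| ≤ W) :
    (P'.1 - P.1) * (R.2 - P.2) = (R.1 - P.1) * (P'.2 - P.2) := by
  have hx : ∀ n : ℤ, X ≤ |(n : ℝ)| → (n : ℂ) ≠ 0 := by
    intro n hn h0
    have : n = 0 := by exact_mod_cast h0
    rw [this] at hn
    simp at hn
    linarith
  have hnorm : ∀ n : ℤ, ‖(n : ℂ)‖ = |(n : ℝ)| := by
    intro n
    rw [← Complex.ofReal_intCast, Complex.norm_real, Real.norm_eq_abs]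
  have x1 := hx _ h1
  have x2 := hx _ h2
  have x3 := hx _ h3
  set r1 : ℂ := (P.2 : ℂ) - θ * P.1 - β - γ / P.1 with hr1
  set r2 : ℂ := (P'.2 : ℂ) - θ * P'.1 - β - γ / P'.1 with hr2
  set r3 : ℂ := (R.2 : ℂ) - θ * R.1 - β - γ / R.1 with hr3
  have y1 : (P.2 : ℂ) = r1 + θ * P.1 + β + γ / P.1 := by rw [hr1]; ring
  have y2 : (P'.2 : ℂ) = r2 + θ * P'.1 + β + γ / P'.1 := by rw [hr2]; ring
  have y3 : (R.2 : ℂ) = r3 + θ * R.1 + β + γ / R.1 := by rw [hr3]; ring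
  set D : ℤ := (P'.1 - P.1) * (R.2 - P.2) - (R.1 - P.1) * (P'.2 - P.2) with hD
  have key : (D : ℂ) = γ * ((((P.1 - P'.1 : ℤ) : ℂ)) * ((P'.1 - R.1 : ℤ) : ℂ) *
      ((R.1 - P.1 : ℤ) : ℂ)) / ((P.1 : ℂ) * P'.1 * R.1) + ((R.1 - P'.1 : ℤ) : ℂ) * r1
      + ((P.1 - R.1 : ℤ) : ℂ) * r2 + ((P'.1 - P.1 : ℤ) : ℂ) * r3 := by
    rw [hD]
    push_cast
    rw [y1, y2, y3]
    field_simp
    ring
  have n12 : ‖((P.1 - P'.1 : ℤ) : ℂ)‖ ≤ W := by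
    rw [hnorm]; push_cast; exact h12
  have n23 : ‖((P'.1 - R.1 : ℤ) : ℂ)‖ ≤ W := by
    rw [hnorm]; push_cast; exact h23
  have n31 : ‖((R.1 - P.1 : ℤ) : ℂ)‖ ≤ W := by
    rw [hnorm]; push_cast; rw [abs_sub_comm]; exact h13
  have n32 : ‖((R.1 - P'.1 : ℤ) : ℂ)‖ ≤ W := by
    rw [hnorm]; push_cast; rw [abs_sub_comm]; exact h23
  have n13 : ‖((P.1 - R.1 : ℤ) : ℂ)‖ ≤ W := by
    rw [hnorm]; push_cast; exact h13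
  have n21 : ‖((P'.1 - P.1 : ℤ) : ℂ)‖ ≤ W := by
    rw [hnorm]; push_cast; rw [abs_sub_comm]; exact h12
  have hlow : X ^ 3 ≤ ‖(P.1 : ℂ) * P'.1 * R.1‖ := by
    rw [norm_mul, norm_mul, hnorm, hnorm, hnorm]
    calc X ^ 3 = X * X * X := by ring
      _ ≤ |(P.1 : ℝ)| * |(P'.1 : ℝ)| * |(R.1 : ℝ)| := by gcongr
  have hV : ‖γ * ((((P.1 - P'.1 : ℤ) : ℂ)) * ((P'.1 - R.1 : ℤ) : ℂ) *
      ((R.1 - P.1 : ℤ) : ℂ)) / ((P.1 : ℂ) * P'.1 * R.1)‖ ≤ ‖γ‖ * W ^ 3 / X ^ 3 := by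
    rw [norm_div, norm_mul, norm_mul, norm_mul]
    have : ‖((P.1 - P'.1 : ℤ) : ℂ)‖ * ‖((P'.1 - R.1 : ℤ) : ℂ)‖ * ‖((R.1 - P.1 : ℤ) : ℂ)‖
        ≤ W ^ 3 := by
      calc ‖((P.1 - P'.1 : ℤ) : ℂ)‖ * ‖((P'.1 - R.1 : ℤ) : ℂ)‖ * ‖((R.1 - P.1 : ℤ) : ℂ)‖
          ≤ W * W * W := by gcongr
        _ = W ^ 3 := by ring
    gcongr
  have hDlt : ‖(D : ℂ)‖ < 1 := by
    have b1 : ‖((R.1 - P'.1 : ℤ) : ℂ) * r1‖ ≤ W * E := by rw [norm_mul]; gcongr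
    have b2 : ‖((P.1 - R.1 : ℤ) : ℂ) * r2‖ ≤ W * E := by rw [norm_mul]; gcongr
    have b3 : ‖((P'.1 - P.1 : ℤ) : ℂ) * r3‖ ≤ W * E := by rw [norm_mul]; gcongr
    rw [key]
    refine lt_of_le_of_lt (norm_add_le _ _) ?_
    refine lt_of_le_of_lt (add_le_add_left (norm_add_le _ _) _) ?_
    refine lt_of_le_of_lt (add_le_add_left (add_le_add_left (norm_add_le _ _) _) _) ?_
    linarith
  rw [hnorm] at hDlt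
  have hD0 : D = 0 := by
    have h5 : |D| < 1 := by exact_mod_cast hDlt
    exact Int.abs_lt_one_iff.mp h5
  rw [hD] at hD0
  linarith

end Pool.Agent.H15.SC
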