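import Pool.Agent.H15.SC.Asy
import Pool.Agent.H15.SC.Win
import Pool.Agent.H15.SC.Cls
import Pool.Agent.H8.NoPt.Mid
import Pool.Agent.H72.ES.Line

/-! # [SC CL] Few points at constant level, middle range (Step 6)

`L = 8^(2n) M`, `η = 1/(4000 (L + L⁵/X0)) ≤ 1`. `win_class`: points of one class
(`NearB n G L θ`, `X ≤ |x|`, `X0 ≤ |x|`, differences `≤ η X`): with `X' = max X X0` we have
`|x_i - x_j| ≤ W = η X'`, `E = 263 L⁵/X'²`, `‖ga‖ (W/X')³ ≤ 274 L³ η³ ≤ 274/4000³`,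
`3 W E ≤ 789 η L⁵/X' ≤ 789/4000`, so `win_three` applies.
`cl_count`: a point with `|G(P)| ≤ H` is `Cand n H G P` (take `F = G` with `F 0 0 = -G(P)`; here
`G 0 0 = 0` and `n ≥ 4`), `nearB_cand` gives the root; `class_count` with
`m = 3 n H^(1/n)`: if `U` has two different points apply `line_bound_points` (`NZ n G`).
Number `≤ 2n (3n H^(1/n)) (8000 (L + L⁵/X0) log Y + 1)`; `L + L⁵/X0 ≤ 8^(10n) (M + M⁵/X0)`,
`6 n² * 8001 ≤ 8^(6n)`. -/

namespace Pool.Agent.H15.SC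

open Finset Polynomial Pool.Agent.H72.ES Pool.Agent.H8.NoPt Pool.Agent.H8.MP

theorem win_class {n : ℕ} {G : ℕ → ℕ → ℤ} {L X0 X η : ℝ} (hL : 1 ≤ L) (hX0 : 0 < X0)
    (hX : 0 < X) (hη : η = 1 / (4000 * (L + L ^ 5 / X0))) {θ : ℂ} {P P' R : ℤ × ℤ}
    (h1 : NearB n G L θ P ∧ X ≤ |(P.1 : ℝ)| ∧ X0 ≤ |(P.1 : ℝ)|)
    (h2 : NearB n G L θ P' ∧ X ≤ |(P'.1 : ℝ)| ∧ X0 ≤ |(P'.1 : ℝ)|)
    (h3 : NearB n G L θ R ∧ X ≤ |(R.1 : ℝ)| ∧ X0 ≤ |(R.1 : ℝ)|)
    (h12 : |(P.1 : ℝ) - P'.1| ≤ η * X) (h13 : |(P.1 : ℝ) - R.1| ≤ η * X)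
    (h23 : |(P'.1 : ℝ) - R.1| ≤ η * X) :
    (P'.1 - P.1) * (R.2 - P.2) = (R.1 - P.1) * (P'.2 - P.2) := by
  have hL0 : 0 < L := by linarith
  have hA0 : 0 < L + L ^ 5 / X0 := by positivity
  have hη0 : 0 < η := by rw [hη]; positivity
  have hηA : η * (4000 * (L + L ^ 5 / X0)) = 1 := by
    rw [hη, one_div, inv_mul_cancel₀ (by positivity)]
  have hηL : η * L ≤ 1 / 4000 := by
    have : 0 ≤ η * (L ^ 5 / X0) := by positivity
    nlinarith
  have hηL5 : η * (L ^ 5 / X0) ≤ 1 / 4000 := by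
    have : 0 ≤ η * L := by positivity
    nlinarith
  set X' : ℝ := max X X0 with hX'
  have hX'0 : 0 < X' := lt_of_lt_of_le hX (le_max_left _ _)
  have hXX' : X ≤ X' := le_max_left _ _
  have hX0X' : X0 ≤ X' := le_max_right _ _
  have hW : η * X ≤ η * X' := by gcongr
  refine win_three θ (be n G θ) (ga n G θ) (263 * L ^ 5 / X' ^ 2) (η * X') X' hX'0
    (by positivity) (by positivity) ?_ P P' R (max_le h1.2.1 h1.2.2) (max_le h2.2.1 h2.2.2)
    (max_le h3.2.1 h3.2.2) ?_ ?_ ?_ (h12.trans hW) (h13.trans hW) (h23.trans hW)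
  · have e1 : ‖ga n G θ‖ * (η * X') ^ 3 / X' ^ 3 = ‖ga n G θ‖ * η ^ 3 := by
      field_simp
    have e2 : 3 * (η * X') * (263 * L ^ 5 / X' ^ 2) = 789 * (η * (L ^ 5 / X')) := by
      field_simp
      ring
    rw [e1, e2]
    have h4 : ‖ga n G θ‖ * η ^ 3 ≤ 274 * (1 / 4000) ^ 3 := by
      calc ‖ga n G θ‖ * η ^ 3 ≤ 274 * L ^ 3 * η ^ 3 := by
            have := h1.1.ga
            gcongr
        _ = 274 * (η * L) ^ 3 := by ring
        _ ≤ 274 * (1 / 4000) ^ 3 := by gcongr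
    have h5 : η * (L ^ 5 / X') ≤ 1 / 4000 := by
      refine le_trans ?_ hηL5
      gcongr
    have h6 : (274 : ℝ) * (1 / 4000) ^ 3 ≤ 1 / 100 := by norm_num
    linarith
  · refine h1.1.e2.trans ?_
    have := max_le h1.2.1 h1.2.2
    gcongr
  · refine h2.1.e2.trans ?_
    have := max_le h2.2.1 h2.2.2
    gcongr
  · refine h3.1.e2.trans ?_
    have := max_le h3.2.1 h3.2.2
    gcongr

private theorem ev_shift {n : ℕ} (G : ℕ → ℕ → ℤ) (c x y : ℤ) :
    ev n (fun i j => G i j + if i = 0 ∧ j = 0 then c else 0) x y = ev n G x y + c := by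
  unfold ev
  have h1 : ∀ i ∈ range (n + 1), ∑ j ∈ range (n + 1 - i),
      (G i j + if i = 0 ∧ j = 0 then c else 0) * x ^ i * y ^ j =
      ∑ j ∈ range (n + 1 - i), G i j * x ^ i * y ^ j + if i = 0 then c else 0 := by
    intro i hi
    rw [mem_range] at hi
    have h2 : ∀ j ∈ range (n + 1 - i), (G i j + if i = 0 ∧ j = 0 then c else 0) * x ^ i * y ^ j =
        G i j * x ^ i * y ^ j + if j = 0 then (if i = 0 then c else 0) else 0 := by
      intro j _
      by_cases hj : j = 0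
      · by_cases hi0 : i = 0
        · subst hj hi0
          simp
        · simp [hi0]
      · simp [hj]
    rw [sum_congr rfl h2, sum_add_distrib, sum_ite_eq' (range (n + 1 - i)) 0,
      if_pos (mem_range.2 (by omega))]
  rw [sum_congr rfl h1, sum_add_distrib, sum_ite_eq' (range (n + 1)) 0,
    if_pos (mem_range.2 (by omega))]

private theorem cand_of {n H : ℕ} (hn : 4 ≤ n) {G : ℕ → ℕ → ℤ} (hG : Bdd n H G)
    (h0 : G 0 0 = 0) (P : ℤ × ℤ) (hP : |ev n G P.1 P.2| ≤ (H : ℤ)) : Cand n H G P := by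
  refine ⟨fun i j => G i j + if i = 0 ∧ j = 0 then -ev n G P.1 P.2 else 0, ?_, ?_, ?_⟩
  · intro i j hij
    by_cases h : i = 0 ∧ j = 0
    · obtain ⟨rfl, rfl⟩ := h
      simp only [h0, and_self, if_true, zero_add, abs_neg]
      exact hP
    · simp only [h, if_false, add_zero]
      exact hG i j hij
  · intro i j hij h4
    have h : ¬ (i = 0 ∧ j = 0) := by omega
    simp only [h, if_false, add_zero]
  · rw [ev_shift]
    ring

theorem cl_count {n H : ℕ} (hn : 4 ≤ n) (hH : 1 ≤ H) {G : ℕ → ℕ → ℤ} (hG : Bdd n H G)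
    (h0 : G 0 0 = 0) (hNZ : NZ n G) (M X0 Y : ℝ) (hM : 1 ≤ M)
    (hX0 : (8 : ℝ) ^ (4 * n) * M ^ 2 ≤ X0) (hY : 1 ≤ Y) (S : Finset (ℤ × ℤ))
    (hS : ∀ P ∈ S, |ev n G P.1 P.2| ≤ (H : ℤ) ∧ |P.2| ≤ |P.1| ∧ X0 ≤ |(P.1 : ℝ)| ∧
      |(P.1 : ℝ)| ≤ Y ∧ (H : ℝ) / M ≤ dz n G P) :
    (S.card : ℝ) ≤ 8 ^ (16 * n) * (M + M ^ 5 / X0) * (1 + Real.log Y) *
      (H : ℝ) ^ (1 / (n : ℝ)) := by
  classical
  have hM0 : 0 < M := by linarith
  have hnR : (4 : ℝ) ≤ n := by exact_mod_cast hn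
  have h8 : (1 : ℝ) ≤ 8 ^ (4 * n) := one_le_pow₀ (by norm_num)
  have hX01 : 1 ≤ X0 := by
    have h3 : 1 ≤ M ^ 2 := one_le_pow₀ hM
    nlinarith
  have hX00 : 0 < X0 := by linarith
  set L : ℝ := 8 ^ (2 * n) * M with hLdef
  have h82 : (1 : ℝ) ≤ 8 ^ (2 * n) := one_le_pow₀ (by norm_num)
  have hL1 : 1 ≤ L := by rw [hLdef]; nlinarith
  have hL0 : 0 < L := by linarith
  set A : ℝ := L + L ^ 5 / X0 with hA
  have hA1 : 1 ≤ A := by
    have : 0 ≤ L ^ 5 / X0 := by positivity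
    rw [hA]; linarith
  have hA0 : 0 < A := by linarith
  set η : ℝ := 1 / (4000 * A) with hη
  have hη0 : 0 < η := by positivity
  have hη1 : η ≤ 1 := by
    rw [hη, div_le_one (by positivity)]; linarith
  set HR : ℝ := (H : ℝ) ^ (1 / (n : ℝ)) with hHR
  have hH1 : (1 : ℝ) ≤ H := by exact_mod_cast hH
  have hHR1 : 1 ≤ HR := Real.one_le_rpow hH1 (by positivity)
  have hlY : 0 ≤ Real.log Y := Real.log_nonneg hY
  -- the root attached to a point
  have hasym : ∀ P ∈ S, ∃ θ : ℂ, NearB n G L θ P := fun P hPS => by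
    obtain ⟨g1, g2, g3, _, g5⟩ := hS P hPS
    exact nearB_cand hn hH hM P (cand_of hn hG h0 P g1) g2 g5 (hX0.trans g3)
  choose! θ hθ using hasym
  have hcard : (((hp n G).roots.toFinset.card : ℕ) : ℝ) ≤ n := by
    have : (hp n G).roots.toFinset.card ≤ n :=
      (Multiset.toFinset_card_le _).trans ((card_roots' _).trans (hp_natDegree_le n G))
    exact_mod_cast this
  have key := class_count n (hp n G).roots.toFinset hcard η Y (3 * n * HR) hη0 hη1 hY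
    (by positivity) S θ (fun P hPS => by
      rw [Multiset.mem_toFinset, mem_roots (hp_ne_zero hNZ)]
      exact (hθ P hPS).root) (fun P hPS => ⟨hX01.trans (hS P hPS).2.2.1, (hS P hPS).2.2.2.1⟩)
    (fun U hUS t _ X hX hU1 hU2 => ?_)
  · have e1 : 2 * Real.log Y / η + 1 = 8000 * A * Real.log Y + 1 := by
      rw [hη]
      field_simp
      ring
    rw [e1] at key
    have hAle : A ≤ 8 ^ (10 * n) * (M + M ^ 5 / X0) := by
      have h5 : (8 : ℝ) ^ (2 * n) ≤ 8 ^ (10 * n) := pow_le_pow_right₀ (by norm_num) (by omega)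
      have h6 : L ^ 5 = 8 ^ (10 * n) * M ^ 5 := by
        rw [hLdef, mul_pow, ← pow_mul]
        congr 2
        ring
      rw [hA, h6, mul_add, mul_div_assoc]
      refine add_le_add ?_ le_rfl
      rw [hLdef]
      gcongr
    have h48 : 6 * (n : ℝ) ^ 2 * 8001 ≤ 8 ^ (6 * n) := by
      have : ∀ m : ℕ, 4 ≤ m → 6 * m ^ 2 * 8001 ≤ 8 ^ (6 * m) := by
        intro m hm
        induction m, hm using Nat.le_induction with
        | base => norm_num
        | succ k hk ih =>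
          have : 8 ^ (6 * (k + 1)) = 262144 * 8 ^ (6 * k) := by ring
          rw [this]; nlinarith
      exact_mod_cast this n hn
    have hB0 : 0 ≤ M + M ^ 5 / X0 := by positivity
    calc (S.card : ℝ) ≤ 2 * n * (3 * n * HR) * (8000 * A * Real.log Y + 1) := key
      _ ≤ 2 * n * (3 * n * HR) * (8001 * A * (1 + Real.log Y)) := by
          have h7 : 8000 * A * Real.log Y + 1 ≤ 8001 * A * (1 + Real.log Y) := by
            nlinarith [mul_nonneg hA0.le hlY]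
          gcongr
      _ = (6 * (n : ℝ) ^ 2 * 8001) * A * (1 + Real.log Y) * HR := by ring
      _ ≤ 8 ^ (6 * n) * (8 ^ (10 * n) * (M + M ^ 5 / X0)) * (1 + Real.log Y) * HR := by
          gcongr
      _ = 8 ^ (16 * n) * (M + M ^ 5 / X0) * (1 + Real.log Y) * HR := by
          rw [← mul_assoc (8 ^ (6 * n) : ℝ), ← pow_add]
          congr 4
          ring_nf
  · by_cases hc : U.card ≤ 1
    · have : (U.card : ℝ) ≤ 1 := by exact_mod_cast hc
      nlinarith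
    · push Not at hc
      obtain ⟨P, hPU, P', hP'U, hne⟩ := one_lt_card.mp hc
      have hw : ∀ Q ∈ U, NearB n G L t Q ∧ X ≤ |(Q.1 : ℝ)| ∧ X0 ≤ |(Q.1 : ℝ)| := by
        intro Q hQ
        have h9 := hθ Q (hUS hQ)
        rw [(hU1 Q hQ).1] at h9
        exact ⟨h9, (hU1 Q hQ).2.1, (hS Q (hUS hQ)).2.2.1⟩
      refine line_bound_points (by omega) G hNZ H hH P P' hne U ?_ ?_
      · intro R hR
        exact win_class hL1 hX00 hX hη (hw P hPU) (hw P' hP'U) (hw R hR) (hU2 P hPU P' hP'U)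
          (hU2 P hPU R hR) (hU2 P' hP'U R hR)
      · intro R hR
        exact (hS R (hUS hR)).1

end Pool.Agent.H15.SC
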