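import Pool.Agent.H15.SC.Defs

/-! # [SC CORE] Calculus of `Small` -/

namespace Pool.Agent.H15.SC

open Finset Polynomial Pool.Agent.H72.ES Pool.Agent.H8.NoPt Pool.Agent.H8.MP

/-- trivial bound -/
theorem box_card {n H : ℕ} (S : Finset (Ix n → ℤ)) (hS : ∀ a ∈ S, ∀ i, |a i| ≤ (H : ℤ)) :
    (S.card : ℝ) ≤ (2 * H + 1 : ℝ) ^ (Fintype.card (Ix n)) := by
  have h1 : S ⊆ Fintype.piFinset fun _ : Ix n => Icc (-(H : ℤ)) H := by
    intro a ha
    rw [Fintype.mem_piFinset]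
    intro i
    rw [mem_Icc]
    exact abs_le.1 (hS a ha i)
  have h2 := card_le_card h1
  rw [Fintype.card_piFinset] at h2
  simp only [Int.card_Icc, prod_const, card_univ] at h2
  have h3 : ((H : ℤ) + 1 - -(H : ℤ)).toNat = 2 * H + 1 := by omega
  rw [h3] at h2
  exact_mod_cast h2

theorem Small.mono {n : ℕ} {s : ℝ} {Q R : ℕ → (Ix n → ℤ) → Prop} (h : Small n s Q)
    (hR : ∀ H a, R H a → Q H a) : Small n s R := by
  obtain ⟨C, hC⟩ := h
  exact ⟨C, fun H hH S hS => hC H hH S fun a ha => ⟨(hS a ha).1, hR _ _ (hS a ha).2⟩⟩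

/-- the constant may be taken nonnegative -/
theorem Small.pos {n : ℕ} {s : ℝ} {Q : ℕ → (Ix n → ℤ) → Prop} (h : Small n s Q) :
    ∃ C : ℝ, 0 ≤ C ∧ ∀ H : ℕ, 1 ≤ H → ∀ S : Finset (Ix n → ℤ),
    (∀ a ∈ S, (∀ i, |a i| ≤ (H : ℤ)) ∧ Q H a) →
    (S.card : ℝ) ≤ C * (H : ℝ) ^ (-s) * (2 * H + 1 : ℝ) ^ (Fintype.card (Ix n)) := by
  obtain ⟨C, hC⟩ := h
  refine ⟨max C 0, le_max_right _ _, fun H hH S hS => (hC H hH S hS).trans ?_⟩
  have h1 : C ≤ max C 0 := le_max_left _ _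
  gcongr

theorem Small.exp {n : ℕ} {s t : ℝ} {Q : ℕ → (Ix n → ℤ) → Prop} (h : Small n s Q)
    (ht : t ≤ s) : Small n t Q := by
  obtain ⟨C, hC0, hC⟩ := h.pos
  refine ⟨C, fun H hH S hS => (hC H hH S hS).trans ?_⟩
  have h1 : (1 : ℝ) ≤ H := by exact_mod_cast hH
  have h2 : (H : ℝ) ^ (-s) ≤ (H : ℝ) ^ (-t) := Real.rpow_le_rpow_of_exponent_le h1 (by linarith)
  gcongr

theorem Small.or {n : ℕ} {s : ℝ} {Q R : ℕ → (Ix n → ℤ) → Prop} (h : Small n s Q)
    (h' : Small n s R) : Small n s (fun H a => Q H a ∨ R H a) := by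
  classical
  obtain ⟨C, hC⟩ := h
  obtain ⟨C', hC'⟩ := h'
  refine ⟨C + C', fun H hH S hS => ?_⟩
  have h1 := hC H hH (S.filter fun a => Q H a) fun a ha => by
    rw [mem_filter] at ha
    exact ⟨(hS a ha.1).1, ha.2⟩
  have h2 := hC' H hH (S.filter fun a => ¬ Q H a) fun a ha => by
    rw [mem_filter] at ha
    exact ⟨(hS a ha.1).1, (hS a ha.1).2.resolve_left ha.2⟩
  have h3 := card_filter_add_card_filter_not (s := S) (fun a => Q H a)
  have h4 : (S.card : ℝ) = ((S.filter fun a => Q H a).card : ℝ) +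
      ((S.filter fun a => ¬ Q H a).card : ℝ) := by exact_mod_cast h3.symm
  rw [h4]
  calc _ ≤ C * (H : ℝ) ^ (-s) * (2 * H + 1 : ℝ) ^ (Fintype.card (Ix n)) +
      C' * (H : ℝ) ^ (-s) * (2 * H + 1 : ℝ) ^ (Fintype.card (Ix n)) := add_le_add h1 h2
    _ = _ := by ring

/-- logarithms are small -/
theorem log_pow_le {ε : ℝ} (hε : 0 < ε) (k : ℕ) : ∃ C : ℝ, 0 ≤ C ∧ ∀ H : ℕ, 1 ≤ H →
    (1 + Real.log H) ^ k ≤ C * (H : ℝ) ^ ε := by
  rcases Nat.eq_zero_or_pos k with rfl | hk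
  · refine ⟨1, zero_le_one, fun H hH => ?_⟩
    have h1 : (1 : ℝ) ≤ H := by exact_mod_cast hH
    rw [pow_zero, one_mul]
    exact Real.one_le_rpow h1 hε.le
  · have hk0 : (0 : ℝ) < k := by exact_mod_cast hk
    refine ⟨(1 + k / ε) ^ k, by positivity, fun H hH => ?_⟩
    have h1 : (1 : ℝ) ≤ H := by exact_mod_cast hH
    have h0 : (0 : ℝ) < H := by linarith
    have h2 : Real.log H ≤ (H : ℝ) ^ (ε / k) / (ε / k) :=
      Real.log_le_rpow_div h0.le (by positivity)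
    have h3 : (1 : ℝ) ≤ (H : ℝ) ^ (ε / k) := Real.one_le_rpow h1 (by positivity)
    have h4 : 1 + Real.log H ≤ (1 + k / ε) * (H : ℝ) ^ (ε / k) := by
      have : (H : ℝ) ^ (ε / k) / (ε / k) = k / ε * (H : ℝ) ^ (ε / k) := by
        field_simp
      rw [this] at h2
      linarith
    have h5 : 0 ≤ 1 + Real.log H := by
      have := Real.log_nonneg h1
      linarith
    calc (1 + Real.log H) ^ k ≤ ((1 + k / ε) * (H : ℝ) ^ (ε / k)) ^ k :=
          pow_le_pow_left₀ h5 h4 k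
      _ = (1 + k / ε) ^ k * (H : ℝ) ^ ε := by
          rw [mul_pow, ← Real.rpow_natCast ((H : ℝ) ^ (ε / k)), ← Real.rpow_mul h0.le]
          congr 2
          field_simp

/-- it is enough to have the estimate for large `H`; logarithms may be neglected -/
theorem small_of_large {n : ℕ} {s t : ℝ} (ht : t < s) {Q : ℕ → (Ix n → ℤ) → Prop} (H0 : ℕ)
    (C : ℝ) (k : ℕ)
    (h : ∀ H : ℕ, H0 ≤ H → 2 ≤ H → ∀ S : Finset (Ix n → ℤ),
      (∀ a ∈ S, (∀ i, |a i| ≤ (H : ℤ)) ∧ Q H a) →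
      (S.card : ℝ) ≤ C * (1 + Real.log H) ^ k * (H : ℝ) ^ (-s) *
        (2 * H + 1 : ℝ) ^ (Fintype.card (Ix n))) : Small n t Q := by
  obtain ⟨D, hD0, hD⟩ := log_pow_le (ε := s - t) (by linarith) k
  refine ⟨|C| * D + ((H0 : ℝ) + 2) ^ |t|, fun H hH S hS => ?_⟩
  have h1 : (1 : ℝ) ≤ H := by exact_mod_cast hH
  have h0 : (0 : ℝ) < H := by linarith
  have hlog : 0 ≤ Real.log H := Real.log_nonneg h1
  by_cases hH0 : H0 ≤ H ∧ 2 ≤ H
  · refine (h H hH0.1 hH0.2 S hS).trans ?_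
    refine mul_le_mul_of_nonneg_right ?_ (by positivity)
    calc C * (1 + Real.log H) ^ k * (H : ℝ) ^ (-s)
        ≤ |C| * (D * (H : ℝ) ^ (s - t)) * (H : ℝ) ^ (-s) := by
          have := hD H hH
          have := le_abs_self C
          gcongr
      _ = |C| * D * (H : ℝ) ^ (-t) := by
          have : (H : ℝ) ^ (s - t) * (H : ℝ) ^ (-s) = (H : ℝ) ^ (-t) := by
            rw [← Real.rpow_add h0]
            congr 1
            ring
          rw [← this]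
          ring
      _ ≤ (|C| * D + ((H0 : ℝ) + 2) ^ |t|) * (H : ℝ) ^ (-t) := by
          have : (0 : ℝ) ≤ ((H0 : ℝ) + 2) ^ |t| := by positivity
          have h5 : (0 : ℝ) ≤ (H : ℝ) ^ (-t) := by positivity
          nlinarith
  · have hH2 : (H : ℝ) ≤ (H0 : ℝ) + 2 := by
      have : H ≤ H0 + 2 := by
        by_contra hcon
        push Not at hcon
        exact hH0 ⟨by omega, by omega⟩
      exact_mod_cast this
    refine (box_card S fun a ha => (hS a ha).1).trans ?_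
    refine le_mul_of_one_le_left (by positivity) ?_
    have h3 : 1 ≤ ((H0 : ℝ) + 2) ^ |t| * (H : ℝ) ^ (-t) := by
      have h4 : (H : ℝ) ^ |t| ≤ ((H0 : ℝ) + 2) ^ |t| :=
        Real.rpow_le_rpow h0.le hH2 (abs_nonneg t)
      calc (1 : ℝ) ≤ (H : ℝ) ^ (|t| - t) := Real.one_le_rpow h1 (by linarith [le_abs_self t])
        _ = (H : ℝ) ^ |t| * (H : ℝ) ^ (-t) := by
            rw [← Real.rpow_add h0]
            congr 1
        _ ≤ _ := by gcongr
    have h5 : (0 : ℝ) ≤ (H : ℝ) ^ (-t) := by positivity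
    have h6 : 0 ≤ |C| * D := by positivity
    nlinarith

end Pool.Agent.H15.SC
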