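import Pool.Agent.H8.MP.Defs
import Pool.Agent.H8.NoPt.Fiber

/-! # Sharp count of plane curves with an integer point: definitions

Conventions of `Pool.Agent.H8.NoPt.Defs`, `Pool.Agent.H8.MP.Defs`. Coefficient vectors
`a : Ix n → ℤ`, `arr a` the array. `Small n s Q`: the proportion of the vectors of the box
`[-H, H]` with the property `Q H` is `O(H^(-s))`. Text: think 874, 876, 878 (MP_821da1_nt). -/

namespace Pool.Agent.H15.SC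

open Finset Polynomial Pool.Agent.H72.ES Pool.Agent.H8.NoPt Pool.Agent.H8.MP

/-- absolute value of the derivative of the dehomogenised leading form at `y/x` -/
noncomputable def dz (n : ℕ) (F : ℕ → ℕ → ℤ) (P : ℤ × ℤ) : ℝ :=
  ‖(derivative (hp n F)).eval ((P.2 : ℂ) / P.1)‖

/-- `P` is an integer zero with `|y| ≤ |x|` -/
def ZP (n : ℕ) (F : ℕ → ℕ → ℤ) (P : ℤ × ℤ) : Prop :=
  ev n F P.1 P.2 = 0 ∧ |P.2| ≤ |P.1|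

/-- indices of the monomials `x^k`, `k ≤ d` -/
abbrev Pur {n : ℕ} (d : ℕ) (i : Ix n) : Prop := (i.1.2 : ℕ) = 0 ∧ (i.1.1 : ℕ) ≤ d

/-- the point `P` is close to the branch of slope `θ` at infinity (`L` the size parameter) -/
structure NearB (n : ℕ) (F : ℕ → ℕ → ℤ) (L : ℝ) (θ : ℂ) (P : ℤ × ℤ) : Prop where
  root : (hp n F).IsRoot θ
  th : ‖θ‖ ≤ 3 / 2
  nr : ‖(P.2 : ℂ) / P.1 - θ‖ ≤ L / |(P.1 : ℝ)|
  tc : tc n F θ 0 1 ≠ 0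
  ga : ‖ga n F θ‖ ≤ 274 * L ^ 3
  de : ‖de n F θ‖ ≤ 13 * L ^ 5
  e2 : ‖(P.2 : ℂ) - θ * P.1 - be n F θ - Pool.Agent.H8.MP.ga n F θ / P.1‖ ≤
    263 * L ^ 5 / |(P.1 : ℝ)| ^ 2
  e3 : ‖(P.2 : ℂ) - θ * P.1 - be n F θ - Pool.Agent.H8.MP.ga n F θ / P.1 -
    Pool.Agent.H8.MP.de n F θ / P.1 ^ 2‖ ≤ 250 * L ^ 7 / |(P.1 : ℝ)| ^ 3

/-- the proportion of the coefficient vectors in `[-H,H]` with the property `Q H` is
`O(H^(-s))` -/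
def Small (n : ℕ) (s : ℝ) (Q : ℕ → (Ix n → ℤ) → Prop) : Prop :=
  ∃ C : ℝ, ∀ H : ℕ, 1 ≤ H → ∀ S : Finset (Ix n → ℤ),
    (∀ a ∈ S, (∀ i, |a i| ≤ (H : ℤ)) ∧ Q H a) →
    (S.card : ℝ) ≤ C * (H : ℝ) ^ (-s) * (2 * H + 1 : ℝ) ^ (Fintype.card (Ix n))

/-- `H^(n/2 - 1/100)` -/
noncomputable def X1 (n H : ℕ) : ℝ := (H : ℝ) ^ ((n : ℝ) / 2 - 1 / 100)

/-- `H^(n/2 + 1/4 - 1/100)` -/
noncomputable def X2 (n H : ℕ) : ℝ := (H : ℝ) ^ ((n : ℝ) / 2 + 1 / 4 - 1 / 100)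

end Pool.Agent.H15.SC
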