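import Pool.Agent.H15.SC.Kdef
import Pool.Agent.H8.MP.FibS

/-! # [SC KAPA] Coupling of two boxes (Step 10)

`K = 2H+1`, `K' = 2H'+1 = q K`, `q` odd, `N = card (Ix n)`, `M = msz P`.
(1) `ZA n H P` is in bijection with the vectors `a'` of the `N - 1` nonconstant coordinates in
`[-H,H]` with `|l(a')| ≤ H`, `l(a') = ∑_{i ≠ (0,0)} a' i * x^i.1 y^i.2` (`ev_arr_sum`,
`a (0,0) = -l(a')`).
(2) `[-H',H'] = {q v + r : v ∈ [-H,H], |r| ≤ (q-1)/2}` bijectively. For `a' = q v + r`:
`l(a') = q l(v) + l(r)`, `|l(r)| ≤ (q-1)/2 * N * max M 1^n`. If exactly one of `|l(a')| ≤ H'`,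
`|l(v)| ≤ H` holds then `| |l(v)| - H | ≤ N max M 1^n + 1` (`H' = q H + (q-1)/2`).
(3) If `M ≥ 1`: let `i` be `(n,0)` if `|x| = M` and `(0,n)` otherwise; its monomial has absolute
value `M^n ≥ 1`. For fixed other coordinates of `v` the condition of (2) puts `l(v)` in two
intervals of length `2 (N M^n + 1)`, so `v i` has at most `2 (2 (N M^n + 1)/M^n + 1) ≤ 4N + 6`
values (`card_int_ball`): at most `(4N+6) K^(N-2)` vectors `v`, each with `q^(N-1)` vectors `a'`.
If `M = 0` then `l = 0` and both counts are `K'^(N-1)`, `K^(N-1)`.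
(4) So `|#ZA(H') - q^(N-1) #ZA(H)| ≤ (4N+6) K^(N-2) q^(N-1)`; divide by `K'^(N-1)`.
Write `l` with `univ.filter (· ≠ ix n 0 0)` or work with all coordinates and `a (0,0)` ignored
(e.g. count the `a ∈ Box n H` with `|l(a)| ≤ H`: this is `K * #ZA`). -/

namespace Pool.Agent.H15.SC

open Finset Polynomial Pool.Agent.H72.ES Pool.Agent.H8.NoPt Pool.Agent.H8.MP

/-- vectors with entries in `[-H,H]` -/
private noncomputable def bx (J : Type) [Fintype J] [DecidableEq J] (H : ℕ) : Finset (J → ℤ) :=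
  Fintype.piFinset fun _ => Icc (-(H : ℤ)) H

private theorem mem_bx {J : Type} [Fintype J] [DecidableEq J] {H : ℕ} {a : J → ℤ} :
    a ∈ bx J H ↔ ∀ i, |a i| ≤ (H : ℤ) := by
  simp [bx, Fintype.mem_piFinset, abs_le]

private theorem card_bx (J : Type) [Fintype J] [DecidableEq J] (H : ℕ) :
    (bx J H).card = (2 * H + 1) ^ (Fintype.card J) := by
  rw [bx, Fintype.card_piFinset]
  simp only [Int.card_Icc, prod_const, card_univ]
  congr 1
  omega

/-- the linear form -/
private noncomputable def lin {J : Type} [Fintype J] (m a : J → ℤ) : ℤ := ∑ j, a j * m j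

private theorem lin_comb {J : Type} [Fintype J] (m v r : J → ℤ) (q : ℤ) :
    lin m (fun j => q * v j + r j) = q * lin m v + lin m r := by
  unfold lin
  rw [mul_sum, ← sum_add_distrib]
  exact sum_congr rfl fun j _ => by ring

private theorem lin_bd {J : Type} [Fintype J] (m r : J → ℤ) (D h : ℤ) (hD : ∀ j, |m j| ≤ D)
    (h0 : 0 ≤ h) (hr : ∀ j, |r j| ≤ h) : |lin m r| ≤ h * (Fintype.card J * D) := by
  unfold lin
  refine (abs_sum_le_sum_abs _ _).trans ?_
  calc ∑ j, |r j * m j| ≤ ∑ _j : J, h * D := by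
        refine sum_le_sum fun j _ => ?_
        rw [abs_mul]
        exact mul_le_mul (hr j) (hD j) (abs_nonneg _) h0
    _ = h * (Fintype.card J * D) := by
        rw [sum_const, card_univ, nsmul_eq_mul]
        ring

/-- digits -/
private theorem sum_digits {J : Type} [Fintype J] [DecidableEq J] (H H' h : ℕ)
    (hH' : H' = (2 * h + 1) * H + h) (f : (J → ℤ) → ℝ) :
    ∑ a ∈ bx J H', f a = ∑ v ∈ bx J H, ∑ r ∈ bx J h,
      f (fun j => ((2 * h + 1 : ℕ) : ℤ) * v j + r j) := by
  classical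
  rw [← sum_product']
  have hinj : Set.InjOn (fun p : (J → ℤ) × (J → ℤ) =>
      (fun j => ((2 * h + 1 : ℕ) : ℤ) * p.1 j + p.2 j : J → ℤ))
      ((bx J H ×ˢ bx J h : Finset ((J → ℤ) × (J → ℤ))) : Set ((J → ℤ) × (J → ℤ))) := by
    rintro ⟨v, r⟩ hp ⟨v', r'⟩ hp' heq
    rw [mem_coe, mem_product, mem_bx, mem_bx] at hp hp'
    have h1 : ∀ j, v j = v' j ∧ r j = r' j := by
      intro j
      have h2 : ((2 * h + 1 : ℕ) : ℤ) * v j + r j = ((2 * h + 1 : ℕ) : ℤ) * v' j + r' j :=
        congrFun heq j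
      have h3 := abs_le.1 (hp.2 j)
      have h4 := abs_le.1 (hp'.2 j)
      push_cast at h2
      have h5 : v j = v' j := by
        by_contra hne
        have h6 : (2 * (h : ℤ) + 1) * (v j - v' j) = r' j - r j := by linarith
        have h7 : 1 ≤ |v j - v' j| := Int.one_le_abs (sub_ne_zero.2 hne)
        have h8 : |(2 * (h : ℤ) + 1) * (v j - v' j)| ≤ 2 * h := by
          rw [h6, abs_le]
          constructor <;> linarith [h3.1, h3.2, h4.1, h4.2]
        rw [abs_mul, abs_of_nonneg (by positivity : (0 : ℤ) ≤ 2 * h + 1)] at h8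
        nlinarith
      refine ⟨h5, ?_⟩
      rw [h5] at h2
      linarith
    ext j
    · exact (h1 j).1
    · exact (h1 j).2
  rw [← sum_image (f := f) hinj]
  refine sum_congr ?_ fun _ _ => rfl
  symm
  refine eq_of_subset_of_card_le ?_ ?_
  · intro a ha
    rw [mem_image] at ha
    obtain ⟨⟨v, r⟩, hp, rfl⟩ := ha
    rw [mem_product, mem_bx, mem_bx] at hp
    rw [mem_bx]
    intro j
    have h3 := abs_le.1 (hp.1 j)
    have h4 := abs_le.1 (hp.2 j)
    simp only
    rw [hH', abs_le]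
    push_cast
    have h5 : (0 : ℤ) ≤ 2 * h + 1 := by positivity
    constructor
    · nlinarith [mul_le_mul_of_nonneg_left h3.1 h5]
    · nlinarith [mul_le_mul_of_nonneg_left h3.2 h5]
  · rw [card_image_of_injOn hinj, card_product, card_bx, card_bx, card_bx, ← mul_pow]
    refine Nat.pow_le_pow_left (le_of_eq ?_) _
    rw [hH']
    ring

/-- the vectors `v` near the boundary -/
private theorem bad_count {J : Type} [Fintype J] [DecidableEq J] (m : J → ℤ) (D : ℤ) (hD1 : 1 ≤ D)
    (j0 : J) (hj0 : |m j0| = D) (H : ℕ) :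
    (((bx J H).filter fun v => 2 * |(|lin m v| - (H : ℤ))| ≤ Fintype.card J * D + 1).card : ℝ) ≤
      (2 * Fintype.card J + 4 : ℝ) * (2 * H + 1 : ℝ) ^ (Fintype.card J - 1) := by
  classical
  have hc : Fintype.card {i : J // ¬ i = j0} = Fintype.card J - 1 := by
    rw [Fintype.card_subtype_compl, Fintype.card_subtype_eq]
  rw [← hc]
  refine fiber_count (fun i => i = j0) H _ (fun a ha => mem_bx.1 (mem_filter.1 ha).1) _ (by positivity) ?_
  intro c hcb T hT
  have hDR : (1 : ℝ) ≤ D := by exact_mod_cast hD1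
  have hmj : (|(m j0 : ℝ)|) = D := by
    rw [← hj0]
    push_cast
    rfl
  have hmj0 : (m j0 : ℝ) ≠ 0 := by
    intro h0
    rw [h0, abs_zero] at hmj
    linarith
  obtain ⟨R, hR⟩ : ∃ R : ℤ, R = ∑ j ∈ univ.erase j0, c j * m j := ⟨_, rfl⟩
  have hlin : ∀ v ∈ T, lin m v = v j0 * m j0 + R := by
    intro v hv
    unfold lin
    rw [← add_sum_erase univ _ (mem_univ j0), hR]
    congr 1
    refine sum_congr rfl fun j hj => ?_
    rw [(hT v hv).2 j (ne_of_mem_erase hj)]
  have hinj : Set.InjOn (fun v : J → ℤ => v j0) (T : Set (J → ℤ)) := by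
    intro v hv v' hv' h
    funext j
    by_cases hj : j = j0
    · rw [hj]
      exact h
    · rw [(hT v hv).2 j hj, (hT v' hv').2 j hj]
  rw [← card_image_of_injOn hinj]
  obtain ⟨ρ, hρ⟩ : ∃ ρ : ℝ, ρ = (Fintype.card J * D + 1) / (2 * D) := ⟨_, rfl⟩
  have hρ0 : 0 ≤ ρ := by
    rw [hρ]
    positivity
  have hρ1 : 2 * ρ ≤ Fintype.card J + 1 := by
    have h1 : 2 * ρ = (Fintype.card J * D + 1) / D := by
      rw [hρ]
      field_simp
    rw [h1, div_le_iff₀ (by linarith)]
    nlinarith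
  have hpart : ∀ (s : ℤ) (U : Finset ℤ), (∀ u ∈ U, 2 * |u * m j0 + R - s| ≤ Fintype.card J * D + 1) →
      (U.card : ℝ) ≤ Fintype.card J + 2 := by
    intro s U hU
    have h1 := card_int_ball U (((s : ℝ) - R) / m j0) ρ hρ0 (by
      intro u hu
      have h2 := hU u hu
      have h3 : 2 * |((u : ℝ) * m j0 + R - s)| ≤ Fintype.card J * D + 1 := by exact_mod_cast h2
      have h4 : (u : ℝ) - ((s : ℝ) - R) / m j0 = ((u : ℝ) * m j0 + R - s) / m j0 := by
        field_simp
        ring
      rw [h4, abs_div, hmj, hρ, div_le_div_iff₀ (by linarith) (by linarith)]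
      nlinarith)
    linarith
  have hsub : T.image (fun v : J → ℤ => v j0) ⊆
      ((T.image (fun v : J → ℤ => v j0)).filter fun u => 2 * |u * m j0 + R - (H : ℤ)| ≤
        Fintype.card J * D + 1) ∪
      ((T.image (fun v : J → ℤ => v j0)).filter fun u => 2 * |u * m j0 + R - (-(H : ℤ))| ≤
        Fintype.card J * D + 1) := by
    intro u hu
    rw [mem_union, mem_filter, mem_filter]
    have hu' := hu
    rw [mem_image] at hu'
    obtain ⟨v, hv, rfl⟩ := hu'
    have h1 := (mem_filter.1 (hT v hv).1).2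
    rw [hlin v hv] at h1
    rcases abs_cases (v j0 * m j0 + R) with ⟨h2, _⟩ | ⟨h2, _⟩
    · left
      rw [h2] at h1
      exact ⟨hu, h1⟩
    · right
      rw [h2] at h1
      refine ⟨hu, ?_⟩
      have h3 : v j0 * m j0 + R - -(H : ℤ) = -(-(v j0 * m j0 + R) - H) := by ring
      rw [h3, abs_neg]
      exact h1
  have h5 := hpart (H : ℤ) ((T.image (fun v : J → ℤ => v j0)).filter fun u =>
    2 * |u * m j0 + R - (H : ℤ)| ≤ Fintype.card J * D + 1) fun u hu => (mem_filter.1 hu).2
  have h6 := hpart (-(H : ℤ)) ((T.image (fun v : J → ℤ => v j0)).filter fun u =>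
    2 * |u * m j0 + R - (-(H : ℤ))| ≤ Fintype.card J * D + 1) fun u hu => (mem_filter.1 hu).2
  have h7 : ((T.image (fun v : J → ℤ => v j0)).card : ℝ) ≤
      (((T.image (fun v : J → ℤ => v j0)).filter fun u =>
        2 * |u * m j0 + R - (H : ℤ)| ≤ Fintype.card J * D + 1).card : ℝ) +
      (((T.image (fun v : J → ℤ => v j0)).filter fun u =>
        2 * |u * m j0 + R - (-(H : ℤ))| ≤ Fintype.card J * D + 1).card : ℝ) := by
    exact_mod_cast (card_le_card hsub).trans (card_union_le _ _)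
  linarith

/-- the number of vectors with small value of the linear form -/
private noncomputable def AA {J : Type} [Fintype J] [DecidableEq J] (m : J → ℤ) (H : ℕ) : Finset (J → ℤ) :=
  (bx J H).filter fun a => |lin m a| ≤ H

private theorem couple_gen {J : Type} [Fintype J] [DecidableEq J] (m : J → ℤ) (D : ℤ) (hD1 : 1 ≤ D)
    (hD : ∀ j, |m j| ≤ D) (j0 : J) (hj0 : |m j0| = D) (H H' h : ℕ)
    (hH' : H' = (2 * h + 1) * H + h) :
    |((AA m H').card : ℝ) - (2 * h + 1 : ℝ) ^ (Fintype.card J) * (AA m H).card| ≤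
      (2 * Fintype.card J + 4 : ℝ) * (2 * H + 1 : ℝ) ^ (Fintype.card J - 1) *
        (2 * h + 1 : ℝ) ^ (Fintype.card J) := by
  classical
  have e1 : ((AA m H').card : ℝ) = ∑ a ∈ bx J H', if |lin m a| ≤ (H' : ℤ) then (1 : ℝ) else 0 := by
    unfold AA
    rw [sum_boole]
  have e2 : (2 * h + 1 : ℝ) ^ (Fintype.card J) * ((AA m H).card : ℝ) =
      ∑ v ∈ bx J H, ∑ _r ∈ bx J h, if |lin m v| ≤ (H : ℤ) then (1 : ℝ) else 0 := by
    unfold AA
    simp only [sum_const, card_bx, nsmul_eq_mul]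
    rw [← mul_sum, sum_boole]
    push_cast
    rfl
  rw [e1, e2, sum_digits H H' h hH', ← sum_sub_distrib]
  simp only [← sum_sub_distrib]
  refine (abs_sum_le_sum_abs _ _).trans ?_
  have hb : ∀ v ∈ bx J H, |∑ r ∈ bx J h, ((if |lin m (fun j => ((2 * h + 1 : ℕ) : ℤ) * v j + r j)| ≤
      (H' : ℤ) then (1 : ℝ) else 0) - if |lin m v| ≤ (H : ℤ) then (1 : ℝ) else 0)| ≤
      if 2 * |(|lin m v| - (H : ℤ))| ≤ Fintype.card J * D + 1 then (2 * h + 1 : ℝ) ^ (Fintype.card J) else 0 := by
    intro v _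
    refine (abs_sum_le_sum_abs _ _).trans ?_
    by_cases hbad : 2 * |(|lin m v| - (H : ℤ))| ≤ Fintype.card J * D + 1
    · rw [if_pos hbad]
      calc _ ≤ ∑ _r ∈ bx J h, (1 : ℝ) := by
            refine sum_le_sum fun r _ => ?_
            split_ifs <;> norm_num
        _ = _ := by
            rw [sum_const, card_bx, nsmul_eq_mul, mul_one]
            push_cast
            rfl
    · rw [if_neg hbad]
      refine le_of_eq (sum_eq_zero fun r hr => ?_)
      rw [mem_bx] at hr
      have hlr := lin_bd m r D h hD (by positivity) hr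
      rw [lin_comb]
      rw [not_le] at hbad
      obtain ⟨L, hL⟩ : ∃ L : ℤ, L = Fintype.card J * D := ⟨_, rfl⟩
      rw [← hL] at hlr hbad
      have hL0 : 0 ≤ L := by
        rw [hL]
        positivity
      have hh0 : (0 : ℤ) ≤ h := by positivity
      have hH'' : (H' : ℤ) = (2 * h + 1) * H + h := by
        rw [hH']
        push_cast
        ring
      have hiff : |((2 * h + 1 : ℕ) : ℤ) * lin m v + lin m r| ≤ (H' : ℤ) ↔ |lin m v| ≤ (H : ℤ) := by
        have a1 : |((2 * h + 1 : ℕ) : ℤ) * lin m v| = (2 * h + 1) * |lin m v| := by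
          have h9 : |((2 * h + 1 : ℕ) : ℤ)| = 2 * h + 1 := by
            push_cast
            exact abs_of_nonneg (by positivity)
          rw [abs_mul, h9]
        have a2 : |((2 * h + 1 : ℕ) : ℤ) * lin m v + lin m r| ≤ (2 * h + 1) * |lin m v| + |lin m r| := by
          rw [← a1]
          exact abs_add_le _ _
        have a3 : (2 * h + 1) * |lin m v| - |lin m r| ≤ |((2 * h + 1 : ℕ) : ℤ) * lin m v + lin m r| := by
          rw [← a1]
          have := abs_sub_abs_le_abs_sub (((2 * h + 1 : ℕ) : ℤ) * lin m v) (-lin m r)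
          rwa [abs_neg, sub_neg_eq_add] at this
        constructor
        · intro hle
          by_contra hgt
          rw [not_le] at hgt
          have b1 : |(|lin m v| - (H : ℤ))| = |lin m v| - H := abs_of_pos (by linarith)
          rw [b1] at hbad
          nlinarith
        · intro hle
          by_contra hgt
          rw [not_le] at hgt
          have b1 : |(|lin m v| - (H : ℤ))| = H - |lin m v| := by
            rw [abs_sub_comm]
            exact abs_of_nonneg (by linarith)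
          rw [b1] at hbad
          nlinarith
      by_cases hv : |lin m v| ≤ (H : ℤ)
      · rw [if_pos (hiff.2 hv), if_pos hv, sub_self, abs_zero]
      · rw [if_neg (fun h => hv (hiff.1 h)), if_neg hv, sub_self, abs_zero]
  refine (sum_le_sum hb).trans ?_
  rw [← sum_filter, sum_const, nsmul_eq_mul]
  exact mul_le_mul_of_nonneg_right (bad_count m D hD1 j0 hj0 H) (by positivity)

/-- the constant coefficient -/
private def oo (n : ℕ) : Ix n := ix n 0 0 (by omega)

/-- without the constant coefficient -/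
private theorem ZA_AA (n : ℕ) (P : ℤ × ℤ) (H : ℕ) :
    (ZA n H P).card = (AA (J := {i : Ix n // i ≠ oo n})
      (fun i => P.1 ^ (i.1.1.1 : ℕ) * P.2 ^ (i.1.1.2 : ℕ)) H).card := by
  classical
  have hval : ∀ a : Ix n → ℤ, ev n (arr a) P.1 P.2 = a (oo n) +
      lin (J := {i : Ix n // i ≠ oo n})
        (fun i => P.1 ^ (i.1.1.1 : ℕ) * P.2 ^ (i.1.1.2 : ℕ)) (fun i => a i.1) := by
    intro a
    rw [ev_arr_sum]
    have h1 := Fintype.sum_subtype_add_sum_subtype (fun i : Ix n => i = oo n)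
      (fun i : Ix n => a i * (P.1 ^ (i.1.1 : ℕ) * P.2 ^ (i.1.2 : ℕ)))
    rw [← h1]
    congr 1
    rw [sum_eq_single (⟨oo n, rfl⟩ : {i : Ix n // i = oo n})]
    · simp [oo, ix]
    · intro b _ hb
      exact absurd (Subtype.ext b.2) hb
    · intro h
      exact absurd (@mem_univ _ (_) _) h
  refine card_bij (fun a _ => fun i : {i : Ix n // i ≠ oo n} => a i.1) ?_ ?_ ?_
  · intro a ha
    rw [ZA, mem_filter, mem_Box, hval] at ha
    rw [AA, mem_filter, mem_bx]
    refine ⟨fun i => ha.1 i.1, ?_⟩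
    have h3 := ha.1 (oo n)
    have h4 : lin (J := {i : Ix n // i ≠ oo n})
        (fun i => P.1 ^ (i.1.1.1 : ℕ) * P.2 ^ (i.1.1.2 : ℕ)) (fun i => a i.1) =
        -a (oo n) := by linarith [ha.2]
    rw [h4, abs_neg]
    exact h3
  · intro a ha a' ha' heq
    rw [ZA, mem_filter, mem_Box, hval] at ha ha'
    funext i
    by_cases hi : i = oo n
    · subst hi
      have h5 := ha.2
      have h6 := ha'.2
      rw [heq] at h5
      linarith
    · exact congrFun heq ⟨i, hi⟩
  · intro b hb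
    rw [AA, mem_filter, mem_bx] at hb
    obtain ⟨a, hadef⟩ : ∃ a : Ix n → ℤ, a = fun i => if h : i ≠ oo n then b ⟨i, h⟩ else
      -lin (J := {i : Ix n // i ≠ oo n})
        (fun i => P.1 ^ (i.1.1.1 : ℕ) * P.2 ^ (i.1.1.2 : ℕ)) b := ⟨_, rfl⟩
    have ha1 : (fun i : {i : Ix n // i ≠ oo n} => a i.1) = b := by
      funext i
      rw [hadef]
      simp only
      rw [dif_pos i.2]
    have ha2 : a (oo n) = -lin (J := {i : Ix n // i ≠ oo n})
        (fun i => P.1 ^ (i.1.1.1 : ℕ) * P.2 ^ (i.1.1.2 : ℕ)) b := by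
      rw [hadef]
      simp only
      rw [dif_neg (by simp)]
    refine ⟨a, ?_, ha1⟩
    rw [ZA, mem_filter, mem_Box, hval, ha1, ha2]
    refine ⟨fun i => ?_, by ring⟩
    by_cases hi : i = oo n
    · rw [hi, ha2, abs_neg]
      exact hb.2
    · have h7 := congrFun ha1 ⟨i, hi⟩
      simp only at h7
      rw [h7]
      exact hb.1 _

theorem couple (n : ℕ) (hn : 1 ≤ n) (P : ℤ × ℤ) (H H' q : ℕ) (hH : 1 ≤ H) (hq : Odd q)
    (h : 2 * H' + 1 = q * (2 * H + 1)) :
    |pr n H' P - pr n H P| ≤ (4 * Fintype.card (Ix n) + 6) / (2 * H + 1 : ℝ) := by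
  classical
  obtain ⟨h0, hh0⟩ := hq
  have hH' : H' = (2 * h0 + 1) * H + h0 := by
    subst hh0
    have h1 : (2 * h0 + 1) * (2 * H + 1) = 2 * ((2 * h0 + 1) * H + h0) + 1 := by ring
    omega
  obtain ⟨m, hm⟩ : ∃ m : {i : Ix n // i ≠ oo n} → ℤ,
    m = fun i => P.1 ^ (i.1.1.1 : ℕ) * P.2 ^ (i.1.1.2 : ℕ) := ⟨_, rfl⟩
  have hcard : Fintype.card {i : Ix n // i ≠ oo n} = Fintype.card (Ix n) - 1 := by
    rw [Fintype.card_subtype_compl]
    simp
  have hN2 : 2 ≤ Fintype.card (Ix n) := by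
    have h1 : ({ix n 0 0 (by omega), ix n 1 0 (by omega)} : Finset (Ix n)).card = 2 := by
      rw [card_pair]
      intro h2
      have h3 := congrArg (fun i : Ix n => (i.1.1 : ℕ)) h2
      simp [ix] at h3
    rw [← h1, ← card_univ]
    exact card_le_card (subset_univ _)
  obtain ⟨N, hN⟩ : ∃ N, N = Fintype.card (Ix n) := ⟨_, rfl⟩
  have hK : (0 : ℝ) < 2 * H + 1 := by positivity
  have hq0 : (0 : ℝ) < 2 * h0 + 1 := by positivity
  have hKK : (2 * H' + 1 : ℝ) = (2 * h0 + 1) * (2 * H + 1) := by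
    rw [hH']
    push_cast
    ring
  unfold pr
  rw [ZA_AA, ZA_AA, ← hm, ← hN, hKK, mul_pow]
  rw [← hN] at hcard hN2
  have key : |((AA m H').card : ℝ) - (2 * h0 + 1 : ℝ) ^ (N - 1) * (AA m H).card| ≤
      (4 * N + 6 : ℝ) * (2 * H + 1 : ℝ) ^ (N - 2) * (2 * h0 + 1 : ℝ) ^ (N - 1) := by
    by_cases hP : P.1 = 0 ∧ P.2 = 0
    · have hm0 : ∀ i, m i = 0 := by
        intro i
        rw [hm]
        simp only
        rw [hP.1, hP.2]
        by_cases h1 : (i.1.1.1 : ℕ) = 0
        · by_cases h2 : (i.1.1.2 : ℕ) = 0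
          · exfalso
            apply i.2
            apply Subtype.ext
            apply Prod.ext
            · exact Fin.ext h1
            · exact Fin.ext h2
          · rw [zero_pow h2, mul_zero]
        · rw [zero_pow h1, zero_mul]
      have hAA : ∀ G : ℕ, (AA m G).card = (2 * G + 1) ^ (N - 1) := by
        intro G
        rw [← hcard, ← card_bx, AA]
        congr 1
        rw [filter_eq_self]
        intro a _
        have h2 : lin m a = 0 := by
          unfold lin
          exact sum_eq_zero fun j _ => by rw [hm0, mul_zero]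
        rw [h2, abs_zero]
        positivity
      have h3 : ((AA m H').card : ℝ) - (2 * h0 + 1 : ℝ) ^ (N - 1) * (AA m H).card = 0 := by
        rw [hAA, hAA]
        push_cast
        rw [hKK, mul_pow, sub_self]
      rw [h3, abs_zero]
      positivity
    · obtain ⟨M, hM⟩ : ∃ M : ℤ, M = max |P.1| |P.2| := ⟨_, rfl⟩
      have hM1 : 1 ≤ M := by
        rw [hM]
        by_contra hlt
        rw [not_le] at hlt
        have hlt' : max |P.1| |P.2| ≤ 0 := Int.le_of_lt_add_one (by linarith)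
        have h1 := (le_max_left |P.1| |P.2|).trans hlt'
        have h2 := (le_max_right |P.1| |P.2|).trans hlt'
        exact hP ⟨abs_nonpos_iff.1 h1, abs_nonpos_iff.1 h2⟩
      have hbd : ∀ i, |m i| ≤ M ^ n := by
        intro i
        rw [hm]
        simp only
        rw [abs_mul, abs_pow, abs_pow]
        have h1 : |P.1| ≤ M := by rw [hM]; exact le_max_left _ _
        have h2 : |P.2| ≤ M := by rw [hM]; exact le_max_right _ _
        calc |P.1| ^ (i.1.1.1 : ℕ) * |P.2| ^ (i.1.1.2 : ℕ) ≤ M ^ (i.1.1.1 : ℕ) * M ^ (i.1.1.2 : ℕ) :=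
              mul_le_mul (pow_le_pow_left₀ (abs_nonneg _) h1 _) (pow_le_pow_left₀ (abs_nonneg _) h2 _)
                (by positivity) (by positivity)
          _ = M ^ ((i.1.1.1 : ℕ) + (i.1.1.2 : ℕ)) := (pow_add _ _ _).symm
          _ ≤ M ^ n := pow_le_pow_right₀ hM1 i.1.2
      obtain ⟨j0, hj0⟩ : ∃ j0, |m j0| = M ^ n := by
        by_cases hx : |P.2| ≤ |P.1|
        · have hMx : M = |P.1| := by rw [hM]; exact max_eq_left hx
          refine ⟨⟨ix n n 0 (by omega), ?_⟩, ?_⟩
          · intro h2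
            have h3 := congrArg (fun i : Ix n => (i.1.1 : ℕ)) h2
            simp [oo, ix] at h3
            omega
          · rw [hm, hMx]
            simp [ix, abs_pow]
        · rw [not_le] at hx
          have hMy : M = |P.2| := by rw [hM]; exact max_eq_right hx.le
          refine ⟨⟨ix n 0 n (by omega), ?_⟩, ?_⟩
          · intro h2
            have h3 := congrArg (fun i : Ix n => (i.1.2 : ℕ)) h2
            simp [oo, ix] at h3
            omega
          · rw [hm, hMy]
            simp [ix, abs_pow]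
      have h4 := couple_gen m (M ^ n) (one_le_pow₀ hM1) hbd j0 hj0 H H' h0 hH'
      rw [hcard] at h4
      refine h4.trans ?_
      have h5 : N - 1 - 1 = N - 2 := by omega
      rw [h5]
      refine mul_le_mul_of_nonneg_right (mul_le_mul_of_nonneg_right ?_ (by positivity)) (by positivity)
      have h6 : ((N - 1 : ℕ) : ℝ) ≤ N := by
        exact_mod_cast Nat.sub_le N 1
      linarith
  have e1 : ((AA m H').card : ℝ) / ((2 * h0 + 1 : ℝ) ^ (N - 1) * (2 * H + 1 : ℝ) ^ (N - 1)) -
      ((AA m H).card : ℝ) / (2 * H + 1 : ℝ) ^ (N - 1) =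
      (((AA m H').card : ℝ) - (2 * h0 + 1 : ℝ) ^ (N - 1) * (AA m H).card) /
        ((2 * h0 + 1 : ℝ) ^ (N - 1) * (2 * H + 1 : ℝ) ^ (N - 1)) := by
    field_simp
  rw [e1, abs_div, abs_of_pos (by positivity : (0 : ℝ) < (2 * h0 + 1 : ℝ) ^ (N - 1) *
    (2 * H + 1 : ℝ) ^ (N - 1)), div_le_div_iff₀ (by positivity) hK]
  have e2 : (2 * H + 1 : ℝ) ^ (N - 1) = (2 * H + 1 : ℝ) ^ (N - 2) * (2 * H + 1) := by
    rw [← pow_succ]
    congr 1
    omega
  calc |((AA m H').card : ℝ) - (2 * h0 + 1 : ℝ) ^ (N - 1) * (AA m H).card| * (2 * H + 1) ≤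
      ((4 * N + 6 : ℝ) * (2 * H + 1 : ℝ) ^ (N - 2) * (2 * h0 + 1 : ℝ) ^ (N - 1)) * (2 * H + 1) :=
        mul_le_mul_of_nonneg_right key hK.le
    _ = _ := by
        rw [e2]
        ring

end Pool.Agent.H15.SC
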