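import Pool.Agent.H15.SC.Kapa
import Pool.Agent.H15.SC.Pt

/-! # [SC KAPB] The densities `kap n P` (Step 10)

`close_all`: `couple` for `H1` and `H2` with the common multiple `K1 K2 = 2 H3 + 1`.
`kap n P` := the limit of `pr n H P` (Cauchy by `close_all`; define it with `Classical.choose` or
`limUnder`); `kap_close`: let `H2 → ∞` in `close_all`. `pr_le`: for `1 ≤ M = msz P ≤ H`:
`pt_count` (transposed if `|y| > |x|`: `ZA n H P` and `ZA n H P.swap` have the same cardinality)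
gives `#ZA K^(n+1) ≤ (3H/M)^n K^N`, so `pr ≤ (3H/(M K))^n ≤ 2^n/M^n` (`3H ≤ 2K`). -/

namespace Pool.Agent.H15.SC

open Finset Polynomial Pool.Agent.H72.ES Pool.Agent.H8.NoPt Pool.Agent.H8.MP

theorem close_all (n : ℕ) (hn : 1 ≤ n) (P : ℤ × ℤ) (H1 H2 : ℕ) (h1 : 1 ≤ H1) (h2 : 1 ≤ H2) :
    |pr n H1 P - pr n H2 P| ≤ (4 * Fintype.card (Ix n) + 6) / (2 * H1 + 1 : ℝ) +
      (4 * Fintype.card (Ix n) + 6) / (2 * H2 + 1 : ℝ) := by
  have e1 : 2 * (2 * H1 * H2 + H1 + H2) + 1 = (2 * H2 + 1) * (2 * H1 + 1) := by ring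
  have e2 : 2 * (2 * H1 * H2 + H1 + H2) + 1 = (2 * H1 + 1) * (2 * H2 + 1) := by ring
  have c1 := couple n hn P H1 (2 * H1 * H2 + H1 + H2) (2 * H2 + 1) h1 ⟨H2, rfl⟩ e1
  have c2 := couple n hn P H2 (2 * H1 * H2 + H1 + H2) (2 * H1 + 1) h2 ⟨H1, rfl⟩ e2
  rw [abs_sub_comm] at c1
  have h3 := abs_sub_le (pr n H1 P) (pr n (2 * H1 * H2 + H1 + H2) P) (pr n H2 P)
  linarith

/-- the number of curves through `P`, normalised -/
noncomputable def kap (n : ℕ) (P : ℤ × ℤ) : ℝ :=
  Filter.limUnder Filter.atTop fun H : ℕ => pr n H P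

private theorem tend_b (c : ℝ) :
    Filter.Tendsto (fun H : ℕ => c / (2 * (H : ℝ) + 1)) Filter.atTop (nhds 0) := by
  refine Filter.Tendsto.const_div_atTop ?_ c
  refine Filter.tendsto_atTop_add_const_right _ _ ?_
  exact Filter.Tendsto.const_mul_atTop two_pos tendsto_natCast_atTop_atTop

private theorem kap_tendsto (n : ℕ) (hn : 1 ≤ n) (P : ℤ × ℤ) :
    Filter.Tendsto (fun H : ℕ => pr n H P) Filter.atTop (nhds (kap n P)) := by
  refine tendsto_nhds_limUnder ?_
  set c : ℝ := 4 * Fintype.card (Ix n) + 6 with hc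
  have hc0 : 0 ≤ c := by positivity
  have hcau : CauchySeq fun H : ℕ => pr n (H + 1) P := by
    refine cauchySeq_of_le_tendsto_0 (fun H : ℕ => 2 * (c / (2 * (H : ℝ) + 1))) ?_ ?_
    · intro u v m hu hv
      rw [Real.dist_eq]
      refine (close_all n hn P (u + 1) (v + 1) (by omega) (by omega)).trans ?_
      have hu' : (m : ℝ) ≤ u := by exact_mod_cast hu
      have hv' : (m : ℝ) ≤ v := by exact_mod_cast hv
      have hm : (0 : ℝ) ≤ m := Nat.cast_nonneg m
      have i1 : c / (2 * ((u + 1 : ℕ) : ℝ) + 1) ≤ c / (2 * (m : ℝ) + 1) := by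
        refine div_le_div_of_nonneg_left hc0 (by positivity) ?_
        push_cast
        linarith
      have i2 : c / (2 * ((v + 1 : ℕ) : ℝ) + 1) ≤ c / (2 * (m : ℝ) + 1) := by
        refine div_le_div_of_nonneg_left hc0 (by positivity) ?_
        push_cast
        linarith
      linarith
    · have := (tend_b c).const_mul 2
      rwa [mul_zero] at this
  obtain ⟨l, hl⟩ := cauchySeq_tendsto_of_complete hcau
  exact ⟨l, (Filter.tendsto_add_atTop_iff_nat 1).1 hl⟩

theorem kap_close (n : ℕ) (hn : 1 ≤ n) (P : ℤ × ℤ) (H : ℕ) (hH : 1 ≤ H) :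
    |pr n H P - kap n P| ≤ (4 * Fintype.card (Ix n) + 6) / (2 * H + 1 : ℝ) := by
  have h1 : Filter.Tendsto (fun H2 : ℕ => |pr n H P - pr n H2 P|) Filter.atTop
      (nhds |pr n H P - kap n P|) := ((kap_tendsto n hn P).const_sub _).abs
  have h2 : Filter.Tendsto (fun H2 : ℕ => (4 * Fintype.card (Ix n) + 6) / (2 * H + 1 : ℝ) +
      (4 * Fintype.card (Ix n) + 6) / (2 * (H2 : ℝ) + 1)) Filter.atTop
      (nhds ((4 * Fintype.card (Ix n) + 6) / (2 * H + 1 : ℝ))) := by
    have := (tend_b (4 * Fintype.card (Ix n) + 6)).const_add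
      ((4 * Fintype.card (Ix n) + 6) / (2 * H + 1 : ℝ))
    rwa [add_zero] at this
  refine le_of_tendsto_of_tendsto h1 h2 ?_
  filter_upwards [Filter.eventually_ge_atTop 1] with H2 hH2
  exact close_all n hn P H H2 hH hH2

/-- exchange of the two exponents -/
private def swi (n : ℕ) : Ix n ≃ Ix n where
  toFun i := ⟨(i.1.2, i.1.1), (Nat.add_comm _ _).trans_le i.2⟩
  invFun i := ⟨(i.1.2, i.1.1), (Nat.add_comm _ _).trans_le i.2⟩
  left_inv _ := rfl
  right_inv _ := rfl

private theorem ev_swi {n : ℕ} (a : Ix n → ℤ) (x y : ℤ) :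
    ev n (arr fun i => a (swi n i)) x y = ev n (arr a) y x := by
  rw [ev_arr_sum, ev_arr_sum, ← Equiv.sum_comp (swi n)]
  refine sum_congr rfl fun i _ => ?_
  have e1 : ((swi n i).1.1 : ℕ) = i.1.2 := rfl
  have e2 : ((swi n i).1.2 : ℕ) = i.1.1 := rfl
  have e3 : swi n (swi n i) = i := rfl
  rw [e1, e2, e3]
  ring

private theorem ZA_swap (n H : ℕ) (P : ℤ × ℤ) : (ZA n H P).card ≤ (ZA n H (P.2, P.1)).card := by
  classical
  refine card_le_card_of_injOn (fun a => fun i => a (swi n i)) ?_ ?_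
  · intro a ha
    have ha' : a ∈ ZA n H P := ha
    unfold ZA at ha'
    rw [mem_filter, mem_Box] at ha'
    show (fun i => a (swi n i)) ∈ ZA n H (P.2, P.1)
    unfold ZA
    rw [mem_filter, mem_Box]
    refine ⟨fun i => ha'.1 _, ?_⟩
    rw [ev_swi]
    exact ha'.2
  · intro a _ b _ h
    funext i
    have := congrFun h (swi n i)
    exact this

private theorem pr_aux (n : ℕ) (P : ℤ × ℤ) (H : ℕ) (M : ℝ) (hM1 : 1 ≤ M) (hMH : M ≤ H)
    (hP : |(P.1 : ℝ)| = M) :
    ((ZA n H P).card : ℝ) / (2 * H + 1 : ℝ) ^ (Fintype.card (Ix n) - 1) ≤ 2 ^ n / M ^ n := by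
  have hx : P.1 ≠ 0 := by
    intro h
    rw [h, Int.cast_zero, abs_zero] at hP
    linarith
  have h := pt_count n H P hx (ZA n H P) (fun a ha => by
    unfold ZA at ha
    rw [mem_filter, mem_Box] at ha
    exact ha)
  rw [hP] at h
  have hM0 : 0 < M := by linarith
  have hN : 1 ≤ Fintype.card (Ix n) := Fintype.card_pos_iff.2 ⟨ix n 0 0 (by omega)⟩
  have hK : (0 : ℝ) < 2 * H + 1 := by positivity
  have e : (2 * H + 1 : ℝ) ^ (Fintype.card (Ix n)) =
      (2 * H + 1 : ℝ) ^ (Fintype.card (Ix n) - 1) * (2 * H + 1 : ℝ) := by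
    rw [← pow_succ]
    congr 1
    omega
  have h3 : 2 * (H : ℝ) / M + 1 ≤ 2 * (2 * H + 1) / M := by
    rw [div_add_one hM0.ne']
    exact div_le_div_of_nonneg_right (by linarith) hM0.le
  have h4 : (2 * (H : ℝ) / M + 1) ^ n ≤ 2 ^ n / M ^ n * (2 * H + 1 : ℝ) ^ n := by
    refine (pow_le_pow_left₀ (by positivity) h3 n).trans (le_of_eq ?_)
    rw [div_pow, mul_pow]
    ring
  rw [div_le_iff₀ (by positivity)]
  have h5 : ((ZA n H P).card : ℝ) * (2 * H + 1 : ℝ) ^ (n + 1) ≤
      2 ^ n / M ^ n * (2 * H + 1 : ℝ) ^ (Fintype.card (Ix n) - 1) * (2 * H + 1 : ℝ) ^ (n + 1) := by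
    refine h.trans ?_
    rw [e]
    refine (mul_le_mul_of_nonneg_right h4 (by positivity)).trans (le_of_eq ?_)
    ring
  exact le_of_mul_le_mul_right h5 (by positivity)

theorem pr_le (n : ℕ) (hn : 1 ≤ n) (P : ℤ × ℤ) (H : ℕ) (h1 : 1 ≤ msz P) (h2 : msz P ≤ H) :
    pr n H P ≤ 2 ^ n / (msz P : ℝ) ^ n := by
  have h1' : (1 : ℝ) ≤ (msz P : ℝ) := by exact_mod_cast h1
  have h2' : (msz P : ℝ) ≤ H := by exact_mod_cast h2
  unfold pr
  rcases le_total |P.2| |P.1| with h | h
  · refine pr_aux n P H _ h1' h2' ?_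
    rw [← Int.cast_abs]
    unfold msz
    rw [max_eq_left h]
  · have h3 : ((ZA n H P).card : ℝ) ≤ (ZA n H (P.2, P.1)).card := by
      exact_mod_cast ZA_swap n H P
    refine (div_le_div_of_nonneg_right h3 (by positivity)).trans ?_
    refine pr_aux n (P.2, P.1) H _ h1' h2' ?_
    rw [← Int.cast_abs]
    unfold msz
    rw [max_eq_right h]

theorem kap_nonneg (n : ℕ) (hn : 1 ≤ n) (P : ℤ × ℤ) : 0 ≤ kap n P := by
  refine ge_of_tendsto (kap_tendsto n hn P) (Filter.Eventually.of_forall fun H => ?_)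
  unfold pr
  positivity

theorem kap_zero (n : ℕ) (hn : 1 ≤ n) : kap n (0, 0) = 1 := by
  classical
  have h : ∀ H : ℕ, pr n H (0, 0) = 1 := by
    intro H
    have hz : 0 + 0 ≤ n := by omega
    have hev : ∀ a : Ix n → ℤ, ev n (arr a) 0 0 = a (ix n 0 0 hz) := by
      intro a
      rw [ev_arr_sum, sum_eq_single (ix n 0 0 hz)]
      · show a (ix n 0 0 hz) * ((0 : ℤ) ^ 0 * (0 : ℤ) ^ 0) = _
        rw [pow_zero, mul_one, mul_one]
      · intro i _ hi
        by_cases h1 : (i.1.1 : ℕ) = 0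
        · by_cases h2 : (i.1.2 : ℕ) = 0
          · exact absurd (Subtype.ext (Prod.ext (Fin.ext h1) (Fin.ext h2))) hi
          · rw [zero_pow h2, mul_zero, mul_zero]
        · rw [zero_pow h1, zero_mul, mul_zero]
      · intro hh
        exact absurd (mem_univ _) hh
    have hZ : ZA n H (0, 0) = Fintype.piFinset fun i : Ix n =>
        if i = ix n 0 0 hz then ({0} : Finset ℤ) else Icc (-(H : ℤ)) H := by
      ext a
      unfold ZA
      rw [mem_filter, mem_Box, Fintype.mem_piFinset]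
      have hev' : ev n (arr a) ((0, 0) : ℤ × ℤ).1 ((0, 0) : ℤ × ℤ).2 = a (ix n 0 0 hz) := hev a
      rw [hev']
      constructor
      · rintro ⟨h1, h2⟩ i
        split_ifs with hi
        · rw [mem_singleton, hi]
          exact h2
        · rw [mem_Icc, ← abs_le]
          exact h1 i
      · intro h1
        have h2 := h1 (ix n 0 0 hz)
        rw [if_pos rfl, mem_singleton] at h2
        refine ⟨fun i => ?_, h2⟩
        by_cases hi : i = ix n 0 0 hz
        · rw [hi, h2, abs_zero]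
          exact Int.natCast_nonneg H
        · have h3 := h1 i
          rw [if_neg hi, mem_Icc, ← abs_le] at h3
          exact h3
    have hc : (ZA n H (0, 0)).card = (2 * H + 1) ^ (Fintype.card (Ix n) - 1) := by
      rw [hZ, Fintype.card_piFinset, ← mul_prod_erase univ _ (mem_univ (ix n 0 0 hz))]
      rw [if_pos rfl, card_singleton, one_mul]
      have h1 : ∀ i ∈ univ.erase (ix n 0 0 hz),
          (if i = ix n 0 0 hz then ({0} : Finset ℤ) else Icc (-(H : ℤ)) H).card = 2 * H + 1 := by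
        intro i hi
        rw [mem_erase] at hi
        rw [if_neg hi.1, Int.card_Icc]
        omega
      rw [prod_congr rfl h1, prod_const, card_erase_of_mem (mem_univ _), card_univ]
    unfold pr
    rw [hc]
    push_cast
    exact div_self (by positivity)
  have h1 := kap_tendsto n hn (0, 0)
  simp only [h] at h1
  exact (tendsto_nhds_unique h1 tendsto_const_nhds)

theorem kap_le (n : ℕ) (hn : 1 ≤ n) (P : ℤ × ℤ) (h1 : 1 ≤ msz P) :
    kap n P ≤ 2 ^ n / (msz P : ℝ) ^ n := by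
  refine le_of_tendsto (kap_tendsto n hn P) ?_
  filter_upwards [Filter.eventually_ge_atTop (msz P).toNat] with H hH
  refine pr_le n hn P H h1 ?_
  omega

end Pool.Agent.H15.SC
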