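import Pool.Agent.H15.SC.Defs

/-! # The box and the number of its vectors vanishing at a point -/

namespace Pool.Agent.H15.SC

open Finset Polynomial Pool.Agent.H72.ES Pool.Agent.H8.NoPt Pool.Agent.H8.MP

/-- all coefficient vectors in `[-H,H]` -/
noncomputable def Box (n H : ℕ) : Finset (Ix n → ℤ) :=
  Fintype.piFinset fun _ => Icc (-(H : ℤ)) H

theorem mem_Box {n H : ℕ} {a : Ix n → ℤ} : a ∈ Box n H ↔ ∀ i, |a i| ≤ (H : ℤ) := by
  simp [Box, Fintype.mem_piFinset, abs_le]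

theorem card_Box (n H : ℕ) : (Box n H).card = (2 * H + 1) ^ (Fintype.card (Ix n)) := by
  rw [Box, Fintype.card_piFinset]
  simp only [Int.card_Icc, prod_const, card_univ]
  congr 1
  omega

open Classical in
/-- the vectors of the box vanishing at `P` -/
noncomputable def ZA (n H : ℕ) (P : ℤ × ℤ) : Finset (Ix n → ℤ) :=
  (Box n H).filter fun a => ev n (arr a) P.1 P.2 = 0

/-- `#ZA / K^(N-1)` -/
noncomputable def pr (n H : ℕ) (P : ℤ × ℤ) : ℝ :=
  ((ZA n H P).card : ℝ) / (2 * H + 1 : ℝ) ^ (Fintype.card (Ix n) - 1)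

/-- the size of a point -/
def msz (P : ℤ × ℤ) : ℤ := max |P.1| |P.2|

/-- the points of size at most `B` -/
noncomputable def Pts (B : ℕ) : Finset (ℤ × ℤ) := Icc (-(B : ℤ)) B ×ˢ Icc (-(B : ℤ)) B

theorem mem_Pts {B : ℕ} {P : ℤ × ℤ} : P ∈ Pts B ↔ msz P ≤ B := by
  simp only [Pts, mem_product, mem_Icc, msz, max_le_iff, abs_le]

theorem card_Pts (B : ℕ) : (Pts B).card = (2 * B + 1) ^ 2 := by
  rw [Pts, card_product, Int.card_Icc]
  have : ((B : ℤ) + 1 - -(B : ℤ)).toNat = 2 * B + 1 := by omega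
  rw [this]; ring

end Pool.Agent.H15.SC
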