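import Pool.Agent.H15.SC.Defs
import Pool.Agent.H8.MP.FibS

/-! # [SC LEV] Digits to base `x`

`lev_fin`: induction on `d`. If `∑_{k ≤ d} c_k x^k = R` then `c_0 ≡ R mod x`, so `c_0 = r + x t`
with `|c_0| ≤ H`: at most `2H/|x| + 1` values, and for each of them
`∑_{k ≤ d-1} c_{k+1} x^k = (R - c_0)/x`. For `d = 0`: `c_0 = R`, at most one.
`lev_vec`: `ev n (arr a) x y = ∑_i a i * x^i.1 y^i.2` (`ev_arr_sum` in `MP.FibS`); the terms with
`¬ Pur d i` are fixed, the others give `∑_{k ≤ d} a (k,0) x^k`. -/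

namespace Pool.Agent.H15.SC

open Finset Polynomial Pool.Agent.H72.ES Pool.Agent.H8.NoPt Pool.Agent.H8.MP

/-- integers in an interval -/
private theorem card_near (T : Finset ℤ) (c r : ℝ) (hr : 0 ≤ r)
    (h : ∀ t ∈ T, |(t : ℝ) - c| ≤ r) : (T.card : ℝ) ≤ 2 * r + 1 := by
  rcases T.eq_empty_or_nonempty with rfl | ⟨t, ht⟩
  · simp only [Finset.card_empty, Nat.cast_zero]
    linarith
  · have hsub : T ⊆ Finset.Icc ⌈c - r⌉ ⌊c + r⌋ := by
      intro s hs
      have h1 := abs_le.1 (h s hs)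
      rw [Finset.mem_Icc]
      exact ⟨Int.ceil_le.2 (by linarith [h1.1]), Int.le_floor.2 (by linarith [h1.2])⟩
    have h1 := Finset.card_le_card hsub
    have h2 := Finset.mem_Icc.1 (hsub ht)
    rw [Int.card_Icc] at h1
    have h3 : (0 : ℤ) ≤ ⌊c + r⌋ + 1 - ⌈c - r⌉ := by linarith [h2.1, h2.2]
    have h4 : (T.card : ℤ) ≤ ⌊c + r⌋ + 1 - ⌈c - r⌉ := by
      have h5 := Int.toNat_of_nonneg h3
      omega
    have h5 : (T.card : ℝ) ≤ ⌊c + r⌋ + 1 - ⌈c - r⌉ := by exact_mod_cast h4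
    have h6 := Int.floor_le (c + r)
    have h7 := Int.le_ceil (c - r)
    linarith

theorem lev_fin (d H : ℕ) (x R : ℤ) (hx : x ≠ 0) (S : Finset (Fin (d + 1) → ℤ))
    (hS : ∀ c ∈ S, (∀ k, |c k| ≤ (H : ℤ)) ∧ ∑ k, c k * x ^ (k : ℕ) = R) :
    (S.card : ℝ) ≤ (2 * H / |(x : ℝ)| + 1) ^ d := by
  classical
  have hx0 : (0 : ℝ) < |(x : ℝ)| := abs_pos.2 (by exact_mod_cast hx)
  have hxr : (x : ℝ) ≠ 0 := by exact_mod_cast hx
  induction d generalizing R with
  | zero =>
    rw [pow_zero]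
    have h1 : S.card ≤ 1 := by
      rw [Finset.card_le_one]
      intro a ha b hb
      have h2 := (hS a ha).2
      have h3 := (hS b hb).2
      rw [Fin.sum_univ_one] at h2 h3
      funext k
      have hk : k = 0 := Fin.ext (by have := k.2; rw [Fin.val_zero]; omega)
      rw [hk]
      simp only [Fin.val_zero, pow_zero, mul_one] at h2 h3
      rw [h2, h3]
    exact_mod_cast h1
  | succ d ih =>
    -- the values of the first coordinate
    have hsplit : ∀ c ∈ S, x * (∑ k : Fin (d + 1), c k.succ * x ^ (k : ℕ)) = R - c 0 := by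
      intro c hc
      have h1 := (hS c hc).2
      rw [Fin.sum_univ_succ] at h1
      have h2 : x * (∑ k : Fin (d + 1), c k.succ * x ^ (k : ℕ)) =
          ∑ k : Fin (d + 1), c k.succ * x ^ ((k.succ : Fin (d + 1 + 1)) : ℕ) := by
        rw [Finset.mul_sum]
        refine Finset.sum_congr rfl fun k _ => ?_
        rw [Fin.val_succ, pow_succ]
        ring
      rw [h2, ← h1]
      simp only [Fin.val_zero, pow_zero, mul_one]
      ring
    let τ : (Fin (d + 1 + 1) → ℤ) → ℤ := fun c => ∑ k : Fin (d + 1), c k.succ * x ^ (k : ℕ)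
    have hfib : ∀ v ∈ S.image τ, (((S.filter fun c => τ c = v).card : ℕ) : ℝ) ≤
        (2 * H / |(x : ℝ)| + 1) ^ d := by
      intro v _
      have hinj : Set.InjOn (fun (c : Fin (d + 1 + 1) → ℤ) (k : Fin (d + 1)) => c k.succ)
          (S.filter fun c => τ c = v : Finset _) := by
        intro a ha b hb hab
        rw [Finset.mem_coe, Finset.mem_filter] at ha hb
        funext k
        refine Fin.cases ?_ (fun j => congrFun hab j) k
        have h1 := hsplit a ha.1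
        have h2 := hsplit b hb.1
        have h3 : τ a = τ b := ha.2.trans hb.2.symm
        have h4 : x * τ a = x * τ b := by rw [h3]
        have h5 : R - a 0 = R - b 0 := h1.symm.trans (h4.trans h2)
        linarith
      rw [← Finset.card_image_of_injOn hinj]
      refine ih v _ fun c hc => ?_
      obtain ⟨a, ha, rfl⟩ := Finset.mem_image.1 hc
      rw [Finset.mem_filter] at ha
      exact ⟨fun k => (hS a ha.1).1 _, ha.2⟩
    have himg : ((S.image τ).card : ℝ) ≤ 2 * (H / |(x : ℝ)|) + 1 := by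
      refine card_near _ ((R : ℝ) / x) _ (by positivity) fun t ht => ?_
      obtain ⟨c, hc, rfl⟩ := Finset.mem_image.1 ht
      have h1 := hsplit c hc
      have h2 : (x : ℝ) * ((τ c : ℤ) : ℝ) = R - c 0 := by exact_mod_cast h1
      have h3 : ((τ c : ℤ) : ℝ) - R / x = -(c 0 : ℝ) / x := by
        rw [eq_div_iff hxr, sub_mul, div_mul_cancel₀ _ hxr]
        linarith
      rw [h3, abs_div, abs_neg]
      refine div_le_div_of_nonneg_right ?_ hx0.le
      have h4 := (hS c hc).1 0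
      exact_mod_cast h4
    have h3 : S.card = ∑ v ∈ S.image τ, (S.filter fun c => τ c = v).card :=
      Finset.card_eq_sum_card_fiberwise fun a ha => Finset.mem_image_of_mem τ ha
    rw [h3, Nat.cast_sum]
    refine (Finset.sum_le_card_nsmul _ _ _ hfib).trans ?_
    rw [nsmul_eq_mul, pow_succ, mul_comm]
    refine mul_le_mul_of_nonneg_left ?_ (by positivity)
    refine himg.trans (le_of_eq ?_)
    ring

theorem lev_vec (n d H : ℕ) (hd : d ≤ n) (P : ℤ × ℤ) (hx : P.1 ≠ 0) (c : Ix n → ℤ)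
    (T : Finset (Ix n → ℤ))
    (hT : ∀ a ∈ T, (∀ i, |a i| ≤ (H : ℤ)) ∧ (∀ i, ¬ Pur d i → a i = c i) ∧
      ev n (arr a) P.1 P.2 = 0) :
    (T.card : ℝ) ≤ (2 * H / |(P.1 : ℝ)| + 1) ^ d := by
  classical
  let e : Fin (d + 1) → Ix n := fun k => ix n (k : ℕ) 0 (by have := k.2; omega)
  have he : Function.Injective e := by
    intro k k' h
    have h1 := congrArg (fun i : Ix n => (i.1.1 : ℕ)) h
    exact Fin.ext h1
  have hep : ∀ k, Pur d (e k) := fun k => ⟨rfl, by have := k.2; exact Nat.le_of_lt_succ this⟩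
  have hes : ∀ i : Ix n, Pur d i → ∃ k, e k = i := by
    rintro ⟨⟨u, v⟩, hi⟩ ⟨h1, h2⟩
    refine ⟨⟨u, Nat.lt_succ_of_le h2⟩, ?_⟩
    exact Subtype.ext (Prod.ext (Fin.ext rfl) (Fin.ext h1.symm))
  let R : ℤ := -∑ i ∈ Finset.univ.filter (fun i : Ix n => ¬ Pur d i),
    c i * (P.1 ^ (i.1.1 : ℕ) * P.2 ^ (i.1.2 : ℕ))
  let ρ : (Ix n → ℤ) → (Fin (d + 1) → ℤ) := fun a k => a (e k)
  have hinj : Set.InjOn ρ (T : Set (Ix n → ℤ)) := by
    intro a ha b hb hab
    funext i
    by_cases hi : Pur d i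
    · obtain ⟨k, rfl⟩ := hes i hi
      exact congrFun hab k
    · rw [(hT a ha).2.1 i hi, (hT b hb).2.1 i hi]
  rw [← Finset.card_image_of_injOn hinj]
  refine lev_fin d H P.1 R hx _ fun z hz => ?_
  obtain ⟨a, ha, rfl⟩ := Finset.mem_image.1 hz
  obtain ⟨h1, h2, h3⟩ := hT a ha
  refine ⟨fun k => h1 _, ?_⟩
  rw [ev_arr_sum, ← Finset.sum_filter_add_sum_filter_not Finset.univ (fun i : Ix n => Pur d i)] at h3
  have h4 : ∑ i ∈ Finset.univ.filter (fun i : Ix n => ¬ Pur d i),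
      a i * (P.1 ^ (i.1.1 : ℕ) * P.2 ^ (i.1.2 : ℕ)) = -R := by
    rw [neg_neg]
    refine Finset.sum_congr rfl fun i hi => ?_
    rw [h2 i (Finset.mem_filter.1 hi).2]
  have h5 : ∑ i ∈ Finset.univ.filter (fun i : Ix n => Pur d i),
      a i * (P.1 ^ (i.1.1 : ℕ) * P.2 ^ (i.1.2 : ℕ)) = ∑ k, ρ a k * P.1 ^ (k : ℕ) := by
    symm
    refine Finset.sum_bij (fun k _ => e k) ?_ ?_ ?_ ?_
    · intro k _
      exact Finset.mem_filter.2 ⟨Finset.mem_univ _, hep k⟩
    · intro k _ k' _ h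
      exact he h
    · intro i hi
      obtain ⟨k, hk⟩ := hes i (Finset.mem_filter.1 hi).2
      exact ⟨k, Finset.mem_univ _, hk⟩
    · intro k _
      have h6 : P.2 ^ (((e k).1.2 : Fin (n + 1)) : ℕ) = 1 := by
        rw [(hep k).1, pow_zero]
      rw [h6, mul_one]
      rfl
  rw [h4, h5] at h3
  linarith

end Pool.Agent.H15.SC
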