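import Pool.Agent.H15.SC.Defs

/-! # [SC NDA] Triples with two small values at `p/q`

`nd_tri`: `t = (a0, a1, a2)`. The integer `s = a0 q² + a1 p q + a2 p²` satisfies
`|s + q² r0| ≤ q² e0`: at most `2 q² e0 + 1` values (`card_int_ball`). Given `s`, `a2` is fixed
modulo `q` (`a2 p² ≡ s`, `p` invertible modulo `q`): at most `2H/q + 1` values. Given `s` and `a2`,
`a1` is fixed modulo `q` (`(s - a2 p²)/q = a0 q + a1 p`) and `|a1 + 2 a2 p/q + r1| ≤ e1`: at most
`2 e1/q + 1` values; then `a0` is fixed (`q ≥ 1`).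
Useful: the number of integers `v ≡ v0 mod q` with `|v - c| ≤ r` is at most `2 r/q + 1`
(`v = v0 + q w`, `card_int_ball` for `w`).
`nd_pq`: `fiber_count` with the three coordinates `(n,0), (n-1,1), (n-2,2)` free:
`f(z) = a (n,0) + a (n-1,1) z + a (n-2,2) z² + (fixed)`, `f'(z) = a (n-1,1) + 2 a (n-2,2) z +
(fixed)`, `z = p/q` real. -/

namespace Pool.Agent.H15.SC

open Finset Polynomial Pool.Agent.H72.ES Pool.Agent.H8.NoPt Pool.Agent.H8.MP

/-- at most `A * B` elements when `u` takes at most `A` values and every fiber has at most `B`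
elements -/
private theorem card_two {α : Type*} [DecidableEq α] (T : Finset α) (u : α → ℤ) (A B : ℝ)
    (hB : 0 ≤ B) (hA : ((T.image u).card : ℝ) ≤ A)
    (h : ∀ x : ℤ, ((T.filter fun a => u a = x).card : ℝ) ≤ B) :
    (T.card : ℝ) ≤ A * B := by
  have h1 := Finset.card_eq_sum_card_fiberwise (f := u) (s := T) (t := T.image u)
    (fun a ha => Finset.mem_image_of_mem u ha)
  rw [h1]
  push_cast
  calc _ ≤ ∑ x ∈ T.image u, B := Finset.sum_le_sum fun x hx => h x
    _ = ((T.image u).card : ℝ) * B := by rw [Finset.sum_const, nsmul_eq_mul]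
    _ ≤ A * B := by gcongr

/-- integers of one residue class modulo `q` in a ball -/
private theorem card_mod_ball (T : Finset ℤ) (q : ℕ) (hq : 1 ≤ q) (c r : ℝ) (hr : 0 ≤ r)
    (h : ∀ v ∈ T, |(v : ℝ) - c| ≤ r) (hm : ∀ v ∈ T, ∀ w ∈ T, (q : ℤ) ∣ v - w) :
    (T.card : ℝ) ≤ 2 * r / q + 1 := by
  classical
  have hq0 : (0 : ℝ) < q := by exact_mod_cast (by omega : 0 < q)
  have hqz : (q : ℤ) ≠ 0 := by omega
  rcases T.eq_empty_or_nonempty with rfl | ⟨v0, hv0⟩
  · simp only [Finset.card_empty, Nat.cast_zero]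
    positivity
  · have hinj : Set.InjOn (fun v : ℤ => (v - v0) / (q : ℤ)) T := by
      intro v hv w hw hvw
      have h1 := Int.ediv_mul_cancel (hm v hv v0 hv0)
      have h2 := Int.ediv_mul_cancel (hm w hw v0 hv0)
      have h3 : (v - v0) / (q : ℤ) = (w - v0) / (q : ℤ) := hvw
      rw [h3] at h1
      linarith
    rw [← Finset.card_image_of_injOn hinj]
    have h4 := card_int_ball (T.image fun v : ℤ => (v - v0) / (q : ℤ)) ((c - v0) / q) (r / q)
      (by positivity) (fun w hw => by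
        rw [Finset.mem_image] at hw
        obtain ⟨v, hv, rfl⟩ := hw
        have h1 := Int.ediv_mul_cancel (hm v hv v0 hv0)
        have h2 : (((v - v0) / (q : ℤ) : ℤ) : ℝ) * q = v - v0 := by exact_mod_cast h1
        have h3 : (((v - v0) / (q : ℤ) : ℤ) : ℝ) = (v - v0) / q := by
          rw [eq_div_iff hq0.ne']
          exact h2
        rw [h3, ← sub_div, abs_div, abs_of_pos hq0]
        have h5 : (v : ℝ) - v0 - (c - v0) = v - c := by ring
        rw [h5]
        exact div_le_div_of_nonneg_right (h v hv) hq0.le)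
    calc _ ≤ 2 * (r / q) + 1 := h4
      _ = _ := by ring

theorem nd_tri (H : ℕ) (p : ℤ) (q : ℕ) (hq : 1 ≤ q) (hpq : IsCoprime p (q : ℤ))
    (r0 r1 e0 e1 : ℝ) (he0 : 0 ≤ e0) (he1 : 0 ≤ e1) (T : Finset (ℤ × ℤ × ℤ))
    (hT : ∀ t ∈ T, |t.2.2| ≤ (H : ℤ) ∧
      |(t.1 : ℝ) + t.2.1 * (p / q) + t.2.2 * (p / q) ^ 2 + r0| ≤ e0 ∧
      |(t.2.1 : ℝ) + 2 * t.2.2 * (p / q) + r1| ≤ e1) :
    (T.card : ℝ) ≤ (2 * (q : ℝ) ^ 2 * e0 + 1) * (2 * H / q + 1) * (2 * e1 / q + 1) := by
  classical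
  have hq0 : (0 : ℝ) < q := by exact_mod_cast (by omega : 0 < q)
  have hqz : (q : ℤ) ≠ 0 := by omega
  rw [mul_assoc]
  refine card_two T (fun t => t.1 * q ^ 2 + t.2.1 * p * q + t.2.2 * p ^ 2) _ _ (by positivity) ?_
    fun s => ?_
  · have h := card_int_ball (T.image fun t => t.1 * q ^ 2 + t.2.1 * p * q + t.2.2 * p ^ 2)
      (-(q ^ 2 * r0)) (q ^ 2 * e0) (by positivity) (fun v hv => by
        rw [Finset.mem_image] at hv
        obtain ⟨t, ht, rfl⟩ := hv
        have h1 := (hT t ht).2.1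
        have h2 : ((t.1 * q ^ 2 + t.2.1 * p * q + t.2.2 * p ^ 2 : ℤ) : ℝ) - -(q ^ 2 * r0) =
            q ^ 2 * ((t.1 : ℝ) + t.2.1 * (p / q) + t.2.2 * (p / q) ^ 2 + r0) := by
          push_cast
          field_simp
          ring
        rw [h2, abs_mul, abs_of_nonneg (by positivity : (0 : ℝ) ≤ (q : ℝ) ^ 2)]
        gcongr)
    linarith
  · refine card_two _ (fun t => t.2.2) _ _ (by positivity) ?_ fun v => ?_
    · have h := card_mod_ball ((T.filter fun t => t.1 * q ^ 2 + t.2.1 * p * q + t.2.2 * p ^ 2 =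
        s).image fun t => t.2.2) q hq 0 H (by positivity) ?_ ?_
      · exact h
      · intro v hv
        simp only [Finset.mem_image, Finset.mem_filter] at hv
        obtain ⟨t, ⟨ht, -⟩, rfl⟩ := hv
        have h1 := (hT t ht).1
        rw [sub_zero]
        exact_mod_cast h1
      · intro v hv w hw
        simp only [Finset.mem_image, Finset.mem_filter] at hv hw
        obtain ⟨t, ⟨ht, h1⟩, rfl⟩ := hv
        obtain ⟨t', ⟨ht', h2⟩, rfl⟩ := hw
        have h3 : (q : ℤ) ∣ p ^ 2 * (t.2.2 - t'.2.2) := by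
          refine ⟨(t'.1 - t.1) * q + (t'.2.1 - t.2.1) * p, ?_⟩
          linear_combination h1 - h2
        exact (hpq.pow_left (m := 2)).symm.dvd_of_dvd_mul_left h3
    · set T3 := (T.filter fun t => t.1 * q ^ 2 + t.2.1 * p * q + t.2.2 * p ^ 2 = s).filter
        fun t => t.2.2 = v with hT3
      have hm : ∀ t ∈ T3, t ∈ T ∧ t.1 * q ^ 2 + t.2.1 * p * q + t.2.2 * p ^ 2 = s ∧
          t.2.2 = v := by
        intro t ht
        rw [hT3, Finset.mem_filter, Finset.mem_filter] at ht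
        exact ⟨ht.1.1, ht.1.2, ht.2⟩
      have hinj : Set.InjOn (fun t : ℤ × ℤ × ℤ => t.2.1) T3 := by
        intro t ht t' ht' h
        obtain ⟨-, h1, h2⟩ := hm t ht
        obtain ⟨-, h3, h4⟩ := hm t' ht'
        have h5 : t.2.1 = t'.2.1 := h
        rw [h2, h5] at h1
        rw [h4] at h3
        have h6 : (t.1 - t'.1) * (q : ℤ) ^ 2 = 0 := by linear_combination h1 - h3
        have h7 : t.1 - t'.1 = 0 := by
          rcases mul_eq_zero.1 h6 with h | h
          · exact h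
          · exact absurd h (pow_ne_zero 2 hqz)
        refine Prod.ext (by linarith) (Prod.ext h5 (h2.trans h4.symm))
      rw [← Finset.card_image_of_injOn hinj]
      refine card_mod_ball (T3.image fun t : ℤ × ℤ × ℤ => t.2.1) q hq (-(2 * v * (p / q) + r1)) e1
        he1 ?_ ?_
      · intro w hw
        rw [Finset.mem_image] at hw
        obtain ⟨t, ht, rfl⟩ := hw
        obtain ⟨h1, -, h2⟩ := hm t ht
        have h3 := (hT t h1).2.2
        rw [h2] at h3
        have h4 : (t.2.1 : ℝ) - -(2 * v * (p / q) + r1) = (t.2.1 : ℝ) + 2 * v * (p / q) + r1 := by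
          ring
        rw [h4]
        exact h3
      · intro w hw w' hw'
        rw [Finset.mem_image] at hw hw'
        obtain ⟨t, ht, rfl⟩ := hw
        obtain ⟨t', ht', rfl⟩ := hw'
        obtain ⟨-, h1, h2⟩ := hm t ht
        obtain ⟨-, h3, h4⟩ := hm t' ht'
        rw [h2] at h1
        rw [h4] at h3
        have h6 : (q : ℤ) * ((t.1 - t'.1) * q + (t.2.1 - t'.2.1) * p) = 0 := by
          linear_combination h1 - h3
        have h7 : (t.1 - t'.1) * q + (t.2.1 - t'.2.1) * p = 0 := by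
          rcases mul_eq_zero.1 h6 with h | h
          · exact absurd h hqz
          · exact h
        have h8 : (q : ℤ) ∣ p * (t.2.1 - t'.2.1) := ⟨t'.1 - t.1, by linear_combination h7⟩
        exact hpq.symm.dvd_of_dvd_mul_left h8

/-- real polynomial -/
private noncomputable def rp (n : ℕ) (F : ℕ → ℕ → ℤ) (x : ℝ) : ℝ :=
  ∑ j ∈ range (n + 1), (F (n - j) j : ℝ) * x ^ j

private noncomputable def rd (n : ℕ) (F : ℕ → ℕ → ℤ) (x : ℝ) : ℝ :=
  ∑ j ∈ range (n + 1), (F (n - j) j : ℝ) * (j * x ^ (j - 1))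

private theorem hp_eval' (n : ℕ) (F : ℕ → ℕ → ℤ) (z : ℝ) :
    ‖(hp n F).eval (z : ℂ)‖ = |rp n F z| := by
  have : (hp n F).eval (z : ℂ) = ((rp n F z : ℝ) : ℂ) := by
    unfold hp lead rp
    simp [Polynomial.map_sum, Polynomial.eval_finsetSum]
  rw [this, Complex.norm_real, Real.norm_eq_abs]

private theorem hp_deriv' (n : ℕ) (F : ℕ → ℕ → ℤ) (z : ℝ) :
    ‖(derivative (hp n F)).eval (z : ℂ)‖ = |rd n F z| := by
  have : (derivative (hp n F)).eval (z : ℂ) = ((rd n F z : ℝ) : ℂ) := by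
    unfold hp lead rd
    simp only [Polynomial.map_sum, Polynomial.derivative_sum, Polynomial.eval_finsetSum,
      Complex.ofReal_sum]
    refine Finset.sum_congr rfl fun j _ => ?_
    simp [Polynomial.derivative_X_pow]
  rw [this, Complex.norm_real, Real.norm_eq_abs]

theorem nd_pq (n H : ℕ) (hn : 2 ≤ n) (p : ℤ) (q : ℕ) (hq : 1 ≤ q) (hpq : IsCoprime p (q : ℤ))
    (e0 e1 : ℝ) (he0 : 0 ≤ e0) (he1 : 0 ≤ e1) (S : Finset (Ix n → ℤ))
    (hS : ∀ a ∈ S, (∀ i, |a i| ≤ (H : ℤ)) ∧
      ‖(hp n (arr a)).eval ((p : ℂ) / q)‖ ≤ e0 ∧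
      ‖(derivative (hp n (arr a))).eval ((p : ℂ) / q)‖ ≤ e1) :
    (S.card : ℝ) * (2 * H + 1 : ℝ) ^ 3 ≤
      (2 * (q : ℝ) ^ 2 * e0 + 1) * (2 * H / q + 1) * (2 * e1 / q + 1) *
        (2 * H + 1 : ℝ) ^ (Fintype.card (Ix n)) := by
  classical
  set iv : Ix n := ix n n 0 (by omega) with hiv
  set iu : Ix n := ix n (n - 1) 1 (by omega) with hiu
  set iw : Ix n := ix n (n - 2) 2 (by omega) with hiw
  have ej : ∀ i : Ix n, ∀ k, (i.1.2 : ℕ) = k → ∀ i' : Ix n, (i'.1.2 : ℕ) ≠ k → i ≠ i' := by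
    intro i k h i' h' he
    exact h' (he ▸ h)
  have n1 : iv ≠ iu := ej _ 0 rfl _ (by show (1 : ℕ) ≠ 0; omega)
  have n2 : iv ≠ iw := ej _ 0 rfl _ (by show (2 : ℕ) ≠ 0; omega)
  have n3 : iu ≠ iw := ej _ 1 rfl _ (by show (2 : ℕ) ≠ 1; omega)
  have hcard : Fintype.card {i : Ix n // ¬ (i = iv ∨ i = iu ∨ i = iw)} + 3 =
      Fintype.card (Ix n) := by
    have h1 := Fintype.card_subtype_compl (fun i : Ix n => i = iv ∨ i = iu ∨ i = iw)
    have h2 : Fintype.card {i : Ix n // i = iv ∨ i = iu ∨ i = iw} = 3 := by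
      rw [Fintype.card_subtype]
      have : ({i : Ix n | i = iv ∨ i = iu ∨ i = iw} : Finset (Ix n)) = {iv, iu, iw} := by
        ext i
        simp
      rw [this, Finset.card_insert_of_notMem (by simp [n1, n2]),
        Finset.card_insert_of_notMem (by simp [n3]), Finset.card_singleton]
    have h3 : Fintype.card {i : Ix n // i = iv ∨ i = iu ∨ i = iw} ≤ Fintype.card (Ix n) :=
      Fintype.card_subtype_le _
    rw [h1]
    omega
  have hm0 : 0 ≤ (2 * (q : ℝ) ^ 2 * e0 + 1) * (2 * H / q + 1) * (2 * e1 / q + 1) := by positivity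
  have key := fiber_count (fun i : Ix n => i = iv ∨ i = iu ∨ i = iw) H S (fun a ha => (hS a ha).1)
    _ hm0 ?_
  · rw [← hcard, pow_add, ← mul_assoc]
    exact mul_le_mul_of_nonneg_right key (by positivity)
  · intro c hc T hT
    set z : ℝ := (p : ℝ) / q with hz
    have hzc : ((z : ℝ) : ℂ) = (p : ℂ) / q := by rw [hz]; push_cast; rfl
    have hr : (range (n + 1)).filter (fun j => ¬ 3 ≤ j) = {0, 1, 2} := by
      ext j
      simp only [Finset.mem_filter, Finset.mem_range, Finset.mem_insert, Finset.mem_singleton]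
      omega
    have hsplit : ∀ a : Ix n → ℤ, ∀ φ : ℕ → ℝ,
        ∑ j ∈ range (n + 1), (arr a (n - j) j : ℝ) * φ j =
        (a iv : ℝ) * φ 0 + (a iu : ℝ) * φ 1 + (a iw : ℝ) * φ 2 +
          ∑ j ∈ (range (n + 1)).filter (fun j => 3 ≤ j), (arr a (n - j) j : ℝ) * φ j := by
      intro a φ
      rw [← Finset.sum_filter_add_sum_filter_not _ (fun j => 3 ≤ j), hr,
        Finset.sum_insert (by simp), Finset.sum_insert (by simp), Finset.sum_singleton]
      have a0 : arr a (n - 0) 0 = a iv := by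
        unfold arr
        rw [dif_pos (by omega)]
        rfl
      have a1 : arr a (n - 1) 1 = a iu := by
        unfold arr
        rw [dif_pos (by omega)]
      have a2 : arr a (n - 2) 2 = a iw := by
        unfold arr
        rw [dif_pos (by omega)]
      rw [a0, a1, a2]
      ring
    have hsame : ∀ a ∈ T, ∀ φ : ℕ → ℝ,
        ∑ j ∈ (range (n + 1)).filter (fun j => 3 ≤ j), (arr a (n - j) j : ℝ) * φ j =
        ∑ j ∈ (range (n + 1)).filter (fun j => 3 ≤ j), (arr c (n - j) j : ℝ) * φ j := by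
      intro a ha φ
      refine Finset.sum_congr rfl fun j hj => ?_
      rw [Finset.mem_filter, Finset.mem_range] at hj
      have : arr a (n - j) j = arr c (n - j) j := by
        unfold arr
        rw [dif_pos (by omega), dif_pos (by omega)]
        refine (hT a ha).2 _ ?_
        have h2 : (((ix n (n - j) j (by omega) : Ix n)).1.2 : ℕ) = j := rfl
        rintro (h | h | h)
        · rw [h] at h2
          have h3 : (0 : ℕ) = j := h2
          omega
        · rw [h] at h2
          have h3 : (1 : ℕ) = j := h2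
          omega
        · rw [h] at h2
          have h3 : (2 : ℕ) = j := h2
          omega
      rw [this]
    have hinj : Set.InjOn (fun a : Ix n → ℤ => ((a iv, a iu, a iw) : ℤ × ℤ × ℤ)) T := by
      intro a ha b hb hab
      have h1 : (a iv, a iu, a iw) = ((b iv, b iu, b iw) : ℤ × ℤ × ℤ) := hab
      rw [Prod.mk.injEq, Prod.mk.injEq] at h1
      funext i
      by_cases hi : i = iv ∨ i = iu ∨ i = iw
      · rcases hi with rfl | rfl | rfl
        · exact h1.1
        · exact h1.2.1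
        · exact h1.2.2
      · rw [(hT a ha).2 i hi, (hT b hb).2 i hi]
    rw [← Finset.card_image_of_injOn hinj]
    refine nd_tri H p q hq hpq
      (∑ j ∈ (range (n + 1)).filter (fun j => 3 ≤ j), (arr c (n - j) j : ℝ) * z ^ j)
      (∑ j ∈ (range (n + 1)).filter (fun j => 3 ≤ j), (arr c (n - j) j : ℝ) * (j * z ^ (j - 1)))
      e0 e1 he0 he1 _ ?_
    intro t ht
    rw [Finset.mem_image] at ht
    obtain ⟨a, ha, rfl⟩ := ht
    obtain ⟨hb, h0, h1⟩ := hS a (hT a ha).1
    rw [← hzc, hp_eval'] at h0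
    rw [← hzc, hp_deriv'] at h1
    refine ⟨hb iw, ?_, ?_⟩
    · unfold rp at h0
      rw [hsplit a (fun j => z ^ j), hsame a ha] at h0
      simpa using h0
    · unfold rd at h1
      rw [hsplit a (fun j => (j : ℝ) * z ^ (j - 1)), hsame a ha] at h1
      have e : (a iv : ℝ) * (((0 : ℕ) : ℝ) * z ^ (0 - 1)) + (a iu : ℝ) * (((1 : ℕ) : ℝ) *
          z ^ (1 - 1)) + (a iw : ℝ) * (((2 : ℕ) : ℝ) * z ^ (2 - 1)) =
          (a iu : ℝ) + 2 * a iw * z := by
        push_cast
        ring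
      rw [e] at h1
      exact h1

end Pool.Agent.H15.SC
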