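import Pool.Agent.H15.SC.Kdef
import Pool.Agent.H8.NoPt.Mv

/-! # [SC POLY] Vectors and polynomials

`toVec n` is a bijection of `PolyBox n H` onto the box (`mv_image`, `mv_injOn`), see
`MP/PolyC.lean`. `card_ix`: number of pairs `(i,j)` with `i + j ≤ n`. -/

namespace Pool.Agent.H15.SC

open Finset Pool.Agent.H72.ES Pool.Agent.H8.NoPt

private theorem card_fib (n : ℕ) (i : Fin (n + 1)) :
    ((univ : Finset (Fin (n + 1))).filter fun j : Fin (n + 1) =>
      (i : ℕ) + (j : ℕ) ≤ n).card = n + 1 - i := by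
  have h1 : ((univ : Finset (Fin (n + 1))).filter fun j : Fin (n + 1) =>
      (i : ℕ) + (j : ℕ) ≤ n).card =
      (range (n + 1 - i)).card := by
    refine card_bij (fun j _ => (j : ℕ)) ?_ ?_ ?_
    · intro j hj
      rw [mem_filter] at hj
      rw [mem_range]
      omega
    · intro a _ b _ h
      exact Fin.ext h
    · intro b hb
      rw [mem_range] at hb
      refine ⟨⟨b, by omega⟩, ?_, rfl⟩
      rw [mem_filter]
      refine ⟨mem_univ _, ?_⟩
      show (i : ℕ) + b ≤ n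
      omega
  rw [h1, card_range]

theorem card_ix (n : ℕ) : Fintype.card (Ix n) = (n + 1) * (n + 2) / 2 := by
  have h0 : Fintype.card (Ix n) =
      ((univ : Finset (Fin (n + 1) × Fin (n + 1))).filter
        fun p => (p.1 : ℕ) + (p.2 : ℕ) ≤ n).card := Fintype.card_subtype _
  have h1 : ((univ : Finset (Fin (n + 1) × Fin (n + 1))).filter
        fun p => (p.1 : ℕ) + (p.2 : ℕ) ≤ n).card = ∑ i : Fin (n + 1), (n + 1 - (i : ℕ)) := by
    rw [card_filter, Fintype.sum_prod_type]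
    refine sum_congr rfl fun i _ => ?_
    rw [← card_fib n i, card_filter]
  have h2 : ∑ i : Fin (n + 1), (n + 1 - (i : ℕ)) = ∑ i ∈ range (n + 1), (n + 1 - i) :=
    Fin.sum_univ_eq_sum_range (fun i => n + 1 - i) (n + 1)
  have h3 : ∑ i ∈ range (n + 1), (n + 1 - i) = ∑ i ∈ range (n + 2), i := by
    rw [sum_range_succ' (fun i => i) (n + 1), ← sum_range_reflect (fun i => i + 1) (n + 1)]
    rw [Nat.add_zero]
    refine sum_congr rfl fun i hi => ?_
    rw [mem_range] at hi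
    omega
  rw [h0, h1, h2, h3, sum_range_id]
  congr 1
  rw [show n + 2 - 1 = n + 1 by omega, mul_comm]

open Classical in
theorem box_ncard (n H : ℕ) (Φ : (Ix n → ℤ) → Prop) :
    {F : MvPolynomial (Fin 2) ℤ | (F.totalDegree ≤ n ∧ ∀ m, |F.coeff m| ≤ (H : ℤ)) ∧
      Φ (toVec n F)}.ncard = ((Box n H).filter Φ).card := by
  have hAP : {F : MvPolynomial (Fin 2) ℤ | (F.totalDegree ≤ n ∧ ∀ m, |F.coeff m| ≤ (H : ℤ)) ∧
      Φ (toVec n F)} ⊆ PolyBox n H := fun F hF => hF.1
  rw [← Set.InjOn.ncard_image ((mv_injOn n H).mono hAP), ← Set.ncard_coe_finset]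
  congr 1
  ext a
  rw [Set.mem_image, mem_coe, mem_filter, mem_Box]
  constructor
  · rintro ⟨F, hF, rfl⟩
    exact ⟨fun i => hF.1.2 _, hF.2⟩
  · rintro ⟨h1, h2⟩
    refine ⟨mvPoly n a, ⟨⟨mv_degree_poly n a, fun m => ?_⟩, ?_⟩, mv_toVec_poly n a⟩
    · rcases mv_coeff_poly n a m with h3 | ⟨k, h3⟩
      · rw [h3, abs_zero]
        exact Int.natCast_nonneg H
      · rw [h3]
        exact h1 k
    · rw [mv_toVec_poly]
      exact h2

end Pool.Agent.H15.SC
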