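import Pool.Agent.H15.SC.Rdir
import Pool.Agent.H15.SC.Cl
import Pool.Agent.H15.SC.Spa

/-! # [SC RCLR] Few points at constant level near the roots of `h` (R5)

Copy of the proof of `cl_count`: the roots `θ` used satisfy `p θ ≠ q` (`hθ`), and in a class with
two different points `P, P'` (`P.1 ≠ P'.1` by `near_inj`; `1600 L⁵ ≤ X0²` follows from `hc`, as
`8^n 2^n (n+1) H ≥ 2`, `A ≥ 1`) use `dir_ne` (`X = X0`) and `line_dir` instead of
`line_bound_points`. `hp n G ≠ 0` as `lead n G ≠ 0` (`h ≠ 0`, `q - p X ≠ 0`). -/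

namespace Pool.Agent.H15.SC

open Finset Polynomial Pool.Agent.H72.ES Pool.Agent.H8.NoPt Pool.Agent.H8.MP

private theorem rclr_ev_shift {n : ℕ} (G : ℕ → ℕ → ℤ) (c x y : ℤ) :
    ev n (fun i j => G i j + if i = 0 ∧ j = 0 then c else 0) x y = ev n G x y + c := by
  unfold ev
  have h1 : ∀ i ∈ range (n + 1), ∑ j ∈ range (n + 1 - i),
      (G i j + if i = 0 ∧ j = 0 then c else 0) * x ^ i * y ^ j =
      ∑ j ∈ range (n + 1 - i), G i j * x ^ i * y ^ j + if i = 0 then c else 0 := by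
    intro i hi
    rw [mem_range] at hi
    have h2 : ∀ j ∈ range (n + 1 - i), (G i j + if i = 0 ∧ j = 0 then c else 0) * x ^ i * y ^ j =
        G i j * x ^ i * y ^ j + if j = 0 then (if i = 0 then c else 0) else 0 := by
      intro j _
      by_cases hj : j = 0
      · by_cases hi0 : i = 0
        · subst hj hi0
          simp
        · simp [hi0]
      · simp [hj]
    rw [sum_congr rfl h2, sum_add_distrib, sum_ite_eq' (range (n + 1 - i)) 0,
      if_pos (mem_range.2 (by omega))]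
  rw [sum_congr rfl h1, sum_add_distrib, sum_ite_eq' (range (n + 1)) 0,
    if_pos (mem_range.2 (by omega))]

private theorem rclr_cand_of {n H : ℕ} (hn : 4 ≤ n) {G : ℕ → ℕ → ℤ} (hG : Bdd n H G)
    (h0 : G 0 0 = 0) (P : ℤ × ℤ) (hP : |ev n G P.1 P.2| ≤ (H : ℤ)) : Cand n H G P := by
  refine ⟨fun i j => G i j + if i = 0 ∧ j = 0 then -ev n G P.1 P.2 else 0, ?_, ?_, ?_⟩
  · intro i j hij
    by_cases h : i = 0 ∧ j = 0
    · obtain ⟨rfl, rfl⟩ := h
      simp only [h0, and_self, if_true, zero_add, abs_neg]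
      exact hP
    · simp only [h, if_false, add_zero]
      exact hG i j hij
  · intro i j hij h4
    have h : ¬ (i = 0 ∧ j = 0) := by omega
    simp only [h, if_false, add_zero]
  · rw [rclr_ev_shift]
    ring

theorem clr_count {n H : ℕ} (hn : 4 ≤ n) (hH : 1 ≤ H) {G : ℕ → ℕ → ℤ} (hG : Bdd n H G)
    (h0 : G 0 0 = 0) {p q : ℤ} {h : ℤ[X]} (hL : Lin n G p q h) (A M X0 Y : ℝ) (hA : 1 ≤ A)
    (hp : |(p : ℝ)| ≤ A) (hM : 1 ≤ M) (hX0 : (8 : ℝ) ^ (4 * n) * M ^ 2 ≤ X0)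
    (hc : 8 ^ n * (2 ^ n * (n + 1) * H) * (800 * (8 ^ (2 * n) * M) ^ 5) * A ^ (n - 1) < X0 ^ 2)
    (hY : 1 ≤ Y) (S : Finset (ℤ × ℤ))
    (hS : ∀ P ∈ S, |ev n G P.1 P.2| ≤ (H : ℤ) ∧ |P.2| ≤ |P.1| ∧ X0 ≤ |(P.1 : ℝ)| ∧
      |(P.1 : ℝ)| ≤ Y ∧ (H : ℝ) / M ≤ dz n G P ∧
      ∀ θ : ℂ, NearB n G (8 ^ (2 * n) * M) θ P → (p : ℂ) * θ ≠ q) :
    (S.card : ℝ) ≤ 8 ^ (16 * n) * (M + M ^ 5 / X0) * (1 + Real.log Y) *
      (H : ℝ) ^ (1 / (n : ℝ)) := by
  classical
  have hM0 : 0 < M := by linarith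
  have hnR : (4 : ℝ) ≤ n := by exact_mod_cast hn
  have h8 : (1 : ℝ) ≤ 8 ^ (4 * n) := one_le_pow₀ (by norm_num)
  have hX01 : 1 ≤ X0 := by
    have h3 : 1 ≤ M ^ 2 := one_le_pow₀ hM
    nlinarith
  have hX00 : 0 < X0 := by linarith
  set L : ℝ := 8 ^ (2 * n) * M with hLdef
  have h82 : (1 : ℝ) ≤ 8 ^ (2 * n) := one_le_pow₀ (by norm_num)
  have hL1 : 1 ≤ L := by rw [hLdef]; nlinarith
  have hL0 : 0 < L := by linarith
  set B : ℝ := L + L ^ 5 / X0 with hB
  have hB1 : 1 ≤ B := by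
    have : 0 ≤ L ^ 5 / X0 := by positivity
    rw [hB]; linarith
  have hB0 : 0 < B := by linarith
  set η : ℝ := 1 / (4000 * B) with hη
  have hη0 : 0 < η := by positivity
  have hη1 : η ≤ 1 := by
    rw [hη, div_le_one (by positivity)]; linarith
  set HR : ℝ := (H : ℝ) ^ (1 / (n : ℝ)) with hHR
  have hH1 : (1 : ℝ) ≤ H := by exact_mod_cast hH
  have hHR1 : 1 ≤ HR := Real.one_le_rpow hH1 (by positivity)
  have hlY : 0 ≤ Real.log Y := Real.log_nonneg hY
  have hhne : h ≠ 0 := by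
    rintro rfl
    exact hL.irr.ne_zero (Polynomial.map_zero _)
  have hlinne : (C q - C p * X : ℤ[X]) ≠ 0 := by
    intro h3
    have h4 := congrArg (fun r : ℤ[X] => r.coeff 0) h3
    have h5 := congrArg (fun r : ℤ[X] => r.coeff 1) h3
    simp at h4
    rw [h4] at h5
    simp at h5
    have h6 := hL.cop
    rw [h4, h5] at h6
    exact not_isCoprime_zero_zero h6
  have hpne : Pool.Agent.H8.NoPt.hp n G ≠ 0 := by
    unfold Pool.Agent.H8.NoPt.hp
    rw [Polynomial.map_ne_zero_iff (Int.castRingHom ℂ).injective_int, hL.eq]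
    exact mul_ne_zero hlinne hhne
  have hLX : 1600 * L ^ 5 ≤ X0 ^ 2 := by
    refine le_trans ?_ hc.le
    have e1 : (2 : ℝ) ≤ 8 ^ n := by
      calc (2 : ℝ) ≤ 8 ^ 1 := by norm_num
        _ ≤ 8 ^ n := pow_le_pow_right₀ (by norm_num) (by omega)
    have e2 : (1 : ℝ) ≤ 2 ^ n := one_le_pow₀ (by norm_num)
    have e3 : (1 : ℝ) ≤ (n : ℝ) + 1 := by linarith
    have e4 : (1 : ℝ) ≤ A ^ (n - 1) := one_le_pow₀ hA
    have e5 : (1 : ℝ) ≤ 2 ^ n * (n + 1) * H := by
      have := one_le_mul_of_one_le_of_one_le (one_le_mul_of_one_le_of_one_le e2 e3) hH1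
      exact this
    calc 1600 * L ^ 5 = 2 * 1 * (800 * L ^ 5) * 1 := by ring
      _ ≤ 8 ^ n * (2 ^ n * (n + 1) * H) * (800 * L ^ 5) * A ^ (n - 1) := by gcongr
  -- the root attached to a point
  have hasym : ∀ P ∈ S, ∃ θ : ℂ, NearB n G L θ P := fun P hPS => by
    obtain ⟨g1, g2, g3, _, g5, _⟩ := hS P hPS
    exact nearB_cand hn hH hM P (rclr_cand_of hn hG h0 P g1) g2 g5 (hX0.trans g3)
  choose! θ hθ using hasym
  have hcard : (((Pool.Agent.H8.NoPt.hp n G).roots.toFinset.card : ℕ) : ℝ) ≤ n := by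
    have : (Pool.Agent.H8.NoPt.hp n G).roots.toFinset.card ≤ n :=
      (Multiset.toFinset_card_le _).trans ((card_roots' _).trans (hp_natDegree_le n G))
    exact_mod_cast this
  have key := class_count n (Pool.Agent.H8.NoPt.hp n G).roots.toFinset hcard η Y (3 * n * HR) hη0 hη1 hY
    (by positivity) S θ (fun P hPS => by
      rw [Multiset.mem_toFinset, mem_roots hpne]
      exact (hθ P hPS).root) (fun P hPS => ⟨hX01.trans (hS P hPS).2.2.1, (hS P hPS).2.2.2.1⟩)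
    (fun U hUS t _ X hX hU1 hU2 => ?_)
  · have e1 : 2 * Real.log Y / η + 1 = 8000 * B * Real.log Y + 1 := by
      rw [hη]
      field_simp
      ring
    rw [e1] at key
    have hBle : B ≤ 8 ^ (10 * n) * (M + M ^ 5 / X0) := by
      have h5 : (8 : ℝ) ^ (2 * n) ≤ 8 ^ (10 * n) := pow_le_pow_right₀ (by norm_num) (by omega)
      have h6 : L ^ 5 = 8 ^ (10 * n) * M ^ 5 := by
        rw [hLdef, mul_pow, ← pow_mul]
        congr 2
        ring
      rw [hB, h6, mul_add, mul_div_assoc]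
      refine add_le_add ?_ le_rfl
      rw [hLdef]
      gcongr
    have h48 : 6 * (n : ℝ) ^ 2 * 8001 ≤ 8 ^ (6 * n) := by
      have : ∀ m : ℕ, 4 ≤ m → 6 * m ^ 2 * 8001 ≤ 8 ^ (6 * m) := by
        intro m hm
        induction m, hm using Nat.le_induction with
        | base => norm_num
        | succ k hk ih =>
          have : 8 ^ (6 * (k + 1)) = 262144 * 8 ^ (6 * k) := by ring
          rw [this]; nlinarith
      exact_mod_cast this n hn
    have hBM0 : 0 ≤ M + M ^ 5 / X0 := by positivity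
    calc (S.card : ℝ) ≤ 2 * n * (3 * n * HR) * (8000 * B * Real.log Y + 1) := key
      _ ≤ 2 * n * (3 * n * HR) * (8001 * B * (1 + Real.log Y)) := by
          have h7 : 8000 * B * Real.log Y + 1 ≤ 8001 * B * (1 + Real.log Y) := by
            nlinarith [mul_nonneg hB0.le hlY]
          gcongr
      _ = (6 * (n : ℝ) ^ 2 * 8001) * B * (1 + Real.log Y) * HR := by ring
      _ ≤ 8 ^ (6 * n) * (8 ^ (10 * n) * (M + M ^ 5 / X0)) * (1 + Real.log Y) * HR := by
          gcongr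
      _ = 8 ^ (16 * n) * (M + M ^ 5 / X0) * (1 + Real.log Y) * HR := by
          rw [← mul_assoc (8 ^ (6 * n) : ℝ), ← pow_add]
          congr 4
          ring_nf
  · by_cases hcU : U.card ≤ 1
    · have : (U.card : ℝ) ≤ 1 := by exact_mod_cast hcU
      nlinarith
    · push Not at hcU
      obtain ⟨P, hPU, P', hP'U, hne⟩ := one_lt_card.mp hcU
      have hw : ∀ Q ∈ U, NearB n G L t Q ∧ X ≤ |(Q.1 : ℝ)| ∧ X0 ≤ |(Q.1 : ℝ)| := by
        intro Q hQ
        have h9 := hθ Q (hUS hQ)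
        rw [(hU1 Q hQ).1] at h9
        exact ⟨h9, (hU1 Q hQ).2.1, (hS Q (hUS hQ)).2.2.1⟩
      have hne1 : P.1 ≠ P'.1 := fun he => hne
        (near_inj hL1 hX00 hLX (hw P hPU).1 (hw P' hP'U).1 (hw P hPU).2.2 (hw P' hP'U).2.2 he)
      have htq : (p : ℂ) * t ≠ q := (hS P (hUS hPU)).2.2.2.2.2 t (hw P hPU).1
      refine line_dir (by omega) G H hH P P' (dir_ne (by omega) hH hG hL hA hp hL1 hX00 hc hLX
        htq (hw P hPU).1 (hw P' hP'U).1 (hw P hPU).2.2 (hw P' hP'U).2.2 hne1) U ?_ ?_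
      · intro R hR
        exact win_class hL1 hX00 hX hη (hw P hPU) (hw P' hP'U) (hw R hR) (hU2 P hPU P' hP'U)
          (hU2 P hPU R hR) (hU2 P' hP'U R hR)
      · intro R hR
        exact (hS R (hUS hR)).1

end Pool.Agent.H15.SC
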