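import Pool.Agent.H15.SC.Defs

/-! # Reducible leading forms: definitions

Forms of degree `k` in `x, y` are given by their dehomogenisation `g ∈ ℤ[X]`, `natDegree g ≤ k`
(coefficient `j` belongs to `x^(k-j) y^j`). -/

namespace Pool.Agent.H15.SC

open Finset Polynomial Pool.Agent.H72.ES Pool.Agent.H8.NoPt Pool.Agent.H8.MP

/-- the leading form is a product of forms of degrees `k` and `n - k` -/
def Fac (n k : ℕ) (F : ℕ → ℕ → ℤ) : Prop :=
  ∃ g h : ℤ[X], g.natDegree ≤ k ∧ h.natDegree ≤ n - k ∧ lead n F = g * h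

/-- the leading form is `(q x - p y) h` with `h` irreducible of degree `n - 1` -/
structure Lin (n : ℕ) (F : ℕ → ℕ → ℤ) (p q : ℤ) (h : ℤ[X]) : Prop where
  cop : IsCoprime p q
  eq : lead n F = (C q - C p * X) * h
  deg : h.natDegree = n - 1
  irr : Irreducible (h.map (Int.castRingHom ℚ))

/-- value at `(u, v)` of the form of degree `d` with dehomogenisation `h` -/
def fv (d : ℕ) (h : ℤ[X]) (u v : ℤ) : ℤ :=
  ∑ j ∈ range (d + 1), h.coeff j * u ^ (d - j) * v ^ j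

/-- `H^(1/(50 n))` -/
noncomputable def A0 (n H : ℕ) : ℝ := (H : ℝ) ^ (1 / (50 * (n : ℝ)))

/-- linear factor of small height, `h(p,q)` not small -/
structure LinS (n H : ℕ) (F : ℕ → ℕ → ℤ) (p q : ℤ) (h : ℤ[X]) : Prop where
  lin : Lin n F p q h
  hp : |(p : ℝ)| ≤ A0 n H
  hq : |(q : ℝ)| ≤ A0 n H
  hv : (H : ℝ) ^ (49 / 50 : ℝ) ≤ |(fv (n - 1) h p q : ℝ)|

/-- the bound for `q x - p y` near the linear factor -/
noncomputable def Dd (n H : ℕ) : ℝ := 2 * 8 ^ n * (H : ℝ) ^ (1 / 25 : ℝ)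

end Pool.Agent.H15.SC
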