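import Pool.Agent.H15.SC.Rdef
import Pool.Agent.H8.NoPt.RedC

/-! # [SC RDICH] Reducible leading forms are of type (R1) or `l h` with `h` irreducible

`f = lead n F ≠ 0`, `natDegree f ≤ n`.
`fac_of_two`: if `f = l h1 h2` with `natDegree l ≤ 1`, `d1 = natDegree h1 ≥ 1`,
`d2 = natDegree h2 ≥ 1`, `d1 + d2 = n - 1 ≥ 3`, then `Fac n k F` with `2 ≤ k ≤ n - 2`: if `d2 ≥ 2`
take `(l h1) h2`, `k = d1 + 1`; otherwise `d1 ≥ 2` and take `h1 (l h2)`, `k = d1`.
(a) `F 0 n = 0`: `natDegree f ≤ n - 1`; if `natDegree f ≤ n - 2`: `Fac n 2 F` with `1 * f`; if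
`natDegree f = n - 1` and `f` is irreducible over `ℚ`: `Lin n F 0 1 f`; otherwise `f = h1 h2` over
`ℤ` with degrees `≥ 1` (`RedC.exists_factor`), `l = 1`.
(b) `F 0 n ≠ 0`: `natDegree f = n`, `f` is reducible over `ℚ`: `f = g1 g2` over `ℤ`, degrees `≥ 1`.
If both degrees are `≥ 2`: `Fac`. Otherwise, say, `g1 = β + α X`, `α ≠ 0`, `c = gcd α β`,
`q = β/c`, `p = -α/c`, `g1 = c (q - p X)`, `h = c g2`, `natDegree h = n - 1`; if `h` is irreducible
over `ℚ`: `Lin n F p q h`; otherwise `h = h1 h2` (`exists_factor`) and `fac_of_two`. -/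

namespace Pool.Agent.H15.SC

open Finset Polynomial Pool.Agent.H72.ES Pool.Agent.H8.NoPt Pool.Agent.H8.MP

private theorem fac_of_two {n : ℕ} (hn : 4 ≤ n) {F : ℕ → ℕ → ℤ} {l h1 h2 : ℤ[X]}
    (hl : l.natDegree ≤ 1) (hd1 : 1 ≤ h1.natDegree) (hd2 : 1 ≤ h2.natDegree)
    (hd : h1.natDegree + h2.natDegree = n - 1) (hf : lead n F = l * (h1 * h2)) :
    ∃ k, 2 ≤ k ∧ k + 2 ≤ n ∧ Fac n k F := by
  by_cases h : 2 ≤ h2.natDegree
  · refine ⟨h1.natDegree + 1, by omega, by omega, l * h1, h2, ?_, by omega, ?_⟩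
    · have := natDegree_mul_le (p := l) (q := h1)
      omega
    · rw [hf, mul_assoc]
  · refine ⟨h1.natDegree, by omega, by omega, h1, l * h2, le_rfl, ?_, ?_⟩
    · have := natDegree_mul_le (p := l) (q := h2)
      omega
    · rw [hf]
      ring

private theorem lin_or_fac {n : ℕ} (hn : 4 ≤ n) {F : ℕ → ℕ → ℤ} {p q : ℤ} {h : ℤ[X]}
    (hc : IsCoprime p q) (hd : h.natDegree = n - 1) (hf : lead n F = (C q - C p * X) * h) :
    (∃ k, 2 ≤ k ∧ k + 2 ≤ n ∧ Fac n k F) ∨ ∃ (p q : ℤ) (h : ℤ[X]), Lin n F p q h := by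
  by_cases hi : Irreducible (h.map (Int.castRingHom ℚ))
  · exact Or.inr ⟨p, q, h, hc, hf, hd, hi⟩
  · left
    obtain ⟨h1, h2, h12, hd1, hd2⟩ := RedC.exists_factor (n := n - 1) (by omega) hd hi
    have hh1 : h1 ≠ 0 := by
      rintro rfl
      simp at hd1
    have hh2 : h2 ≠ 0 := by
      rintro rfl
      simp at hd2
    refine fac_of_two hn (l := C q - C p * X) (h1 := h1) (h2 := h2) ?_ hd1 hd2 ?_ ?_
    · refine (natDegree_sub_le _ _).trans (max_le ?_ ?_)
      · rw [natDegree_C]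
        exact Nat.zero_le _
      · exact (natDegree_C_mul_le _ _).trans natDegree_X_le
    · rw [← natDegree_mul hh1 hh2, ← h12, hd]
    · rw [hf, h12]

private theorem lin_factor {n : ℕ} (hn : 4 ≤ n) {F : ℕ → ℕ → ℤ} {g1 g2 : ℤ[X]}
    (h1 : g1.natDegree = 1) (h2 : g2.natDegree = n - 1) (hf : lead n F = g1 * g2) :
    (∃ k, 2 ≤ k ∧ k + 2 ≤ n ∧ Fac n k F) ∨ ∃ (p q : ℤ) (h : ℤ[X]), Lin n F p q h := by
  have e1 : g1 = C (g1.coeff 1) * X + C (g1.coeff 0) := by
    refine eq_X_add_C_of_natDegree_le_one ?_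
    omega
  have hα : g1.coeff 1 ≠ 0 := by
    have h3 : g1 ≠ 0 := by
      rintro rfl
      simp at h1
    have h4 := leadingCoeff_ne_zero.2 h3
    rwa [leadingCoeff, h1] at h4
  obtain ⟨c, hc⟩ : ∃ c : ℤ, c = (Int.gcd (g1.coeff 1) (g1.coeff 0) : ℤ) := ⟨_, rfl⟩
  have hg0 : 0 < Int.gcd (g1.coeff 1) (g1.coeff 0) := Int.gcd_pos_of_ne_zero_left _ hα
  obtain ⟨g, α', β', hgpos, hco, hα', hβ'⟩ := Int.exists_gcd_one' hg0
  have hg0' : (g : ℤ) ≠ 0 := by
    have : g ≠ 0 := by omega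
    exact_mod_cast this
  refine lin_or_fac hn (p := -α') (q := β') (h := C (g : ℤ) * g2) ?_ ?_ ?_
  · rw [IsCoprime.neg_left_iff]
    exact Int.isCoprime_iff_gcd_eq_one.2 hco
  · rw [natDegree_C_mul hg0', h2]
  · rw [hf]
    conv_lhs => rw [e1]
    rw [hα', hβ', C_mul, C_mul, C_neg]
    ring

theorem dich {n : ℕ} (hn : 4 ≤ n) (F : ℕ → ℕ → ℤ) (h0 : lead n F ≠ 0)
    (hI : ¬ LeadIrr n F) : (∃ k, 2 ≤ k ∧ k + 2 ≤ n ∧ Fac n k F) ∨
      ∃ (p q : ℤ) (h : ℤ[X]), Lin n F p q h := by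
  have hdeg : (lead n F).natDegree ≤ n := by
    unfold lead
    refine natDegree_sum_le_of_forall_le _ _ fun j hj => ?_
    refine (natDegree_C_mul_X_pow_le _ _).trans ?_
    have := Finset.mem_range.1 hj
    omega
  have hcoeff : (lead n F).coeff n = F 0 n := by
    unfold lead
    rw [finsetSum_coeff]
    simp only [coeff_C_mul_X_pow]
    rw [Finset.sum_ite_eq]
    simp
  by_cases hF : F 0 n = 0
  · have hdeg' : (lead n F).natDegree ≤ n - 1 := by
      by_contra hcon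
      have h1 : (lead n F).natDegree = n := by omega
      have h2 := leadingCoeff_ne_zero.2 h0
      rw [leadingCoeff, h1, hcoeff] at h2
      exact h2 hF
    by_cases h2 : (lead n F).natDegree ≤ n - 2
    · left
      exact ⟨2, le_rfl, by omega, 1, lead n F, by simp, h2, by rw [one_mul]⟩
    · refine lin_or_fac hn (p := 0) (q := 1) (h := lead n F) (isCoprime_one_right)
        (by omega) ?_
      rw [C_0, C_1, zero_mul, sub_zero, one_mul]
  · have hdeg' : (lead n F).natDegree = n := by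
      refine le_antisymm hdeg ?_
      refine le_natDegree_of_ne_zero ?_
      rw [hcoeff]
      exact hF
    have hI' : ¬ Irreducible ((lead n F).map (Int.castRingHom ℚ)) := fun h => hI ⟨hF, h⟩
    obtain ⟨g1, g2, h12, hd1, hd2⟩ := RedC.exists_factor (n := n) (by omega) hdeg' hI'
    have hg1 : g1 ≠ 0 := by
      rintro rfl
      simp at hd1
    have hg2 : g2 ≠ 0 := by
      rintro rfl
      simp at hd2
    have hsum : g1.natDegree + g2.natDegree = n := by
      rw [← natDegree_mul hg1 hg2, ← h12, hdeg']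
    by_cases hc1 : g1.natDegree = 1
    · exact lin_factor hn hc1 (by omega) h12
    · by_cases hc2 : g2.natDegree = 1
      · exact lin_factor hn (g1 := g2) (g2 := g1) hc2 (by omega) (by rw [h12, mul_comm])
      · left
        exact ⟨g1.natDegree, by omega, by omega, g1, g2, le_rfl, by omega, h12⟩

end Pool.Agent.H15.SC
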