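import Pool.Agent.H15.SC.Rfv
import Pool.Agent.H72.ES.Line

/-! # [SC RDIR] Directions near a root of `h` (R5)

`dir_ne`: `a = x' - x ≠ 0`, `b = y' - y`. As in `spacing`: `‖b/a - θ‖ ≤ 800 L⁵/X²` (`≤ 1/2`).
`fv_lin`: the form at `(a,b)` is `(q a - p b) fv (n-1) h a b`, the second factor is not zero
(`fv_ne`). If `q a = p b` then `p ≠ 0` (`gcd (p,q) = 1`, `a ≠ 0`) and `b/a = q/p`,
`fv (n-1) h p q ≠ 0` is an integer, so `‖h(q/p)‖ ≥ 1/|p|^(n-1) ≥ 1/A^(n-1)` (`fv_hom`), while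
`h(θ) = 0` (`hp_fac`, `p θ ≠ q`), so `‖h(q/p)‖ ≤ 8^n (2^n (n+1) H) 800 L⁵/X²` (`h_lip`):
contradiction to `hc`.
`line_dir`: `line_bound_points` for one direction: copy its proof; `F_n(P' - P) = g^n F_n(u)`,
`g` the gcd, and apply `line_bound`. -/

namespace Pool.Agent.H15.SC

open Finset Polynomial Pool.Agent.H72.ES Pool.Agent.H8.NoPt Pool.Agent.H8.MP

/-- the remainder at a point -/
private theorem rd_rem {n : ℕ} {F : ℕ → ℕ → ℤ} {L X : ℝ} (hL : 1 ≤ L) (hX : 0 < X) {θ : ℂ}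
    {P : ℤ × ℤ} (h : NearB n F L θ P) (hx : X ≤ |(P.1 : ℝ)|) :
    ‖(P.2 : ℂ) - θ * P.1 - be n F θ - Pool.Agent.H8.MP.ga n F θ / P.1‖ ≤ 263 * L ^ 5 / X ^ 2 := by
  refine h.e2.trans ?_
  have h1 : (0 : ℝ) ≤ 263 * L ^ 5 := by positivity
  exact div_le_div_of_nonneg_left h1 (by positivity) (pow_le_pow_left₀ hX.le hx 2)

/-- the direction of the difference is close to the slope of the branch -/
private theorem rd_dir {n : ℕ} {F : ℕ → ℕ → ℤ} {L X : ℝ} (hL : 1 ≤ L) (hX : 0 < X)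
    {θ : ℂ} {P P' : ℤ × ℤ} (h : NearB n F L θ P) (h' : NearB n F L θ P')
    (hx : X ≤ |(P.1 : ℝ)|) (hx' : X ≤ |(P'.1 : ℝ)|) (hne : P.1 ≠ P'.1) :
    ‖((P.2 - P'.2 : ℤ) : ℂ) / ((P.1 - P'.1 : ℤ) : ℂ) - θ‖ ≤ 800 * L ^ 5 / X ^ 2 := by
  obtain ⟨x, y⟩ := P
  obtain ⟨x', y'⟩ := P'
  simp only at hx hx' hne
  have hr := rd_rem hL hX h hx
  have hr' := rd_rem hL hX h' hx'
  simp only at hr hr'
  show ‖((y - y' : ℤ) : ℂ) / ((x - x' : ℤ) : ℂ) - θ‖ ≤ 800 * L ^ 5 / X ^ 2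
  have hXX : 0 < X ^ 2 := by positivity
  have hx0 : (x : ℝ) ≠ 0 := by
    intro h0
    rw [h0, abs_zero] at hx
    linarith
  have hx0' : (x' : ℝ) ≠ 0 := by
    intro h0
    rw [h0, abs_zero] at hx'
    linarith
  have hc : (x : ℂ) ≠ 0 := by exact_mod_cast hx0
  have hc' : (x' : ℂ) ≠ 0 := by exact_mod_cast hx0'
  have ha : x - x' ≠ 0 := sub_ne_zero.2 hne
  have ha1 : (1 : ℝ) ≤ |((x - x' : ℤ) : ℝ)| := by exact_mod_cast Int.one_le_abs ha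
  have hac : ((x - x' : ℤ) : ℂ) ≠ 0 := by exact_mod_cast ha
  have hL35 : L ^ 3 ≤ L ^ 5 := pow_le_pow_right₀ hL (by norm_num)
  -- the term with `ga`
  have hga : ‖Pool.Agent.H8.MP.ga n F θ / x - Pool.Agent.H8.MP.ga n F θ / x'‖ ≤
      274 * L ^ 3 * |((x - x' : ℤ) : ℝ)| / X ^ 2 := by
    have h1 : Pool.Agent.H8.MP.ga n F θ / x - Pool.Agent.H8.MP.ga n F θ / x' =
        Pool.Agent.H8.MP.ga n F θ * (-((x - x' : ℤ) : ℂ)) / ((x : ℂ) * x') := by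
      push_cast
      field_simp
      ring
    rw [h1, norm_div, norm_mul, norm_mul, norm_neg, Complex.norm_intCast, Complex.norm_intCast,
      Complex.norm_intCast]
    have h2 : X ^ 2 ≤ |(x : ℝ)| * |(x' : ℝ)| := by
      rw [sq]
      exact mul_le_mul hx hx' hX.le (abs_nonneg _)
    exact div_le_div₀ (by positivity) (mul_le_mul_of_nonneg_right h.ga (abs_nonneg _)) hXX h2
  have hdiff : ‖((y - y' : ℤ) : ℂ) - θ * ((x - x' : ℤ) : ℂ)‖ ≤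
      800 * L ^ 5 * |((x - x' : ℤ) : ℝ)| / X ^ 2 := by
    have h1 : ((y - y' : ℤ) : ℂ) - θ * ((x - x' : ℤ) : ℂ) =
        ((y : ℂ) - θ * x - be n F θ - Pool.Agent.H8.MP.ga n F θ / x) -
        ((y' : ℂ) - θ * x' - be n F θ - Pool.Agent.H8.MP.ga n F θ / x') +
        (Pool.Agent.H8.MP.ga n F θ / x - Pool.Agent.H8.MP.ga n F θ / x') := by
      push_cast
      ring
    rw [h1]
    refine (norm_add_le _ _).trans ((add_le_add (norm_sub_le _ _) le_rfl).trans ?_)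
    refine (add_le_add (add_le_add hr hr') hga).trans ?_
    rw [← add_div, ← add_div]
    refine div_le_div_of_nonneg_right ?_ hXX.le
    have h2 : 274 * L ^ 3 * |((x - x' : ℤ) : ℝ)| ≤ 274 * L ^ 5 * |((x - x' : ℤ) : ℝ)| := by
      gcongr
    nlinarith [mul_le_mul_of_nonneg_left ha1 (by positivity : (0 : ℝ) ≤ L ^ 5)]
  have h1 : ((y - y' : ℤ) : ℂ) / ((x - x' : ℤ) : ℂ) - θ =
      (((y - y' : ℤ) : ℂ) - θ * ((x - x' : ℤ) : ℂ)) / ((x - x' : ℤ) : ℂ) := by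
    field_simp
  rw [h1, norm_div, Complex.norm_intCast, div_le_iff₀ (by linarith)]
  refine hdiff.trans (le_of_eq ?_)
  ring

theorem dir_ne {n H : ℕ} (hn : 3 ≤ n) (hH : 1 ≤ H) {F : ℕ → ℕ → ℤ} (hF : Bdd n H F)
    {p q : ℤ} {h : ℤ[X]} (hL : Lin n F p q h) {A L X : ℝ} (hA : 1 ≤ A) (hp : |(p : ℝ)| ≤ A)
    (hL1 : 1 ≤ L) (hX : 0 < X)
    (hc : 8 ^ n * (2 ^ n * (n + 1) * H) * (800 * L ^ 5) * A ^ (n - 1) < X ^ 2)
    (hLX : 1600 * L ^ 5 ≤ X ^ 2) {θ : ℂ} (hθ : (p : ℂ) * θ ≠ q) {P P' : ℤ × ℤ}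
    (h1 : NearB n F L θ P) (h2 : NearB n F L θ P') (hx : X ≤ |(P.1 : ℝ)|)
    (hx' : X ≤ |(P'.1 : ℝ)|) (hne : P.1 ≠ P'.1) :
    ∑ j ∈ range (n + 1), F (n - j) j * (P'.1 - P.1) ^ (n - j) * (P'.2 - P.2) ^ j ≠ 0 := by
  have _ := hH
  have _ := hA
  have hdir := rd_dir hL1 hX h2 h1 hx' hx (Ne.symm hne)
  obtain ⟨a, ha⟩ : ∃ a : ℤ, a = P'.1 - P.1 := ⟨_, rfl⟩
  obtain ⟨b, hb⟩ : ∃ b : ℤ, b = P'.2 - P.2 := ⟨_, rfl⟩
  rw [← ha, ← hb] at hdir ⊢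
  have ha0 : a ≠ 0 := by
    rw [ha]
    exact sub_ne_zero.2 (Ne.symm hne)
  rw [fv_lin (by omega) hL a b]
  refine mul_ne_zero ?_ (fv_ne hn hL a b (Or.inl ha0))
  intro hqp
  have hqp' : q * a = p * b := sub_eq_zero.1 hqp
  have hp0 : p ≠ 0 := by
    rintro rfl
    rw [zero_mul] at hqp'
    rcases mul_eq_zero.1 hqp' with h3 | h3
    · obtain ⟨u, v, huv⟩ := hL.cop
      rw [h3] at huv
      simp at huv
    · exact ha0 h3
  have hpc : (p : ℂ) ≠ 0 := by exact_mod_cast hp0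
  have hac : (a : ℂ) ≠ 0 := by exact_mod_cast ha0
  have hba : (b : ℂ) / a = (q : ℂ) / p := by
    rw [div_eq_div_iff hac hpc]
    have h3 : ((q * a : ℤ) : ℂ) = ((p * b : ℤ) : ℂ) := by rw [hqp']
    push_cast at h3
    linear_combination -h3
  rw [hba] at hdir
  have hXX : 0 < X ^ 2 := by positivity
  have hhalf : 800 * L ^ 5 / X ^ 2 ≤ 1 / 2 := by
    rw [div_le_iff₀ hXX]
    linarith
  have hu : ‖(q : ℂ) / p‖ ≤ 2 := by
    have h3 : ‖(q : ℂ) / p‖ ≤ ‖(q : ℂ) / p - θ‖ + ‖θ‖ := by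
      have h4 := norm_add_le ((q : ℂ) / p - θ) θ
      rwa [sub_add_cancel] at h4
    linarith [h1.th]
  have hlip := h_lip (by omega) hF hL ((q : ℂ) / p) θ hu (by linarith [h1.th])
  have hroot : (h.map (Int.castRingHom ℂ)).eval θ = 0 := by
    have h3 := hp_fac hL θ
    rw [show (Pool.Agent.H8.NoPt.hp n F).eval θ = 0 from h1.root] at h3
    rcases mul_eq_zero.1 h3.symm with h4 | h4
    · exact absurd (sub_eq_zero.1 h4).symm hθ
    · exact h4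
  rw [hroot, sub_zero] at hlip
  have hfv := fv_hom (d := n - 1) hL.deg.le p q hp0
  have hone : (1 : ℝ) ≤ ‖(fv (n - 1) h p q : ℂ)‖ := by
    rw [Complex.norm_intCast]
    exact_mod_cast Int.one_le_abs (fv_ne hn hL p q (Or.inl hp0))
  rw [hfv, norm_mul, norm_pow, Complex.norm_intCast] at hone
  obtain ⟨B, hB⟩ : ∃ B : ℝ, B = 8 ^ n * (2 ^ n * (n + 1) * H) := ⟨_, rfl⟩
  have hB0 : 0 ≤ B := by
    rw [hB]
    positivity
  rw [← hB] at hlip hc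
  have h5 : ‖(h.map (Int.castRingHom ℂ)).eval ((q : ℂ) / p)‖ ≤ B * (800 * L ^ 5 / X ^ 2) :=
    hlip.trans (mul_le_mul_of_nonneg_left hdir hB0)
  have h6 : |(p : ℝ)| ^ (n - 1) ≤ A ^ (n - 1) := pow_le_pow_left₀ (abs_nonneg _) hp _
  have h7 : (1 : ℝ) ≤ A ^ (n - 1) * (B * (800 * L ^ 5 / X ^ 2)) :=
    hone.trans (mul_le_mul h6 h5 (norm_nonneg _) (by positivity))
  have h8 : A ^ (n - 1) * (B * (800 * L ^ 5 / X ^ 2)) =
      (B * (800 * L ^ 5) * A ^ (n - 1)) / X ^ 2 := by ring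
  rw [h8, le_div_iff₀ hXX, one_mul] at h7
  linarith

theorem line_dir {n : ℕ} (hn : 1 ≤ n) (G : ℕ → ℕ → ℤ) (H : ℕ) (hH : 1 ≤ H)
    (P P' : ℤ × ℤ)
    (hlead : ∑ j ∈ range (n + 1), G (n - j) j * (P'.1 - P.1) ^ (n - j) *
      (P'.2 - P.2) ^ j ≠ 0) (S : Finset (ℤ × ℤ))
    (hcol : ∀ R ∈ S, (P'.1 - P.1) * (R.2 - P.2) = (R.1 - P.1) * (P'.2 - P.2))
    (hS : ∀ R ∈ S, |ev n G R.1 R.2| ≤ (H : ℤ)) :
    (S.card : ℝ) ≤ 3 * n * (H : ℝ) ^ (1 / (n : ℝ)) := by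
  classical
  set a := P'.1 - P.1 with ha
  set b := P'.2 - P.2 with hb
  have hab : a ≠ 0 ∨ b ≠ 0 := by
    by_contra hcon
    push Not at hcon
    apply hlead
    refine Finset.sum_eq_zero fun j _ => ?_
    rw [hcon.1, hcon.2]
    rcases Nat.eq_zero_or_pos j with hj | hj
    · rw [hj, Nat.sub_zero, zero_pow (by omega), mul_zero, zero_mul]
    · rw [zero_pow (by omega : j ≠ 0), mul_zero]
  have hg : 0 < Int.gcd a b := by
    rw [Nat.pos_iff_ne_zero]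
    intro h
    rw [Int.gcd_eq_zero_iff] at h
    omega
  obtain ⟨g, hgdef⟩ : ∃ g : ℕ, g = Int.gcd a b := ⟨_, rfl⟩
  obtain ⟨u1, hu1⟩ := Int.gcd_dvd_left (a := a) (b := b)
  obtain ⟨u2, hu2⟩ := Int.gcd_dvd_right (a := a) (b := b)
  have hcop : IsCoprime u1 u2 := by
    rw [Int.isCoprime_iff_gcd_eq_one]
    rw [← hgdef] at hu1 hu2
    have h1 : Int.gcd a b = g * Int.gcd u1 u2 := by
      rw [hu1, hu2, Int.gcd_mul_left, Int.natAbs_natCast]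
    have h2 : g * 1 = g * Int.gcd u1 u2 := by rw [mul_one, ← h1]; exact hgdef
    rw [← hgdef] at hg
    exact (Nat.eq_of_mul_eq_mul_left hg h2).symm
  have hu : u1 ≠ 0 ∨ u2 ≠ 0 := by
    rcases hab with h | h
    · left; rintro rfl; apply h; rw [hu1]; simp
    · right; rintro rfl; apply h; rw [hu2]; simp
  have hgz : ((Int.gcd a b : ℕ) : ℤ) ≠ 0 := by exact_mod_cast hg.ne'
  have hleadu : ∑ j ∈ range (n + 1), G (n - j) j * u1 ^ (n - j) * u2 ^ j ≠ 0 := by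
    intro h0
    apply hlead
    obtain ⟨d, hd⟩ : ∃ d : ℤ, d = ((Int.gcd a b : ℕ) : ℤ) := ⟨_, rfl⟩
    rw [← hd] at hu1 hu2
    have h1 : ∑ j ∈ range (n + 1), G (n - j) j * a ^ (n - j) * b ^ j =
        d ^ n * ∑ j ∈ range (n + 1), G (n - j) j * u1 ^ (n - j) * u2 ^ j := by
      rw [Finset.mul_sum]
      refine Finset.sum_congr rfl fun j hj => ?_
      have hj' := Finset.mem_range.1 hj
      have h2 : d ^ n = d ^ (n - j) * d ^ j := by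
        rw [← pow_add]
        congr 1
        omega
      rw [h2, hu1, hu2, mul_pow, mul_pow]
      ring
    rw [h1, h0, mul_zero]
  have hpar : ∀ R ∈ S, ∃ s : ℤ, R.1 = P.1 + s * u1 ∧ R.2 = P.2 + s * u2 := by
    intro R hR
    have h1 := hcol R hR
    rw [← hgdef] at hu1 hu2 hgz
    rw [hu1, hu2] at h1
    have h2 : u1 * (R.2 - P.2) = (R.1 - P.1) * u2 := by
      apply mul_left_cancel₀ hgz
      linarith
    rcases hu with h | h
    · obtain ⟨s, hs⟩ : u1 ∣ R.1 - P.1 := hcop.dvd_of_dvd_mul_right (Dvd.intro _ h2)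
      refine ⟨s, by linarith, ?_⟩
      have h3 : R.2 - P.2 = s * u2 := by
        apply mul_left_cancel₀ h
        rw [h2, hs]; ring
      linarith
    · obtain ⟨s, hs⟩ : u2 ∣ R.2 - P.2 := hcop.symm.dvd_of_dvd_mul_left (Dvd.intro_left _ h2.symm)
      refine ⟨s, ?_, by linarith⟩
      have h3 : R.1 - P.1 = s * u1 := by
        apply mul_right_cancel₀ h
        rw [← h2, hs]; ring
      linarith
  choose! φ hφ1 hφ2 using hpar
  have hinj : Set.InjOn φ (S : Set (ℤ × ℤ)) := by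
    intro R hR R' hR' h
    exact Prod.ext (by rw [hφ1 R hR, hφ1 R' hR', h]) (by rw [hφ2 R hR, hφ2 R' hR', h])
  have hcard := card_image_of_injOn hinj
  rw [← hcard]
  refine line_bound hn G P.1 P.2 u1 u2 hleadu H hH _ ?_
  intro s hs
  obtain ⟨R, hR, rfl⟩ := mem_image.mp hs
  rw [← hφ1 R hR, ← hφ2 R hR]
  exact hS R hR

end Pool.Agent.H15.SC
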