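import Pool.Agent.H8.NoPt.RedC

/-! # [SC RFAC] Counting products of two forms (R1), (R2)

`T0 = ⌊2^n (n+1) H⌋`. `p = g h ≠ 0`: with `B = max |g_i| ≥ 1`, `gelfond` (`NoPt.Gelf`) gives
`B |h_j| ≤ T0` (all `j`), so `B ≤ T0` and `|h_j| ≤ T0/B`. For given `B` at most
`(k+1) 2 (2B+1)^k` polynomials `g` with `natDegree ≤ k`, `max = B` and at most
`(2T0/B + 1)^(n-k+1) ≤ (3T0/B)^(n-k+1)` polynomials `h` (`RedC.card_Gs`, `RedC.card_Hs`). Product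
`≤ C B^k (T0/B)^(n-k+1) = C T0^(n-k+1)/B^(n+1-2k)`; sum over `B ≥ A`.
`fac2_count`: for every `2 ≤ k ≤ n-2`; exchange `g, h` so that `2k ≤ n`; `n - k + 1 ≤ n - 1`,
`∑_{B ≤ C H} 1/B ≤ 1 + log (C H)`.
`fac1_count`: `k = 1`: `∑_{B ≥ A} 1/B^(n-1) ≤ 2/A^(n-2)` (`n ≥ 3`). -/

namespace Pool.Agent.H15.SC

open Finset Polynomial Pool.Agent.H8.NoPt

open RedC

/-- the products -/
private theorem fac_cov {n k H : ℕ} (hk : 1 ≤ k) (hkn : 2 * k ≤ n) {A : ℕ}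
    {p : ℤ[X]} (hp0 : p ≠ 0) (hd : p.natDegree ≤ n) (hH : ∀ i, |p.coeff i| ≤ (H : ℤ)) {g h : ℤ[X]}
    (hg : g.natDegree ≤ k) (hh : h.natDegree ≤ n - k) (hgh : p = g * h)
    (hA : ∃ i, (A : ℤ) ≤ |g.coeff i|) :
    ∃ B, A ≤ B ∧ 1 ≤ B ∧ B ≤ 2 ^ n * (n + 1) * H ∧ g ∈ Gs k B ∧
      h ∈ Hs (n - k) (2 ^ n * (n + 1) * H / B) := by
  have hgh0 : g * h ≠ 0 := by rw [← hgh]; exact hp0
  have hg0 : g ≠ 0 := left_ne_zero_of_mul hgh0
  have hh0 : h ≠ 0 := right_ne_zero_of_mul hgh0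
  have hB1 := hgt_pos hg hg0
  have hB2 := hgt_pos hh hh0
  obtain ⟨i, hi⟩ := hgt_att k g
  have key : ∀ j, hgt k g * (h.coeff j).natAbs ≤ 2 ^ n * (n + 1) * H := by
    intro j
    have h1 := gelfond n g h hgh0 (by rw [← hgh]; exact hd) H (fun k => by
      rw [← hgh]
      have := hH k
      have h2 : (|p.coeff k| : ℝ) ≤ H := by exact_mod_cast this
      exact h2) i j
    rw [← hi]
    have e1 : (((g.coeff i).natAbs : ℕ) : ℝ) = |(g.coeff i : ℝ)| := by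
      rw [Nat.cast_natAbs, Int.cast_abs]
    have e2 : (((h.coeff j).natAbs : ℕ) : ℝ) = |(h.coeff j : ℝ)| := by
      rw [Nat.cast_natAbs, Int.cast_abs]
    rw [← e1, ← e2] at h1
    exact_mod_cast h1
  refine ⟨hgt k g, ?_, hB1, ?_, ?_, ?_⟩
  · obtain ⟨i', hi'⟩ := hA
    have h1 := hgt_le hg i'
    rw [Int.abs_eq_natAbs] at hi'
    have h2 : A ≤ (g.coeff i').natAbs := by exact_mod_cast hi'
    exact h2.trans h1
  · obtain ⟨j, hj⟩ := hgt_att (n - k) h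
    have h1 := key j
    rw [hj] at h1
    exact (Nat.le_mul_of_pos_right _ (by omega)).trans h1
  · refine mem_Gs hg (fun i => hgt_le hg i) (i0 := i) ?_ hi
    by_contra hlt
    rw [coeff_eq_zero_of_natDegree_lt (by omega)] at hi
    simp at hi
    omega
  · refine mem_Hs hh fun j => ?_
    rw [Nat.le_div_iff_mul_le (by omega), mul_comm]
    exact key j

theorem fac_count (n k : ℕ) (hk : 1 ≤ k) (hkn : 2 * k ≤ n) : ∃ C : ℕ, 0 < C ∧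
    ∀ H : ℕ, 1 ≤ H → ∀ A : ℕ, 1 ≤ A → ∀ T : Finset ℤ[X],
    (∀ p ∈ T, p ≠ 0 ∧ p.natDegree ≤ n ∧ (∀ i, |p.coeff i| ≤ (H : ℤ)) ∧
      ∃ g h : ℤ[X], g.natDegree ≤ k ∧ h.natDegree ≤ n - k ∧ p = g * h ∧
        ∃ i, (A : ℤ) ≤ |g.coeff i|) →
    (T.card : ℝ) ≤ C * (H : ℝ) ^ (n - k + 1) *
      ∑ B ∈ Icc A (C * H), 1 / (B : ℝ) ^ (n + 1 - 2 * k) := by
  classical
  obtain ⟨c0, hc0⟩ : ∃ c0 : ℕ, c0 = 2 ^ n * (n + 1) := ⟨_, rfl⟩
  have hc0' : 0 < c0 := by rw [hc0]; positivity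
  refine ⟨2 * (k + 1) * 3 ^ (n + 1) * c0 ^ (n - k + 1), by positivity, fun H hH A hA T hT => ?_⟩
  have hsub : T ⊆ (Icc A (c0 * H)).biUnion fun B =>
      Finset.image₂ (fun g h => g * h) (Gs k B) (Hs (n - k) (c0 * H / B)) := by
    intro p hp
    obtain ⟨hp0, hd, hb, g, h, hg, hh, hgh, hi⟩ := hT p hp
    obtain ⟨B, hB1, hB2, hB3, hB4, hB5⟩ := fac_cov hk hkn hp0 hd hb hg hh hgh hi
    rw [← hc0] at hB3 hB5
    rw [mem_biUnion]
    exact ⟨B, mem_Icc.2 ⟨hB1, hB3⟩, mem_image₂.2 ⟨g, hB4, h, hB5, hgh.symm⟩⟩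
  have h1 := (card_le_card hsub).trans (card_biUnion_le.trans (sum_le_sum fun B _ =>
    (card_image₂_le _ _ _).trans (Nat.mul_le_mul (card_Gs k B) (card_Hs (n - k) (c0 * H / B)))))
  have h2 : (T.card : ℝ) ≤ ∑ B ∈ Icc A (c0 * H), (((k : ℝ) + 1) * (2 * (2 * B + 1) ^ k) *
      (2 * ((c0 * H / B : ℕ) : ℝ) + 1) ^ (n - k + 1)) := by
    exact_mod_cast h1
  have h3 : ∀ B ∈ Icc A (c0 * H), (((k : ℝ) + 1) * (2 * (2 * B + 1) ^ k) *
      (2 * ((c0 * H / B : ℕ) : ℝ) + 1) ^ (n - k + 1)) ≤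
      (2 * (k + 1) * 3 ^ (n + 1) * c0 ^ (n - k + 1) * (H : ℝ) ^ (n - k + 1)) *
        (1 / (B : ℝ) ^ (n + 1 - 2 * k)) := by
    intro B hB
    rw [mem_Icc] at hB
    have hB1 : (1 : ℝ) ≤ B := by exact_mod_cast hA.trans hB.1
    have hB0 : (0 : ℝ) < B := by linarith
    have hBT : (B : ℝ) ≤ c0 * H := by exact_mod_cast hB.2
    have h4 : ((c0 * H / B : ℕ) : ℝ) ≤ c0 * H / B := by
      have := @Nat.cast_div_le ℝ _ _ _ (c0 * H) B
      push_cast at this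
      exact this
    have h5 : 1 ≤ (c0 : ℝ) * H / B := by
      rw [le_div_iff₀ hB0]
      linarith
    have e1 : (2 * (B : ℝ) + 1) ^ k ≤ 3 ^ k * (B : ℝ) ^ k := by
      rw [← mul_pow]
      exact pow_le_pow_left₀ (by positivity) (by linarith) k
    have e2 : (2 * (((c0 * H / B : ℕ) : ℝ)) + 1) ^ (n - k + 1) ≤
        3 ^ (n - k + 1) * ((c0 : ℝ) * H / B) ^ (n - k + 1) := by
      rw [← mul_pow]
      exact pow_le_pow_left₀ (by positivity) (by linarith) _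
    have e3 : (3 : ℝ) ^ k * 3 ^ (n - k + 1) = 3 ^ (n + 1) := by
      rw [← pow_add]
      congr 1
      omega
    have e4 : (B : ℝ) ^ k * ((c0 : ℝ) * H / B) ^ (n - k + 1) =
        c0 ^ (n - k + 1) * (H : ℝ) ^ (n - k + 1) * (1 / (B : ℝ) ^ (n + 1 - 2 * k)) := by
      have e5 : (B : ℝ) ^ (n - k + 1) = (B : ℝ) ^ k * (B : ℝ) ^ (n + 1 - 2 * k) := by
        rw [← pow_add]
        congr 1
        omega
      rw [div_pow, mul_pow, e5]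
      field_simp
    calc ((k : ℝ) + 1) * (2 * (2 * B + 1) ^ k) * (2 * ((c0 * H / B : ℕ) : ℝ) + 1) ^ (n - k + 1) ≤
        ((k : ℝ) + 1) * (2 * (3 ^ k * (B : ℝ) ^ k)) *
          (3 ^ (n - k + 1) * ((c0 : ℝ) * H / B) ^ (n - k + 1)) := by gcongr
      _ = 2 * (k + 1) * (3 ^ k * 3 ^ (n - k + 1)) *
          ((B : ℝ) ^ k * ((c0 : ℝ) * H / B) ^ (n - k + 1)) := by ring
      _ = _ := by
        rw [e3, e4]
        ring
  refine (h2.trans (sum_le_sum h3)).trans ?_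
  rw [← mul_sum]
  push_cast
  refine mul_le_mul_of_nonneg_left ?_ (by positivity)
  refine sum_le_sum_of_subset_of_nonneg (Icc_subset_Icc le_rfl ?_) fun _ _ _ => by positivity
  refine Nat.mul_le_mul_right _ ?_
  calc c0 = 1 * c0 ^ 1 := by rw [one_mul, pow_one]
    _ ≤ 2 * (k + 1) * 3 ^ (n + 1) * c0 ^ (n - k + 1) := by
      refine Nat.mul_le_mul ?_ (Nat.pow_le_pow_right hc0' (by omega))
      have : 0 < 2 * (k + 1) * 3 ^ (n + 1) := by positivity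
      omega

private theorem sum_inv_le (N : ℕ) : ∑ B ∈ Icc 1 N, 1 / (B : ℝ) ≤ 1 + Real.log N := by
  have h1 := harmonic_le_one_add_log N
  rw [harmonic_eq_sum_Icc] at h1
  push_cast at h1
  refine le_trans (le_of_eq ?_) h1
  exact sum_congr rfl fun B _ => one_div _

theorem fac2_count (n : ℕ) (hn : 4 ≤ n) : ∃ C : ℝ, 0 < C ∧ ∀ H : ℕ, 1 ≤ H →
    ∀ T : Finset ℤ[X],
    (∀ p ∈ T, p ≠ 0 ∧ p.natDegree ≤ n ∧ (∀ i, |p.coeff i| ≤ (H : ℤ)) ∧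
      ∃ (k : ℕ) (g h : ℤ[X]), 2 ≤ k ∧ k + 2 ≤ n ∧ g.natDegree ≤ k ∧ h.natDegree ≤ n - k ∧
        p = g * h) →
    (T.card : ℝ) ≤ C * (H : ℝ) ^ (n - 1) * (1 + Real.log H) := by
  classical
  have h0 : ∀ k, ∃ C : ℕ, 0 < C ∧ (2 ≤ k → 2 * k ≤ n → ∀ H : ℕ, 1 ≤ H → ∀ A : ℕ, 1 ≤ A →
    ∀ T : Finset ℤ[X],
    (∀ p ∈ T, p ≠ 0 ∧ p.natDegree ≤ n ∧ (∀ i, |p.coeff i| ≤ (H : ℤ)) ∧
      ∃ g h : ℤ[X], g.natDegree ≤ k ∧ h.natDegree ≤ n - k ∧ p = g * h ∧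
        ∃ i, (A : ℤ) ≤ |g.coeff i|) →
    (T.card : ℝ) ≤ C * (H : ℝ) ^ (n - k + 1) *
      ∑ B ∈ Icc A (C * H), 1 / (B : ℝ) ^ (n + 1 - 2 * k)) := by
    intro k
    by_cases hk : 2 ≤ k ∧ 2 * k ≤ n
    · obtain ⟨C, hC, h⟩ := fac_count n k (by omega) hk.2
      exact ⟨C, hC, fun _ _ => h⟩
    · exact ⟨1, one_pos, fun h1 h2 => absurd ⟨h1, h2⟩ hk⟩
  choose C hC0 hC using h0
  refine ⟨∑ k ∈ Icc 2 n, (C k : ℝ) * (1 + Real.log (C k)), ?_, fun H hH T hT => ?_⟩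
  · refine sum_pos (fun k _ => ?_) ⟨2, mem_Icc.2 ⟨le_rfl, by omega⟩⟩
    have h1 : (1 : ℝ) ≤ C k := by exact_mod_cast hC0 k
    have := Real.log_nonneg h1
    positivity
  have hH1 : (1 : ℝ) ≤ H := by exact_mod_cast hH
  have hlogH := Real.log_nonneg hH1
  have hsub : T ⊆ (Icc 2 n).biUnion fun k => T.filter fun p => 2 * k ≤ n ∧
      ∃ g h : ℤ[X], g.natDegree ≤ k ∧ h.natDegree ≤ n - k ∧ p = g * h := by
    intro p hp
    obtain ⟨-, -, -, k, g, h, hk2, hkn, hg, hh, hgh⟩ := hT p hp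
    rw [mem_biUnion]
    rcases Nat.le_total (2 * k) n with h1 | h1
    · exact ⟨k, mem_Icc.2 ⟨hk2, by omega⟩, mem_filter.2 ⟨hp, h1, g, h, hg, hh, hgh⟩⟩
    · exact ⟨n - k, mem_Icc.2 ⟨by omega, by omega⟩, mem_filter.2 ⟨hp, by omega, h, g, hh,
        hg.trans (by omega), by rw [hgh, mul_comm]⟩⟩
  have h1 := (card_le_card hsub).trans card_biUnion_le
  have h2 : (T.card : ℝ) ≤ ∑ k ∈ Icc 2 n, ((T.filter fun p => 2 * k ≤ n ∧
      ∃ g h : ℤ[X], g.natDegree ≤ k ∧ h.natDegree ≤ n - k ∧ p = g * h).card : ℝ) := by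
    exact_mod_cast h1
  refine h2.trans ?_
  rw [mul_assoc, sum_mul]
  refine sum_le_sum fun k hk => ?_
  rw [mem_Icc] at hk
  have hCk1 : (1 : ℝ) ≤ C k := by exact_mod_cast hC0 k
  have hlogC := Real.log_nonneg hCk1
  by_cases hkn : 2 * k ≤ n
  · have h3 := hC k hk.1 hkn H hH 1 le_rfl (T.filter fun p => 2 * k ≤ n ∧
      ∃ g h : ℤ[X], g.natDegree ≤ k ∧ h.natDegree ≤ n - k ∧ p = g * h) (fun p hp => by
        rw [mem_filter] at hp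
        obtain ⟨hp, -, g, h, hg, hh, hgh⟩ := hp
        obtain ⟨hp0, hd, hb, -⟩ := hT p hp
        refine ⟨hp0, hd, hb, g, h, hg, hh, hgh, ?_⟩
        have hg0 : g ≠ 0 := by
          rintro rfl
          exact hp0 (by rw [hgh, zero_mul])
        refine ⟨g.natDegree, ?_⟩
        rw [coeff_natDegree, Nat.cast_one]
        exact Int.one_le_abs (leadingCoeff_ne_zero.2 hg0))
    refine h3.trans ?_
    have h4 : ∑ B ∈ Icc 1 (C k * H), 1 / (B : ℝ) ^ (n + 1 - 2 * k) ≤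
        (1 + Real.log (C k)) * (1 + Real.log H) := by
      calc ∑ B ∈ Icc 1 (C k * H), 1 / (B : ℝ) ^ (n + 1 - 2 * k) ≤
          ∑ B ∈ Icc 1 (C k * H), 1 / (B : ℝ) := by
            refine sum_le_sum fun B hB => ?_
            rw [mem_Icc] at hB
            have hB1 : (1 : ℝ) ≤ B := by exact_mod_cast hB.1
            refine one_div_le_one_div_of_le (by linarith) ?_
            exact le_self_pow₀ hB1 (by omega)
        _ ≤ 1 + Real.log ((C k * H : ℕ) : ℝ) := sum_inv_le _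
        _ = 1 + Real.log (C k) + Real.log H := by
            push_cast
            rw [Real.log_mul (by linarith) (by linarith)]
            ring
        _ ≤ (1 + Real.log (C k)) * (1 + Real.log H) := by nlinarith
    have h5 : (H : ℝ) ^ (n - k + 1) ≤ (H : ℝ) ^ (n - 1) := pow_le_pow_right₀ hH1 (by omega)
    calc (C k : ℝ) * (H : ℝ) ^ (n - k + 1) * ∑ B ∈ Icc 1 (C k * H), 1 / (B : ℝ) ^ (n + 1 - 2 * k) ≤
        (C k : ℝ) * (H : ℝ) ^ (n - 1) * ((1 + Real.log (C k)) * (1 + Real.log H)) := by gcongr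
      _ = _ := by ring
  · have h3 : (T.filter fun p => 2 * k ≤ n ∧
      ∃ g h : ℤ[X], g.natDegree ≤ k ∧ h.natDegree ≤ n - k ∧ p = g * h) = ∅ := by
      rw [filter_eq_empty_iff]
      exact fun p _ h => hkn h.1
    rw [h3, card_empty, Nat.cast_zero]
    positivity

theorem fac1_count (n : ℕ) (hn : 3 ≤ n) : ∃ C : ℝ, 0 < C ∧ ∀ H : ℕ, 1 ≤ H → ∀ A : ℕ, 1 ≤ A →
    ∀ T : Finset ℤ[X],
    (∀ p ∈ T, p ≠ 0 ∧ p.natDegree ≤ n ∧ (∀ i, |p.coeff i| ≤ (H : ℤ)) ∧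
      ∃ g h : ℤ[X], g.natDegree ≤ 1 ∧ h.natDegree ≤ n - 1 ∧ p = g * h ∧
        ∃ i, (A : ℤ) ≤ |g.coeff i|) →
    (T.card : ℝ) ≤ C * (H : ℝ) ^ n / (A : ℝ) ^ (n - 2) := by
  obtain ⟨C, hC0, hC⟩ := fac_count n 1 le_rfl (by omega)
  have hC0' : (0 : ℝ) < C := by exact_mod_cast hC0
  refine ⟨C * 2, by positivity, fun H hH A hA T hT => ?_⟩
  have hA0 : (0 : ℝ) < A := by exact_mod_cast hA
  refine (hC H hH A hA T hT).trans ?_
  have e0 : n - 1 + 1 = n := by omega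
  have e1 : n + 1 - 2 * 1 = n - 1 := by omega
  rw [e0, e1]
  have h1 : ∀ k ∈ Icc A (C * H), 1 / (k : ℝ) ^ (n - 1) ≤
      (1 / (A : ℝ) ^ (n - 3)) * ((k : ℝ) ^ 2)⁻¹ := by
    intro k hk
    rw [mem_Icc] at hk
    have hk0 : (0 : ℝ) < k := by exact_mod_cast (by omega : 0 < k)
    have hAk : (A : ℝ) ≤ k := by exact_mod_cast hk.1
    have h2 : 1 / (k : ℝ) ^ (n - 1) = (1 / (k : ℝ) ^ (n - 3)) * ((k : ℝ) ^ 2)⁻¹ := by
      have h3 : (k : ℝ) ^ (n - 1) = (k : ℝ) ^ (n - 3) * (k : ℝ) ^ 2 := by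
        rw [← pow_add]
        congr 1
        omega
      rw [h3, one_div, one_div, mul_inv]
    rw [h2]
    gcongr
  have h2 : Icc A (C * H) = Ioo (A - 1) (C * H + 1) := by
    ext k
    rw [mem_Icc, mem_Ioo]
    omega
  have h3 := sum_Ioo_inv_sq_le (α := ℝ) (A - 1) (C * H + 1)
  rw [← h2] at h3
  have h4 : (((A - 1 : ℕ) : ℝ) + 1) = A := by
    have : A - 1 + 1 = A := by omega
    exact_mod_cast this
  rw [h4] at h3
  have h5 : ∑ B ∈ Icc A (C * H), 1 / (B : ℝ) ^ (n - 1) ≤ 2 / (A : ℝ) ^ (n - 2) := by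
    refine (sum_le_sum h1).trans ?_
    rw [← mul_sum]
    calc 1 / (A : ℝ) ^ (n - 3) * ∑ i ∈ Icc A (C * H), ((i : ℝ) ^ 2)⁻¹ ≤
        1 / (A : ℝ) ^ (n - 3) * (2 / A) := by gcongr
      _ = 2 / (A : ℝ) ^ (n - 2) := by
        have h6 : (A : ℝ) ^ (n - 2) = (A : ℝ) ^ (n - 3) * A := by
          rw [← pow_succ]
          congr 1
          omega
        rw [h6]
        field_simp
  calc (C : ℝ) * (H : ℝ) ^ n * ∑ B ∈ Icc A (C * H), 1 / (B : ℝ) ^ (n - 1) ≤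
      (C : ℝ) * (H : ℝ) ^ n * (2 / (A : ℝ) ^ (n - 2)) := by gcongr
    _ = _ := by ring

end Pool.Agent.H15.SC
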