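import Pool.Agent.H15.SC.Rsm

/-! # [SC RR3] Step (R3)

`lead_to_vec` with `Q f := ∃ p q h, f = (C q - C p * X) * h, ...`. For given `(p,q)`,
`|p|, |q| ≤ A0`: the coefficients of `h` are at most `T0 = 2^n (n+1) H` (`gelfond`; `q - p X` has a
coefficient of absolute value `≥ 1`), `natDegree h ≤ n - 1`: vectors `(h_0, .., h_(n-1))` in
`[-T0,T0]^n` with `|fv (n-1) h p q| < H^(49/50)`. If `p ≠ 0` the coefficient of `h_0` in
`fv (n-1) h p q` is `p^(n-1)`, otherwise (`q = ±1`) the coefficient of `h_(n-1)` is `q^(n-1)`; both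
of absolute value `≥ 1`: at most `(2 H^(49/50) + 1)(2 T0 + 1)^(n-1)` vectors (`fiber_count` with
`ι = Fin n`, `card_int_ball`). Number of `(p,q)`: `≤ (2 A0 + 1)² ≤ 9 A0²`. So
`m = C H^(1/(25 n) + n - 1 + 49/50)`; divided by `K^(n+1)`: exponent
`1/(25n) - 1/50 - 1 ≤ -1 - 3/250`. -/

namespace Pool.Agent.H15.SC

open Finset Polynomial Pool.Agent.H72.ES Pool.Agent.H8.NoPt Pool.Agent.H8.MP RedC

/-- vectors of a box with a small value of a linear form with a coefficient of absolute value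
at least one -/
private theorem r3_lin (d N : ℕ) (w : Fin (d + 1) → ℤ) (i0 : Fin (d + 1)) (hw : w i0 ≠ 0) (R : ℝ)
    (hR : 0 ≤ R) (U : Finset (Fin (d + 1) → ℤ))
    (hU : ∀ c ∈ U, (∀ i, |c i| ≤ (N : ℤ)) ∧ |((∑ i, c i * w i : ℤ) : ℝ)| ≤ R) :
    (U.card : ℝ) ≤ (2 * R + 1) * (2 * N + 1 : ℝ) ^ d := by
  classical
  have h1 := fiber_count (fun i : Fin (d + 1) => i = i0) N U (fun a ha => (hU a ha).1) (2 * R + 1)
    (by positivity) (by
      intro c _ T hT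
      obtain ⟨e, he⟩ : ∃ e : ℤ, e = ∑ i ∈ univ.erase i0, c i * w i := ⟨_, rfl⟩
      have hinj : Set.InjOn (fun a : Fin (d + 1) → ℤ => a i0) T := by
        intro a ha b hb hab
        funext i
        by_cases hi : i = i0
        · rw [hi]
          exact hab
        · rw [(hT a ha).2 i hi, (hT b hb).2 i hi]
      have h2 : (T.image fun a : Fin (d + 1) → ℤ => a i0).card = T.card :=
        card_image_of_injOn hinj
      rw [← h2]
      have hw1 : (1 : ℝ) ≤ |(w i0 : ℝ)| := by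
        exact_mod_cast Int.one_le_abs hw
      have hw0 : (w i0 : ℝ) ≠ 0 := by exact_mod_cast hw
      refine card_int_ball _ (-(e : ℝ) / w i0) R hR fun v hv => ?_
      obtain ⟨a, ha, rfl⟩ := mem_image.1 hv
      have h3 := (hU a (hT a ha).1).2
      have h4 : ∑ i, a i * w i = a i0 * w i0 + e := by
        rw [he, ← add_sum_erase univ (fun i => a i * w i) (mem_univ i0)]
        congr 1
        refine sum_congr rfl fun i hi => ?_
        rw [(hT a ha).2 i (ne_of_mem_erase hi)]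
      rw [h4] at h3
      push_cast at h3
      have h5 : (a i0 : ℝ) - -(e : ℝ) / w i0 = (a i0 * w i0 + e) / w i0 := by
        field_simp
        ring
      rw [h5, abs_div]
      exact (div_le_self (abs_nonneg _) hw1).trans h3)
  have h2 : Fintype.card {i : Fin (d + 1) // ¬ i = i0} = d := by
    rw [Fintype.card_subtype_compl, Fintype.card_subtype_eq, Fintype.card_fin, Nat.add_sub_cancel]
  rwa [h2] at h1

private theorem r3_fv (d : ℕ) (v : Fin (d + 1) → ℤ) (p q : ℤ) :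
    fv d (pol d v) p q = ∑ i, v i * (p ^ (d - (i : ℕ)) * q ^ (i : ℕ)) := by
  unfold fv
  rw [sum_range]
  refine sum_congr rfl fun i _ => ?_
  have h1 : (pol d v).coeff (i : ℕ) = v i := by
    unfold pol
    rw [finsetSum_coeff]
    simp only [coeff_C_mul_X_pow]
    rw [sum_eq_single i]
    · rw [if_pos rfl]
    · intro j _ hj
      rw [if_neg]
      intro h
      exact hj (Fin.ext h.symm)
    · intro h
      exact absurd (mem_univ i) h
  rw [h1]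
  ring

private theorem r3_card (d H : ℕ) (hd : 1 ≤ d) (A R : ℝ) (hA : 1 ≤ A) (hR : 1 ≤ R) (hH : 1 ≤ H)
    (T : Finset ℤ[X])
    (hT : ∀ f ∈ T, (∃ (p q : ℤ) (h : ℤ[X]), IsCoprime p q ∧ f = (C q - C p * X) * h ∧
      h.natDegree = d ∧ |(p : ℝ)| ≤ A ∧ |(q : ℝ)| ≤ A ∧ |(fv d h p q : ℝ)| < R) ∧
      f.natDegree ≤ d + 1 ∧ ∀ i, |f.coeff i| ≤ (H : ℤ)) :
    (T.card : ℝ) ≤ 9 * A ^ 2 * (3 * R * (3 * (2 ^ (d + 1) * (((d + 1 : ℕ) : ℝ) + 1) * H)) ^ d) := by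
  classical
  obtain ⟨c0, hc0⟩ : ∃ c0 : ℕ, c0 = 2 ^ (d + 1) * (d + 1 + 1) := ⟨_, rfl⟩
  have hc01 : 1 ≤ c0 := by
    rw [hc0]
    exact Nat.mul_pos (by positivity) (by omega)
  obtain ⟨N, hN⟩ : ∃ N : ℕ, N = c0 * H := ⟨_, rfl⟩
  have hN1 : 1 ≤ N := by
    rw [hN]
    exact Nat.mul_pos hc01 hH
  obtain ⟨a, ha⟩ : ∃ a : ℕ, a = ⌊A⌋₊ := ⟨_, rfl⟩
  have haA : (a : ℝ) ≤ A := by
    rw [ha]
    exact Nat.floor_le (by linarith)
  let U : ℤ × ℤ → Finset (Fin (d + 1) → ℤ) := fun P =>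
    (Fintype.piFinset fun _ => Icc (-(N : ℤ)) N).filter fun v => |(fv d (pol d v) P.1 P.2 : ℝ)| ≤ R
  have hUc : ∀ P : ℤ × ℤ, P ≠ 0 → ((U P).card : ℝ) ≤ (2 * R + 1) * (2 * N + 1 : ℝ) ^ d := by
    intro P hP
    obtain ⟨p, q⟩ := P
    have hex : ∃ i0 : Fin (d + 1), p ^ (d - (i0 : ℕ)) * q ^ (i0 : ℕ) ≠ 0 := by
      by_cases hp : p = 0
      · have hq : q ≠ 0 := by
          rintro rfl
          exact hP (by rw [hp]; rfl)
        refine ⟨⟨d, by omega⟩, ?_⟩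
        simp only [Nat.sub_self, pow_zero, one_mul]
        exact pow_ne_zero _ hq
      · refine ⟨⟨0, by omega⟩, ?_⟩
        simp only [pow_zero, mul_one]
        exact pow_ne_zero _ hp
    obtain ⟨i0, hi0⟩ := hex
    refine r3_lin d N (fun i => p ^ (d - (i : ℕ)) * q ^ (i : ℕ)) i0 hi0 R (by linarith) _
      fun c hc => ?_
    rw [mem_filter, Fintype.mem_piFinset] at hc
    refine ⟨fun i => abs_le.2 (mem_Icc.1 (hc.1 i)), ?_⟩
    have h1 := hc.2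
    rw [r3_fv] at h1
    exact h1
  have hsub : T ⊆ ((Icc (-(a : ℤ)) a ×ˢ Icc (-(a : ℤ)) a).erase 0).biUnion fun P =>
      (U P).image fun v => (C P.2 - C P.1 * X) * pol d v := by
    intro f hf
    obtain ⟨⟨p, q, h, hpq, hfe, hhd, hpA, hqA, hfv⟩, hfd, hfH⟩ := hT f hf
    have habs : ∀ z : ℤ, |(z : ℝ)| ≤ A → z ∈ Icc (-(a : ℤ)) a := by
      intro z hz
      have h1 : z.natAbs ≤ a := by
        rw [ha]
        apply Nat.le_floor
        rwa [Nat.cast_natAbs, Int.cast_abs]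
      rw [mem_Icc]
      omega
    have hne : (p, q) ≠ (0 : ℤ × ℤ) := by
      intro h0
      have h1 : p = 0 := congrArg Prod.fst h0
      have h2 : q = 0 := congrArg Prod.snd h0
      rw [h1, h2] at hpq
      have := isCoprime_zero_left.1 hpq
      exact not_isUnit_zero this
    have hg : ∃ i, 1 ≤ |((C q - C p * X : ℤ[X]).coeff i : ℝ)| := by
      by_cases hp : p = 0
      · refine ⟨0, ?_⟩
        have hq : q ≠ 0 := by
          rintro rfl
          exact hne (by rw [hp]; rfl)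
        rw [coeff_sub, coeff_C_zero, coeff_C_mul, coeff_X_zero, mul_zero, sub_zero]
        exact_mod_cast Int.one_le_abs hq
      · refine ⟨1, ?_⟩
        rw [coeff_sub, coeff_C_succ, coeff_C_mul, coeff_X_one, mul_one, zero_sub, Int.cast_neg,
          abs_neg]
        exact_mod_cast Int.one_le_abs hp
    obtain ⟨i, hi⟩ := hg
    have hg0 : (C q - C p * X : ℤ[X]) ≠ 0 := by
      intro h0
      rw [h0, coeff_zero, Int.cast_zero, abs_zero] at hi
      linarith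
    have hh0 : h ≠ 0 := by
      rintro rfl
      rw [natDegree_zero] at hhd
      omega
    have hco : ∀ j, |h.coeff j| ≤ (N : ℤ) := by
      intro j
      have h1 := gelfond (d + 1) (C q - C p * X) h (mul_ne_zero hg0 hh0) (by rw [← hfe]; exact hfd)
        H (fun k => by
          rw [← hfe]
          exact_mod_cast hfH k) i j
      have h2 : |(h.coeff j : ℝ)| ≤ |((C q - C p * X : ℤ[X]).coeff i : ℝ)| * |(h.coeff j : ℝ)| :=
        le_mul_of_one_le_left (abs_nonneg _) hi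
      have h3 : |(h.coeff j : ℝ)| ≤ (N : ℝ) := by
        refine (h2.trans h1).trans (le_of_eq ?_)
        rw [hN, hc0]
        push_cast
        ring
      exact_mod_cast h3
    rw [mem_biUnion]
    refine ⟨(p, q), mem_erase.2 ⟨hne, mem_product.2 ⟨habs p hpA, habs q hqA⟩⟩, ?_⟩
    rw [mem_image]
    have hpol : pol d (fun i => h.coeff i) = h := pol_coeff (by omega)
    refine ⟨fun i => h.coeff i, ?_, ?_⟩
    · rw [mem_filter, Fintype.mem_piFinset]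
      refine ⟨fun i => mem_Icc.2 (abs_le.1 (hco i)), ?_⟩
      rw [hpol]
      exact hfv.le
    · rw [hpol]
      exact hfe.symm
  have h1 := (card_le_card hsub).trans (card_biUnion_le.trans (sum_le_sum fun P _ =>
    card_image_le))
  have h2 : (T.card : ℝ) ≤ ∑ P ∈ (Icc (-(a : ℤ)) a ×ˢ Icc (-(a : ℤ)) a).erase 0,
      ((U P).card : ℝ) := by exact_mod_cast h1
  have h3 : (T.card : ℝ) ≤ ∑ P ∈ (Icc (-(a : ℤ)) a ×ˢ Icc (-(a : ℤ)) a).erase 0,
      (2 * R + 1) * (2 * N + 1 : ℝ) ^ d :=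
    h2.trans (sum_le_sum fun P hP => hUc P (ne_of_mem_erase hP))
  rw [sum_const, nsmul_eq_mul] at h3
  have h4 : ((((Icc (-(a : ℤ)) a ×ˢ Icc (-(a : ℤ)) a).erase 0).card : ℕ) : ℝ) ≤ 9 * A ^ 2 := by
    have h5 : ((Icc (-(a : ℤ)) a ×ˢ Icc (-(a : ℤ)) a).erase 0).card ≤ (2 * a + 1) * (2 * a + 1) := by
      refine (card_le_card (erase_subset _ _)).trans ?_
      rw [card_product, card_Icc']
    have h6 : ((((Icc (-(a : ℤ)) a ×ˢ Icc (-(a : ℤ)) a).erase 0).card : ℕ) : ℝ) ≤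
        (2 * a + 1) * (2 * a + 1) := by exact_mod_cast h5
    refine h6.trans ?_
    have h7 : (0 : ℝ) ≤ a := Nat.cast_nonneg a
    nlinarith
  have hNr : (N : ℝ) = 2 ^ (d + 1) * (((d + 1 : ℕ) : ℝ) + 1) * H := by
    rw [hN, hc0]
    push_cast
    ring
  have hN1r : (1 : ℝ) ≤ N := by exact_mod_cast hN1
  rw [← hNr]
  refine h3.trans ?_
  have h8 : 2 * R + 1 ≤ 3 * R := by linarith
  have h9 : (2 * N + 1 : ℝ) ≤ 3 * N := by linarith
  have h10 : (0 : ℝ) ≤ 2 * N + 1 := by linarith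
  gcongr

theorem r3 (n : ℕ) (hn : 5 ≤ n) : Small n (101 / 100) fun H a => ∃ (p q : ℤ) (h : ℤ[X]),
    Lin n (arr a) p q h ∧ |(p : ℝ)| ≤ A0 n H ∧ |(q : ℝ)| ≤ A0 n H ∧
      |(fv (n - 1) h p q : ℝ)| < (H : ℝ) ^ (49 / 50 : ℝ) := by
  obtain ⟨d, rfl⟩ : ∃ d, n = d + 1 := ⟨n - 1, by omega⟩
  obtain ⟨c, hc⟩ : ∃ c : ℝ, c = 3 * (2 ^ (d + 1) * (((d + 1 : ℕ) : ℝ) + 1)) := ⟨_, rfl⟩
  have hc0 : 0 < c := by rw [hc]; positivity
  refine ⟨27 * c ^ d, fun H hH S hS => ?_⟩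
  have hH1 : (1 : ℝ) ≤ H := by exact_mod_cast hH
  have hH0 : (0 : ℝ) < H := by linarith
  have hA : 1 ≤ A0 (d + 1) H := Real.one_le_rpow hH1 (by positivity)
  have hR : 1 ≤ (H : ℝ) ^ (49 / 50 : ℝ) := Real.one_le_rpow hH1 (by norm_num)
  obtain ⟨K, hK⟩ : ∃ K : ℝ, K = 2 * H + 1 := ⟨_, rfl⟩
  have hKH : (H : ℝ) ≤ K := by rw [hK]; linarith
  have hK0 : 0 < K := by linarith
  obtain ⟨V, hV⟩ : ∃ V : ℝ, V = K ^ (Fintype.card (Ix (d + 1))) := ⟨_, rfl⟩
  have hV0 : 0 < V := by rw [hV]; positivity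
  obtain ⟨m, hm⟩ : ∃ m : ℝ, m = 9 * A0 (d + 1) H ^ 2 * (3 * (H : ℝ) ^ (49 / 50 : ℝ) *
    (3 * (2 ^ (d + 1) * (((d + 1 : ℕ) : ℝ) + 1) * H)) ^ d) := ⟨_, rfl⟩
  have hm0 : 0 ≤ m := by
    rw [hm]
    positivity
  have h1 := lead_to_vec (d + 1) H (fun f => ∃ (p q : ℤ) (h : ℤ[X]), IsCoprime p q ∧
    f = (C q - C p * X) * h ∧ h.natDegree = d ∧ |(p : ℝ)| ≤ A0 (d + 1) H ∧
      |(q : ℝ)| ≤ A0 (d + 1) H ∧ |(fv d h p q : ℝ)| < (H : ℝ) ^ (49 / 50 : ℝ)) m hm0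
    (fun T hT => by
      rw [hm]
      exact r3_card d H (by omega) _ _ hA hR hH T hT) S (fun a ha => by
      obtain ⟨h1, p, q, h, hL, hp, hq, hf⟩ := hS a ha
      exact ⟨h1, p, q, h, hL.cop, hL.eq, hL.deg, hp, hq, hf⟩)
  rw [← hK, ← hV] at h1 ⊢
  have h2 : m = 27 * c ^ d * (A0 (d + 1) H ^ 2 * (H : ℝ) ^ (49 / 50 : ℝ) * (H : ℝ) ^ d) := by
    rw [hm, ← mul_assoc 3 _ (H : ℝ), ← hc, mul_pow c]
    ring
  have h3 : A0 (d + 1) H ^ 2 * (H : ℝ) ^ (49 / 50 : ℝ) * (H : ℝ) ^ d ≤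
      (H : ℝ) ^ (-(101 / 100) : ℝ) * (H : ℝ) ^ (d + 1 + 1) := by
    unfold A0
    rw [← Real.rpow_natCast, ← Real.rpow_natCast, ← Real.rpow_natCast, ← Real.rpow_mul hH0.le,
      ← Real.rpow_add hH0, ← Real.rpow_add hH0, ← Real.rpow_add hH0]
    refine Real.rpow_le_rpow_of_exponent_le hH1 ?_
    push_cast
    have hd4 : (5 : ℝ) ≤ (d : ℝ) + 1 := by exact_mod_cast hn
    have h4 : 1 / (50 * ((d : ℝ) + 1)) * 2 ≤ 1 / 125 := by
      rw [div_mul_eq_mul_div, div_le_div_iff₀ (by positivity) (by norm_num)]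
      linarith
    linarith
  have h4 : (S.card : ℝ) * (H : ℝ) ^ (d + 1 + 1) ≤
      27 * c ^ d * (H : ℝ) ^ (-(101 / 100) : ℝ) * V * (H : ℝ) ^ (d + 1 + 1) := by
    calc (S.card : ℝ) * (H : ℝ) ^ (d + 1 + 1) ≤ (S.card : ℝ) * K ^ (d + 1 + 1) := by gcongr
      _ ≤ m * V := h1
      _ ≤ 27 * c ^ d * ((H : ℝ) ^ (-(101 / 100) : ℝ) * (H : ℝ) ^ (d + 1 + 1)) * V := by
        rw [h2]
        gcongr
      _ = _ := by ring
  exact le_of_mul_le_mul_right h4 (by positivity)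

end Pool.Agent.H15.SC
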