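import Pool.Agent.H15.SC.Defs
import Pool.Agent.H97.ZE.SZ

/-! # [SC RLINE] A far integer zero on a line of small height (R4)

`q v1 - p v2 = 1`, `|v1|, |v2| ≤ A` (Bezout with reduction: `v1` modulo `p` if `p ≠ 0`; `A ≥ 1`;
if `p = 0` then `q = ±1`, `v = (q, 0)`; if `p ≠ 0` choose `0 ≤ v1 < |p|`, then
`|v2| = |q v1 - 1|/|p| ≤ |q|`... ). The integer points of the line `q x - p y = m` are
`(t p + m v1, t q + m v2)`, `t ∈ ℤ` (`gcd = 1`). `g(T) = F(T p + m v1, T q + m v2) ∈ ℤ[T]`: sum of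
the absolute values of its coefficients `≤ R = (n+1)² H (2 A (|m|+1))^n` (submultiplicativity,
`(|p| + |m v1|)^i (|q| + |m v2|)^j ≤ (A + |m| A)^(i+j)`). If `g ≠ 0`: an integer root `t ≠ 0`
divides the lowest nonzero coefficient, so `|t| ≤ R`, `|x|, |y| ≤ R A + |m| A ≤ 2 R A`.
Contradiction; so `g = 0` and `F` vanishes at all integer points of the line. -/

namespace Pool.Agent.H15.SC

open Finset Polynomial Pool.Agent.H72.ES Pool.Agent.H8.NoPt Pool.Agent.H8.MP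

private theorem bez_small (p q : ℤ) (hpq : IsCoprime p q) (A : ℕ) (hA : 1 ≤ A)
    (hp : |p| ≤ (A : ℤ)) (hq : |q| ≤ (A : ℤ)) :
    ∃ v1 v2 : ℤ, q * v1 - p * v2 = 1 ∧ |v1| ≤ (A : ℤ) ∧ |v2| ≤ (A : ℤ) := by
  have hA' : (1 : ℤ) ≤ A := by exact_mod_cast hA
  by_cases hp0 : p = 0
  · subst hp0
    rw [isCoprime_zero_left] at hpq
    have h1 : q * q = 1 := by
      rcases Int.isUnit_iff.1 hpq with h | h <;> rw [h] <;> norm_num
    exact ⟨q, 0, by rw [h1]; ring, hq, by rw [abs_zero]; linarith⟩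
  · obtain ⟨a, b, hab⟩ := hpq
    have hpp : 0 < |p| := abs_pos.2 hp0
    have h0 := Int.emod_nonneg b hp0
    have h1 : b % p < |p| := Int.emod_lt_abs b hp0
    have h2 := Int.mul_ediv_add_emod b p
    obtain ⟨v1, hv1⟩ : ∃ v1, v1 = b % p := ⟨_, rfl⟩
    obtain ⟨v2, hv2⟩ : ∃ v2, v2 = -a - q * (b / p) := ⟨_, rfl⟩
    rw [← hv1] at h0 h1 h2
    have he : q * v1 - p * v2 = 1 := by
      rw [hv2]
      have h3 : v1 = b - p * (b / p) := by linarith
      rw [h3]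
      linear_combination hab
    refine ⟨v1, v2, he, ?_, ?_⟩
    · rw [abs_of_nonneg h0]
      linarith
    · -- `|p| |v2| = |q v1 - 1|`
      have h4 : |p| * |v2| = |q * v1 - 1| := by
        rw [← abs_mul]
        congr 1
        linarith
      have h5 : |q * v1 - 1| ≤ |q| * v1 + 1 := by
        refine (abs_sub _ _).trans ?_
        rw [abs_mul, abs_of_nonneg h0, abs_one]
      by_cases hq0 : q = 0
      · rw [hq0, abs_zero, zero_mul, zero_add] at h5
        rw [hq0, zero_mul] at h4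
        have h6 : |v2| ≤ |p| * |v2| := le_mul_of_one_le_left (abs_nonneg _) hpp
        linarith
      · have hqq : 1 ≤ |q| := Int.one_le_abs hq0
        have h6 : |p| * |v2| ≤ |p| * |q| := by
          rw [h4]
          refine h5.trans ?_
          have h7 : v1 + 1 ≤ |p| := h1
          nlinarith
        exact (le_of_mul_le_mul_left h6 hpp).trans hq

private noncomputable def gl (n : ℕ) (F : ℕ → ℕ → ℤ) (a b c d : ℤ) : ℤ[X] :=
  ∑ i ∈ range (n + 1), ∑ j ∈ range (n + 1 - i),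
    C (F i j) * (C a * X + C b) ^ i * (C c * X + C d) ^ j

private theorem gl_eval (n : ℕ) (F : ℕ → ℕ → ℤ) (a b c d t : ℤ) :
    (gl n F a b c d).eval t = ev n F (t * a + b) (t * c + d) := by
  unfold gl ev
  rw [eval_finsetSum]
  refine Finset.sum_congr rfl fun i _ => ?_
  rw [eval_finsetSum]
  refine Finset.sum_congr rfl fun j _ => ?_
  simp only [eval_mul, eval_pow, eval_add, eval_C, eval_X]
  ring

private theorem n1_lin {a b : ℤ} {B : ℕ} (h : |a| + |b| ≤ (B : ℤ)) :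
    Pool.Agent.H97.ZE.n1 (C a * X + C b) ≤ B := by
  have h1 := Pool.Agent.H97.ZE.n1_add (C a * X) (C b)
  have h2 := Pool.Agent.H97.ZE.n1_mul (C a) X
  have h3 := Pool.Agent.H97.ZE.n1_X_pow 1
  rw [pow_one] at h3
  rw [Pool.Agent.H97.ZE.n1_C, h3, mul_one] at h2
  rw [Pool.Agent.H97.ZE.n1_C] at h1
  have h4 : (a.natAbs : ℤ) + b.natAbs ≤ B := by
    rw [Int.natCast_natAbs, Int.natCast_natAbs]
    exact h
  omega

private theorem gl_n1 {n H : ℕ} {F : ℕ → ℕ → ℤ} (hF : Bdd n H F) {a b c d : ℤ} {B : ℕ}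
    (hB : 1 ≤ B) (h1 : |a| + |b| ≤ (B : ℤ)) (h2 : |c| + |d| ≤ (B : ℤ)) :
    Pool.Agent.H97.ZE.n1 (gl n F a b c d) ≤ (n + 1) ^ 2 * H * B ^ n := by
  unfold gl
  refine (Pool.Agent.H97.ZE.n1_sum _ _).trans ?_
  have hterm : ∀ i ∈ range (n + 1), ∀ j ∈ range (n + 1 - i),
      Pool.Agent.H97.ZE.n1 (C (F i j) * (C a * X + C b) ^ i * (C c * X + C d) ^ j) ≤ H * B ^ n := by
    intro i hi j hj
    have hij : i + j ≤ n := by
      have := Finset.mem_range.1 hi
      have := Finset.mem_range.1 hj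
      omega
    refine (Pool.Agent.H97.ZE.n1_mul _ _).trans ?_
    refine (Nat.mul_le_mul (Pool.Agent.H97.ZE.n1_mul _ _) le_rfl).trans ?_
    rw [Pool.Agent.H97.ZE.n1_C]
    have e1 : (F i j).natAbs ≤ H := by
      have h3 := hF i j hij
      rw [← Int.natCast_natAbs] at h3
      exact_mod_cast h3
    have e2 : Pool.Agent.H97.ZE.n1 ((C a * X + C b) ^ i) ≤ B ^ i :=
      (Pool.Agent.H97.ZE.n1_pow _ _).trans (Nat.pow_le_pow_left (n1_lin h1) i)
    have e3 : Pool.Agent.H97.ZE.n1 ((C c * X + C d) ^ j) ≤ B ^ j :=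
      (Pool.Agent.H97.ZE.n1_pow _ _).trans (Nat.pow_le_pow_left (n1_lin h2) j)
    calc (F i j).natAbs * Pool.Agent.H97.ZE.n1 ((C a * X + C b) ^ i) *
          Pool.Agent.H97.ZE.n1 ((C c * X + C d) ^ j) ≤ H * B ^ i * B ^ j :=
          Nat.mul_le_mul (Nat.mul_le_mul e1 e2) e3
      _ = H * B ^ (i + j) := by rw [pow_add, mul_assoc]
      _ ≤ H * B ^ n := Nat.mul_le_mul_left _ (Nat.pow_le_pow_right hB hij)
  calc ∑ i ∈ range (n + 1), Pool.Agent.H97.ZE.n1 (∑ j ∈ range (n + 1 - i),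
        C (F i j) * (C a * X + C b) ^ i * (C c * X + C d) ^ j)
      ≤ ∑ _i ∈ range (n + 1), (n + 1) * (H * B ^ n) := by
        refine Finset.sum_le_sum fun i hi => (Pool.Agent.H97.ZE.n1_sum _ _).trans ?_
        refine (Finset.sum_le_sum fun j hj => hterm i hi j hj).trans ?_
        rw [Finset.sum_const, Finset.card_range, smul_eq_mul]
        exact Nat.mul_le_mul_right _ (Nat.sub_le _ _)
    _ = (n + 1) ^ 2 * H * B ^ n := by
        rw [Finset.sum_const, Finset.card_range, smul_eq_mul]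
        ring

/-- a nonzero integer root is bounded by the coefficients -/
private theorem root_le {g : ℤ[X]} (hg : g ≠ 0) {t : ℤ} (h : g.eval t = 0) (ht : t ≠ 0) :
    t.natAbs ≤ Pool.Agent.H97.ZE.n1 g := by
  obtain ⟨r, hr, hnd⟩ := exists_eq_pow_rootMultiplicity_mul_and_not_dvd g hg 0
  rw [C_0, sub_zero] at hr hnd
  have h0 : r.coeff 0 ≠ 0 := fun h => hnd (X_dvd_iff.2 h)
  have h1 : g.coeff (rootMultiplicity 0 g) = r.coeff 0 := by
    have h2 := coeff_X_pow_mul r (rootMultiplicity 0 g) 0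
    rw [zero_add, ← hr] at h2
    exact h2
  have h3 : r.eval t = 0 := by
    rw [hr, eval_mul, eval_pow, eval_X, mul_eq_zero] at h
    rcases h with h | h
    · exact absurd h (pow_ne_zero _ ht)
    · exact h
  have h4 : t ∣ r.coeff 0 := by
    have h5 := Polynomial.sub_dvd_eval_sub t 0 r
    rw [sub_zero, h3, zero_sub, dvd_neg, ← coeff_zero_eq_eval_zero] at h5
    exact h5
  have h6 : t.natAbs ≤ (r.coeff 0).natAbs :=
    Nat.le_of_dvd (Int.natAbs_pos.2 h0) (Int.natAbs_dvd_natAbs.2 h4)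
  rw [← h1] at h6
  exact h6.trans (Pool.Agent.H97.ZE.coeff_le_n1 g _)

theorem line_van {n H : ℕ} (hn : 1 ≤ n) (hH : 1 ≤ H) {F : ℕ → ℕ → ℤ} (hF : Bdd n H F) (p q m : ℤ)
    (hpq : IsCoprime p q) (A : ℕ) (hA : 1 ≤ A) (hp : |p| ≤ (A : ℤ)) (hq : |q| ≤ (A : ℤ))
    (P : ℤ × ℤ) (hP : ev n F P.1 P.2 = 0) (hm : q * P.1 - p * P.2 = m)
    (hx : 2 * (((n : ℤ) + 1) ^ 2 * H * (2 * A * (|m| + 1)) ^ n) * A < |P.1|) :
    ∀ Q : ℤ × ℤ, q * Q.1 - p * Q.2 = m → ev n F Q.1 Q.2 = 0 := by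
  obtain ⟨v1, v2, hv, hv1, hv2⟩ := bez_small p q hpq A hA hp hq
  obtain ⟨x, y⟩ := P
  change ev n F x y = 0 at hP
  change q * x - p * y = m at hm
  change 2 * (((n : ℤ) + 1) ^ 2 * H * (2 * A * (|m| + 1)) ^ n) * A < |x| at hx
  have hA' : (1 : ℤ) ≤ A := by exact_mod_cast hA
  have hH' : (1 : ℤ) ≤ H := by exact_mod_cast hH
  have hpar : ∀ X Y : ℤ, q * X - p * Y = m →
      X = (v1 * Y - v2 * X) * p + m * v1 ∧ Y = (v1 * Y - v2 * X) * q + m * v2 := by
    intro X Y h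
    constructor
    · linear_combination (-X) * hv + v1 * h
    · linear_combination (-Y) * hv + v2 * h
  -- the polynomial of the line
  obtain ⟨B, hB⟩ : ∃ B : ℕ, (B : ℤ) = A * (|m| + 1) := by
    refine ⟨A * (m.natAbs + 1), ?_⟩
    rw [Nat.cast_mul, Nat.cast_add, Int.natCast_natAbs, Nat.cast_one]
  have hm0 := abs_nonneg m
  have hB1 : (1 : ℤ) ≤ B := by
    rw [hB]
    nlinarith
  have hB1' : 1 ≤ B := by exact_mod_cast hB1
  have hmv : ∀ a v : ℤ, |a| ≤ (A : ℤ) → |v| ≤ (A : ℤ) → |a| + |m * v| ≤ (B : ℤ) := by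
    intro a v ha hv'
    rw [hB, abs_mul]
    nlinarith [mul_le_mul_of_nonneg_left hv' hm0]
  have hn1 := gl_n1 hF hB1' (hmv p v1 hp hv1) (hmv q v2 hq hv2)
  have hg0 : gl n F p (m * v1) q (m * v2) = 0 := by
    by_contra hg
    obtain ⟨t, ht⟩ : ∃ t, t = v1 * y - v2 * x := ⟨_, rfl⟩
    obtain ⟨e1, e2⟩ := hpar x y hm
    rw [← ht] at e1 e2
    have hev : (gl n F p (m * v1) q (m * v2)).eval t = 0 := by
      rw [gl_eval, ← e1, ← e2]
      exact hP
    obtain ⟨R, hR⟩ : ∃ R : ℤ, R = ((n : ℤ) + 1) ^ 2 * H * (2 * A * (|m| + 1)) ^ n := ⟨_, rfl⟩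
    rw [← hR] at hx
    have hbase : (1 : ℤ) ≤ 2 * A * (|m| + 1) := by nlinarith
    have hpow : 2 * A * (|m| + 1) ≤ (2 * A * (|m| + 1)) ^ n := le_self_pow₀ hbase (by omega)
    have hn2 : (1 : ℤ) ≤ ((n : ℤ) + 1) ^ 2 := one_le_pow₀ (by linarith [Int.natCast_nonneg n])
    have hpre : (1 : ℤ) ≤ ((n : ℤ) + 1) ^ 2 * H := by nlinarith
    have hRm : |m| ≤ R := by
      rw [hR]
      have h1 : (2 * A * (|m| + 1)) ^ n ≤ ((n : ℤ) + 1) ^ 2 * H * (2 * A * (|m| + 1)) ^ n :=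
        le_mul_of_one_le_left (by linarith) hpre
      nlinarith
    have htR : |t| ≤ R := by
      by_cases ht0 : t = 0
      · rw [ht0, abs_zero]
        linarith
      · have h1 := (root_le hg hev ht0).trans hn1
        have h2 : (t.natAbs : ℤ) ≤ ((n : ℤ) + 1) ^ 2 * H * (B : ℤ) ^ n := by exact_mod_cast h1
        rw [Int.natCast_natAbs] at h2
        refine h2.trans ?_
        rw [hR, hB]
        refine mul_le_mul_of_nonneg_left (pow_le_pow_left₀ (by positivity) ?_ n) (by linarith)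
        nlinarith
    have hx1 : |x| ≤ |t| * |p| + |m| * |v1| := by
      rw [e1, ← abs_mul, ← abs_mul]
      exact abs_add_le _ _
    have hx2 : |t| * |p| ≤ R * A := mul_le_mul htR hp (abs_nonneg _) (by linarith)
    have hx3 : |m| * |v1| ≤ R * A := mul_le_mul hRm hv1 (abs_nonneg _) (by linarith)
    linarith
  intro Q hQ
  obtain ⟨X, Y⟩ := Q
  change q * X - p * Y = m at hQ
  change ev n F X Y = 0
  obtain ⟨e1, e2⟩ := hpar X Y hQ
  have h1 := gl_eval n F p (m * v1) q (m * v2) (v1 * Y - v2 * X)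
  rw [hg0, eval_zero, ← e1, ← e2] at h1
  exact h1.symm

/-- a point of the line with large first coordinate -/
theorem line_pt (p q m : ℤ) (hpq : IsCoprime p q) (hp : p ≠ 0) (X : ℤ) :
    ∃ Q : ℤ × ℤ, q * Q.1 - p * Q.2 = m ∧ X < |Q.1| := by
  obtain ⟨a, b, hab⟩ := hpq
  obtain ⟨t, ht⟩ : ∃ t : ℤ, t = |X| + |m * b| + 1 := ⟨_, rfl⟩
  refine ⟨(t * p + m * b, t * q - m * a), ?_, ?_⟩
  · change q * (t * p + m * b) - p * (t * q - m * a) = m
    linear_combination m * hab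
  · change X < |t * p + m * b|
    have h1 : |t * p| ≤ |t * p + m * b| + |m * b| := by
      have h2 := abs_sub (t * p + m * b) (m * b)
      rwa [add_sub_cancel_right] at h2
    have h3 : 1 ≤ |p| := Int.one_le_abs hp
    have h4 : 0 ≤ t := by
      rw [ht]
      positivity
    have h5 : t ≤ |t * p| := by
      rw [abs_mul, abs_of_nonneg h4]
      exact le_mul_of_one_le_right h4 h3
    have h6 := le_abs_self X
    linarith

end Pool.Agent.H15.SC
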