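import Pool.Agent.H15.SC.Rdef
import Pool.Agent.H15.SC.Core
import Pool.Agent.H15.SC.Rline
import Pool.Agent.H15.SC.Pt

/-! # [SC RR4] Step (R4), proportion

`H` large. `m = q x - p y`, `|m| ≤ Dd n H`. `p ≠ 0` (otherwise `|q| = 1`, `|x| ≤ Dd n H < X1`).
`line_van` with `A = ⌈A0 n H⌉₊ ≤ 2 A0`: threshold `C H^(1 + 1/50 + n/25 + 1/50) < X1` (`n ≥ 5`:
`n/2 - 1/100 > 26/25 + n/25`). So `F` vanishes at `Q(p,q,m)` (`line_pt` with `X = 2H`, chosen once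
for each triple). Number of triples `≤ (2A+1)² (2 Dd + 1) ≤ C H^(1/10)`; each: `pt_count` with
`2H/|x| ≤ 1`: `#· K^(n+1) ≤ 2^n K^N`. -/

namespace Pool.Agent.H15.SC

open Finset Polynomial Pool.Agent.H72.ES Pool.Agent.H8.NoPt Pool.Agent.H8.MP

private theorem r4_cover {α β : Type*} (S : Finset α) (T : Finset β) (R : α → β → Prop)
    (hS : ∀ a ∈ S, ∃ P ∈ T, R a P) (b : ℝ)
    (hb : ∀ P ∈ T, ∀ U : Finset α, (∀ a ∈ U, a ∈ S ∧ R a P) → (U.card : ℝ) ≤ b) :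
    (S.card : ℝ) ≤ T.card * b := by
  classical
  have h1 : S ⊆ T.biUnion fun P => S.filter fun a => R a P := by
    intro a ha
    obtain ⟨P, hP, hR⟩ := hS a ha
    exact mem_biUnion.2 ⟨P, hP, mem_filter.2 ⟨ha, hR⟩⟩
  have h2 := (card_le_card h1).trans card_biUnion_le
  have h3 : (S.card : ℝ) ≤ ∑ P ∈ T, ((S.filter fun a => R a P).card : ℝ) := by exact_mod_cast h2
  refine h3.trans ((sum_le_sum fun P hP => hb P hP _ fun a ha => ?_).trans ?_)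
  · rwa [mem_filter] at ha
  · rw [sum_const, nsmul_eq_mul]

/-- the threshold of `line_van` is smaller than `X1` -/
private theorem r4_thr (n : ℕ) (hn : 5 ≤ n) : ∃ H0 : ℕ, ∀ H : ℕ, H0 ≤ H → 1 ≤ H →
    2 * (((n : ℝ) + 1) ^ 2 * H * (2 * (2 * A0 n H) * (Dd n H + 1)) ^ n) * (2 * A0 n H) <
      X1 n H := by
  obtain ⟨c, hc⟩ : ∃ c : ℝ, c = 4 * ((n : ℝ) + 1) ^ 2 * (4 * (2 * 8 ^ n + 1)) ^ n := ⟨_, rfl⟩
  refine ⟨⌈c⌉₊ + 1, fun H hH0 hH => ?_⟩
  have hH1 : (1 : ℝ) ≤ H := by exact_mod_cast hH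
  have hHp : (0 : ℝ) < H := by linarith
  have hcH : c < H := by
    have h1 := Nat.le_ceil c
    have h2 : ((⌈c⌉₊ + 1 : ℕ) : ℝ) ≤ H := by exact_mod_cast hH0
    push_cast at h2
    linarith
  have hn5 : (5 : ℝ) ≤ n := by exact_mod_cast hn
  have hn0 : (0 : ℝ) < n := by linarith
  obtain ⟨b, hb⟩ : ∃ b : ℝ, b = (H : ℝ) ^ (1 / 25 : ℝ) := ⟨_, rfl⟩
  have hb1 : 1 ≤ b := by
    rw [hb]
    exact Real.one_le_rpow hH1 (by norm_num)
  have hA1 : 1 ≤ A0 n H := Real.one_le_rpow hH1 (by positivity)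
  have hD : Dd n H + 1 ≤ (2 * 8 ^ n + 1) * b := by
    unfold Dd
    rw [← hb]
    linarith
  have hD0 : 0 ≤ Dd n H + 1 := by
    unfold Dd
    positivity
  have e1 : (A0 n H * b) ^ n * A0 n H * H = (H : ℝ) ^ (1 + 1 / 50 + (n : ℝ) / 25 +
      1 / (50 * (n : ℝ))) := by
    rw [hb]
    unfold A0
    rw [← Real.rpow_add hHp, ← Real.rpow_natCast, ← Real.rpow_mul hHp.le, ← Real.rpow_add hHp,
      mul_comm, ← Real.rpow_one_add' hHp.le (by positivity)]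
    congr 1
    field_simp
    ring
  calc 2 * (((n : ℝ) + 1) ^ 2 * H * (2 * (2 * A0 n H) * (Dd n H + 1)) ^ n) * (2 * A0 n H) ≤
      2 * (((n : ℝ) + 1) ^ 2 * H * (2 * (2 * A0 n H) * ((2 * 8 ^ n + 1) * b)) ^ n) *
        (2 * A0 n H) := by gcongr
    _ = c * ((A0 n H * b) ^ n * A0 n H * H) := by
      have e2 : 2 * (2 * A0 n H) * ((2 * 8 ^ n + 1) * b) = (4 * (2 * 8 ^ n + 1)) * (A0 n H * b) := by
        ring
      rw [e2, mul_pow, hc]
      ring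
    _ < H * ((A0 n H * b) ^ n * A0 n H * H) := by
      have : 0 < (A0 n H * b) ^ n * A0 n H * H := by positivity
      exact mul_lt_mul_of_pos_right hcH this
    _ ≤ X1 n H := by
      rw [e1, ← Real.rpow_one_add' hHp.le (by positivity)]
      unfold X1
      refine Real.rpow_le_rpow_of_exponent_le hH1 ?_
      have h4 : 1 / (50 * (n : ℝ)) ≤ 1 / 250 := by
        rw [div_le_div_iff₀ (by positivity) (by norm_num)]
        linarith
      linarith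

theorem r4 (n : ℕ) (hn : 5 ≤ n) : Small n (101 / 100) fun H a => ∃ (p q : ℤ) (h : ℤ[X]),
    LinS n H (arr a) p q h ∧ ∃ P : ℤ × ℤ, ZP n (arr a) P ∧ X1 n H ≤ |(P.1 : ℝ)| ∧
      |(q * P.1 - p * P.2 : ℝ)| ≤ Dd n H := by
  classical
  obtain ⟨H0, hH0⟩ := r4_thr n hn
  refine small_of_large (s := 2) (t := 101 / 100) (by norm_num) H0 (150 * 8 ^ n * 2 ^ n) 0
    fun H hHH hH2 S hS => ?_
  have hH : 1 ≤ H := by omega
  have hH1 : (1 : ℝ) ≤ H := by exact_mod_cast hH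
  have hHp : (0 : ℝ) < H := by linarith
  have hn5 : (5 : ℝ) ≤ n := by exact_mod_cast hn
  have hthr := hH0 H hHH hH
  obtain ⟨K, hK⟩ : ∃ K : ℝ, K = 2 * H + 1 := ⟨_, rfl⟩
  have hKH : (H : ℝ) ≤ K := by rw [hK]; linarith
  have hK0 : 0 < K := by linarith
  obtain ⟨V, hV⟩ : ∃ V : ℝ, V = K ^ (Fintype.card (Ix n)) := ⟨_, rfl⟩
  have hV0 : 0 < V := by rw [hV]; positivity
  rw [← hK, ← hV]
  have hA1 : 1 ≤ A0 n H := Real.one_le_rpow hH1 (by positivity)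
  have hb1 : 1 ≤ (H : ℝ) ^ (1 / 25 : ℝ) := Real.one_le_rpow hH1 (by norm_num)
  have h81 : (1 : ℝ) ≤ 8 ^ n := one_le_pow₀ (by norm_num)
  have hD1 : 1 ≤ Dd n H := by
    unfold Dd
    nlinarith
  obtain ⟨A, hA⟩ : ∃ A : ℕ, A = ⌈A0 n H⌉₊ := ⟨_, rfl⟩
  have hAle : (A : ℝ) ≤ 2 * A0 n H := by
    have := Nat.ceil_lt_add_one (by linarith : 0 ≤ A0 n H)
    rw [← hA] at this
    linarith
  have hAge : A0 n H ≤ A := by
    rw [hA]
    exact Nat.le_ceil _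
  have hAA1 : 1 ≤ A := by
    have : (1 : ℝ) ≤ A := hA1.trans hAge
    exact_mod_cast this
  obtain ⟨D, hD⟩ : ∃ D : ℕ, D = ⌊Dd n H⌋₊ := ⟨_, rfl⟩
  have hDle : (D : ℝ) ≤ Dd n H := by
    rw [hD]
    exact Nat.floor_le (by linarith)
  have hAr0 : (0 : ℝ) ≤ A := Nat.cast_nonneg A
  have h1 := r4_cover S (Icc (-(A : ℤ)) A ×ˢ (Icc (-(A : ℤ)) A ×ˢ Icc (-(D : ℤ)) D))
    (fun a t => IsCoprime t.1 t.2.1 ∧ t.1 ≠ 0 ∧ ∀ Q : ℤ × ℤ, t.2.1 * Q.1 - t.1 * Q.2 = t.2.2 →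
      ev n (arr a) Q.1 Q.2 = 0) (by
    intro a ha
    obtain ⟨hbox, p, q, h, hL, P, hZ, hX, hm⟩ := hS a ha
    obtain ⟨m, hme⟩ : ∃ m : ℤ, m = q * P.1 - p * P.2 := ⟨_, rfl⟩
    have hmr : (m : ℝ) = q * P.1 - p * P.2 := by
      rw [hme]
      push_cast
      ring
    rw [← hmr] at hm
    have hF : Bdd n H (arr a) := by
      intro i j hij
      unfold arr
      rw [dif_pos hij]
      exact hbox _
    have hcop := hL.lin.cop
    have hpA : |p| ≤ (A : ℤ) := by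
      have : |(p : ℝ)| ≤ (A : ℝ) := hL.hp.trans hAge
      exact_mod_cast this
    have hqA : |q| ≤ (A : ℤ) := by
      have : |(q : ℝ)| ≤ (A : ℝ) := hL.hq.trans hAge
      exact_mod_cast this
    have hmD : |m| ≤ (D : ℤ) := by
      have h1 : m.natAbs ≤ D := by
        rw [hD]
        apply Nat.le_floor
        rwa [Nat.cast_natAbs, Int.cast_abs]
      rw [Int.abs_eq_natAbs]
      omega
    have hbig : Dd n H < X1 n H := by
      refine lt_of_le_of_lt ?_ hthr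
      have h2 : 1 ≤ 2 * (2 * A0 n H) * (Dd n H + 1) := by nlinarith
      have h3 : Dd n H ≤ 2 * (2 * A0 n H) * (Dd n H + 1) := by nlinarith
      have h4 : Dd n H ≤ (2 * (2 * A0 n H) * (Dd n H + 1)) ^ n :=
        h3.trans (le_self_pow₀ h2 (by omega))
      have h5 : 0 ≤ (2 * (2 * A0 n H) * (Dd n H + 1)) ^ n := by positivity
      have h6 : (1 : ℝ) ≤ ((n : ℝ) + 1) ^ 2 * H := by nlinarith
      have h7 : (2 * (2 * A0 n H) * (Dd n H + 1)) ^ n ≤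
          ((n : ℝ) + 1) ^ 2 * H * (2 * (2 * A0 n H) * (Dd n H + 1)) ^ n :=
        le_mul_of_one_le_left h5 h6
      have h8 : 0 ≤ ((n : ℝ) + 1) ^ 2 * H * (2 * (2 * A0 n H) * (Dd n H + 1)) ^ n := by positivity
      nlinarith
    have hp0 : p ≠ 0 := by
      rintro rfl
      have hu : IsUnit q := isCoprime_zero_left.1 hcop
      have hq1 : |(q : ℝ)| = 1 := by
        have := Int.isUnit_iff_abs_eq.1 hu
        exact_mod_cast this
      have h3 : |(m : ℝ)| = |(P.1 : ℝ)| := by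
        rw [hmr, Int.cast_zero, zero_mul, sub_zero, abs_mul, hq1, one_mul]
      rw [h3] at hm
      linarith
    refine ⟨(p, q, m), mem_product.2 ⟨mem_Icc.2 (abs_le.1 hpA), mem_product.2
      ⟨mem_Icc.2 (abs_le.1 hqA), mem_Icc.2 (abs_le.1 hmD)⟩⟩, hcop, hp0, ?_⟩
    refine line_van (by omega) hH hF p q m hcop A hAA1 hpA hqA P hZ.1 hme.symm ?_
    have h2 : 2 * (((n : ℝ) + 1) ^ 2 * H * (2 * A * (|(m : ℝ)| + 1)) ^ n) * A < |(P.1 : ℝ)| := by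
      refine lt_of_le_of_lt ?_ (hthr.trans_le hX)
      have h3 : |(m : ℝ)| + 1 ≤ Dd n H + 1 := by linarith
      gcongr
    exact_mod_cast h2) (2 ^ n * V / (H : ℝ) ^ (n + 1)) (by
    intro t _ U hU
    rcases U.eq_empty_or_nonempty with rfl | ⟨a0, ha0⟩
    · rw [card_empty, Nat.cast_zero]
      positivity
    · obtain ⟨-, hcop, hp0, -⟩ := hU a0 ha0
      obtain ⟨Q, hQ1, hQ2⟩ := line_pt t.1 t.2.1 t.2.2 hcop hp0 (2 * H)
      have hQ0 : Q.1 ≠ 0 := by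
        intro h
        rw [h, abs_zero] at hQ2
        omega
      have h2 := pt_count n H Q hQ0 U fun a ha =>
        ⟨(hS a (hU a ha).1).1, (hU a ha).2.2.2 Q hQ1⟩
      rw [← hK, ← hV] at h2
      have hQr : (2 * H : ℝ) < |(Q.1 : ℝ)| := by exact_mod_cast hQ2
      have h3 : 2 * H / |(Q.1 : ℝ)| + 1 ≤ 2 := by
        have : 2 * H / |(Q.1 : ℝ)| ≤ 1 := by
          rw [div_le_one (by linarith)]
          exact hQr.le
        linarith
      have h4 : 0 ≤ 2 * H / |(Q.1 : ℝ)| + 1 := by positivity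
      rw [le_div_iff₀ (by positivity)]
      calc (U.card : ℝ) * (H : ℝ) ^ (n + 1) ≤ (U.card : ℝ) * K ^ (n + 1) := by gcongr
        _ ≤ _ := h2
        _ ≤ _ := by gcongr)
  refine h1.trans ?_
  rw [card_product, card_product, Int.card_Icc, Int.card_Icc]
  have hA3 : (((A : ℤ) + 1 - -(A : ℤ)).toNat : ℝ) ≤ 5 * A0 n H := by
    have h3 : ((A : ℤ) + 1 - -(A : ℤ)).toNat = 2 * A + 1 := by omega
    rw [h3]
    push_cast
    linarith
  have hD3 : (((D : ℤ) + 1 - -(D : ℤ)).toNat : ℝ) ≤ 3 * Dd n H := by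
    have h3 : ((D : ℤ) + 1 - -(D : ℤ)).toNat = 2 * D + 1 := by omega
    rw [h3]
    push_cast
    linarith
  push_cast
  have hA0 : (0 : ℝ) ≤ (((A : ℤ) + 1 - -(A : ℤ)).toNat : ℝ) := Nat.cast_nonneg _
  have hD0 : (0 : ℝ) ≤ (((D : ℤ) + 1 - -(D : ℤ)).toNat : ℝ) := Nat.cast_nonneg _
  have h5 : A0 n H * (A0 n H * (H : ℝ) ^ (1 / 25 : ℝ)) ≤ H := by
    unfold A0
    rw [← Real.rpow_add hHp, ← Real.rpow_add hHp]
    calc _ ≤ (H : ℝ) ^ (1 : ℝ) := by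
          refine Real.rpow_le_rpow_of_exponent_le hH1 ?_
          have h4 : 1 / (50 * (n : ℝ)) ≤ 1 / 250 := by
            rw [div_le_div_iff₀ (by positivity) (by norm_num)]
            linarith
          linarith
      _ = H := Real.rpow_one _
  have h6 : (H : ℝ) ^ (-2 : ℝ) = 1 / (H : ℝ) ^ 2 := by
    rw [Real.rpow_neg hHp.le, one_div]
    norm_num
  rw [h6, pow_zero, mul_one]
  calc (((A : ℤ) + 1 - -(A : ℤ)).toNat : ℝ) * ((((A : ℤ) + 1 - -(A : ℤ)).toNat : ℝ) *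
        (((D : ℤ) + 1 - -(D : ℤ)).toNat : ℝ)) * (2 ^ n * V / (H : ℝ) ^ (n + 1)) ≤
      (5 * A0 n H) * ((5 * A0 n H) * (3 * Dd n H)) * (2 ^ n * V / (H : ℝ) ^ (n + 1)) := by
        gcongr
    _ = 150 * 8 ^ n * 2 ^ n * V * ((A0 n H * (A0 n H * (H : ℝ) ^ (1 / 25 : ℝ))) /
        (H : ℝ) ^ (n + 1)) := by
        unfold Dd
        ring
    _ ≤ 150 * 8 ^ n * 2 ^ n * V * (H / (H : ℝ) ^ (n + 1)) := by gcongr
    _ ≤ 150 * 8 ^ n * 2 ^ n * V * (1 / (H : ℝ) ^ 2) := by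
        have h7 : (H : ℝ) / (H : ℝ) ^ (n + 1) ≤ 1 / (H : ℝ) ^ 2 := by
          rw [div_le_div_iff₀ (by positivity) (by positivity), one_mul, ← pow_succ']
          exact pow_le_pow_right₀ hH1 (by omega)
        gcongr
    _ = _ := by ring

end Pool.Agent.H15.SC
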