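import Pool.Agent.H15.SC.Rfv

/-! # [SC RNEAR] Points near the linear factor (R4), pointwise

`near_lin`: `z = y/x`, `|z| ≤ 1`, `f(z) = (q - p z) h(z)` (`hp_fac`), `‖f(z)‖ ≤ 8^n H/|x|`
(`fz_le`). `θ = q/p`, `‖h(θ)‖ = |fv (n-1) h p q|/|p|^(n-1) ≥ H^(49/50)/A0^(n-1) ≥ H^(24/25)`
(`fv_hom`, `A0^(n-1) ≤ H^(1/50)`), `‖z - θ‖ ≤ L/|x|` (`NearB.nr`), `h_lip`: by `hsmall`
`‖h(z)‖ ≥ H^(24/25)/2`. So `|q x - p y| = |x| |q - p z| ≤ 8^n H/‖h(z)‖ ≤ Dd n H`. -/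

namespace Pool.Agent.H15.SC

open Finset Polynomial Pool.Agent.H72.ES Pool.Agent.H8.NoPt Pool.Agent.H8.MP

theorem near_lin {n H : ℕ} (hn : 4 ≤ n) (hH : 1 ≤ H) {F : ℕ → ℕ → ℤ} (hF : Bdd n H F)
    {p q : ℤ} {h : ℤ[X]} (hL : LinS n H F p q h) {L : ℝ} (hL1 : 1 ≤ L) {θ : ℂ} {P : ℤ × ℤ}
    (hP : ZP n F P) (hN : NearB n F L θ P) (hx : L ≤ |(P.1 : ℝ)|)
    (hsmall : 8 ^ n * (2 ^ n * (n + 1) * H) * (L / |(P.1 : ℝ)|) ≤
      (H : ℝ) ^ (24 / 25 : ℝ) / 2)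
    (hθ : (p : ℂ) * θ = q) : |(q * P.1 - p * P.2 : ℝ)| ≤ Dd n H := by
  obtain ⟨x, y⟩ := P
  have hnr : ‖(y : ℂ) / x - θ‖ ≤ L / |(x : ℝ)| := hN.nr
  have hfz := fz_le (by omega : 1 ≤ n) hF (x, y) hP
  obtain ⟨-, hyx⟩ := hP
  change |y| ≤ |x| at hyx
  change L ≤ |(x : ℝ)| at hx
  change 8 ^ n * (2 ^ n * (n + 1) * H) * (L / |(x : ℝ)|) ≤ (H : ℝ) ^ (24 / 25 : ℝ) / 2 at hsmall
  change |(q * x - p * y : ℝ)| ≤ Dd n H
  change x ≠ 0 → ‖(hp n F).eval ((y : ℂ) / x)‖ ≤ 8 ^ n * H / |(x : ℝ)| at hfz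
  have hxp : 0 < |(x : ℝ)| := by linarith
  have hx0 : x ≠ 0 := by
    rintro rfl
    simp at hxp
  have hxc : (x : ℂ) ≠ 0 := by exact_mod_cast hx0
  have hfz := hfz hx0
  have hH0 : (0 : ℝ) < H := by exact_mod_cast hH
  have hH1 : (1 : ℝ) ≤ H := by exact_mod_cast hH
  have hp0 : p ≠ 0 := by
    rintro rfl
    have h1 : (q : ℂ) = 0 := by
      rw [← hθ]
      simp
    have h2 : q = 0 := by exact_mod_cast h1
    have h3 := hL.lin.cop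
    rw [h2, isCoprime_zero_left] at h3
    exact not_isUnit_zero h3
  have hpc : (p : ℂ) ≠ 0 := by exact_mod_cast hp0
  have hpr : (0 : ℝ) < |(p : ℝ)| := abs_pos.2 (by exact_mod_cast hp0)
  have hθ' : θ = (q : ℂ) / p := by
    rw [eq_div_iff hpc, mul_comm]
    exact hθ
  have hyxr : |(y : ℝ)| ≤ |(x : ℝ)| := by exact_mod_cast hyx
  have hz1 : ‖(y : ℂ) / x‖ ≤ 1 := by
    rw [norm_div, Complex.norm_intCast, Complex.norm_intCast]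
    exact div_le_one_of_le₀ hyxr (abs_nonneg _)
  -- the value of `h` at `θ`
  have hdeg : h.natDegree ≤ n - 1 := hL.lin.deg.le
  have hA : |(p : ℝ)| ^ (n - 1) ≤ (H : ℝ) ^ (1 / 50 : ℝ) := by
    have h1 : |(p : ℝ)| ^ (n - 1) ≤ (A0 n H) ^ (n - 1) := pow_le_pow_left₀ hpr.le hL.hp _
    refine h1.trans ?_
    unfold A0
    rw [← Real.rpow_natCast, ← Real.rpow_mul hH0.le]
    refine Real.rpow_le_rpow_of_exponent_le hH1 ?_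
    have hn0 : (0 : ℝ) < n := by
      have : 0 < n := by omega
      exact_mod_cast this
    have h2 : ((n - 1 : ℕ) : ℝ) ≤ n := by exact_mod_cast Nat.sub_le n 1
    have h3 : 1 / (50 * (n : ℝ)) * n = 1 / 50 := by
      field_simp
    calc 1 / (50 * (n : ℝ)) * ((n - 1 : ℕ) : ℝ) ≤ 1 / (50 * (n : ℝ)) * n :=
          mul_le_mul_of_nonneg_left h2 (by positivity)
      _ = 1 / 50 := h3
  have hB0 : (0 : ℝ) < (H : ℝ) ^ (1 / 50 : ℝ) := Real.rpow_pos_of_pos hH0 _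
  have hhθ : (H : ℝ) ^ (24 / 25 : ℝ) ≤ ‖(h.map (Int.castRingHom ℂ)).eval θ‖ := by
    have h1 := fv_hom hdeg p q hp0
    have h2 : |(fv (n - 1) h p q : ℝ)| =
        |(p : ℝ)| ^ (n - 1) * ‖(h.map (Int.castRingHom ℂ)).eval θ‖ := by
      rw [hθ', ← Complex.norm_intCast, h1, norm_mul, norm_pow, Complex.norm_intCast]
    have h3 := hL.hv
    rw [h2] at h3
    have h4 : (H : ℝ) ^ (49 / 50 : ℝ) = (H : ℝ) ^ (1 / 50 : ℝ) * (H : ℝ) ^ (24 / 25 : ℝ) := by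
      rw [← Real.rpow_add hH0]
      norm_num
    rw [h4] at h3
    have h5 : (H : ℝ) ^ (1 / 50 : ℝ) * (H : ℝ) ^ (24 / 25 : ℝ) ≤
        (H : ℝ) ^ (1 / 50 : ℝ) * ‖(h.map (Int.castRingHom ℂ)).eval θ‖ :=
      h3.trans (mul_le_mul_of_nonneg_right hA (norm_nonneg _))
    exact le_of_mul_le_mul_left h5 hB0
  have hC0 : (0 : ℝ) < (H : ℝ) ^ (24 / 25 : ℝ) := Real.rpow_pos_of_pos hH0 _
  have hhz : (H : ℝ) ^ (24 / 25 : ℝ) / 2 ≤ ‖(h.map (Int.castRingHom ℂ)).eval ((y : ℂ) / x)‖ := by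
    have h1 := h_lip (by omega : 1 ≤ n) hF hL.lin ((y : ℂ) / x) θ (by linarith)
      (by linarith [hN.th])
    have h2 : ‖(h.map (Int.castRingHom ℂ)).eval ((y : ℂ) / x) -
        (h.map (Int.castRingHom ℂ)).eval θ‖ ≤ (H : ℝ) ^ (24 / 25 : ℝ) / 2 :=
      (h1.trans (mul_le_mul_of_nonneg_left hnr (by positivity))).trans hsmall
    have h3 := norm_sub_norm_le ((h.map (Int.castRingHom ℂ)).eval θ)
      ((h.map (Int.castRingHom ℂ)).eval ((y : ℂ) / x))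
    rw [norm_sub_rev] at h3
    linarith
  have hfac := hp_fac hL.lin ((y : ℂ) / x)
  rw [hfac, norm_mul] at hfz
  have hqp : |(q * x - p * y : ℝ)| = |(x : ℝ)| * ‖(q : ℂ) - p * ((y : ℂ) / x)‖ := by
    rw [← Complex.norm_intCast, ← norm_mul]
    have h1 : (x : ℂ) * ((q : ℂ) - p * ((y : ℂ) / x)) = (((q * x - p * y : ℤ)) : ℂ) := by
      push_cast
      field_simp
    rw [h1, Complex.norm_intCast]
    push_cast
    rfl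
  rw [hqp]
  have h1 : ‖(q : ℂ) - p * ((y : ℂ) / x)‖ * ((H : ℝ) ^ (24 / 25 : ℝ) / 2) ≤
      8 ^ n * H / |(x : ℝ)| :=
    (mul_le_mul_of_nonneg_left hhz (norm_nonneg _)).trans hfz
  have h2 : |(x : ℝ)| * ‖(q : ℂ) - p * ((y : ℂ) / x)‖ * ((H : ℝ) ^ (24 / 25 : ℝ) / 2) ≤
      8 ^ n * H := by
    have h3 := mul_le_mul_of_nonneg_left h1 hxp.le
    have h4 : |(x : ℝ)| * (8 ^ n * H / |(x : ℝ)|) = 8 ^ n * H := by
      field_simp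
    rw [h4] at h3
    linarith
  have h5 : (H : ℝ) = (H : ℝ) ^ (1 / 25 : ℝ) * (H : ℝ) ^ (24 / 25 : ℝ) := by
    rw [← Real.rpow_add hH0]
    norm_num
  unfold Dd
  refine le_of_mul_le_mul_right ?_ (half_pos hC0)
  refine h2.trans (le_of_eq ?_)
  calc (8 : ℝ) ^ n * H = 8 ^ n * ((H : ℝ) ^ (1 / 25 : ℝ) * (H : ℝ) ^ (24 / 25 : ℝ)) := by rw [← h5]
    _ = 2 * 8 ^ n * (H : ℝ) ^ (1 / 25 : ℝ) * ((H : ℝ) ^ (24 / 25 : ℝ) / 2) := by ring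

end Pool.Agent.H15.SC
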