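import Pool.Agent.H15.SC.Core
import Pool.Agent.H15.SC.Rdef
import Pool.Agent.H15.SC.Rfac
import Pool.Agent.H8.NoPt.IrrC

/-! # [SC RSM] Few vectors with a leading form of type (R1), (R2), (R8)

`lead_to_vec`: `fiber_count` with `p i := i.1.1 + i.1.2 = n` (the `n + 1` coordinates of the
leading form): a fibre injects by `a ↦ lead n (arr a)` (`IrrCAux.ext_of`, `IrrCAux.arr_lead`,
`IrrCAux.card_ix` in `NoPt.IrrC`).
`r8`: `m = 1`; `r1`: `fac2_count`, `H^(n-1) (1 + log H) K^(-n-1) ≤ C H^(-3/2)`;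
`r2`: `fac1_count` with `A = ⌈A0 n H⌉` (`≥ A0`, `≥ 1`): `C H^n A0^(2-n) K^(-n-1)`, exponent
`-1 - (n-2)/(50 n) ≤ -1 - 3/250`; `phi_fac`: `A = 1` (`g ≠ 0` has a coefficient of absolute value
`≥ 1`). -/

namespace Pool.Agent.H15.SC

open Finset Polynomial Pool.Agent.H72.ES Pool.Agent.H8.NoPt Pool.Agent.H8.MP

theorem lead_to_vec (n H : ℕ) (Q : ℤ[X] → Prop) (m : ℝ) (hm0 : 0 ≤ m)
    (hm : ∀ T : Finset ℤ[X], (∀ p ∈ T, Q p ∧ p.natDegree ≤ n ∧ ∀ i, |p.coeff i| ≤ (H : ℤ)) →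
      (T.card : ℝ) ≤ m) (S : Finset (Ix n → ℤ))
    (hS : ∀ a ∈ S, (∀ i, |a i| ≤ (H : ℤ)) ∧ Q (lead n (arr a))) :
    (S.card : ℝ) * (2 * H + 1 : ℝ) ^ (n + 1) ≤ m * (2 * H + 1 : ℝ) ^ (Fintype.card (Ix n)) := by
  classical
  have hmain := fiber_count (fun i : Ix n => ((i.1.1 : ℕ) + (i.1.2 : ℕ) = n)) H S
    (fun a ha => (hS a ha).1) m hm0 ?_
  · have hc := IrrCAux.card_ix n
    have h0 : (0 : ℝ) ≤ H := Nat.cast_nonneg H
    have h1 : (1 : ℝ) ≤ 2 * H + 1 := by linarith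
    have h2 := pow_le_pow_right₀ h1 hc
    calc (S.card : ℝ) * (2 * H + 1 : ℝ) ^ (n + 1)
        ≤ m * (2 * H + 1 : ℝ) ^ (Fintype.card {i : Ix n // ¬ ((i.1.1 : ℕ) + (i.1.2 : ℕ) = n)}) *
            (2 * H + 1 : ℝ) ^ (n + 1) := by gcongr
      _ = m * (2 * H + 1 : ℝ) ^ (Fintype.card {i : Ix n // ¬ ((i.1.1 : ℕ) + (i.1.2 : ℕ) = n)} + (n + 1)) := by
          rw [pow_add]; ring
      _ ≤ _ := by gcongr
  · intro c _ T hT
    have hinj : Set.InjOn (fun a : Ix n → ℤ => lead n (arr a)) T := by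
      intro a ha b hb hab
      refine IrrCAux.ext_of (hT a ha).2 (hT b hb).2 ?_
      intro j hj
      have := congrArg (fun P => Polynomial.coeff P j) hab
      simp only [IrrCAux.lead_coeff, if_pos hj] at this
      rwa [IrrCAux.arr_lead a j hj, IrrCAux.arr_lead b j hj] at this
    rw [← Finset.card_image_of_injOn hinj]
    refine hm _ ?_
    intro P hP
    obtain ⟨a, ha, rfl⟩ := Finset.mem_image.1 hP
    have haS := hS a (hT a ha).1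
    refine ⟨haS.2, ?_, ?_⟩
    · rw [Polynomial.natDegree_le_iff_coeff_eq_zero]
      intro k hk
      rw [IrrCAux.lead_coeff, if_neg (by omega)]
    · intro k
      rw [IrrCAux.lead_coeff]
      split_ifs with hk
      · rw [IrrCAux.arr_lead a k hk]
        exact haS.1 _
      · simp

private theorem small_of (n : ℕ) (s : ℝ) (Q : ℕ → ℤ[X] → Prop) (C : ℝ) (hC : 0 ≤ C)
    (h : ∀ H : ℕ, 1 ≤ H → ∀ T : Finset ℤ[X],
      (∀ p ∈ T, Q H p ∧ p.natDegree ≤ n ∧ ∀ i, |p.coeff i| ≤ (H : ℤ)) →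
      (T.card : ℝ) ≤ C * (H : ℝ) ^ (-s) * (H : ℝ) ^ (n + 1)) :
    Small n s fun H a => Q H (lead n (arr a)) := by
  refine ⟨C, fun H hH S hS => ?_⟩
  have h0 : (0 : ℝ) ≤ H := Nat.cast_nonneg H
  have hK : (0 : ℝ) < (2 * H + 1 : ℝ) ^ (n + 1) := by positivity
  have h1 := lead_to_vec n H (Q H) (C * (H : ℝ) ^ (-s) * (2 * H + 1 : ℝ) ^ (n + 1)) (by positivity)
    (fun T hT => (h H hH T hT).trans (by gcongr; linarith)) S hS
  have h2 : (S.card : ℝ) * (2 * H + 1 : ℝ) ^ (n + 1) ≤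
      C * (H : ℝ) ^ (-s) * (2 * H + 1 : ℝ) ^ (Fintype.card (Ix n)) * (2 * H + 1 : ℝ) ^ (n + 1) := by
    refine h1.trans (le_of_eq ?_)
    ring
  exact le_of_mul_le_mul_right h2 hK

theorem r8 (n : ℕ) (hn : 1 ≤ n) : Small n 2 fun _ a => lead n (arr a) = 0 := by
  refine small_of n 2 (fun _ p => p = 0) 1 zero_le_one ?_
  intro H hH T hT
  have h1 : (1 : ℝ) ≤ H := by exact_mod_cast hH
  have h0 : (0 : ℝ) < H := by linarith
  have h2 : T.card ≤ 1 := by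
    rw [Finset.card_le_one]
    intro a ha b hb
    rw [(hT a ha).1, (hT b hb).1]
  have h3 : (T.card : ℝ) ≤ 1 := by exact_mod_cast h2
  refine h3.trans ?_
  rw [one_mul, ← Real.rpow_natCast, ← Real.rpow_add h0]
  refine Real.one_le_rpow h1 ?_
  push_cast
  have : (1 : ℝ) ≤ n := by exact_mod_cast hn
  linarith

theorem r1 (n : ℕ) (hn : 4 ≤ n) : Small n (3 / 2) fun _ a => lead n (arr a) ≠ 0 ∧
    ∃ k, 2 ≤ k ∧ k + 2 ≤ n ∧ Fac n k (arr a) := by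
  obtain ⟨C, hC, hc⟩ := fac2_count n hn
  obtain ⟨D, hD, hd⟩ := log_pow_le (ε := 1 / 2) (by norm_num) 1
  refine small_of n (3 / 2) (fun _ p => p ≠ 0 ∧ ∃ k, 2 ≤ k ∧ k + 2 ≤ n ∧
    ∃ g h : ℤ[X], g.natDegree ≤ k ∧ h.natDegree ≤ n - k ∧ p = g * h) (C * D) (by positivity) ?_
  intro H hH T hT
  have h1 : (1 : ℝ) ≤ H := by exact_mod_cast hH
  have h0 : (0 : ℝ) < H := by linarith
  have h2 := hc H hH T (by
    intro p hp
    obtain ⟨⟨h3, k, h4, h5, g, h, h6, h7, h8⟩, h9, h10⟩ := hT p hp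
    exact ⟨h3, h9, h10, k, g, h, h4, h5, h6, h7, h8⟩)
  refine h2.trans ?_
  have h3 := hd H hH
  rw [pow_one] at h3
  calc C * (H : ℝ) ^ (n - 1) * (1 + Real.log H) ≤ C * (H : ℝ) ^ (n - 1) * (D * (H : ℝ) ^ (1 / 2 : ℝ)) := by
        gcongr
    _ = C * D * ((H : ℝ) ^ (n - 1) * (H : ℝ) ^ (1 / 2 : ℝ)) := by ring
    _ = C * D * ((H : ℝ) ^ (-(3 / 2) : ℝ) * (H : ℝ) ^ (n + 1)) := by
        congr 1
        rw [← Real.rpow_natCast, ← Real.rpow_natCast, ← Real.rpow_add h0, ← Real.rpow_add h0]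
        congr 1
        rw [Nat.cast_sub (by omega)]
        push_cast
        ring
    _ = _ := by ring

theorem r2 (n : ℕ) (hn : 5 ≤ n) : Small n (101 / 100) fun H a => lead n (arr a) ≠ 0 ∧
    ∃ g h : ℤ[X], g.natDegree ≤ 1 ∧ h.natDegree ≤ n - 1 ∧ lead n (arr a) = g * h ∧
      ∃ i, A0 n H < |(g.coeff i : ℝ)| := by
  obtain ⟨C, hC, hc⟩ := fac1_count n (by omega)
  refine small_of n (101 / 100) (fun H p => p ≠ 0 ∧
    ∃ g h : ℤ[X], g.natDegree ≤ 1 ∧ h.natDegree ≤ n - 1 ∧ p = g * h ∧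
      ∃ i, A0 n H < |(g.coeff i : ℝ)|) C hC.le ?_
  intro H hH T hT
  have h1 : (1 : ℝ) ≤ H := by exact_mod_cast hH
  have h0 : (0 : ℝ) < H := by linarith
  have hn0 : (5 : ℝ) ≤ n := by exact_mod_cast hn
  have hA : 0 < A0 n H := Real.rpow_pos_of_pos h0 _
  have hA1 : 1 ≤ ⌈A0 n H⌉₊ := Nat.one_le_iff_ne_zero.2 (Nat.ceil_pos.2 hA).ne'
  have h2 := hc H hH ⌈A0 n H⌉₊ hA1 T (by
    intro p hp
    obtain ⟨⟨h3, g, h, h4, h5, h6, i, h7⟩, h9, h10⟩ := hT p hp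
    refine ⟨h3, h9, h10, g, h, h4, h5, h6, i, ?_⟩
    have h8 : ⌈A0 n H⌉₊ ≤ (g.coeff i).natAbs := by
      refine Nat.ceil_le.2 ?_
      rw [Nat.cast_natAbs]
      push_cast
      exact h7.le
    rw [Int.abs_eq_natAbs]
    exact_mod_cast h8)
  refine h2.trans ?_
  have h3 : (H : ℝ) ^ (1 / 100 : ℝ) ≤ (⌈A0 n H⌉₊ : ℝ) ^ (n - 2) := by
    have h4 : A0 n H ≤ (⌈A0 n H⌉₊ : ℝ) := Nat.le_ceil _
    refine le_trans ?_ (pow_le_pow_left₀ hA.le h4 (n - 2))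
    unfold A0
    rw [← Real.rpow_natCast ((H : ℝ) ^ (1 / (50 * (n : ℝ)))), ← Real.rpow_mul h0.le]
    refine Real.rpow_le_rpow_of_exponent_le h1 ?_
    rw [Nat.cast_sub (by omega), div_mul_eq_mul_div, div_le_div_iff₀ (by norm_num) (by positivity)]
    push_cast
    linarith
  have h5 : (0 : ℝ) < (H : ℝ) ^ (1 / 100 : ℝ) := Real.rpow_pos_of_pos h0 _
  calc C * (H : ℝ) ^ n / (⌈A0 n H⌉₊ : ℝ) ^ (n - 2) ≤ C * (H : ℝ) ^ n / (H : ℝ) ^ (1 / 100 : ℝ) := by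
        gcongr
    _ = C * ((H : ℝ) ^ n * (H : ℝ) ^ (-(1 / 100) : ℝ)) := by
        rw [Real.rpow_neg h0.le, mul_div_assoc, div_eq_mul_inv]
    _ = C * ((H : ℝ) ^ (-(101 / 100) : ℝ) * (H : ℝ) ^ (n + 1)) := by
        congr 1
        rw [← Real.rpow_natCast, ← Real.rpow_natCast, ← Real.rpow_add h0, ← Real.rpow_add h0]
        congr 1
        push_cast
        ring
    _ = _ := by ring

theorem phi_fac (n : ℕ) (hn : 3 ≤ n) : Small n 1 fun _ a => lead n (arr a) ≠ 0 ∧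
    Fac n 1 (arr a) := by
  obtain ⟨C, hC, hc⟩ := fac1_count n hn
  refine small_of n 1 (fun _ p => p ≠ 0 ∧
    ∃ g h : ℤ[X], g.natDegree ≤ 1 ∧ h.natDegree ≤ n - 1 ∧ p = g * h) C hC.le ?_
  intro H hH T hT
  have h1 : (1 : ℝ) ≤ H := by exact_mod_cast hH
  have h0 : (0 : ℝ) < H := by linarith
  have h2 := hc H hH 1 le_rfl T (by
    intro p hp
    obtain ⟨⟨h3, g, h, h4, h5, h6⟩, h9, h10⟩ := hT p hp
    refine ⟨h3, h9, h10, g, h, h4, h5, h6, ?_⟩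
    have hg : g ≠ 0 := by
      rintro rfl
      exact h3 (by rw [h6, zero_mul])
    refine ⟨g.natDegree, ?_⟩
    have h7 : g.coeff g.natDegree ≠ 0 := by
      rw [Polynomial.coeff_natDegree]
      exact Polynomial.leadingCoeff_ne_zero.2 hg
    exact_mod_cast Int.one_le_abs h7)
  refine h2.trans (le_of_eq ?_)
  rw [Nat.cast_one, one_pow, div_one, mul_assoc]
  congr 1
  rw [← Real.rpow_natCast, ← Real.rpow_natCast, ← Real.rpow_add h0]
  congr 1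
  push_cast
  ring

end Pool.Agent.H15.SC
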