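import Pool.Agent.H15.SC.Rclr
import Pool.Agent.H15.SC.Rnear
import Pool.Agent.H15.SC.Rsm
import Pool.Agent.H15.SC.Fra

/-! # [SC RR5] Step (R5), proportion

`r5_gen`: `fra` with `p i := i = ix n 0 0`, `Q a := lead n (arr a) ≠ 0 ∧ Fac n 1 (arr a)` (implied
by `Lin`; proportion `≤ Cφ/H`, `phi_fac`). Fibre of `c ∈ S`: the vectors `a ∈ T` have the leading
form of `c`; fix `(p,q,h)` with `LinS n H (arr c) p q h`; by `lin_unique` the `(p',q')` of `a` is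
`±(p,q)`, so `|q x - p y| > Dd n H` for its zero `P`, and by `near_lin` (contraposition, hypothesis
`hsm`) every `θ` with `NearB` has `p θ ≠ q`. `a ↦ P a` is injective on `T` (the constant
coefficient is `-G(P)`, `G` the array of `c` with constant coefficient `0`); `clr_count` for `G`
with `A = A0 n H`, `Y = H^E`. (`NearB n (arr a)` and `NearB n G` agree: same `tc n . θ i j` for
`i ≤ 3` (`tc_top4`), `hp_top4`, `bgd_top4`; `n ≥ 4`.)
`r5a`: `M = H^(1/2)`, `X0 = X1`: `M + M⁵/X1 ≤ C H^(1/2 + 1/100)`, condition `hc`: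
`C H^(1 + 5/2 + 1/50) < X1² = H^(n - 1/50)` for large `H` (`n ≥ 5`). `r5b`: `M = H^(203/300)`,
`X0 = X2`: `1 + 203/60 + 1/50 < n + 1/2 - 1/50`. `hsm`: `8^n 2^n (n+1) H L/X0 ≤ H^(24/25)/2`.
Exponents `-1 + 51/100 + 1/5 - 1`, `-1 + 203/300 + 1/5 - 1`; `1 + log Y = 1 + E log H`. -/

namespace Pool.Agent.H15.SC

open Finset Polynomial Pool.Agent.H72.ES Pool.Agent.H8.NoPt Pool.Agent.H8.MP

private theorem r5_ix_ne {n : ℕ} (hn : 1 ≤ n) {i j : ℕ} (hij : i + j ≤ n) (h1 : 1 ≤ i + j) :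
    ix n i j hij ≠ ix n 0 0 (by omega) := by
  have _ := hn
  intro he
  simp only [ix, Subtype.mk.injEq, Prod.mk.injEq, Fin.mk.injEq] at he
  omega

private theorem r5_lin_congr {n : ℕ} {F G : ℕ → ℕ → ℤ} (h : lead n F = lead n G) {p q : ℤ}
    {g : ℤ[X]} (hL : Lin n F p q g) : Lin n G p q g :=
  ⟨hL.cop, by rw [← h]; exact hL.eq, hL.deg, hL.irr⟩

private theorem r5_near {n : ℕ} (hn : 4 ≤ n) {F G : ℕ → ℕ → ℤ} (h : Top4 n F G) {L : ℝ}
    {θ : ℂ} {P : ℤ × ℤ} (hN : NearB n G L θ P) : NearB n F L θ P := by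
  have h1 := hp_top4 hn h
  obtain ⟨h2, h3, h4⟩ := bgd_top4 hn h θ
  have h5 : tc n F θ 0 1 = tc n G θ 0 1 := tc_top4 hn h θ (by norm_num)
  refine ⟨?_, hN.th, hN.nr, ?_, ?_, ?_, ?_, ?_⟩
  · rw [h1]; exact hN.root
  · rw [h5]; exact hN.tc
  · rw [h3]; exact hN.ga
  · rw [h4]; exact hN.de
  · rw [h2, h3]; exact hN.e2
  · rw [h2, h3, h4]; exact hN.e3

theorem r5_gen (n : ℕ) (hn : 5 ≤ n) : ∃ C : ℝ, 0 < C ∧ ∀ H : ℕ, 1 ≤ H → ∀ M X0 Y : ℝ,
    1 ≤ M → (8 : ℝ) ^ (4 * n) * M ^ 2 ≤ X0 →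
    8 ^ n * (2 ^ n * (n + 1) * H) * (800 * (8 ^ (2 * n) * M) ^ 5) * A0 n H ^ (n - 1) <
      X0 ^ 2 →
    8 ^ n * (2 ^ n * (n + 1) * H) * (8 ^ (2 * n) * M / X0) ≤ (H : ℝ) ^ (24 / 25 : ℝ) / 2 →
    1 ≤ Y → ∀ S : Finset (Ix n → ℤ),
    (∀ a ∈ S, (∀ i, |a i| ≤ (H : ℤ)) ∧ ∃ (p q : ℤ) (h : ℤ[X]), LinS n H (arr a) p q h ∧
      ∃ P : ℤ × ℤ, ZP n (arr a) P ∧ X0 ≤ |(P.1 : ℝ)| ∧ |(P.1 : ℝ)| ≤ Y ∧
        (H : ℝ) / M ≤ dz n (arr a) P ∧ Dd n H < |(q * P.1 - p * P.2 : ℝ)|) →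
    (S.card : ℝ) ≤ C * (M + M ^ 5 / X0) * (1 + Real.log Y) * (H : ℝ) ^ (1 / (n : ℝ)) /
      (H : ℝ) ^ 2 * (2 * H + 1 : ℝ) ^ (Fintype.card (Ix n)) := by
  classical
  obtain ⟨C0, hC00, hC0⟩ := (phi_fac n (by omega)).pos
  refine ⟨(C0 + 1) * 8 ^ (16 * n), by positivity, ?_⟩
  intro H hH M X0 Y hM hX0 hc hsm hY S hS
  have hH1 : (1 : ℝ) ≤ H := by exact_mod_cast hH
  have hH0 : (0 : ℝ) < H := by linarith
  have hM0 : 0 < M := by linarith
  have hlog : 0 ≤ Real.log Y := Real.log_nonneg hY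
  have h8 : (1 : ℝ) ≤ 8 ^ (4 * n) := one_le_pow₀ (by norm_num)
  have hX01 : 1 ≤ X0 := by
    have h3 : 1 ≤ M ^ 2 := one_le_pow₀ hM
    nlinarith
  have hX00 : 0 < X0 := by linarith
  have hL1 : 1 ≤ 8 ^ (2 * n) * M := by
    have h3 : (1 : ℝ) ≤ 8 ^ (2 * n) := one_le_pow₀ (by norm_num)
    nlinarith
  have hLX : 8 ^ (2 * n) * M ≤ X0 := by
    refine le_trans ?_ hX0
    have h3 : (8 : ℝ) ^ (2 * n) ≤ 8 ^ (4 * n) := pow_le_pow_right₀ (by norm_num) (by omega)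
    have h4 : M ≤ M ^ 2 := by nlinarith
    gcongr
  set o : Ix n := ix n 0 0 (by omega) with ho
  set m : ℝ := 8 ^ (16 * n) * (M + M ^ 5 / X0) * (1 + Real.log Y) *
      (H : ℝ) ^ (1 / (n : ℝ)) with hm
  have hm0 : 0 ≤ m := by
    have : 0 ≤ 1 + Real.log Y := by linarith
    positivity
  have key := fra (fun i : Ix n => i = o) H (C0 * (H : ℝ) ^ (-(1 : ℝ))) m hm0
    (fun a => lead n (arr a) ≠ 0 ∧ Fac n 1 (arr a)) ?_ (hC0 H hH) S
    (fun a ha => ?_) ?_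
  · simp only [Fintype.card_subtype_eq, pow_one] at key
    have hK : (H : ℝ) ≤ 2 * H + 1 := by linarith
    have h5 : (S.card : ℝ) * H ≤ C0 * (H : ℝ) ^ (-(1 : ℝ)) * m *
        (2 * H + 1 : ℝ) ^ (Fintype.card (Ix n)) := by
      refine le_trans ?_ key
      gcongr
    rw [← le_div_iff₀ hH0] at h5
    refine h5.trans ?_
    have e1 : C0 * (H : ℝ) ^ (-(1 : ℝ)) * m * (2 * H + 1 : ℝ) ^ (Fintype.card (Ix n)) / H =
        C0 * (m / (H : ℝ) ^ 2 * (2 * H + 1 : ℝ) ^ (Fintype.card (Ix n))) := by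
      rw [Real.rpow_neg hH0.le, Real.rpow_one]
      field_simp
    have e2 : (C0 + 1) * 8 ^ (16 * n) * (M + M ^ 5 / X0) * (1 + Real.log Y) *
        (H : ℝ) ^ (1 / (n : ℝ)) / (H : ℝ) ^ 2 * (2 * H + 1 : ℝ) ^ (Fintype.card (Ix n)) =
        (C0 + 1) * (m / (H : ℝ) ^ 2 * (2 * H + 1 : ℝ) ^ (Fintype.card (Ix n))) := by
      rw [hm]
      ring
    rw [e1, e2]
    exact mul_le_mul_of_nonneg_right (by linarith) (by positivity)
  · intro a b hab hQ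
    have h1 : lead n (arr a) = lead n (arr b) := by
      refine lead_congr fun i j hij => ?_
      unfold arr
      rw [dif_pos (by omega), dif_pos (by omega)]
      exact hab _ (r5_ix_ne (by omega) _ (by omega))
    unfold Fac at hQ ⊢
    rw [← h1]
    exact hQ
  · obtain ⟨h1, p, q, h, hL, _⟩ := hS a ha
    refine ⟨h1, ?_, C q - C p * X, h, ?_, hL.lin.deg.le, hL.lin.eq⟩
    · rw [hL.lin.eq]
      refine mul_ne_zero ?_ ?_
      · intro h0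
        have e0 : q = 0 := by
          have h3 := congrArg (Polynomial.eval 0) h0
          simpa using h3
        have e1 : p = 0 := by
          have h3 := congrArg (Polynomial.eval 1) h0
          rw [eval_sub, eval_C, eval_mul, eval_C, eval_X, eval_zero, e0] at h3
          linarith
        have h3 := hL.lin.cop
        rw [e0, e1] at h3
        exact not_isCoprime_zero_zero h3
      · intro h0
        have h3 := hL.lin.irr
        rw [h0, Polynomial.map_zero] at h3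
        exact not_irreducible_zero h3
    · refine (natDegree_sub_le _ _).trans (max_le ?_ ?_)
      · rw [natDegree_C]
        exact Nat.zero_le 1
      · exact (natDegree_C_mul_le p X).trans natDegree_X_le
  · intro c hc' T hT
    have hex : ∀ a ∈ T, ∃ P : ℤ × ℤ, ZP n (arr a) P ∧ X0 ≤ |(P.1 : ℝ)| ∧ |(P.1 : ℝ)| ≤ Y ∧
        (H : ℝ) / M ≤ dz n (arr a) P ∧ ∃ (p q : ℤ) (h : ℤ[X]), LinS n H (arr a) p q h ∧
          Dd n H < |(q * P.1 - p * P.2 : ℝ)| := fun a ha => by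
      obtain ⟨_, p, q, h, hL, P, g1, g2, g3, g4, g5⟩ := hS a (hT a ha).1
      exact ⟨P, g1, g2, g3, g4, p, q, h, hL, g5⟩
    choose! g hg using hex
    set c0 : Ix n → ℤ := Function.update c o 0 with hc0
    have hup : ∀ a ∈ T, Function.update a o 0 = c0 := by
      intro a ha
      funext i
      by_cases hi : i = o
      · rw [hi, hc0, Function.update_self, Function.update_self]
      · rw [hc0, Function.update_of_ne hi, Function.update_of_ne hi]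
        exact (hT a ha).2 i hi
    have hev : ∀ a ∈ T, ∀ x y : ℤ, ev n (arr a) x y = a o + ev n (arr c0) x y := by
      intro a ha x y
      rw [ev_const a x y, ← ho, hup a ha]
    have htop : ∀ a ∈ T, ∀ i j, i + j ≤ n → 1 ≤ i + j → arr a i j = arr c0 i j := by
      intro a ha i j hij h1
      unfold arr
      rw [dif_pos hij, dif_pos hij, ← hup a ha, Function.update_of_ne]
      exact r5_ix_ne (by omega) _ h1
    have htop4 : ∀ a ∈ T, Top4 n (arr a) (arr c0) := fun a ha i j hij h4 =>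
      htop a ha i j hij (by omega)
    have hlead : ∀ a ∈ T, lead n (arr a) = lead n (arr c0) := fun a ha =>
      lead_congr fun i j hij => htop a ha i j hij.le (by omega)
    have hleadc : lead n (arr c) = lead n (arr c0) := by
      refine lead_congr fun i j hij => ?_
      unfold arr
      rw [dif_pos (by omega), dif_pos (by omega), hc0, Function.update_of_ne]
      exact r5_ix_ne (by omega) _ (by omega)
    have hinj : Set.InjOn g T := by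
      intro a ha a' ha' hgg
      have h1 := (hg a ha).1.1
      have h2 := (hg a' ha').1.1
      rw [hev a ha] at h1
      rw [hev a' ha', ← hgg] at h2
      funext i
      by_cases hi : i = o
      · rw [hi]; linarith
      · rw [(hT a ha).2 i hi, (hT a' ha').2 i hi]
    have hcardT : T.card = (T.image g).card := (card_image_of_injOn hinj).symm
    rw [hcardT]
    obtain ⟨hcb, p, q, h, hL, _⟩ := hS c hc'
    have hLc0 : Lin n (arr c0) p q h := r5_lin_congr hleadc hL.lin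
    have hA1 : 1 ≤ A0 n H := by
      unfold A0
      exact Real.one_le_rpow hH1 (by positivity)
    refine clr_count (by omega) hH (G := arr c0) ?_ ?_ hLc0 (A0 n H) M X0 Y hA1 hL.hp hM hX0 hc
      hY (T.image g) ?_
    · intro i j hij
      unfold arr
      rw [dif_pos hij, hc0]
      by_cases hi : ix n i j hij = o
      · rw [hi, Function.update_self]
        simp
      · rw [Function.update_of_ne hi]
        exact hcb _
    · unfold arr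
      rw [dif_pos (by omega), hc0, ← ho, Function.update_self]
    · intro P hP
      rw [mem_image] at hP
      obtain ⟨a, ha, rfl⟩ := hP
      obtain ⟨g1, g2, g3, g4, p', q', h', hL', g5⟩ := hg a ha
      have hab := (hS a (hT a ha).1).1
      refine ⟨?_, g1.2, g2, g3, ?_, ?_⟩
      · have h1 := g1.1
        rw [hev a ha] at h1
        have h2 : ev n (arr c0) (g a).1 (g a).2 = -a o := by linarith
        rw [h2, abs_neg]
        exact hab o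
      · unfold dz hp at g4 ⊢
        rw [← hlead a ha]
        exact g4
      · intro θ hN hpq
        have hN' := r5_near (by omega) (htop4 a ha) hN
        have hBa : Bdd n H (arr a) := by
          intro i j hij
          unfold arr
          rw [dif_pos hij]
          exact hab _
        have hpq' : (p' : ℂ) * θ = q' := by
          have hL'' : Lin n (arr c0) p' q' h' := r5_lin_congr (hlead a ha) hL'.lin
          rcases lin_unique (by omega) hLc0 hL'' with ⟨e1, e2⟩ | ⟨e1, e2⟩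
          · rw [e1, e2]; exact hpq
          · rw [e1, e2]
            push_cast
            rw [neg_mul, hpq]
        have hx0 : 0 < |((g a).1 : ℝ)| := by linarith
        have h1 := near_lin (by omega) hH hBa hL' hL1 g1 hN' (hLX.trans g2) (by
          refine le_trans ?_ hsm
          have h2 : 8 ^ (2 * n) * M / |((g a).1 : ℝ)| ≤ 8 ^ (2 * n) * M / X0 :=
            div_le_div_of_nonneg_left (by positivity) hX00 g2
          exact mul_le_mul_of_nonneg_left h2 (by positivity)) hpq'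
        linarith

private theorem r5_rp {h : ℝ} (h0 : 0 ≤ h) (c : ℝ) (k : ℕ) (d : ℝ) (hd : c * k = d) :
    (h ^ c) ^ k = h ^ d := by
  rw [← Real.rpow_natCast, ← Real.rpow_mul h0, hd]

private theorem r5_large (K : ℝ) : ∃ H0 : ℕ, ∀ H : ℕ, H0 ≤ H → K ≤ (H : ℝ) ^ (1 / 2 : ℝ) := by
  have h1 : Filter.Tendsto (fun H : ℕ => (H : ℝ) ^ (1 / 2 : ℝ)) Filter.atTop Filter.atTop :=
    (tendsto_rpow_atTop (by norm_num)).comp tendsto_natCast_atTop_atTop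
  exact Filter.eventually_atTop.1 (h1.eventually_ge_atTop K)

private theorem r5_ab (n : ℕ) (hn : 5 ≤ n) (E : ℕ) (μ ξ : ℝ) (hμ0 : 0 ≤ μ)
    (hμ1 : μ ≤ 7 / 10) (h4 : 4 * μ ≤ ξ) (h21 : 2 * μ + 1 / 2 ≤ ξ)
    (h22 : 1 + 5 * μ + 1 / 50 + 1 / 2 < 2 * ξ) (h23 : 1 + μ + 1 / 2 ≤ ξ + 24 / 25) :
    Small n (101 / 100) fun H a =>
    ∃ (p q : ℤ) (h : ℤ[X]), LinS n H (arr a) p q h ∧ ∃ P : ℤ × ℤ, ZP n (arr a) P ∧
      (H : ℝ) ^ ξ ≤ |(P.1 : ℝ)| ∧ |(P.1 : ℝ)| ≤ (H : ℝ) ^ E ∧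
      (H : ℝ) / (H : ℝ) ^ μ ≤ dz n (arr a) P ∧ Dd n H < |(q * P.1 - p * P.2 : ℝ)| := by
  obtain ⟨C, hC0, hC⟩ := r5_gen n hn
  set K : ℝ := 2 * (8 ^ n * (2 ^ n * (n + 1)) * (800 * (8 ^ (2 * n)) ^ 5)) with hK
  obtain ⟨H0, hH0⟩ := r5_large K
  have hb8 : (1 : ℝ) ≤ 8 ^ n := one_le_pow₀ (by norm_num)
  have hb2 : (1 : ℝ) ≤ 2 ^ n * (n + 1) := by
    have h1 : (1 : ℝ) ≤ 2 ^ n := one_le_pow₀ (by norm_num)
    have h2 : (0 : ℝ) ≤ n := Nat.cast_nonneg n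
    nlinarith
  have hb82 : (1 : ℝ) ≤ 8 ^ (2 * n) := one_le_pow₀ (by norm_num)
  have hcc : (1 : ℝ) ≤ 8 ^ n * (2 ^ n * (n + 1)) := one_le_mul_of_one_le_of_one_le hb8 hb2
  have hK1 : (8 : ℝ) ^ (4 * n) ≤ K := by
    have e1 : (8 : ℝ) ^ (4 * n) = (8 ^ (2 * n)) ^ 2 := by
      rw [← pow_mul]
      congr 1
      ring
    have e2 : ((8 : ℝ) ^ (2 * n)) ^ 2 ≤ (8 ^ (2 * n)) ^ 5 :=
      pow_le_pow_right₀ hb82 (by norm_num)
    rw [e1, hK]
    have e3 : (0 : ℝ) ≤ (8 ^ (2 * n)) ^ 5 := by positivity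
    nlinarith
  have hK2 : (8 : ℝ) ^ n * (2 ^ n * (n + 1)) * (800 * (8 ^ (2 * n)) ^ 5) < K := by
    rw [hK]
    have e3 : (0 : ℝ) < 8 ^ n * (2 ^ n * (n + 1)) * (800 * (8 ^ (2 * n)) ^ 5) := by positivity
    linarith
  have hK3 : (8 : ℝ) ^ n * (2 ^ n * (n + 1)) * 8 ^ (2 * n) * 2 ≤ K := by
    rw [hK]
    have e2 : (8 : ℝ) ^ (2 * n) ≤ (8 ^ (2 * n)) ^ 5 := le_self_pow₀ hb82 (by norm_num)
    have e4 : (8 : ℝ) ^ (2 * n) ≤ 800 * (8 ^ (2 * n)) ^ 5 := by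
      have : (0 : ℝ) ≤ (8 ^ (2 * n)) ^ 5 := by positivity
      linarith
    have e3 := mul_le_mul_of_nonneg_left e4
      (by positivity : (0 : ℝ) ≤ 8 ^ n * (2 ^ n * (n + 1)))
    linarith
  refine small_of_large (s := 11 / 10) (by norm_num) H0 (2 * C * (E + 1)) 1 ?_
  intro H hH hH2 S hS
  have hKH := hH0 H hH
  have h1 : (1 : ℝ) ≤ H := by exact_mod_cast (by omega : 1 ≤ H)
  have h0 : (0 : ℝ) < H := by linarith
  have hlog : 0 ≤ Real.log H := Real.log_nonneg h1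
  have hn5 : (5 : ℝ) ≤ n := by exact_mod_cast hn
  have hM1 : 1 ≤ (H : ℝ) ^ μ := Real.one_le_rpow h1 hμ0
  have hM2 : ((H : ℝ) ^ μ) ^ 2 = (H : ℝ) ^ (2 * μ) := r5_rp h0.le _ 2 _ (by push_cast; ring)
  have hM5 : ((H : ℝ) ^ μ) ^ 5 = (H : ℝ) ^ (5 * μ) := r5_rp h0.le _ 5 _ (by push_cast; ring)
  have hX2 : ((H : ℝ) ^ ξ) ^ 2 = (H : ℝ) ^ (2 * ξ) := r5_rp h0.le _ 2 _ (by push_cast; ring)
  have hX0 : 0 < (H : ℝ) ^ ξ := by positivity
  have c1 : (8 : ℝ) ^ (4 * n) * ((H : ℝ) ^ μ) ^ 2 ≤ (H : ℝ) ^ ξ := by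
    rw [hM2]
    calc (8 : ℝ) ^ (4 * n) * (H : ℝ) ^ (2 * μ) ≤ (H : ℝ) ^ (1 / 2 : ℝ) * (H : ℝ) ^ (2 * μ) := by
          gcongr
          exact hK1.trans hKH
      _ = (H : ℝ) ^ (1 / 2 + 2 * μ) := by rw [← Real.rpow_add h0]
      _ ≤ (H : ℝ) ^ ξ := Real.rpow_le_rpow_of_exponent_le h1 (by linarith)
  have hA : A0 n H ^ (n - 1) ≤ (H : ℝ) ^ (1 / 50 : ℝ) := by
    unfold A0
    rw [r5_rp h0.le (1 / (50 * (n : ℝ))) (n - 1) _ rfl]
    refine Real.rpow_le_rpow_of_exponent_le h1 ?_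
    have e1 : ((n - 1 : ℕ) : ℝ) ≤ n := by exact_mod_cast Nat.sub_le n 1
    have e2 : (0 : ℝ) < n := by linarith
    calc 1 / (50 * (n : ℝ)) * ((n - 1 : ℕ) : ℝ) ≤ 1 / (50 * (n : ℝ)) * n := by gcongr
      _ = 1 / 50 := by field_simp
  have c2 : 8 ^ n * (2 ^ n * (n + 1) * H) * (800 * (8 ^ (2 * n) * (H : ℝ) ^ μ) ^ 5) *
      A0 n H ^ (n - 1) < ((H : ℝ) ^ ξ) ^ 2 := by
    rw [hX2, mul_pow, hM5]
    have e0 : (0 : ℝ) ≤ A0 n H := by unfold A0; positivity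
    calc 8 ^ n * (2 ^ n * (n + 1) * H) * (800 * ((8 ^ (2 * n)) ^ 5 * (H : ℝ) ^ (5 * μ))) *
        A0 n H ^ (n - 1)
        ≤ 8 ^ n * (2 ^ n * (n + 1) * H) * (800 * ((8 ^ (2 * n)) ^ 5 * (H : ℝ) ^ (5 * μ))) *
          (H : ℝ) ^ (1 / 50 : ℝ) := by gcongr
      _ = (8 ^ n * (2 ^ n * (n + 1)) * (800 * (8 ^ (2 * n)) ^ 5)) *
          (H : ℝ) ^ (1 + 5 * μ + 1 / 50) := by
          rw [Real.rpow_add h0, Real.rpow_add h0, Real.rpow_one]
          ring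
      _ < K * (H : ℝ) ^ (1 + 5 * μ + 1 / 50) := by
          refine mul_lt_mul_of_pos_right hK2 (by positivity)
      _ ≤ (H : ℝ) ^ (1 / 2 : ℝ) * (H : ℝ) ^ (1 + 5 * μ + 1 / 50) := by gcongr
      _ = (H : ℝ) ^ (1 / 2 + (1 + 5 * μ + 1 / 50)) := by rw [← Real.rpow_add h0]
      _ ≤ (H : ℝ) ^ (2 * ξ) := Real.rpow_le_rpow_of_exponent_le h1 (by linarith)
  have c3 : 8 ^ n * (2 ^ n * (n + 1) * H) * (8 ^ (2 * n) * (H : ℝ) ^ μ / (H : ℝ) ^ ξ) ≤
      (H : ℝ) ^ (24 / 25 : ℝ) / 2 := by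
    have e1 : 8 ^ n * (2 ^ n * (n + 1) * H) * (8 ^ (2 * n) * (H : ℝ) ^ μ / (H : ℝ) ^ ξ) =
        8 ^ n * (2 ^ n * (n + 1)) * 8 ^ (2 * n) * (H : ℝ) ^ (1 + μ - ξ) := by
      rw [Real.rpow_sub h0, Real.rpow_add h0, Real.rpow_one]
      ring
    rw [e1, le_div_iff₀ (by norm_num : (0 : ℝ) < 2)]
    calc 8 ^ n * (2 ^ n * (n + 1)) * 8 ^ (2 * n) * (H : ℝ) ^ (1 + μ - ξ) * 2
        = (8 ^ n * (2 ^ n * (n + 1)) * 8 ^ (2 * n) * 2) * (H : ℝ) ^ (1 + μ - ξ) := by ring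
      _ ≤ (H : ℝ) ^ (1 / 2 : ℝ) * (H : ℝ) ^ (1 + μ - ξ) := by
          gcongr
          exact hK3.trans hKH
      _ = (H : ℝ) ^ (1 / 2 + (1 + μ - ξ)) := by rw [← Real.rpow_add h0]
      _ ≤ (H : ℝ) ^ (24 / 25 : ℝ) := Real.rpow_le_rpow_of_exponent_le h1 (by linarith)
  have hY : 1 ≤ (H : ℝ) ^ E := one_le_pow₀ h1
  have h5 := hC H (by omega) _ _ ((H : ℝ) ^ E) hM1 c1 c2 c3 hY S ?_
  · refine h5.trans (mul_le_mul_of_nonneg_right ?_ (by positivity))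
    have e1 : (H : ℝ) ^ μ + ((H : ℝ) ^ μ) ^ 5 / (H : ℝ) ^ ξ ≤ 2 * (H : ℝ) ^ μ := by
      have e2 : ((H : ℝ) ^ μ) ^ 5 / (H : ℝ) ^ ξ ≤ (H : ℝ) ^ μ := by
        rw [hM5, ← Real.rpow_sub h0]
        exact Real.rpow_le_rpow_of_exponent_le h1 (by linarith)
      linarith
    have e3 : 1 + Real.log ((H : ℝ) ^ E) ≤ (E + 1) * (1 + Real.log H) := by
      rw [Real.log_pow]
      have : (0 : ℝ) ≤ E := Nat.cast_nonneg E
      nlinarith
    have e4 : (H : ℝ) ^ (1 / (n : ℝ)) ≤ (H : ℝ) ^ (1 / 5 : ℝ) := by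
      refine Real.rpow_le_rpow_of_exponent_le h1 ?_
      exact one_div_le_one_div_of_le (by norm_num) hn5
    have e5 : 0 ≤ 1 + Real.log ((H : ℝ) ^ E) := by
      have := Real.log_nonneg hY
      linarith
    have e6 : (H : ℝ) ^ μ * (H : ℝ) ^ (1 / 5 : ℝ) / (H : ℝ) ^ 2 ≤ (H : ℝ) ^ (-(11 / 10) : ℝ) := by
      rw [← Real.rpow_natCast (H : ℝ) 2, ← Real.rpow_add h0, ← Real.rpow_sub h0]
      refine Real.rpow_le_rpow_of_exponent_le h1 ?_
      push_cast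
      linarith
    calc C * ((H : ℝ) ^ μ + ((H : ℝ) ^ μ) ^ 5 / (H : ℝ) ^ ξ) * (1 + Real.log ((H : ℝ) ^ E)) *
        (H : ℝ) ^ (1 / (n : ℝ)) / (H : ℝ) ^ 2
        ≤ C * (2 * (H : ℝ) ^ μ) * ((E + 1) * (1 + Real.log H)) * (H : ℝ) ^ (1 / 5 : ℝ) /
          (H : ℝ) ^ 2 := by gcongr
      _ = 2 * C * (E + 1) * (1 + Real.log H) ^ 1 *
          ((H : ℝ) ^ μ * (H : ℝ) ^ (1 / 5 : ℝ) / (H : ℝ) ^ 2) := by ring
      _ ≤ 2 * C * (E + 1) * (1 + Real.log H) ^ 1 * (H : ℝ) ^ (-(11 / 10) : ℝ) := by gcongr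
  · intro a ha
    exact hS a ha

theorem r5a (n : ℕ) (hn : 5 ≤ n) (E : ℕ) : Small n (101 / 100) fun H a =>
    ∃ (p q : ℤ) (h : ℤ[X]), LinS n H (arr a) p q h ∧ ∃ P : ℤ × ℤ, ZP n (arr a) P ∧
      X1 n H ≤ |(P.1 : ℝ)| ∧ |(P.1 : ℝ)| ≤ (H : ℝ) ^ E ∧
      (H : ℝ) ^ (1 / 2 : ℝ) ≤ dz n (arr a) P ∧ Dd n H < |(q * P.1 - p * P.2 : ℝ)| := by
  have hn5 : (5 : ℝ) ≤ n := by exact_mod_cast hn
  refine (r5_ab n hn E (1 / 2) ((n : ℝ) / 2 - 1 / 100) (by norm_num) (by norm_num)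
    (by linarith) (by linarith) (by linarith) (by linarith)).mono ?_
  rintro H a ⟨p, q, h, hL, P, g1, g2, g3, g4, g5⟩
  refine ⟨p, q, h, hL, P, g1, g2, g3, ?_, g5⟩
  refine le_trans ?_ g4
  rcases Nat.eq_zero_or_pos H with rfl | hH
  · simp
  · have h0 : (0 : ℝ) < H := by exact_mod_cast hH
    nth_rewrite 1 [← Real.rpow_one (H : ℝ)]
    rw [← Real.rpow_sub h0]
    norm_num

theorem r5b (n : ℕ) (hn : 5 ≤ n) (E : ℕ) : Small n (101 / 100) fun H a =>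
    ∃ (p q : ℤ) (h : ℤ[X]), LinS n H (arr a) p q h ∧ ∃ P : ℤ × ℤ, ZP n (arr a) P ∧
      X2 n H ≤ |(P.1 : ℝ)| ∧ |(P.1 : ℝ)| ≤ (H : ℝ) ^ E ∧
      (H : ℝ) ^ (97 / 300 : ℝ) ≤ dz n (arr a) P ∧ Dd n H < |(q * P.1 - p * P.2 : ℝ)| := by
  have hn5 : (5 : ℝ) ≤ n := by exact_mod_cast hn
  refine (r5_ab n hn E (203 / 300) ((n : ℝ) / 2 + 1 / 4 - 1 / 100) (by norm_num) (by norm_num)
    (by linarith) (by linarith) (by linarith) (by linarith)).mono ?_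
  rintro H a ⟨p, q, h, hL, P, g1, g2, g3, g4, g5⟩
  refine ⟨p, q, h, hL, P, g1, g2, g3, ?_, g5⟩
  refine le_trans ?_ g4
  rcases Nat.eq_zero_or_pos H with rfl | hH
  · simp
  · have h0 : (0 : ℝ) < H := by exact_mod_cast hH
    nth_rewrite 1 [← Real.rpow_one (H : ℝ)]
    rw [← Real.rpow_sub h0]
    norm_num

end Pool.Agent.H15.SC
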