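import Pool.Agent.H15.SC.Rpt
import Pool.Agent.H15.SC.Rsm
import Pool.Agent.H15.SC.Fra

/-! # [SC RR7] Step (R7), proportion

`fra` with `p i := i = ix n 0 0`, `Q a := lead n (arr a) ≠ 0 ∧ Fac n 1 (arr a)` (`phi_fac`,
proportion `C/H`), `m = 1`: in a fibre (`T`, all vectors equal outside the constant coefficient)
take `(p,q,h)` with `Lin n (arr c) p q h`, it serves for all `a ∈ T` (same leading form);
`v1, v2` with `q v1 - p v2 = 1`; `r` of `red_pt` is the same for all `a ∈ T` (`fv_ne`, and the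
terms of degree `n - 1 ≥ 1` agree), and `ev n (cst ℚ (arr a)) (r v1) (r v2) = 0` determines the
constant coefficient. So `#S K ≤ C K^N/H`. -/

namespace Pool.Agent.H15.SC

open Finset Polynomial Pool.Agent.H72.ES Pool.Agent.H8.NoPt Pool.Agent.H8.MP

private theorem arr_congr {n : ℕ} {a b : Ix n → ℤ}
    (h : ∀ i, ¬ i = ix n 0 0 (by omega) → a i = b i) {i j : ℕ} (hij : ¬ (i = 0 ∧ j = 0)) :
    arr a i j = arr b i j := by
  unfold arr
  split_ifs with h1
  · refine h _ fun he => hij ?_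
    simp only [ix, Subtype.mk.injEq, Prod.mk.injEq, Fin.mk.injEq] at he
    exact he
  · rfl

private theorem lead_eq {n : ℕ} (hn : 1 ≤ n) {a b : Ix n → ℤ}
    (h : ∀ i, ¬ i = ix n 0 0 (by omega) → a i = b i) : lead n (arr a) = lead n (arr b) :=
  lead_congr fun i j hij => arr_congr h (by omega)

private theorem ev_sub {n : ℕ} {a b : Ix n → ℤ}
    (h : ∀ i, ¬ i = ix n 0 0 (by omega) → a i = b i) (x y : ℚ) :
    ev n (cst ℚ (arr a)) x y - ev n (cst ℚ (arr b)) x y =
      (a (ix n 0 0 (by omega)) : ℚ) - b (ix n 0 0 (by omega)) := by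
  unfold ev
  rw [← sum_sub_distrib]
  have h1 : ∀ i ∈ range (n + 1), ∑ j ∈ range (n + 1 - i), cst ℚ (arr a) i j * x ^ i * y ^ j -
      ∑ j ∈ range (n + 1 - i), cst ℚ (arr b) i j * x ^ i * y ^ j =
      if i = 0 then (a (ix n 0 0 (by omega)) : ℚ) - b (ix n 0 0 (by omega)) else 0 := by
    intro i hi
    rw [mem_range] at hi
    rw [← sum_sub_distrib]
    have h2 : ∀ j ∈ range (n + 1 - i), cst ℚ (arr a) i j * x ^ i * y ^ j -
        cst ℚ (arr b) i j * x ^ i * y ^ j =
        if j = 0 then (if i = 0 then (a (ix n 0 0 (by omega)) : ℚ) - b (ix n 0 0 (by omega))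
          else 0) else 0 := by
      intro j _
      by_cases hc : i = 0 ∧ j = 0
      · obtain ⟨rfl, rfl⟩ := hc
        have e1 : arr a 0 0 = a (ix n 0 0 (by omega)) := by
          unfold arr
          rw [dif_pos (by omega)]
        have e2 : arr b 0 0 = b (ix n 0 0 (by omega)) := by
          unfold arr
          rw [dif_pos (by omega)]
        simp [cst, e1, e2]
      · have e1 : cst ℚ (arr a) i j = cst ℚ (arr b) i j := by
          unfold cst
          rw [arr_congr h hc]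
        rw [e1, sub_self]
        split_ifs with h3 h4
        · exact absurd ⟨h4, h3⟩ hc
        · rfl
        · rfl
    rw [sum_congr rfl h2, sum_ite_eq' (range (n + 1 - i)) 0, if_pos (mem_range.2 (by omega))]
  rw [sum_congr rfl h1, sum_ite_eq' (range (n + 1)) 0, if_pos (mem_range.2 (by omega))]

private theorem lin_fac {n : ℕ} {F : ℕ → ℕ → ℤ} {p q : ℤ} {h : ℤ[X]} (hL : Lin n F p q h) :
    lead n F ≠ 0 ∧ Fac n 1 F := by
  constructor
  · rw [hL.eq]
    refine mul_ne_zero ?_ ?_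
    · intro h0
      have h1 := congrArg (fun g : ℤ[X] => g.coeff 0) h0
      have h2 := congrArg (fun g : ℤ[X] => g.coeff 1) h0
      simp only [coeff_sub, coeff_C_zero, coeff_C_mul, coeff_X_zero, coeff_X_one, mul_zero,
        mul_one, coeff_zero, sub_zero, coeff_C_succ] at h1 h2
      have hp : p = 0 := by
        have : (C q : ℤ[X]).coeff 1 = 0 := coeff_C_of_ne_zero one_ne_zero
        omega
      obtain ⟨u, v, huv⟩ := hL.cop
      rw [h1, hp] at huv
      omega
    · rintro rfl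
      have := hL.irr.ne_zero
      simp at this
  · refine ⟨C q - C p * X, h, ?_, hL.deg.le, hL.eq⟩
    refine (natDegree_sub_le _ _).trans (max_le ?_ ?_)
    · rw [natDegree_C]
      omega
    · exact (natDegree_C_mul_le _ _).trans natDegree_X_le

theorem r7 (n : ℕ) (hn : 5 ≤ n) : Small n (101 / 100) fun _ a =>
    (∃ (p q : ℤ) (h : ℤ[X]), Lin n (arr a) p q h) ∧
      ¬ Irreducible (MvPolynomial.map (Int.castRingHom ℚ) (mvPoly n a)) := by
  classical
  obtain ⟨C, hC0, hC⟩ := (phi_fac n (by omega)).pos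
  refine ⟨C, fun H hH S hS => ?_⟩
  have hH1 : (1 : ℝ) ≤ H := by exact_mod_cast hH
  have hH0 : (0 : ℝ) < H := by linarith
  set o : Ix n := ix n 0 0 (by omega) with ho
  have key := fra (fun i : Ix n => i = o) H (C * (H : ℝ) ^ (-(1 : ℝ))) 1 zero_le_one
    (fun a => lead n (arr a) ≠ 0 ∧ Fac n 1 (arr a)) ?_ ?_ S ?_ ?_
  · simp only [Fintype.card_subtype_eq, pow_one, mul_one] at key
    have hK : (H : ℝ) ≤ 2 * H + 1 := by linarith
    have h5 : (S.card : ℝ) * H ≤
        C * (H : ℝ) ^ (-(1 : ℝ)) * (2 * H + 1 : ℝ) ^ (Fintype.card (Ix n)) := by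
      refine le_trans ?_ key
      gcongr
    rw [← le_div_iff₀ hH0] at h5
    refine h5.trans ?_
    have h6 : (H : ℝ) ^ (-(1 : ℝ)) / H ≤ (H : ℝ) ^ (-(101 / 100) : ℝ) := by
      rw [div_le_iff₀ hH0]
      calc (H : ℝ) ^ (-(1 : ℝ)) ≤ (H : ℝ) ^ (-(101 / 100) + 1 : ℝ) :=
            Real.rpow_le_rpow_of_exponent_le hH1 (by norm_num)
        _ = (H : ℝ) ^ (-(101 / 100) : ℝ) * H := by rw [Real.rpow_add hH0, Real.rpow_one]
    calc C * (H : ℝ) ^ (-(1 : ℝ)) * (2 * H + 1 : ℝ) ^ (Fintype.card (Ix n)) / H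
        = C * ((H : ℝ) ^ (-(1 : ℝ)) / H) * (2 * H + 1 : ℝ) ^ (Fintype.card (Ix n)) := by ring
      _ ≤ C * (H : ℝ) ^ (-(101 / 100) : ℝ) * (2 * H + 1 : ℝ) ^ (Fintype.card (Ix n)) := by
          gcongr
  · intro a b hab hQ
    unfold Fac at hQ ⊢
    rw [← lead_eq (by omega) hab]
    exact hQ
  · intro T hT
    exact hC H hH T hT
  · intro a ha
    obtain ⟨hb, ⟨p, q, h, hL⟩, -⟩ := hS a ha
    exact ⟨hb, lin_fac hL⟩
  · intro c hc T hT
    obtain ⟨-, ⟨p, q, h, hL⟩, -⟩ := hS c hc
    have hcard : T.card ≤ 1 := by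
      rw [card_le_one]
      intro a ha a' ha'
      have hLa : Lin n (arr a) p q h :=
        ⟨hL.cop, by rw [lead_eq (by omega) (hT a ha).2]; exact hL.eq, hL.deg, hL.irr⟩
      have hLa' : Lin n (arr a') p q h :=
        ⟨hL.cop, by rw [lead_eq (by omega) (hT a' ha').2]; exact hL.eq, hL.deg, hL.irr⟩
      have haa : ∀ i, ¬ i = o → a i = a' i := fun i hi => by
        rw [(hT a ha).2 i hi, (hT a' ha').2 i hi]
      obtain ⟨u, v, huv⟩ := hL.cop
      have hv : q * v - p * (-u) = 1 := by linarith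
      obtain ⟨r, hr1, hr2⟩ := red_pt (by omega) a hLa (hS a (hT a ha).1).2.2 v (-u) hv
      obtain ⟨r', hr1', hr2'⟩ := red_pt (by omega) a' hLa' (hS a' (hT a' ha').1).2.2 v (-u) hv
      have hpq : p ≠ 0 ∨ q ≠ 0 := by
        by_contra hcon
        push Not at hcon
        rw [hcon.1, hcon.2] at huv
        omega
      have hfv : (fv (n - 1) h p q : ℚ) ≠ 0 := by
        exact_mod_cast fv_ne (by omega) hL p q hpq
      have hsum : ∑ j ∈ range n, (arr a (n - 1 - j) j : ℚ) * (p : ℚ) ^ (n - 1 - j) * (q : ℚ) ^ j =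
          ∑ j ∈ range n, (arr a' (n - 1 - j) j : ℚ) * (p : ℚ) ^ (n - 1 - j) * (q : ℚ) ^ j := by
        refine sum_congr rfl fun j hj => ?_
        rw [mem_range] at hj
        rw [arr_congr haa (by omega)]
      rw [hsum, ← hr1'] at hr1
      have hrr : r = r' := mul_right_cancel₀ hfv hr1
      have h1 := ev_sub haa (r * v) (r * (-u : ℤ))
      rw [hr2, hrr, hr2', sub_zero] at h1
      have h2 : a o = a' o := by
        have h3 : (a o : ℚ) = a' o := by linarith
        exact_mod_cast h3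
      funext i
      by_cases hi : i = o
      · rw [hi, h2]
      · exact haa i hi
    exact_mod_cast hcard

end Pool.Agent.H15.SC
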