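import Pool.Agent.H15.SC.Core
import Pool.Agent.H15.SC.Ksum
import Pool.Agent.H15.SC.Pair

/-! # [SC VEC] The count for vectors (Step 11)

`K = 2H+1`, `N = card (Ix n)`, `B = ⌊H^(1/8)⌋ ≥ 1`. `W` = vectors of the box with `I a`.
`#{a ∈ W : zero} = #{a ∈ W : zero in Pts B} + O(#{a ∈ W : zero with msz > B})`, the last term is
`≤ C H^(-101/100) K^N ≤ 3 C H^(-1/100) K^(N-1)` (`hbig`, `msz > B` gives
`msz ≥ B + 1 ≥ H^(1/8)`). `bonf` with `T = Pts B`, `r = K^(N-2)` (`pair_count`):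
`(2B+1)^4 K^(N-2) ≤ 81 H^(1/2) K^(N-2)`. `#{a ∈ W : a(P) = 0} = #ZA - #{¬ I, a(P) = 0}`, the last
`≤ φ K^(N-1)`, `φ = C H^(-1/2)` (`one_count`, `hI2`); sum over `Pts B`: `9 H^(1/4) C H^(-1/2)`.
`∑_{P ∈ Pts B} #ZA = K^(N-1) (∑ kap n P + O((2B+1)² (4N+6)/K))` (`kap_close`), and
`kaps_tail`: `B^(2-n) ≤ (H^(1/8)/2)^(2-n) ≤ C H^(-1/8)` (`n ≥ 3`, `B ≥ H^(1/8)/2`).
All errors are `≤ C H^(-1/100) K^(N-1)`. Two zeros: `bonf` second part and `hbig`. -/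

namespace Pool.Agent.H15.SC

open Finset Polynomial Pool.Agent.H72.ES Pool.Agent.H8.NoPt Pool.Agent.H8.MP

/-- the size of the box of points -/
private noncomputable def BB (H : ℕ) : ℕ := ⌊(H : ℝ) ^ (1 / 8 : ℝ)⌋₊

private theorem BB_le (H : ℕ) : (BB H : ℝ) ≤ (H : ℝ) ^ (1 / 8 : ℝ) :=
  Nat.floor_le (by positivity)

private theorem one_le_BB {H : ℕ} (hH : 1 ≤ H) : 1 ≤ BB H := by
  have h1 : (1 : ℝ) ≤ H := by exact_mod_cast hH
  unfold BB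
  rw [Nat.one_le_floor_iff]
  exact Real.one_le_rpow h1 (by norm_num)

private theorem lt_BB (H : ℕ) : (H : ℝ) ^ (1 / 8 : ℝ) < (BB H : ℝ) + 1 :=
  Nat.lt_floor_add_one _

private theorem card_T {H : ℕ} (hH : 1 ≤ H) :
    ((Pts (BB H)).card : ℝ) ≤ 9 * (H : ℝ) ^ (1 / 4 : ℝ) := by
  have h1 : (1 : ℝ) ≤ H := by exact_mod_cast hH
  have h0 : (0 : ℝ) < H := by linarith
  have h2 := BB_le H
  have h3 : (1 : ℝ) ≤ (H : ℝ) ^ (1 / 8 : ℝ) := Real.one_le_rpow h1 (by norm_num)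
  have h4 : (H : ℝ) ^ (1 / 4 : ℝ) = (H : ℝ) ^ (1 / 8 : ℝ) * (H : ℝ) ^ (1 / 8 : ℝ) := by
    rw [← Real.rpow_add h0]
    norm_num
  rw [card_Pts]
  push_cast
  rw [h4]
  have h5 : (0 : ℝ) ≤ BB H := Nat.cast_nonneg _
  nlinarith

/-- powers of `H` -/
private theorem exps {H : ℕ} (hH : 1 ≤ H) (s : ℝ) (hs : s ≤ -(1 / 100)) :
    (H : ℝ) ^ s ≤ (H : ℝ) ^ (-(1 / 100 : ℝ)) := by
  have h1 : (1 : ℝ) ≤ H := by exact_mod_cast hH
  exact Real.rpow_le_rpow_of_exponent_le h1 hs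

private theorem two_le_card (n : ℕ) (hn : 1 ≤ n) : 2 ≤ Fintype.card (Ix n) := by
  have h : 1 < Fintype.card (Ix n) := by
    rw [Fintype.one_lt_card_iff]
    refine ⟨ix n 0 0 (by omega), ix n 1 0 (by omega), ?_⟩
    intro h
    have h3 := congrArg (fun i : Ix n => (i.1.1 : ℕ)) h
    have h4 : (0 : ℕ) = 1 := h3
    omega
  omega

/-- `K^N = K^(N-1) K ≤ 3 H K^(N-1)` with a factor -/
private theorem big_bound {H : ℕ} (hH : 1 ≤ H) {N : ℕ} (hN : 1 ≤ N) {C : ℝ} (hC : 0 ≤ C) :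
    C * (H : ℝ) ^ (-(101 / 100 : ℝ)) * (2 * H + 1 : ℝ) ^ N ≤
      3 * C * (H : ℝ) ^ (-(1 / 100 : ℝ)) * (2 * H + 1 : ℝ) ^ (N - 1) := by
  have h1 : (1 : ℝ) ≤ H := by exact_mod_cast hH
  have h0 : (0 : ℝ) < H := by linarith
  obtain ⟨m, rfl⟩ : ∃ m, N = m + 1 := ⟨N - 1, by omega⟩
  rw [Nat.add_sub_cancel, pow_succ]
  have h2 : (H : ℝ) ^ (-(101 / 100 : ℝ)) * H = (H : ℝ) ^ (-(1 / 100 : ℝ)) := by
    rw [← Real.rpow_add_one h0.ne']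
    norm_num
  have h3 : (2 * H + 1 : ℝ) ≤ 3 * H := by linarith
  have h4 : (0 : ℝ) ≤ C * (H : ℝ) ^ (-(101 / 100 : ℝ)) * (2 * H + 1 : ℝ) ^ m := by positivity
  calc C * (H : ℝ) ^ (-(101 / 100 : ℝ)) * ((2 * H + 1 : ℝ) ^ m * (2 * H + 1 : ℝ))
      = C * (H : ℝ) ^ (-(101 / 100 : ℝ)) * (2 * H + 1 : ℝ) ^ m * (2 * H + 1 : ℝ) := by ring
    _ ≤ C * (H : ℝ) ^ (-(101 / 100 : ℝ)) * (2 * H + 1 : ℝ) ^ m * (3 * H) :=
        mul_le_mul_of_nonneg_left h3 h4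
    _ = 3 * C * ((H : ℝ) ^ (-(101 / 100 : ℝ)) * H) * (2 * H + 1 : ℝ) ^ m := by ring
    _ = _ := by rw [h2]

/-- `T.card² K^(N-2) ≤ 81 H^(-1/100) K^(N-1)` -/
private theorem pair_bound {H : ℕ} (hH : 1 ≤ H) {N : ℕ} (hN : 2 ≤ N) :
    ((Pts (BB H)).card : ℝ) ^ 2 * (2 * H + 1 : ℝ) ^ (N - 2) ≤
      81 * (H : ℝ) ^ (-(1 / 100 : ℝ)) * (2 * H + 1 : ℝ) ^ (N - 1) := by
  have h1 : (1 : ℝ) ≤ H := by exact_mod_cast hH
  have h0 : (0 : ℝ) < H := by linarith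
  obtain ⟨m, rfl⟩ : ∃ m, N = m + 2 := ⟨N - 2, by omega⟩
  have e1 : m + 2 - 1 = m + 1 := by omega
  rw [Nat.add_sub_cancel, e1, pow_succ _ m]
  have h2 := pow_le_pow_left₀ (Nat.cast_nonneg _) (card_T hH) 2
  have h3 : (9 * (H : ℝ) ^ (1 / 4 : ℝ)) ^ 2 = 81 * (H : ℝ) ^ (1 / 2 : ℝ) := by
    rw [mul_pow, ← Real.rpow_natCast ((H : ℝ) ^ (1 / 4 : ℝ)), ← Real.rpow_mul h0.le]
    norm_num
  have h4 : (H : ℝ) ^ (1 / 2 : ℝ) = (H : ℝ) ^ (-(1 / 2) : ℝ) * H := by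
    rw [← Real.rpow_add_one h0.ne']
    norm_num
  have h5 := exps hH (-(1 / 2)) (by norm_num)
  rw [h3, h4] at h2
  have h6 : (0 : ℝ) ≤ (H : ℝ) ^ (-(1 / 100 : ℝ)) := by positivity
  have h7 : (H : ℝ) ^ (-(1 / 2) : ℝ) * H ≤ (H : ℝ) ^ (-(1 / 100 : ℝ)) * (2 * H + 1) :=
    mul_le_mul h5 (by linarith) h0.le h6
  calc ((Pts (BB H)).card : ℝ) ^ 2 * (2 * H + 1 : ℝ) ^ m
      ≤ (81 * ((H : ℝ) ^ (-(1 / 2) : ℝ) * H)) * (2 * H + 1 : ℝ) ^ m :=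
        mul_le_mul_of_nonneg_right h2 (by positivity)
    _ ≤ (81 * ((H : ℝ) ^ (-(1 / 100 : ℝ)) * (2 * H + 1))) * (2 * H + 1 : ℝ) ^ m := by
        refine mul_le_mul_of_nonneg_right ?_ (by positivity)
        linarith
    _ = _ := by ring

/-- the sum of `kap` over the points of the small box -/
private theorem tail_bound (n : ℕ) (hn : 3 ≤ n) {H : ℕ} (hH : 1 ≤ H) :
    |∑ P ∈ Pts (BB H), kap n P - kaps n| ≤ 32 * 2 ^ n * (H : ℝ) ^ (-(1 / 100 : ℝ)) := by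
  have h1 : (1 : ℝ) ≤ H := by exact_mod_cast hH
  have h0 : (0 : ℝ) < H := by linarith
  obtain ⟨h2, h3⟩ := kaps_tail n hn (BB H) (one_le_BB hH)
  have hB : (1 : ℝ) ≤ BB H := by exact_mod_cast one_le_BB hH
  have h4 := lt_BB H
  have h5 : (H : ℝ) ^ (1 / 8 : ℝ) / 2 ≤ (BB H : ℝ) ^ (n - 2) := by
    have h6 : (BB H : ℝ) ^ 1 ≤ (BB H : ℝ) ^ (n - 2) := pow_le_pow_right₀ hB (by omega)
    rw [pow_one] at h6
    linarith
  have hp : (0 : ℝ) < (H : ℝ) ^ (1 / 8 : ℝ) := by positivity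
  have h7 : 16 * 2 ^ n / (BB H : ℝ) ^ (n - 2) ≤ 32 * 2 ^ n * (H : ℝ) ^ (-(1 / 8) : ℝ) := by
    refine (div_le_div_of_nonneg_left (by positivity) (by positivity) h5).trans (le_of_eq ?_)
    rw [Real.rpow_neg h0.le]
    field_simp
    ring
  have h8 := exps hH (-(1 / 8)) (by norm_num)
  have h9 : 32 * 2 ^ n * (H : ℝ) ^ (-(1 / 8) : ℝ) ≤ 32 * 2 ^ n * (H : ℝ) ^ (-(1 / 100 : ℝ)) :=
    mul_le_mul_of_nonneg_left h8 (by positivity)
  rw [abs_le]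
  constructor
  · linarith
  · have : (0 : ℝ) ≤ 32 * 2 ^ n * (H : ℝ) ^ (-(1 / 100 : ℝ)) := by positivity
    linarith

/-- the sum of `pr` is close to the sum of `kap` -/
private theorem close_bound (n : ℕ) (hn : 1 ≤ n) {H : ℕ} (hH : 1 ≤ H) :
    |∑ P ∈ Pts (BB H), pr n H P - ∑ P ∈ Pts (BB H), kap n P| ≤
      9 * (4 * Fintype.card (Ix n) + 6) * (H : ℝ) ^ (-(1 / 100 : ℝ)) := by
  have h1 : (1 : ℝ) ≤ H := by exact_mod_cast hH
  have h0 : (0 : ℝ) < H := by linarith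
  rw [← sum_sub_distrib]
  refine (abs_sum_le_sum_abs _ _).trans ?_
  refine (sum_le_sum fun P _ => kap_close n hn P H hH).trans ?_
  rw [sum_const, nsmul_eq_mul]
  have h2 := card_T hH
  have h3 : (4 * Fintype.card (Ix n) + 6 : ℝ) / (2 * H + 1) ≤
      (4 * Fintype.card (Ix n) + 6 : ℝ) / H :=
    div_le_div_of_nonneg_left (by positivity) h0 (by linarith)
  have h4 : (H : ℝ) ^ (1 / 4 : ℝ) / H = (H : ℝ) ^ (-(3 / 4) : ℝ) := by
    rw [← Real.rpow_sub_one h0.ne']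
    norm_num
  have h5 := exps hH (-(3 / 4)) (by norm_num)
  calc ((Pts (BB H)).card : ℝ) * ((4 * Fintype.card (Ix n) + 6) / (2 * H + 1))
      ≤ (9 * (H : ℝ) ^ (1 / 4 : ℝ)) * ((4 * Fintype.card (Ix n) + 6) / H) :=
        mul_le_mul h2 h3 (by positivity) (by positivity)
    _ = 9 * (4 * Fintype.card (Ix n) + 6) * ((H : ℝ) ^ (1 / 4 : ℝ) / H) := by ring
    _ = 9 * (4 * Fintype.card (Ix n) + 6) * (H : ℝ) ^ (-(3 / 4) : ℝ) := by rw [h4]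
    _ ≤ _ := mul_le_mul_of_nonneg_left h5 (by positivity)

private theorem not_mem_Pts {H : ℕ} {P : ℤ × ℤ} (h : P ∉ Pts (BB H)) :
    (H : ℝ) ^ (1 / 8 : ℝ) ≤ max |(P.1 : ℝ)| |(P.2 : ℝ)| := by
  rw [mem_Pts] at h
  have h1 : (BB H : ℤ) + 1 ≤ msz P := by omega
  have h2 : ((BB H : ℝ) + 1) ≤ ((msz P : ℤ) : ℝ) := by exact_mod_cast h1
  have h3 : ((msz P : ℤ) : ℝ) = max |(P.1 : ℝ)| |(P.2 : ℝ)| := by
    unfold msz
    push_cast
    rfl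
  rw [← h3]
  exact (lt_BB H).le.trans h2

open Classical in
private theorem bonf_ex {α β : Type*} [DecidableEq α] (W : Finset α) (T : Finset β)
    (z : α → β → Prop) (r : ℝ) (hr0 : 0 ≤ r)
    (hr : ∀ P ∈ T, ∀ Q ∈ T, P ≠ Q → ((W.filter fun a => z a P ∧ z a Q).card : ℝ) ≤ r) :
    ∃ V : Finset α, (∀ a, a ∈ V ↔ a ∈ W ∧ ∃ P ∈ T, ∃ Q ∈ T, P ≠ Q ∧ z a P ∧ z a Q) ∧
      (V.card : ℝ) ≤ (T.card : ℝ) ^ 2 * r :=
  ⟨W.filter fun a => ∃ P ∈ T, ∃ Q ∈ T, P ≠ Q ∧ z a P ∧ z a Q, fun _ => mem_filter,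
    (bonf W T z r hr0 hr).2⟩

private theorem four {a b c d e x y w v : ℝ} (h1 : |a - b| ≤ x) (h2 : |b - c| ≤ y)
    (h3 : |c - d| ≤ w) (h4 : |d - e| ≤ v) : |a - e| ≤ x + y + w + v := by
  have j1 := abs_sub_le a b e
  have j2 := abs_sub_le b c e
  have j3 := abs_sub_le c d e
  linarith

private theorem abs_le_of {a b c d x : ℝ} (hx : 0 ≤ x) (h1 : b ≤ a) (h2 : a ≤ b + c)
    (h3 : c ≤ x) (hd : d = x) : |a - b| ≤ d := by
  rw [hd, abs_le]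
  constructor
  · linarith
  · linarith

open Classical in
theorem vec_gen (n : ℕ) (hn : 3 ≤ n) (I : (Ix n → ℤ) → Prop)
    (hI : ∀ a b : Ix n → ℤ, (∀ i, i ≠ ix n 0 0 (by omega) → a i = b i) → I a → I b)
    (hI2 : Small n (1 / 2) fun _ a => ¬ I a)
    (hbig : Small n (101 / 100) fun H a => I a ∧ ∃ P : ℤ × ℤ, ev n (arr a) P.1 P.2 = 0 ∧
      (H : ℝ) ^ (1 / 8 : ℝ) ≤ max |(P.1 : ℝ)| |(P.2 : ℝ)|) :
    ∃ C : ℝ, ∀ H : ℕ, 1 ≤ H →
      |(((Box n H).filter fun a => I a ∧ ∃ P : ℤ × ℤ, ev n (arr a) P.1 P.2 = 0).card : ℝ) -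
        kaps n * (2 * H + 1 : ℝ) ^ (Fintype.card (Ix n) - 1)| ≤
        C * (H : ℝ) ^ (-(1 / 100 : ℝ)) * (2 * H + 1 : ℝ) ^ (Fintype.card (Ix n) - 1) ∧
      (((Box n H).filter fun a => I a ∧ ∃ P Q : ℤ × ℤ, P ≠ Q ∧
        ev n (arr a) P.1 P.2 = 0 ∧ ev n (arr a) Q.1 Q.2 = 0).card : ℝ) ≤
        C * (H : ℝ) ^ (-(1 / 100 : ℝ)) * (2 * H + 1 : ℝ) ^ (Fintype.card (Ix n) - 1) := by
  obtain ⟨C1, hC1, hb⟩ := hbig.pos
  obtain ⟨C2, hC2, hi⟩ := hI2.pos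
  have hN2 := two_le_card n (by omega)
  set N := Fintype.card (Ix n) with hN
  refine ⟨3 * C1 + 81 + 9 * C2 + 9 * (4 * N + 6) + 32 * 2 ^ n, fun H hH => ?_⟩
  have h1 : (1 : ℝ) ≤ H := by exact_mod_cast hH
  have h0 : (0 : ℝ) < H := by linarith
  obtain ⟨u, hu⟩ : ∃ u : ℝ, u = (H : ℝ) ^ (-(1 / 100 : ℝ)) := ⟨_, rfl⟩
  have hu0 : 0 ≤ u := by rw [hu]; positivity
  obtain ⟨Km, hKm⟩ : ∃ Km : ℝ, Km = (2 * H + 1 : ℝ) ^ (N - 1) := ⟨_, rfl⟩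
  have hKm0 : 0 < Km := by rw [hKm]; positivity
  obtain ⟨W, hW⟩ : ∃ W : Finset (Ix n → ℤ), W = (Box n H).filter I := ⟨_, rfl⟩
  obtain ⟨T, hT⟩ : ∃ T : Finset (ℤ × ℤ), T = Pts (BB H) := ⟨_, rfl⟩
  rw [← hu, ← hKm]
  obtain ⟨z, hz⟩ : ∃ z : (Ix n → ℤ) → ℤ × ℤ → Prop,
      ∀ a P, z a P ↔ ev n (arr a) P.1 P.2 = 0 := ⟨_, fun _ _ => Iff.rfl⟩
  have eA : ((Box n H).filter fun a => I a ∧ ∃ P : ℤ × ℤ, ev n (arr a) P.1 P.2 = 0) =
      (Box n H).filter fun a => I a ∧ ∃ P : ℤ × ℤ, z a P := by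
    ext a
    simp only [mem_filter, hz]
  have eB : ((Box n H).filter fun a => I a ∧ ∃ P Q : ℤ × ℤ, P ≠ Q ∧
      ev n (arr a) P.1 P.2 = 0 ∧ ev n (arr a) Q.1 Q.2 = 0) =
      (Box n H).filter fun a => I a ∧ ∃ P Q : ℤ × ℤ, P ≠ Q ∧ z a P ∧ z a Q := by
    ext a
    simp only [mem_filter, hz]
  rw [eA, eB]
  obtain ⟨bad, hbad⟩ : ∃ bad : Finset (Ix n → ℤ),
      bad = (Box n H).filter fun a => I a ∧ ∃ P : ℤ × ℤ, z a P ∧ P ∉ T := ⟨_, rfl⟩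
  have hbadc : (bad.card : ℝ) ≤ 3 * C1 * u * Km := by
    have h2 := hb H hH bad fun a ha => by
      rw [hbad, mem_filter, mem_Box] at ha
      obtain ⟨ha1, ha2, P, hP, hPT⟩ := ha
      rw [hT] at hPT
      exact ⟨ha1, ha2, P, (hz a P).1 hP, not_mem_Pts hPT⟩
    rw [hu, hKm]
    exact h2.trans (big_bound hH (by omega) hC1)
  have hpair : ∀ P ∈ T, ∀ Q ∈ T, P ≠ Q →
      ((W.filter fun a => z a P ∧ z a Q).card : ℝ) ≤ (2 * H + 1 : ℝ) ^ (N - 2) := by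
    intro P _ Q _ hPQ
    refine pair_count n (by omega) H P Q hPQ _ fun a ha => ?_
    rw [mem_filter, hW, mem_filter, mem_Box] at ha
    exact ⟨ha.1.1, (hz a P).1 ha.2.1, (hz a Q).1 ha.2.2⟩
  obtain ⟨hbon1, _⟩ := bonf W T z ((2 * H + 1 : ℝ) ^ (N - 2)) (by positivity) hpair
  obtain ⟨V, hV, hbon2⟩ := bonf_ex W T z ((2 * H + 1 : ℝ) ^ (N - 2)) (by positivity) hpair
  have hpb := pair_bound hH hN2
  rw [← hu, ← hKm, ← hT] at hpb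
  have hpb1 := hbon1.trans hpb
  have hVc := hbon2.trans hpb
  have hone : ∀ P : ℤ × ℤ, ((((Box n H).filter fun a => ¬ I a ∧ z a P).card : ℕ) : ℝ) ≤
      C2 * (H : ℝ) ^ (-(1 / 2) : ℝ) * Km := by
    intro P
    rw [hKm]
    refine one_count n H P (fun a => ¬ I a) _ ?_ ?_ _ ?_
    · intro a b hab hna hIb
      exact hna (hI b a (fun i hi => (hab i hi).symm) hIb)
    · intro S hS
      exact hi H hH S hS
    · intro a ha
      rw [mem_filter, mem_Box] at ha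
      exact ⟨ha.1, ha.2.1, (hz a P).1 ha.2.2⟩
  have hsplit : ∀ P : ℤ × ℤ, |((W.filter fun a => z a P).card : ℝ) - pr n H P * Km| ≤
      C2 * (H : ℝ) ^ (-(1 / 2) : ℝ) * Km := by
    intro P
    have e1 : (W.filter fun a => z a P).card +
        ((Box n H).filter fun a => ¬ I a ∧ z a P).card = (ZA n H P).card := by
      have e2 := card_filter_add_card_filter_not (s := ZA n H P) I
      rw [← e2]
      congr 2
      · ext a
        unfold ZA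
        rw [hW]
        simp only [mem_filter, hz]
        tauto
      · ext a
        unfold ZA
        simp only [mem_filter, hz]
        tauto
    have e3 : pr n H P * Km = ((ZA n H P).card : ℝ) := by
      unfold pr
      rw [← hN, ← hKm]
      exact div_mul_cancel₀ _ hKm0.ne'
    have e4 : ((W.filter fun a => z a P).card : ℝ) +
        (((Box n H).filter fun a => ¬ I a ∧ z a P).card : ℝ) = ((ZA n H P).card : ℝ) := by
      exact_mod_cast e1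
    have h2 := hone P
    have h3 : (0 : ℝ) ≤ (((Box n H).filter fun a => ¬ I a ∧ z a P).card : ℝ) :=
      Nat.cast_nonneg _
    rw [e3, abs_sub_comm]
    refine abs_le_of (h3.trans h2) ?_ ?_ h2 rfl
    · rw [← e4]
      exact le_add_of_nonneg_right h3
    · exact e4.symm.le
  have hsum : |∑ P ∈ T, ((W.filter fun a => z a P).card : ℝ) - (∑ P ∈ T, pr n H P) * Km| ≤
      9 * C2 * u * Km := by
    rw [sum_mul, ← sum_sub_distrib]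
    refine (abs_sum_le_sum_abs _ _).trans ?_
    refine (sum_le_sum fun P _ => hsplit P).trans ?_
    rw [sum_const, nsmul_eq_mul]
    have h2 := card_T hH
    rw [← hT] at h2
    have h4 : (H : ℝ) ^ (1 / 4 : ℝ) * (H : ℝ) ^ (-(1 / 2) : ℝ) = (H : ℝ) ^ (-(1 / 4) : ℝ) := by
      rw [← Real.rpow_add h0]
      norm_num
    have h5 := exps hH (-(1 / 4)) (by norm_num)
    rw [← hu] at h5
    calc (T.card : ℝ) * (C2 * (H : ℝ) ^ (-(1 / 2) : ℝ) * Km)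
        ≤ (9 * (H : ℝ) ^ (1 / 4 : ℝ)) * (C2 * (H : ℝ) ^ (-(1 / 2) : ℝ) * Km) :=
          mul_le_mul_of_nonneg_right h2 (by positivity)
      _ = 9 * C2 * ((H : ℝ) ^ (1 / 4 : ℝ) * (H : ℝ) ^ (-(1 / 2) : ℝ)) * Km := by ring
      _ = 9 * C2 * (H : ℝ) ^ (-(1 / 4) : ℝ) * Km := by rw [h4]
      _ ≤ 9 * C2 * u * Km :=
          mul_le_mul_of_nonneg_right (mul_le_mul_of_nonneg_left h5 (by positivity)) hKm0.le
  have hcl := close_bound n (by omega) hH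
  have htl := tail_bound n hn hH
  rw [← hT, ← hu] at hcl htl
  have hkk : |(∑ P ∈ T, pr n H P) * Km - kaps n * Km| ≤
      (9 * (4 * N + 6) + 32 * 2 ^ n) * u * Km := by
    rw [← sub_mul, abs_mul, abs_of_nonneg hKm0.le]
    refine mul_le_mul_of_nonneg_right ?_ hKm0.le
    have h3 := abs_sub_le (∑ P ∈ T, pr n H P) (∑ P ∈ T, kap n P) (kaps n)
    have h4 : (9 * (4 * N + 6) + 32 * 2 ^ n) * u = 9 * (4 * (N : ℝ) + 6) * u + 32 * 2 ^ n * u := by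
      ring
    rw [h4]
    exact h3.trans (add_le_add hcl htl)
  -- the set with a zero
  obtain ⟨UB, hUB, hpb1⟩ : ∃ UB : Finset (Ix n → ℤ), (∀ a, a ∈ UB ↔ a ∈ W ∧ ∃ P ∈ T, z a P) ∧
      |(UB.card : ℝ) - ∑ P ∈ T, ((W.filter fun a => z a P).card : ℝ)| ≤ 81 * u * Km := by
    refine ⟨W.filter fun a => ∃ P ∈ T, z a P, fun a => ?_, hpb1⟩
    rw [mem_filter]
  have hU : |(((Box n H).filter fun a => I a ∧ ∃ P : ℤ × ℤ, z a P).card : ℝ) - (UB.card : ℝ)| ≤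
      3 * C1 * u * Km := by
    have i1 : UB ⊆ (Box n H).filter fun a => I a ∧ ∃ P : ℤ × ℤ, z a P := by
      intro a ha
      rw [hUB, hW, mem_filter] at ha
      obtain ⟨⟨ha1, ha2⟩, P, _, hP⟩ := ha
      rw [mem_filter]
      exact ⟨ha1, ha2, P, hP⟩
    have i2 : ((Box n H).filter fun a => I a ∧ ∃ P : ℤ × ℤ, z a P) ⊆ UB ∪ bad := by
      intro a ha
      rw [mem_filter] at ha
      obtain ⟨ha1, ha2, P, hP⟩ := ha
      rw [mem_union]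
      by_cases hPT : P ∈ T
      · left
        rw [hUB, hW, mem_filter]
        exact ⟨⟨ha1, ha2⟩, P, hPT, hP⟩
      · right
        rw [hbad, mem_filter]
        exact ⟨ha1, ha2, P, hP, hPT⟩
    have i3 : (UB.card : ℝ) ≤
        (((Box n H).filter fun a => I a ∧ ∃ P : ℤ × ℤ, z a P).card : ℝ) := by
      exact_mod_cast card_le_card i1
    have i4 : (((Box n H).filter fun a => I a ∧ ∃ P : ℤ × ℤ, z a P).card : ℝ) ≤
        (UB.card : ℝ) + (bad.card : ℝ) := by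
      exact_mod_cast (card_le_card i2).trans (card_union_le _ _)
    exact abs_le_of (by positivity) i3 i4 hbadc rfl
  have hpos1 : 0 ≤ (9 * C2 + 9 * (4 * N + 6) + 32 * 2 ^ n) * u * Km := by positivity
  refine ⟨?_, ?_⟩
  · have j4 : (3 * C1 + 81 + 9 * C2 + 9 * (4 * N + 6) + 32 * 2 ^ n) * u * Km =
        3 * C1 * u * Km + 81 * u * Km + 9 * C2 * u * Km +
          (9 * (4 * N + 6) + 32 * 2 ^ n) * u * Km := by ring
    rw [j4]
    exact four hU hpb1 hsum hkk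
  · have i2 : ((Box n H).filter fun a => I a ∧ ∃ P Q : ℤ × ℤ, P ≠ Q ∧ z a P ∧ z a Q) ⊆
        V ∪ bad := by
      intro a ha
      rw [mem_filter] at ha
      obtain ⟨ha1, ha2, P, Q, hPQ, hP, hQ⟩ := ha
      rw [mem_union]
      by_cases hPT : P ∈ T
      · by_cases hQT : Q ∈ T
        · left
          rw [hV, hW, mem_filter]
          exact ⟨⟨ha1, ha2⟩, P, hPT, Q, hQT, hPQ, hP, hQ⟩
        · right
          rw [hbad, mem_filter]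
          exact ⟨ha1, ha2, Q, hQ, hQT⟩
      · right
        rw [hbad, mem_filter]
        exact ⟨ha1, ha2, P, hP, hPT⟩
    have i4 : (((Box n H).filter fun a => I a ∧ ∃ P Q : ℤ × ℤ, P ≠ Q ∧ z a P ∧
        z a Q).card : ℝ) ≤ (V.card : ℝ) + (bad.card : ℝ) := by
      exact_mod_cast (card_le_card i2).trans (card_union_le _ _)
    have j4 : (3 * C1 + 81 + 9 * C2 + 9 * (4 * N + 6) + 32 * 2 ^ n) * u * Km =
        3 * C1 * u * Km + 81 * u * Km + (9 * C2 + 9 * (4 * N + 6) + 32 * 2 ^ n) * u * Km := by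
      ring
    rw [j4, add_comm (3 * C1 * u * Km)]
    exact (i4.trans (add_le_add hVc hbadc)).trans (le_add_of_nonneg_right hpos1)

end Pool.Agent.H15.SC
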