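import Pool.Agent.H15.SC.Big
import Pool.Agent.H15.SC.Rr3
import Pool.Agent.H15.SC.Rr4
import Pool.Agent.H15.SC.Rr5
import Pool.Agent.H15.SC.Rr7
import Pool.Agent.H15.SC.Rdich
import Pool.Agent.H15.SC.Vec
import Pool.Agent.H15.SC.Poly
import Pool.Agent.H8.NoPt.IrrC

/-! # [SC RFIN] Assembly for all curves

`Runge n`: the theorem of Runge with a polynomial bound, for leading forms `l h`. -/

namespace Pool.Agent.H15.SC

open Finset Polynomial Pool.Agent.H72.ES Pool.Agent.H8.NoPt Pool.Agent.H8.MP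

/-- Runge's theorem with a polynomial bound, leading form `(q x - p y) h` -/
def Runge (n : ℕ) : Prop := ∃ E : ℕ, ∀ H : ℕ, 2 ≤ H → ∀ a : Ix n → ℤ,
  (∀ i, |a i| ≤ (H : ℤ)) → ∀ (p q : ℤ) (h : ℤ[X]), Lin n (arr a) p q h →
  Irreducible (MvPolynomial.map (Int.castRingHom ℚ) (mvPoly n a)) →
  ∀ P : ℤ × ℤ, ev n (arr a) P.1 P.2 = 0 → |P.1| ≤ (H : ℤ) ^ E

theorem Small.mono' {n : ℕ} {s : ℝ} {Q R : ℕ → (Ix n → ℤ) → Prop} (h : Small n s Q)
    (hR : ∀ (H : ℕ) (a : Ix n → ℤ), 1 ≤ H → (∀ i, |a i| ≤ (H : ℤ)) → R H a → Q H a) :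
    Small n s R := by
  obtain ⟨C, hC⟩ := h
  exact ⟨C, fun H hH S hS => hC H hH S fun a ha =>
    ⟨(hS a ha).1, hR _ _ hH (hS a ha).1 (hS a ha).2⟩⟩

theorem red_big_x (n : ℕ) (hn : 5 ≤ n) (hR : Runge n) : Small n (101 / 100) fun H a =>
    ¬ LeadIrr n (arr a) ∧
    ∃ P : ℤ × ℤ, ZP n (arr a) P ∧ (H : ℝ) ^ (1 / 8 : ℝ) ≤ |(P.1 : ℝ)| := by
  obtain ⟨E, hE⟩ := hR
  have h1 : Small n (101 / 100) fun H a => H = 1 := by
    refine small_of_large (s := 2) (by norm_num) 2 0 0 ?_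
    intro H hH _ S hS
    have hS0 : S = ∅ := by
      rw [eq_empty_iff_forall_notMem]
      intro a ha
      have := (hS a ha).2
      omega
    simp [hS0]
  have h := (((s2a n hn).or (s2b n hn)).or ((s7a n hn).or (s7b1 n hn))).or
    (((((r8 n (by omega)).exp (t := 101 / 100) (by norm_num)).or
      ((r1 n (by omega)).exp (t := 101 / 100) (by norm_num))).or ((r2 n hn).or (r3 n hn))).or
      (((r4 n hn).or (r7 n hn)).or (((r5a n hn E).or (r5b n hn E)).or h1)))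
  refine h.mono' ?_
  rintro H a hH hbox ⟨hI, P, hP, hx⟩
  by_cases c1 : |(P.1 : ℝ)| ≤ H
  · exact Or.inl (Or.inl (Or.inl ⟨P, hP, hx, c1⟩))
  push Not at c1
  by_cases c2 : |(P.1 : ℝ)| ≤ X1 n H
  · exact Or.inl (Or.inl (Or.inr ⟨P, hP, c1.le, c2⟩))
  push Not at c2
  by_cases c3 : dz n (arr a) P ≤ (H : ℝ) ^ (97 / 300 : ℝ)
  · exact Or.inl (Or.inr (Or.inl ⟨P, hP, c2.le, c3⟩))
  push Not at c3
  by_cases c4 : |(P.1 : ℝ)| ≤ X2 n H ∧ dz n (arr a) P ≤ (H : ℝ) ^ (1 / 2 : ℝ)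
  · exact Or.inl (Or.inr (Or.inr ⟨P, hP, c2.le, c4.1, c4.2⟩))
  right
  by_cases c5 : lead n (arr a) = 0
  · exact Or.inl (Or.inl (Or.inl c5))
  rcases dich (by omega) (arr a) c5 hI with hF | ⟨p, q, h, hL⟩
  · exact Or.inl (Or.inl (Or.inr ⟨c5, hF⟩))
  have hdeg : (C q - C p * X : ℤ[X]).natDegree ≤ 1 := by
    refine (natDegree_sub_le _ _).trans ?_
    rw [natDegree_C]
    refine max_le (by norm_num) ((natDegree_C_mul_le _ _).trans natDegree_X_le)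
  by_cases c6 : |(q : ℝ)| ≤ A0 n H
  swap
  · push Not at c6
    refine Or.inl (Or.inr (Or.inl ⟨c5, C q - C p * X, h, hdeg, hL.deg.le, hL.eq, 0, ?_⟩))
    simpa using c6
  by_cases c7 : |(p : ℝ)| ≤ A0 n H
  swap
  · push Not at c7
    refine Or.inl (Or.inr (Or.inl ⟨c5, C q - C p * X, h, hdeg, hL.deg.le, hL.eq, 1, ?_⟩))
    have e : (C q - C p * X : ℤ[X]).coeff 1 = -p := by
      rw [coeff_sub, coeff_C_mul, coeff_X_one, coeff_C]
      simp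
    rw [e]
    push_cast
    rwa [abs_neg]
  by_cases c8 : |(fv (n - 1) h p q : ℝ)| < (H : ℝ) ^ (49 / 50 : ℝ)
  · exact Or.inl (Or.inr (Or.inr ⟨p, q, h, hL, c7, c6, c8⟩))
  push Not at c8
  have hS : LinS n H (arr a) p q h := ⟨hL, c7, c6, c8⟩
  right
  by_cases c9 : |(q * P.1 - p * P.2 : ℝ)| ≤ Dd n H
  · exact Or.inl (Or.inl ⟨p, q, h, hS, P, hP, c2.le, c9⟩)
  push Not at c9
  by_cases c10 : Irreducible (MvPolynomial.map (Int.castRingHom ℚ) (mvPoly n a))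
  swap
  · exact Or.inl (Or.inr ⟨⟨p, q, h, hL⟩, c10⟩)
  right
  by_cases c11 : H = 1
  · exact Or.inr c11
  have hE1 := hE H (by omega) a hbox p q h hL c10 P hP.1
  have hE2 : |(P.1 : ℝ)| ≤ (H : ℝ) ^ E := by exact_mod_cast hE1
  by_cases c12 : dz n (arr a) P ≤ (H : ℝ) ^ (1 / 2 : ℝ)
  · have c13 : X2 n H ≤ |(P.1 : ℝ)| := by
      by_contra hcon
      push Not at hcon
      exact c4 ⟨hcon.le, c12⟩
    exact Or.inl (Or.inr ⟨p, q, h, hS, P, hP, c13, hE2, c3.le, c9⟩)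
  · push Not at c12
    exact Or.inl (Or.inl ⟨p, q, h, hS, P, hP, c2.le, hE2, c12.le, c9⟩)

theorem big_all (n : ℕ) (hn : 5 ≤ n) (hR : Runge n) : Small n (101 / 100) fun H a => True ∧
    ∃ P : ℤ × ℤ, ev n (arr a) P.1 P.2 = 0 ∧
      (H : ℝ) ^ (1 / 8 : ℝ) ≤ max |(P.1 : ℝ)| |(P.2 : ℝ)| := by
  refine big_of_x n (fun _ => True) (fun _ _ => trivial) ?_
  refine ((big_x n hn).or (red_big_x n hn hR)).mono ?_
  rintro H a ⟨_, P, hP, hx⟩
  by_cases hI : LeadIrr n (arr a)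
  · exact Or.inl ⟨hI, P, hP, hx⟩
  · exact Or.inr ⟨hI, P, hP, hx⟩

open Classical in
/-- the count for all curves, in terms of coefficient vectors -/
theorem vec_all (n : ℕ) (hn : 5 ≤ n) (hR : Runge n) : ∃ C : ℝ, ∀ H : ℕ, 1 ≤ H →
      |(((Box n H).filter fun a => ∃ P : ℤ × ℤ, ev n (arr a) P.1 P.2 = 0).card : ℝ) -
        kaps n * (2 * H + 1 : ℝ) ^ (Fintype.card (Ix n) - 1)| ≤
        C * (H : ℝ) ^ (-(1 / 100 : ℝ)) * (2 * H + 1 : ℝ) ^ (Fintype.card (Ix n) - 1) ∧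
      (((Box n H).filter fun a => ∃ P Q : ℤ × ℤ, P ≠ Q ∧
        ev n (arr a) P.1 P.2 = 0 ∧ ev n (arr a) Q.1 Q.2 = 0).card : ℝ) ≤
        C * (H : ℝ) ^ (-(1 / 100 : ℝ)) * (2 * H + 1 : ℝ) ^ (Fintype.card (Ix n) - 1) := by
  have h0 : Small n (1 / 2) fun _ _ => ¬ True := by
    refine ⟨0, fun H _ S hS => ?_⟩
    have hS0 : S = ∅ := by
      rw [eq_empty_iff_forall_notMem]
      intro a ha
      exact (hS a ha).2 trivial
    simp [hS0]
  obtain ⟨C, hC⟩ := vec_gen n (by omega) (fun _ => True) (fun _ _ _ _ => trivial) h0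
    (big_all n hn hR)
  refine ⟨C, fun H hH => ?_⟩
  have h := hC H hH
  simp only [true_and] at h
  exact h

open Classical in
/-- the count for curves with irreducible leading form (no Runge) -/
theorem vec_irr (n : ℕ) (hn : 5 ≤ n) : ∃ C : ℝ, ∀ H : ℕ, 1 ≤ H →
      |(((Box n H).filter fun a => LeadIrr n (arr a) ∧
        ∃ P : ℤ × ℤ, ev n (arr a) P.1 P.2 = 0).card : ℝ) -
        kaps n * (2 * H + 1 : ℝ) ^ (Fintype.card (Ix n) - 1)| ≤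
        C * (H : ℝ) ^ (-(1 / 100 : ℝ)) * (2 * H + 1 : ℝ) ^ (Fintype.card (Ix n) - 1) ∧
      (((Box n H).filter fun a => LeadIrr n (arr a) ∧ ∃ P Q : ℤ × ℤ, P ≠ Q ∧
        ev n (arr a) P.1 P.2 = 0 ∧ ev n (arr a) Q.1 Q.2 = 0).card : ℝ) ≤
        C * (H : ℝ) ^ (-(1 / 100 : ℝ)) * (2 * H + 1 : ℝ) ^ (Fintype.card (Ix n) - 1) := by
  refine vec_gen n (by omega) (fun a => LeadIrr n (arr a)) ?_ ?_ (big n hn)
  · intro a b hab hI
    refine hI.congr fun i j hij => ?_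
    rw [arr, arr, dif_pos hij.le, dif_pos hij.le]
    refine hab _ fun h => ?_
    rw [ix, ix, Subtype.mk.injEq, Prod.mk.injEq, Fin.mk.injEq, Fin.mk.injEq] at h
    omega
  · obtain ⟨C, _, hC⟩ := irr_count n (by omega)
    refine ⟨C, fun H hH S hS => (hC H hH S hS).trans (le_of_eq ?_)⟩
    have h0 : (0 : ℝ) < H := by exact_mod_cast hH
    rw [Real.rpow_neg h0.le, Real.sqrt_eq_rpow]
    ring

end Pool.Agent.H15.SC
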