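import Pool.Agent.H15.SC.Rdef
import Pool.Agent.H15.SC.Asy
import Pool.Agent.H8.NoPt.Gelf
import Pool.Agent.H8.NoPt.Asym

/-! # [SC RFV] Values of the factors

`fv_lin`: `Σ_j F (n-j) j u^(n-j) v^j = (q u - p v) fv (n-1) h u v` (compare coefficients in
`lead n F = (q - p X) h`). `fv_ne`: `h` irreducible over `ℚ` of degree `≥ 2` has no rational
zero, and leading coefficient `≠ 0`. `fv_hom`: `u^d h(v/u) = fv d h u v` for `u ≠ 0`,
`natDegree h ≤ d`. `lin_unique`: the rational zero of the form is unique.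
`h_le`: `gelfond`, `q - p X` has a coefficient of absolute value `≥ 1`. `h_lip`: termwise as
`AsymAux.hp_lip`. `hp_fac`: evaluate `lead n F = (q - p X) h` in `ℂ`. -/

namespace Pool.Agent.H15.SC

open Finset Polynomial Pool.Agent.H72.ES Pool.Agent.H8.NoPt Pool.Agent.H8.MP

private theorem rfv_coeff (n : ℕ) (F : ℕ → ℕ → ℤ) (j : ℕ) :
    (lead n F).coeff j = if j ≤ n then F (n - j) j else 0 := by
  unfold lead
  rw [finsetSum_coeff]
  simp only [coeff_C_mul, coeff_X_pow, mul_ite, mul_one, mul_zero]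
  rw [Finset.sum_ite_eq]
  simp only [Finset.mem_range, Nat.lt_succ_iff]

private theorem rfv_mul0 (p q : ℤ) (h : ℤ[X]) : ((C q - C p * X) * h).coeff 0 = q * h.coeff 0 := by
  rw [sub_mul, coeff_sub, coeff_C_mul, mul_assoc, coeff_C_mul, coeff_X_mul_zero, mul_zero, sub_zero]

private theorem rfv_mul1 (p q : ℤ) (h : ℤ[X]) (j : ℕ) :
    ((C q - C p * X) * h).coeff (j + 1) = q * h.coeff (j + 1) - p * h.coeff j := by
  rw [sub_mul, coeff_sub, coeff_C_mul, mul_assoc, coeff_C_mul, coeff_X_mul]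

theorem fv_lin {n : ℕ} (hn : 1 ≤ n) {F : ℕ → ℕ → ℤ} {p q : ℤ} {h : ℤ[X]} (hL : Lin n F p q h)
    (u v : ℤ) : ∑ j ∈ range (n + 1), F (n - j) j * u ^ (n - j) * v ^ j =
      (q * u - p * v) * fv (n - 1) h u v := by
  obtain ⟨k, rfl⟩ : ∃ k, n = k + 1 := ⟨n - 1, by omega⟩
  have h1 : ∀ j ∈ range (k + 1 + 1), F (k + 1 - j) j * u ^ (k + 1 - j) * v ^ j =
      (lead (k + 1) F).coeff j * u ^ (k + 1 - j) * v ^ j := by
    intro j hj
    rw [Finset.mem_range] at hj
    rw [rfv_coeff, if_pos (by omega)]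
  have hk : h.coeff (k + 1) = 0 := by
    apply coeff_eq_zero_of_natDegree_lt
    rw [hL.deg]
    omega
  have h2 : ∑ j ∈ range (k + 1 + 1), h.coeff j * u ^ (k + 1 - j) * v ^ j = u * fv k h u v := by
    rw [Finset.sum_range_succ, hk, zero_mul, zero_mul, add_zero]
    unfold fv
    rw [Finset.mul_sum]
    refine Finset.sum_congr rfl fun j hj => ?_
    rw [Finset.mem_range] at hj
    have h3 : k + 1 - j = (k - j) + 1 := by omega
    rw [h3, pow_succ]
    ring
  rw [Finset.sum_congr rfl h1, hL.eq, Finset.sum_range_succ', rfv_mul0]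
  rw [Finset.sum_range_succ'] at h2
  have h4 : ∑ j ∈ range (k + 1), ((C q - C p * X) * h).coeff (j + 1) * u ^ (k + 1 - (j + 1)) *
      v ^ (j + 1) = q * ∑ j ∈ range (k + 1), h.coeff (j + 1) * u ^ (k + 1 - (j + 1)) * v ^ (j + 1) -
        p * v * fv k h u v := by
    unfold fv
    rw [Finset.mul_sum, Finset.mul_sum, ← Finset.sum_sub_distrib]
    refine Finset.sum_congr rfl fun j _ => ?_
    rw [rfv_mul1]
    have h5 : k + 1 - (j + 1) = k - j := by omega
    rw [h5]
    ring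
  rw [h4]
  show _ = (q * u - p * v) * fv k h u v
  linear_combination q * h2

private theorem fv_hom' {K : Type} [Field K] [CharZero K] {d : ℕ} {h : ℤ[X]}
    (hd : h.natDegree ≤ d) (u v : ℤ) (hu : u ≠ 0) :
    (fv d h u v : K) = (u : K) ^ d * (h.map (Int.castRingHom K)).eval ((v : K) / u) := by
  have hu' : (u : K) ≠ 0 := Int.cast_ne_zero.2 hu
  rw [eval_eq_sum_range' (n := d + 1) (lt_of_le_of_lt natDegree_map_le (by omega))]
  unfold fv
  push_cast
  rw [Finset.mul_sum]
  refine Finset.sum_congr rfl fun j hj => ?_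
  rw [Finset.mem_range] at hj
  rw [coeff_map]
  have h3 : (u : K) ^ d = u ^ (d - j) * u ^ j := by
    rw [← pow_add]
    congr 1
    omega
  rw [h3, div_pow]
  simp only [eq_intCast]
  field_simp

theorem fv_hom {d : ℕ} {h : ℤ[X]} (hd : h.natDegree ≤ d) (u v : ℤ) (hu : u ≠ 0) :
    (fv d h u v : ℂ) = (u : ℂ) ^ d * (h.map (Int.castRingHom ℂ)).eval ((v : ℂ) / u) :=
  fv_hom' hd u v hu

theorem fv_ne {n : ℕ} (hn : 3 ≤ n) {F : ℕ → ℕ → ℤ} {p q : ℤ} {h : ℤ[X]} (hL : Lin n F p q h)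
    (u v : ℤ) (huv : u ≠ 0 ∨ v ≠ 0) : fv (n - 1) h u v ≠ 0 := by
  intro h0
  by_cases hu : u = 0
  · have hv : v ≠ 0 := by
      rcases huv with h1 | h1
      · exact absurd hu h1
      · exact h1
    unfold fv at h0
    rw [Finset.sum_eq_single (n - 1)] at h0
    · rw [Nat.sub_self, pow_zero, mul_one] at h0
      rcases mul_eq_zero.1 h0 with h1 | h1
      · have h2 : h.leadingCoeff = 0 := by
          unfold leadingCoeff
          rw [hL.deg]
          exact h1
        rw [leadingCoeff_eq_zero] at h2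
        have h3 := hL.deg
        rw [h2, natDegree_zero] at h3
        omega
      · exact pow_ne_zero _ hv h1
    · intro j hj hj'
      rw [Finset.mem_range] at hj
      rw [hu, zero_pow (by omega), mul_zero, zero_mul]
    · intro h1
      exact absurd (Finset.mem_range.2 (by omega)) h1
  · have h1 := fv_hom' (K := ℚ) hL.deg.le u v hu
    rw [h0, Int.cast_zero] at h1
    have h2 : (h.map (Int.castRingHom ℚ)).eval ((v : ℚ) / u) = 0 := by
      rcases mul_eq_zero.1 h1.symm with h3 | h3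
      · exact absurd h3 (pow_ne_zero _ (Int.cast_ne_zero.2 hu))
      · exact h3
    have h3 := degree_eq_one_of_irreducible_of_root hL.irr h2
    have h4 : (h.map (Int.castRingHom ℚ)).natDegree = 1 := natDegree_eq_of_degree_eq_some h3
    rw [natDegree_map_eq_of_injective (Int.cast_injective), hL.deg] at h4
    omega

theorem lin_unique {n : ℕ} (hn : 3 ≤ n) {F : ℕ → ℕ → ℤ} {p q p' q' : ℤ} {h h' : ℤ[X]}
    (hL : Lin n F p q h) (hL' : Lin n F p' q' h') :
    (p' = p ∧ q' = q) ∨ (p' = -p ∧ q' = -q) := by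
  have hpq : p ≠ 0 ∨ q ≠ 0 := by
    by_contra hc
    push Not at hc
    obtain ⟨a, b, hab⟩ := hL.cop
    rw [hc.1, hc.2] at hab
    simp at hab
  have h1 := fv_lin (by omega) hL p q
  have h2 := fv_lin (by omega) hL' p q
  rw [h1] at h2
  have h3 : (q' * p - p' * q) * fv (n - 1) h' p q = 0 := by
    rw [← h2]
    ring
  have h4 : q' * p = p' * q := by
    rcases mul_eq_zero.1 h3 with h5 | h5
    · linarith
    · exact absurd h5 (fv_ne hn hL' p q hpq)
  obtain ⟨c, hc⟩ : p ∣ p' := by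
    have h5 : p ∣ p' * q := ⟨q', by rw [← h4]; ring⟩
    exact hL.cop.dvd_of_dvd_mul_right h5
  by_cases hp : p = 0
  · rw [hp, zero_mul] at hc
    have h6 : IsUnit q := by
      have h7 := hL.cop
      rw [hp] at h7
      exact isCoprime_zero_left.1 h7
    have h8 : IsUnit q' := by
      have h7 := hL'.cop
      rw [hc] at h7
      exact isCoprime_zero_left.1 h7
    rw [hp, hc]
    rcases Int.isUnit_iff.1 h6 with h9 | h9 <;> rcases Int.isUnit_iff.1 h8 with h10 | h10 <;>
      rw [h9, h10] <;> simp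
  · have h5 : q' = c * q := by
      apply mul_right_cancel₀ hp
      rw [h4, hc]
      ring
    have h6 : IsUnit c := by
      obtain ⟨a, b, hab⟩ := hL'.cop
      rw [hc, h5] at hab
      exact IsUnit.of_mul_eq_one (a * p + b * q) (by linear_combination hab)
    rcases Int.isUnit_iff.1 h6 with h7 | h7
    · left
      rw [hc, h5, h7]
      constructor <;> ring
    · right
      rw [hc, h5, h7]
      constructor <;> ring

theorem h_le {n H : ℕ} {F : ℕ → ℕ → ℤ} (hF : Bdd n H F) {p q : ℤ} {h : ℤ[X]}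
    (hL : Lin n F p q h) (j : ℕ) : |(h.coeff j : ℝ)| ≤ 2 ^ n * (n + 1) * H := by
  have hh : h ≠ 0 := by
    intro h0
    have h1 := hL.irr.ne_zero
    rw [h0, Polynomial.map_zero] at h1
    exact h1 rfl
  have hpq : p ≠ 0 ∨ q ≠ 0 := by
    by_contra hc
    push Not at hc
    obtain ⟨a, b, hab⟩ := hL.cop
    rw [hc.1, hc.2] at hab
    simp at hab
  have hg0 : (C q - C p * X : ℤ[X]).coeff 0 = q := by
    rw [coeff_sub, coeff_C_zero, coeff_C_mul, coeff_X_zero, mul_zero, sub_zero]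
  have hg1 : (C q - C p * X : ℤ[X]).coeff 1 = -p := by
    rw [coeff_sub, coeff_C_mul, coeff_X_one, mul_one, coeff_C_succ, zero_sub]
  have hg : (C q - C p * X : ℤ[X]) ≠ 0 := by
    intro h0
    rw [h0] at hg0 hg1
    rw [coeff_zero] at hg0 hg1
    rcases hpq with h1 | h1
    · exact h1 (by linarith)
    · exact h1 hg0.symm
  have hco : ∀ k, |(((C q - C p * X) * h).coeff k : ℝ)| ≤ H := by
    intro k
    rw [← hL.eq, rfv_coeff]
    split_ifs with hk
    · have h1 := hF (n - k) k (by omega)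
      exact_mod_cast h1
    · rw [Int.cast_zero, abs_zero]
      exact Nat.cast_nonneg _
  have hdeg : ((C q - C p * X) * h).natDegree ≤ n := by
    rw [← hL.eq]
    refine natDegree_le_iff_coeff_eq_zero.2 fun k hk => ?_
    rw [rfv_coeff, if_neg (by omega)]
  have h1 := gelfond n (C q - C p * X) h (mul_ne_zero hg hh) hdeg H hco
  rcases hpq with h2 | h2
  · have h3 := h1 1 j
    rw [hg1] at h3
    have h4 : (1 : ℝ) ≤ |((-p : ℤ) : ℝ)| := by
      rw [← Int.cast_abs]
      exact_mod_cast Int.one_le_abs (neg_ne_zero.2 h2)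
    refine le_trans ?_ h3
    exact le_mul_of_one_le_left (abs_nonneg _) h4
  · have h3 := h1 0 j
    rw [hg0] at h3
    have h4 : (1 : ℝ) ≤ |(q : ℝ)| := by
      rw [← Int.cast_abs]
      exact_mod_cast Int.one_le_abs h2
    refine le_trans ?_ h3
    exact le_mul_of_one_le_left (abs_nonneg _) h4

theorem h_lip {n H : ℕ} (hn : 1 ≤ n) {F : ℕ → ℕ → ℤ} (hF : Bdd n H F) {p q : ℤ} {h : ℤ[X]}
    (hL : Lin n F p q h) (z w : ℂ) (hz : ‖z‖ ≤ 2) (hw : ‖w‖ ≤ 2) :
    ‖(h.map (Int.castRingHom ℂ)).eval z - (h.map (Int.castRingHom ℂ)).eval w‖ ≤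
      8 ^ n * (2 ^ n * (n + 1) * H) * ‖z - w‖ := by
  have hd : (h.map (Int.castRingHom ℂ)).natDegree < n + 1 := by
    refine lt_of_le_of_lt natDegree_map_le ?_
    rw [hL.deg]
    omega
  rw [eval_eq_sum_range' hd, eval_eq_sum_range' hd, ← Finset.sum_sub_distrib]
  calc _ ≤ ∑ j ∈ range (n + 1), ‖(h.map (Int.castRingHom ℂ)).coeff j * z ^ j -
        (h.map (Int.castRingHom ℂ)).coeff j * w ^ j‖ := norm_sum_le _ _
    _ ≤ ∑ j ∈ range (n + 1), (2 ^ n * (n + 1) * H) * ((j : ℝ) ^ 2 * 2 ^ j * ‖z - w‖) := by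
        refine Finset.sum_le_sum fun j _ => ?_
        rw [← mul_sub, norm_mul, coeff_map]
        refine mul_le_mul ?_ (AsymAux.pow_lip' j z w hz hw) (norm_nonneg _) (by positivity)
        rw [eq_intCast, Complex.norm_intCast]
        exact h_le hF hL j
    _ = (∑ j ∈ range (n + 1), (j : ℝ) ^ 2 * 2 ^ j) * ((2 ^ n * (n + 1) * H) * ‖z - w‖) := by
        rw [Finset.sum_mul]
        exact Finset.sum_congr rfl fun j _ => by ring
    _ ≤ 8 ^ n * ((2 ^ n * (n + 1) * H) * ‖z - w‖) :=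
        mul_le_mul_of_nonneg_right (AsymAux.sum_sq_two n) (by positivity)
    _ = _ := by ring

theorem hp_fac {n : ℕ} {F : ℕ → ℕ → ℤ} {p q : ℤ} {h : ℤ[X]} (hL : Lin n F p q h) (z : ℂ) :
    (hp n F).eval z = (q - p * z) * (h.map (Int.castRingHom ℂ)).eval z := by
  unfold hp
  rw [hL.eq, Polynomial.map_mul, eval_mul]
  congr 1
  simp

end Pool.Agent.H15.SC
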