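import Pool.Agent.H15.SC.Rfv
import Pool.Agent.H8.NoPt.Mv

/-! # [SC RPT] Reducible curves with leading form `(q x - p y) h` (R7), pointwise

`F = mvPoly n a` over `ℚ`, `F_n(1,X) = (q - p X) h(X)`, so `totalDegree F = n`. Let `F = A B` with
`A, B` not units; `d1 = totalDegree A ≥ 1`, `d2 = totalDegree B ≥ 1`, `d1 + d2 = n`
(`MvPolynomial.totalDegree_mul_of_isDomain`), and the dehomogenised top forms
`A_top(1,X) B_top(1,X) = (q - p X) h` in `ℚ[X]` (`MvPolynomial.homogeneousComponent`; coefficient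
`j` of `A_top(1,X)` is the coefficient of `x^(d1-j) y^j` in `A`; product by comparing the terms of
total degree `n`). `h` irreducible of degree `n - 1 ≥ 3` divides one factor, say `B_top(1,X)`
(degree `≤ d2`), so `d2 = n - 1`, `d1 = 1`, `B_top(1,X) = c' h`, `A_top(1,X) = c (q - p X)`,
`A = c (q x - p y) + e`, `c ≠ 0`. `r = -e/c`: `A` vanishes at all `(t p + r v1, t q + r v2)`,
`t ∈ ℚ` (`q v1 - p v2 = 1`), so `F` does. `t = 0`: second claim. The polynomial in `t` is zero;
coefficient of `t^(n-1)`: by `fv_lin` (over `ℚ`) the part of degree `n` is `r h(t p + ..)` with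
coefficient `r fv (n-1) h p q`, the part of degree `n-1` gives `Σ_j F (n-1-j) j p^(n-1-j) q^j`,
the lower parts nothing. -/

namespace Pool.Agent.H15.SC

open Finset Polynomial Pool.Agent.H72.ES Pool.Agent.H8.NoPt Pool.Agent.H8.MP

private theorem rp_ev {R : Type*} [CommRing R] [Algebra ℚ R] {n : ℕ} (a : Ix n → ℤ) (U V : R) :
    MvPolynomial.aeval ![U, V] (MvPolynomial.map (Int.castRingHom ℚ) (mvPoly n a)) =
      ev n (cst R (arr a)) U V := by
  have h1 : MvPolynomial.aeval ![U, V] (MvPolynomial.map (Int.castRingHom ℚ) (mvPoly n a)) =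
      ∑ i : Ix n, (a i : R) * (U ^ (i.1.1 : ℕ) * V ^ (i.1.2 : ℕ)) := by
    unfold mvPoly
    rw [map_sum, map_sum]
    refine Finset.sum_congr rfl fun i _ => ?_
    rw [MvPolynomial.map_monomial, MvPolynomial.aeval_monomial,
      Finsupp.prod_fintype _ _ (fun _ => pow_zero _), Fin.prod_univ_two, mv_expo_zero,
      mv_expo_one]
    simp
  rw [h1]
  unfold ev
  rw [Finset.sum_sigma']
  refine Finset.sum_bij (fun (q : Ix n) _ => (⟨(q.1.1 : ℕ), (q.1.2 : ℕ)⟩ : (_ : ℕ) × ℕ))
    ?_ ?_ ?_ ?_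
  · intro q _
    have h := q.2
    simp only [Finset.mem_sigma, Finset.mem_range]
    omega
  · intro q _ r _ h
    have h1 := congrArg Sigma.fst h
    have h2 := congrArg Sigma.snd h
    simp only at h1 h2
    exact Subtype.ext (Prod.ext (Fin.ext h1) (Fin.ext h2))
  · rintro ⟨u, v⟩ h
    simp only [Finset.mem_sigma, Finset.mem_range] at h
    refine ⟨ix n u v (by omega), Finset.mem_univ _, ?_⟩
    simp [ix]
  · intro q _
    have h := q.2
    have e : arr a (q.1.1 : ℕ) (q.1.2 : ℕ) = a q := by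
      unfold arr
      rw [dif_pos h]
      rfl
    unfold cst
    rw [e, mul_assoc]

private theorem rp_deg {R : Type*} [CommRing R] (n : ℕ) (c : ℕ → ℕ → R) (x y : R) :
    ev n c x y = ∑ d ∈ range (n + 1), ∑ j ∈ range (d + 1), c (d - j) j * x ^ (d - j) * y ^ j := by
  unfold ev
  rw [Finset.sum_sigma', Finset.sum_sigma']
  refine Finset.sum_bij' (fun (q : (_ : ℕ) × ℕ) _ => (⟨q.1 + q.2, q.2⟩ : (_ : ℕ) × ℕ))
    (fun (q : (_ : ℕ) × ℕ) _ => (⟨q.1 - q.2, q.2⟩ : (_ : ℕ) × ℕ)) ?_ ?_ ?_ ?_ ?_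
  · rintro ⟨i, j⟩ h
    simp only [Finset.mem_sigma, Finset.mem_range] at h ⊢
    omega
  · rintro ⟨i, j⟩ h
    simp only [Finset.mem_sigma, Finset.mem_range] at h ⊢
    omega
  · rintro ⟨i, j⟩ h
    simp
  · rintro ⟨i, j⟩ h
    simp only [Finset.mem_sigma, Finset.mem_range] at h
    simp only [Sigma.mk.injEq, heq_eq_eq, and_true]
    omega
  · rintro ⟨i, j⟩ h
    simp

private noncomputable def Th : MvPolynomial (Fin 2) ℚ →ₐ[ℚ] ℚ[X][X] :=
  MvPolynomial.aeval ![(X : ℚ[X][X]), C X * X]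

private theorem th_coeff (F : MvPolynomial (Fin 2) ℚ) (d : ℕ) :
    (Th F).coeff d = ∑ j ∈ range (d + 1), C (F.coeff (expo (d - j) j)) * X ^ j := by
  induction F using MvPolynomial.induction_on' with
  | monomial u b =>
    have h1 : Th (MvPolynomial.monomial u b) = C (C b * X ^ (u 1)) * X ^ (u 0 + u 1) := by
      unfold Th
      rw [MvPolynomial.aeval_monomial, Finsupp.prod_fintype _ _ (fun _ => pow_zero _),
        Fin.prod_univ_two]
      simp only [Matrix.cons_val_zero, Matrix.cons_val_one]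
      have h2 : algebraMap ℚ ℚ[X][X] b = C (C b) := rfl
      rw [h2, mul_pow, pow_add, C_mul, C_pow]
      ring
    rw [h1, coeff_C_mul_X_pow]
    by_cases hd : d = u 0 + u 1
    · rw [if_pos hd, Finset.sum_eq_single (u 1)]
      · rw [MvPolynomial.coeff_monomial, if_pos]
        rw [hd, Nat.add_sub_cancel, mv_expo_eta]
      · intro j hj hne
        rw [MvPolynomial.coeff_monomial, if_neg, C_0, zero_mul]
        intro h3
        exact hne (by rw [h3, mv_expo_one])
      · intro hj
        exact absurd (mem_range.2 (by omega)) hj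
    · rw [if_neg hd]
      symm
      refine Finset.sum_eq_zero fun j hj => ?_
      rw [mem_range] at hj
      rw [MvPolynomial.coeff_monomial, if_neg, C_0, zero_mul]
      intro h3
      refine hd ?_
      rw [h3, mv_expo_zero, mv_expo_one]
      omega
  | add p q hp hq =>
    rw [map_add, coeff_add, hp, hq, ← Finset.sum_add_distrib]
    refine Finset.sum_congr rfl fun j _ => ?_
    rw [MvPolynomial.coeff_add, C_add, add_mul]

private theorem th_coeff2 (F : MvPolynomial (Fin 2) ℚ) (i j : ℕ) :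
    ((Th F).coeff (i + j)).coeff j = F.coeff (expo i j) := by
  rw [th_coeff, finset_sum_coeff, Finset.sum_eq_single j]
  · rw [coeff_C_mul_X_pow, if_pos rfl, Nat.add_sub_cancel]
  · intro k _ hk
    rw [coeff_C_mul_X_pow, if_neg (Ne.symm hk)]
  · intro hj
    exact absurd (mem_range.2 (by omega)) hj

private theorem th_inj {F G : MvPolynomial (Fin 2) ℚ} (h : Th F = Th G) : F = G := by
  ext m
  have h1 := th_coeff2 F (m 0) (m 1)
  have h2 := th_coeff2 G (m 0) (m 1)
  rw [mv_expo_eta] at h1 h2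
  rw [← h1, ← h2, h]

private theorem th_deg (F : MvPolynomial (Fin 2) ℚ) (d : ℕ) :
    ((Th F).coeff d).natDegree ≤ d := by
  rw [th_coeff]
  refine natDegree_sum_le_of_forall_le _ _ fun j hj => ?_
  rw [mem_range] at hj
  exact (natDegree_C_mul_X_pow_le _ _).trans (by omega)

private theorem th_unit {F : MvPolynomial (Fin 2) ℚ} (hF : F ≠ 0)
    (h : (Th F).natDegree = 0) : IsUnit F := by
  have h1 : F = MvPolynomial.C (F.coeff 0) := by
    refine th_inj ?_
    have h2 : Th (MvPolynomial.C (F.coeff 0)) = C (C (F.coeff 0)) := by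
      unfold Th
      rw [MvPolynomial.aeval_C]
      rfl
    rw [h2, eq_C_of_natDegree_eq_zero h, th_coeff]
    simp only [zero_add, Finset.range_one, Finset.sum_singleton, pow_zero, mul_one, coeff_C_zero]
    congr 3
    unfold expo
    simp
  rw [h1]
  refine IsUnit.map MvPolynomial.C (isUnit_iff_ne_zero.2 ?_)
  intro h3
  rw [h3, map_zero] at h1
  exact hF h1

/-- the linear factor -/
private theorem rp_main {n : ℕ} (hn : 4 ≤ n) {A B : MvPolynomial (Fin 2) ℚ} (hA : ¬ IsUnit A)
    (hA0 : A ≠ 0) (hB0 : B ≠ 0) (hdeg : (Th A).natDegree + (Th B).natDegree = n) {p q : ℤ}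
    {g : ℚ[X]} (hg : g.natDegree = n - 1)
    (hlc : (Th A).leadingCoeff * (Th B).leadingCoeff = (C (q : ℚ) - C (p : ℚ) * X) * g)
    (hgB : g ∣ (Th B).leadingCoeff) : ∃ e c : ℚ, c ≠ 0 ∧
      A = MvPolynomial.C e + MvPolynomial.C (c * q) * MvPolynomial.X 0 -
        MvPolynomial.C (c * p) * MvPolynomial.X 1 := by
  have hTA : Th A ≠ 0 := fun h => hA0 (th_inj (by rw [h, map_zero]))
  have hTB : Th B ≠ 0 := fun h => hB0 (th_inj (by rw [h, map_zero]))
  have hLB : (Th B).leadingCoeff ≠ 0 := leadingCoeff_ne_zero.2 hTB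
  have hdA : 1 ≤ (Th A).natDegree := by
    by_contra h
    exact hA (th_unit hA0 (by omega))
  obtain ⟨k, hk⟩ := hgB
  have hg0 : g ≠ 0 := by
    rintro rfl
    rw [natDegree_zero] at hg
    omega
  have hk0 : k ≠ 0 := by
    rintro rfl
    rw [mul_zero] at hk
    exact hLB hk
  have h1 : (Th B).leadingCoeff.natDegree ≤ (Th B).natDegree := th_deg B _
  rw [hk, natDegree_mul hg0 hk0, hg] at h1
  have hkd : k.natDegree = 0 := by omega
  have hdA1 : (Th A).natDegree = 1 := by omega
  obtain ⟨k0, hk1⟩ : ∃ k0 : ℚ, k = C k0 := ⟨k.coeff 0, eq_C_of_natDegree_eq_zero hkd⟩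
  have hk00 : k0 ≠ 0 := by
    rintro rfl
    rw [C_0] at hk1
    exact hk0 hk1
  have hlA : (Th A).coeff 1 = C k0⁻¹ * (C (q : ℚ) - C (p : ℚ) * X) := by
    have h2 : (Th A).leadingCoeff = (Th A).coeff 1 := by
      unfold leadingCoeff
      rw [hdA1]
    rw [← h2]
    have h3 : (Th A).leadingCoeff * C k0 * g = (C (q : ℚ) - C (p : ℚ) * X) * g := by
      rw [← hlc, hk, hk1]
      ring
    have h4 := mul_right_cancel₀ hg0 h3
    rw [← h4]
    have h5 : (C k0⁻¹ : ℚ[X]) * C k0 = 1 := by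
      rw [← C_mul, inv_mul_cancel₀ hk00, C_1]
    calc (Th A).leadingCoeff = (Th A).leadingCoeff * (C k0⁻¹ * C k0) := by rw [h5, mul_one]
      _ = _ := by ring
  refine ⟨((Th A).coeff 0).coeff 0, k0⁻¹, inv_ne_zero hk00, th_inj ?_⟩
  have hT : Th (MvPolynomial.C (((Th A).coeff 0).coeff 0) +
      MvPolynomial.C (k0⁻¹ * q) * MvPolynomial.X 0 -
        MvPolynomial.C (k0⁻¹ * p) * MvPolynomial.X 1) =
      C (C (((Th A).coeff 0).coeff 0)) + C (C (k0⁻¹ * q)) * X -
        C (C (k0⁻¹ * p) * X) * X := by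
    have hC : ∀ b : ℚ, Th (MvPolynomial.C b) = C (C b) := by
      intro b
      unfold Th
      rw [MvPolynomial.aeval_C]
      rfl
    have hX0 : Th (MvPolynomial.X 0) = X := by
      unfold Th
      rw [MvPolynomial.aeval_X]
      rfl
    have hX1 : Th (MvPolynomial.X 1) = C X * X := by
      unfold Th
      rw [MvPolynomial.aeval_X]
      rfl
    simp only [map_sub, map_add, map_mul, hC, hX0, hX1]
    ring
  rw [hT]
  ext1 d
  rcases Nat.lt_or_ge d 2 with hd | hd
  · interval_cases d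
    · have h2 := th_deg A 0
      have h3 := eq_C_of_natDegree_le_zero h2
      simp only [coeff_sub, coeff_add, coeff_C_zero, coeff_mul_X_zero, add_zero, sub_zero]
      exact h3
    · rw [hlA]
      simp only [coeff_sub, coeff_add, coeff_C_mul_X, coeff_C_succ, if_true, zero_add]
      rw [C_mul, C_mul]
      ring
  · rw [coeff_eq_zero_of_natDegree_lt (by omega)]
    simp only [coeff_sub, coeff_add, coeff_C_mul_X]
    rw [if_neg (by omega), if_neg (by omega), coeff_C_ne_zero (by omega)]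
    ring

private theorem rp_gen {R : Type*} [CommRing R] {n : ℕ} (hn : 1 ≤ n) {F : ℕ → ℕ → ℤ} {p q : ℤ}
    {h : ℤ[X]} (hL : Lin n F p q h) (u v : R) :
    ∑ j ∈ range (n + 1), (F (n - j) j : R) * u ^ (n - j) * v ^ j =
      ((q : R) * u - p * v) * ∑ j ∈ range n, (h.coeff j : R) * u ^ (n - 1 - j) * v ^ j := by
  obtain ⟨m, rfl⟩ : ∃ m, n = m + 1 := ⟨n - 1, by omega⟩
  have hm : h.natDegree = m := hL.deg
  have hF : ∀ j, j ≤ m + 1 → F (m + 1 - j) j =
      q * h.coeff j - p * (if j = 0 then 0 else h.coeff (j - 1)) := by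
    intro j hj
    have h1 : (lead (m + 1) F).coeff j = F (m + 1 - j) j := by
      unfold lead
      rw [finset_sum_coeff, Finset.sum_eq_single j]
      · rw [coeff_C_mul_X_pow, if_pos rfl]
      · intro k _ hk
        rw [coeff_C_mul_X_pow, if_neg (Ne.symm hk)]
      · intro hj'
        exact absurd (mem_range.2 (by omega)) hj'
    rw [← h1, hL.eq, sub_mul, coeff_sub, coeff_C_mul, mul_assoc, coeff_C_mul]
    congr 2
    rcases Nat.eq_zero_or_pos j with rfl | hj0
    · rw [if_pos rfl, coeff_X_mul_zero]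
    · obtain ⟨i, rfl⟩ : ∃ i, j = i + 1 := ⟨j - 1, by omega⟩
      rw [if_neg (by omega), coeff_X_mul]
      rfl
  have hm1 : h.coeff (m + 1) = 0 := coeff_eq_zero_of_natDegree_lt (by omega)
  have e1 : ∑ j ∈ range (m + 1 + 1), (F (m + 1 - j) j : R) * u ^ (m + 1 - j) * v ^ j =
      ∑ j ∈ range (m + 1 + 1), (q : R) * (h.coeff j : R) * u ^ (m + 1 - j) * v ^ j -
      ∑ j ∈ range (m + 1 + 1), (p : R) * ((if j = 0 then 0 else h.coeff (j - 1) : ℤ) : R) *
        u ^ (m + 1 - j) * v ^ j := by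
    rw [← Finset.sum_sub_distrib]
    refine Finset.sum_congr rfl fun j hj => ?_
    rw [mem_range] at hj
    rw [hF j (by omega)]
    push_cast
    ring
  rw [e1, Finset.sum_range_succ (fun j => (q : R) * (h.coeff j : R) * u ^ (m + 1 - j) * v ^ j),
    Finset.sum_range_succ' (fun j => (p : R) * ((if j = 0 then 0 else h.coeff (j - 1) : ℤ) : R) *
        u ^ (m + 1 - j) * v ^ j), hm1]
  simp only [Int.cast_zero, mul_zero, zero_mul, add_zero, if_true, Nat.add_eq_zero_iff,
    one_ne_zero, and_false, if_false, Nat.add_sub_cancel]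
  rw [Finset.mul_sum, ← Finset.sum_sub_distrib]
  refine Finset.sum_congr rfl fun j hj => ?_
  rw [mem_range] at hj
  obtain ⟨i, hi⟩ : ∃ i, m = i + j := ⟨m - j, by omega⟩
  have h2 : m + 1 - j = i + 1 := by omega
  have h3 : m + 1 - (j + 1) = i := by omega
  have h4 : m - j = i := by omega
  rw [h2, h3, h4]
  ring

private theorem rp_top {U V : ℚ[X]} (hU : U.natDegree ≤ 1) (hV : V.natDegree ≤ 1) (c : ℕ → ℚ)
    (d : ℕ) : (∑ j ∈ range (d + 1), C (c j) * U ^ (d - j) * V ^ j).coeff d =
      ∑ j ∈ range (d + 1), c j * U.coeff 1 ^ (d - j) * V.coeff 1 ^ j ∧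
    (∑ j ∈ range (d + 1), C (c j) * U ^ (d - j) * V ^ j).natDegree ≤ d := by
  have hUp : ∀ k, (U ^ k).natDegree ≤ k := fun k => by
    have := natDegree_pow_le_of_le k hU
    rwa [mul_one] at this
  have hVp : ∀ k, (V ^ k).natDegree ≤ k := fun k => by
    have := natDegree_pow_le_of_le k hV
    rwa [mul_one] at this
  constructor
  · rw [finset_sum_coeff]
    refine Finset.sum_congr rfl fun j hj => ?_
    rw [mem_range] at hj
    rw [mul_assoc, coeff_C_mul]
    have h1 : (U ^ (d - j) * V ^ j).coeff (d - j + j) = U.coeff 1 ^ (d - j) * V.coeff 1 ^ j := by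
      rw [coeff_mul_add_eq_of_natDegree_le (hUp _) (hVp _)]
      have h2 := coeff_pow_of_natDegree_le (m := d - j) hU
      have h3 := coeff_pow_of_natDegree_le (m := j) hV
      rw [mul_one] at h2 h3
      rw [h2, h3]
    rw [Nat.sub_add_cancel (by omega)] at h1
    rw [h1, mul_assoc]
  · refine natDegree_sum_le_of_forall_le _ _ fun j hj => ?_
    rw [mem_range] at hj
    rw [mul_assoc]
    refine (natDegree_C_mul_le _ _).trans (natDegree_mul_le.trans ?_)
    have h1 := hUp (d - j)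
    have h2 := hVp j
    omega

theorem red_pt {n : ℕ} (hn : 4 ≤ n) (a : Ix n → ℤ) {p q : ℤ} {h : ℤ[X]}
    (hL : Lin n (arr a) p q h)
    (hR : ¬ Irreducible (MvPolynomial.map (Int.castRingHom ℚ) (mvPoly n a))) (v1 v2 : ℤ)
    (hv : q * v1 - p * v2 = 1) :
    ∃ r : ℚ, r * (fv (n - 1) h p q : ℚ) =
        -(∑ j ∈ range n, (arr a (n - 1 - j) j : ℚ) * (p : ℚ) ^ (n - 1 - j) * (q : ℚ) ^ j) ∧
      ev n (cst ℚ (arr a)) (r * v1) (r * v2) = 0 := by
  classical
  set F : MvPolynomial (Fin 2) ℚ := MvPolynomial.map (Int.castRingHom ℚ) (mvPoly n a) with hF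
  set g : ℚ[X] := h.map (Int.castRingHom ℚ) with hg
  have hgd : g.natDegree = n - 1 := by
    rw [hg, natDegree_map_eq_of_injective (RingHom.injective_int _), hL.deg]
  have hcF : ∀ i j, i + j ≤ n → F.coeff (expo i j) = (arr a i j : ℚ) := by
    intro i j hij
    rw [hF, MvPolynomial.coeff_map]
    have h1 := mv_arr n (F := mvPoly n a) hij
    rw [mv_toVec_poly] at h1
    rw [h1]
    rfl
  have hcF0 : ∀ i j, n < i + j → F.coeff (expo i j) = 0 := by
    intro i j hij
    rw [hF, MvPolynomial.coeff_map, mv_coeff_zero (mv_degree_poly n a), map_zero]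
    rw [mv_expo_zero, mv_expo_one]
    exact hij
  have htop : (Th F).coeff n = (C (q : ℚ) - C (p : ℚ) * X) * g := by
    have h1 : (lead n (arr a)).map (Int.castRingHom ℚ) =
        (C (q : ℚ) - C (p : ℚ) * X) * g := by
      rw [hL.eq, Polynomial.map_mul, Polynomial.map_sub, Polynomial.map_mul, map_C, map_C,
        map_X]
      rfl
    rw [← h1, th_coeff]
    unfold lead
    rw [Polynomial.map_sum]
    refine Finset.sum_congr rfl fun j hj => ?_
    rw [mem_range] at hj
    rw [hcF _ _ (by omega), Polynomial.map_mul, map_C, Polynomial.map_pow, map_X]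
    rfl
  have hlin : (C (q : ℚ) - C (p : ℚ) * X : ℚ[X]) ≠ 0 := by
    intro h0
    have h1 := congrArg (Polynomial.eval (v2 : ℚ)) h0
    have e0 : q = 0 := by
      have h3 := congrArg (Polynomial.eval 0) h0
      simpa using h3
    have e1 : p = 0 := by
      have h3 := congrArg (Polynomial.eval 1) h0
      rw [eval_sub, eval_C, eval_mul, eval_C, eval_X, eval_zero, e0] at h3
      have h4 : (p : ℚ) = 0 := by
        push_cast at h3
        linarith
      exact_mod_cast h4
    rw [e0, e1] at hv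
    simp at hv
  have hg0 : g ≠ 0 := by
    intro h0
    rw [h0, natDegree_zero] at hgd
    omega
  have htop0 : (Th F).coeff n ≠ 0 := by
    rw [htop]
    exact mul_ne_zero hlin hg0
  have hdF : (Th F).natDegree = n := by
    refine le_antisymm ?_ (le_natDegree_of_ne_zero htop0)
    rw [natDegree_le_iff_coeff_eq_zero]
    intro d hd
    rw [th_coeff]
    refine Finset.sum_eq_zero fun j hj => ?_
    rw [mem_range] at hj
    rw [hcF0 _ _ (by omega), C_0, zero_mul]
  have hlcF : (Th F).leadingCoeff = (C (q : ℚ) - C (p : ℚ) * X) * g := by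
    rw [← htop]
    unfold leadingCoeff
    rw [hdF]
  have hF0 : F ≠ 0 := by
    intro h0
    rw [h0, map_zero, natDegree_zero] at hdF
    omega
  have hFu : ¬ IsUnit F := by
    intro h0
    have h1 : IsUnit (Th F) := h0.map Th
    have h2 := natDegree_eq_zero_of_isUnit h1
    omega
  have hprime : Prime g := hL.irr.prime
  have key : ∃ A B : MvPolynomial (Fin 2) ℚ, F = A * B ∧ ¬ IsUnit A ∧
      g ∣ (Th B).leadingCoeff := by
    rw [irreducible_iff] at hR
    push Not at hR
    obtain ⟨A, B, hAB, hA, hB⟩ := hR hFu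
    have h1 : (Th A).leadingCoeff * (Th B).leadingCoeff = (Th F).leadingCoeff := by
      rw [hAB, map_mul, leadingCoeff_mul]
    have h2 : g ∣ (Th A).leadingCoeff * (Th B).leadingCoeff := by
      rw [h1, hlcF]
      exact dvd_mul_left _ _
    rcases hprime.dvd_or_dvd h2 with h3 | h3
    · exact ⟨B, A, by rw [hAB, mul_comm], hB, h3⟩
    · exact ⟨A, B, hAB, hA, h3⟩
  obtain ⟨A, B, hAB, hA, hgB⟩ := key
  have hA0 : A ≠ 0 := by
    rintro rfl
    rw [zero_mul] at hAB
    exact hF0 hAB
  have hB0 : B ≠ 0 := by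
    rintro rfl
    rw [mul_zero] at hAB
    exact hF0 hAB
  have hTA : Th A ≠ 0 := fun h => hA0 (th_inj (by rw [h, map_zero]))
  have hTB : Th B ≠ 0 := fun h => hB0 (th_inj (by rw [h, map_zero]))
  obtain ⟨e, c, hc, hAe⟩ := rp_main hn hA hA0 hB0
    (by rw [← natDegree_mul hTA hTB, ← map_mul, ← hAB, hdF]) hgd
    (by rw [← leadingCoeff_mul, ← map_mul, ← hAB, hlcF]) hgB
  have hvQ : (q : ℚ) * v1 - p * v2 = 1 := by exact_mod_cast hv
  set r : ℚ := -e / c with hr
  have hcr : e + c * r = 0 := by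
    rw [hr]
    field_simp
    ring
  refine ⟨r, ?_, ?_⟩
  · set U : ℚ[X] := C (p : ℚ) * X + C (r * v1) with hU
    set V : ℚ[X] := C (q : ℚ) * X + C (r * v2) with hV
    have hUV : (q : ℚ[X]) * U - p * V = C r := by
      have e1 : ((q : ℤ) : ℚ[X]) = C (q : ℚ) := by simp
      have e2 : ((p : ℤ) : ℚ[X]) = C (p : ℚ) := by simp
      rw [e1, e2, hU, hV]
      have e3 : (C r : ℚ[X]) = C (r * ((q : ℚ) * v1 - p * v2)) := by rw [hvQ, mul_one]
      rw [e3]
      simp only [C_mul, C_sub]
      ring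
    have h0 : ev n (cst ℚ[X] (arr a)) U V = 0 := by
      rw [← rp_ev, ← hF, hAB, map_mul, hAe]
      have e1 : ((q : ℤ) : ℚ[X]) = C (q : ℚ) := by simp
      have e2 : ((p : ℤ) : ℚ[X]) = C (p : ℚ) := by simp
      have e3 : MvPolynomial.aeval ![U, V] (MvPolynomial.C e +
          MvPolynomial.C (c * q) * MvPolynomial.X 0 -
          MvPolynomial.C (c * p) * MvPolynomial.X 1) =
          C e + C c * ((q : ℚ[X]) * U - p * V) := by
        have e4 : ∀ b : ℚ, algebraMap ℚ ℚ[X] b = C b := fun _ => rfl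
        simp only [map_sub, map_add, map_mul, MvPolynomial.aeval_C, MvPolynomial.aeval_X, e4]
        rw [e1, e2]
        simp only [Matrix.cons_val_zero, Matrix.cons_val_one]
        ring
      rw [e3, hUV, ← C_mul, ← C_add, hcr, C_0, zero_mul]
    rw [rp_deg] at h0
    have hU1 : U.natDegree ≤ 1 := natDegree_linear_le
    have hV1 : V.natDegree ≤ 1 := natDegree_linear_le
    have hUc : U.coeff 1 = p := by
      rw [hU]
      simp [coeff_C]
    have hVc : V.coeff 1 = q := by
      rw [hV]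
      simp [coeff_C]
    obtain ⟨m, rfl⟩ : ∃ m, n = m + 1 := ⟨n - 1, by omega⟩
    rw [Finset.sum_range_succ, Finset.sum_range_succ] at h0
    have h1 := congrArg (fun P : ℚ[X] => P.coeff m) h0
    simp only [coeff_add, coeff_zero] at h1
    have hint : ∀ z : ℤ, ((z : ℤ) : ℚ[X]) = C (z : ℚ) := fun z => by simp
    have t1 : (∑ d ∈ range m, ∑ j ∈ range (d + 1),
        cst ℚ[X] (arr a) (d - j) j * U ^ (d - j) * V ^ j).coeff m = 0 := by
      rw [finset_sum_coeff]
      refine Finset.sum_eq_zero fun d hd => ?_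
      rw [mem_range] at hd
      have h2 := (rp_top hU1 hV1 (fun j => (arr a (d - j) j : ℚ)) d).2
      unfold cst
      simp only [hint]
      exact coeff_eq_zero_of_natDegree_lt (by omega)
    have t2 : (∑ j ∈ range (m + 1), cst ℚ[X] (arr a) (m - j) j * U ^ (m - j) * V ^ j).coeff m =
        ∑ j ∈ range (m + 1), (arr a (m - j) j : ℚ) * (p : ℚ) ^ (m - j) * (q : ℚ) ^ j := by
      have h2 := (rp_top hU1 hV1 (fun j => (arr a (m - j) j : ℚ)) m).1
      rw [hUc, hVc] at h2
      unfold cst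
      simp only [hint]
      exact h2
    have t3 : (∑ j ∈ range (m + 1 + 1),
        cst ℚ[X] (arr a) (m + 1 - j) j * U ^ (m + 1 - j) * V ^ j).coeff m =
        r * (fv m h p q : ℚ) := by
      have h2 := rp_gen (by omega) hL U V
      have h3 : ∑ j ∈ range (m + 1 + 1),
        cst ℚ[X] (arr a) (m + 1 - j) j * U ^ (m + 1 - j) * V ^ j =
        ∑ j ∈ range (m + 1 + 1), ((arr a (m + 1 - j) j : ℤ) : ℚ[X]) * U ^ (m + 1 - j) * V ^ j :=
        rfl
      rw [h3, h2, hUV, coeff_C_mul]
      congr 1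
      have h4 := (rp_top hU1 hV1 (fun j => (h.coeff j : ℚ)) m).1
      rw [hUc, hVc] at h4
      simp only [Nat.add_sub_cancel]
      simp only [hint]
      rw [h4]
      unfold fv
      push_cast
      rfl
    rw [t1, t2, t3] at h1
    simp only [Nat.add_sub_cancel]
    linarith
  · rw [← rp_ev, ← hF, hAB, map_mul, hAe]
    have e3 : MvPolynomial.aeval ![r * (v1 : ℚ), r * v2] (MvPolynomial.C e +
          MvPolynomial.C (c * q) * MvPolynomial.X 0 -
          MvPolynomial.C (c * p) * MvPolynomial.X 1) =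
          e + c * r * ((q : ℚ) * v1 - p * v2) := by
      have e4 : ∀ b : ℚ, algebraMap ℚ ℚ b = b := fun _ => rfl
      simp only [map_sub, map_add, map_mul, MvPolynomial.aeval_C, MvPolynomial.aeval_X, e4]
      simp only [Matrix.cons_val_zero, Matrix.cons_val_one]
      ring
    rw [e3, hvQ, mul_one, hcr, zero_mul]

end Pool.Agent.H15.SC
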