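import Pool.Agent.H15.SC.Core
import Pool.Agent.H15.SC.Frc
import Pool.Agent.H8.NoPt.SimpC

/-! # [SC S7B] Step (7b), `|x| ≥ X2`

`not_simp`: `|f(z)| < H/M²`, `|f'(z)| < H/M` at the real `z = y/x` contradicts `Simp n H M`;
`fz_le`. `s7b2`: `H` large, `M' = H^(1/2)/2`, `Q = ¬ Simp n H M'`, `φ = 8^(3n+2) * 4/H`
(`simp_count`), `frc` with `M = H^(203/300)`, `X0 = X2`: `M + M⁵/X0 ≤ 2 H^(203/300)`
(`5 * 203/300 - 11/4 + 1/100 < 203/300`), exponent `-1 + 203/300 + 1/5 - 1 < -11/10`.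
`Simp` does not depend on the constant coefficient (`Simp.congr`, `n ≥ 1`). -/

namespace Pool.Agent.H15.SC

open Finset Polynomial Pool.Agent.H72.ES Pool.Agent.H8.NoPt Pool.Agent.H8.MP

theorem not_simp {n H : ℕ} (hn : 1 ≤ n) {F : ℕ → ℕ → ℤ} (hF : Bdd n H F) (P : ℤ × ℤ)
    (hP : ZP n F P) (hx : P.1 ≠ 0) (M : ℝ) (hM : 1 ≤ M) (h1 : 8 ^ n * M ^ 2 < |(P.1 : ℝ)|)
    (hH : 1 ≤ H) (h2 : dz n F P < H / M) : ¬ Simp n H M F := by
  intro hs
  have hH0 : (0 : ℝ) < H := by exact_mod_cast hH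
  have hM0 : 0 < M := by linarith
  have hx0 : 0 < |(P.1 : ℝ)| := by
    have : (0 : ℝ) ≤ 8 ^ n * M ^ 2 := by positivity
    linarith
  have h4 : (((P.2 : ℝ) / P.1 : ℝ) : ℂ) = (P.2 : ℂ) / P.1 := by push_cast; rfl
  have hz : |(P.2 : ℝ) / P.1| ≤ 1 := by
    rw [abs_div]
    have h2 : |(P.2 : ℝ)| ≤ |(P.1 : ℝ)| := by exact_mod_cast hP.2
    exact (div_le_one hx0).2 h2
  rcases hs _ hz with h | h
  · rw [h4] at h
    have h5 := h.trans (fz_le hn hF P hP hx)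
    rw [div_le_div_iff₀ (by positivity) hx0] at h5
    have h6 : (H : ℝ) * (8 ^ n * M ^ 2) < H * |(P.1 : ℝ)| := by gcongr
    nlinarith
  · rw [h4] at h
    exact absurd h (not_le.2 h2)

theorem simp_const {n H : ℕ} (hn : 1 ≤ n) (M : ℝ) {a b : Ix n → ℤ}
    (h : ∀ i, i ≠ ix n 0 0 (by omega) → a i = b i) (ha : ¬ Simp n H M (arr a)) :
    ¬ Simp n H M (arr b) := by
  intro hb
  apply ha
  refine Simp.congr (fun i j hij => ?_) hb
  unfold arr
  rw [dif_pos (by omega), dif_pos (by omega)]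
  refine (h _ fun he => ?_).symm
  simp only [ix, Subtype.mk.injEq, Prod.mk.injEq, Fin.mk.injEq] at he
  omega

private theorem large (c e : ℝ) (he : 0 < e) : ∃ H0 : ℕ, ∀ H : ℕ, H0 ≤ H →
    c < (H : ℝ) ^ e := by
  have h1 : Filter.Tendsto (fun H : ℕ => (H : ℝ) ^ e) Filter.atTop Filter.atTop :=
    (tendsto_rpow_atTop he).comp tendsto_natCast_atTop_atTop
  obtain ⟨H0, h⟩ := Filter.eventually_atTop.1 (h1.eventually_gt_atTop c)
  exact ⟨H0, h⟩

theorem s7b2 (n : ℕ) (hn : 5 ≤ n) : Small n (101 / 100) fun H a => LeadIrr n (arr a) ∧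
    ∃ P : ℤ × ℤ, ZP n (arr a) P ∧ X2 n H ≤ |(P.1 : ℝ)| ∧
      (H : ℝ) ^ (97 / 300 : ℝ) ≤ dz n (arr a) P ∧ dz n (arr a) P ≤ (H : ℝ) ^ (1 / 2 : ℝ) := by
  obtain ⟨H0, hH0⟩ := large (8 ^ (4 * n)) 1 one_pos
  refine small_of_large (s := 11 / 10) (by norm_num) (H0 + 4)
    (8 ^ (24 * n) * (8 ^ (3 * n + 2) * 4) * 2) 1 fun H hHl hH2 S hS => ?_
  have h1 : (1 : ℝ) ≤ H := by exact_mod_cast (by omega : 1 ≤ H)
  have h0 : (0 : ℝ) < H := by linarith
  have h4H : (4 : ℝ) ≤ H := by exact_mod_cast (by omega : 4 ≤ H)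
  have hn5 : (5 : ℝ) ≤ n := by exact_mod_cast hn
  have hc : (8 : ℝ) ^ (4 * n) < H := by
    have := hH0 H (by omega)
    rwa [Real.rpow_one] at this
  have hc1 : (8 : ℝ) ^ n ≤ 8 ^ (4 * n) := pow_le_pow_right₀ (by norm_num) (by omega)
  -- the size of `X2`
  have hX2 : (H : ℝ) ^ (274 / 100 : ℝ) ≤ X2 n H := by
    unfold X2
    exact Real.rpow_le_rpow_of_exponent_le h1 (by linarith)
  have hX20 : 0 < X2 n H := lt_of_lt_of_le (by positivity) hX2
  -- the parameter `M'`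
  set s : ℝ := (H : ℝ) ^ (1 / 2 : ℝ) with hs
  have hs2 : s ^ 2 = H := by
    rw [hs, ← Real.rpow_natCast, ← Real.rpow_mul h0.le]
    norm_num
  have hs0 : 0 < s := by positivity
  have hs22 : 2 ≤ s := by nlinarith
  have hM'1 : 1 ≤ s / 2 := by linarith
  have hM'2 : (s / 2) ^ 2 = H / 4 := by rw [div_pow, hs2]; norm_num
  -- the parameter `M`
  set M : ℝ := (H : ℝ) ^ (203 / 300 : ℝ) with hM
  have hM1 : 1 ≤ M := Real.one_le_rpow h1 (by norm_num)
  have hM0 : 0 < M := by linarith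
  have hM2 : M ^ 2 = (H : ℝ) ^ (203 / 150 : ℝ) := by
    rw [hM, ← Real.rpow_natCast, ← Real.rpow_mul h0.le]
    norm_num
  have hM5 : M ^ 5 = (H : ℝ) ^ (203 / 60 : ℝ) := by
    rw [hM, ← Real.rpow_natCast, ← Real.rpow_mul h0.le]
    norm_num
  have hHM : (H : ℝ) / M = (H : ℝ) ^ (97 / 300 : ℝ) := by
    rw [div_eq_iff (by positivity), hM, ← Real.rpow_add h0]
    norm_num
  have hHone : (H : ℝ) ^ (1 : ℝ) = H := Real.rpow_one _
  have hXM : (8 : ℝ) ^ (4 * n) * M ^ 2 ≤ X2 n H := by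
    calc (8 : ℝ) ^ (4 * n) * M ^ 2 ≤ (H : ℝ) ^ (1 : ℝ) * (H : ℝ) ^ (203 / 150 : ℝ) := by
          rw [hM2, hHone]
          gcongr
      _ = (H : ℝ) ^ (1 + 203 / 150 : ℝ) := (Real.rpow_add h0 _ _).symm
      _ ≤ (H : ℝ) ^ (274 / 100 : ℝ) := Real.rpow_le_rpow_of_exponent_le h1 (by norm_num)
      _ ≤ X2 n H := hX2
  have hMX : M ^ 5 / X2 n H ≤ M := by
    rw [div_le_iff₀ hX20]
    calc M ^ 5 ≤ (H : ℝ) ^ (203 / 300 + 274 / 100 : ℝ) := by
          rw [hM5]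
          exact Real.rpow_le_rpow_of_exponent_le h1 (by norm_num)
      _ = M * (H : ℝ) ^ (274 / 100 : ℝ) := by rw [Real.rpow_add h0]
      _ ≤ M * X2 n H := by gcongr
  have hk := frc n (by omega) H hH2 (8 ^ (3 * n + 2) * 4 / H) (by positivity)
    (fun a => ¬ Simp n H (s / 2) (arr a))
    (fun a b hab ha => simp_const (by omega) _ hab ha)
    (fun T hT => ?_) M (X2 n H) hM1 hXM S (fun a ha => ?_)
  · refine hk.trans ?_
    refine mul_le_mul_of_nonneg_right ?_ (by positivity)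
    have h5 : (H : ℝ) ^ (1 / (n : ℝ)) ≤ (H : ℝ) ^ (1 / 5 : ℝ) := by
      refine Real.rpow_le_rpow_of_exponent_le h1 ?_
      exact one_div_le_one_div_of_le (by norm_num) hn5
    have hlog : 0 ≤ 1 + Real.log H := by
      have := Real.log_nonneg h1
      linarith
    have h6 : M * (H : ℝ) ^ (1 / 5 : ℝ) / H / H ≤ (H : ℝ) ^ (-(11 / 10) : ℝ) := by
      rw [div_div, div_le_iff₀ (by positivity)]
      calc M * (H : ℝ) ^ (1 / 5 : ℝ) = (H : ℝ) ^ (203 / 300 + 1 / 5 : ℝ) := by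
            rw [Real.rpow_add h0]
        _ ≤ (H : ℝ) ^ (-(11 / 10) + 1 + 1 : ℝ) :=
            Real.rpow_le_rpow_of_exponent_le h1 (by norm_num)
        _ = (H : ℝ) ^ (-(11 / 10) : ℝ) * (H * H) := by
            rw [Real.rpow_add h0, Real.rpow_add h0, Real.rpow_one]
            ring
    calc 8 ^ (24 * n) * (8 ^ (3 * n + 2) * 4 / H) * (M + M ^ 5 / X2 n H) * (1 + Real.log H) *
          (H : ℝ) ^ (1 / (n : ℝ)) / H
        ≤ 8 ^ (24 * n) * (8 ^ (3 * n + 2) * 4 / H) * (M + M) * (1 + Real.log H) *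
          (H : ℝ) ^ (1 / 5 : ℝ) / H := by gcongr
      _ = 8 ^ (24 * n) * (8 ^ (3 * n + 2) * 4) * 2 * (1 + Real.log H) ^ 1 *
          (M * (H : ℝ) ^ (1 / 5 : ℝ) / H / H) := by ring
      _ ≤ _ := by gcongr
  · have h7 := simp_count n (by omega) H (s / 2) hM'1 (by rw [hM'2]; linarith) T hT
    rw [hM'2] at h7
    refine h7.trans (le_of_eq ?_)
    field_simp
  · obtain ⟨hb1, hL, P, hZ, hX, hd1, hd2⟩ := hS a ha
    refine ⟨hb1, ?_, hL, P, hZ, hX, ?_⟩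
    · have hx0 : 0 < |(P.1 : ℝ)| := lt_of_lt_of_le hX20 hX
      have hx : P.1 ≠ 0 := by
        intro h
        rw [h] at hx0
        norm_num at hx0
      refine not_simp (by omega) ?_ P hZ hx (s / 2) hM'1 ?_ (by omega) ?_
      · intro i j hij
        unfold arr
        rw [dif_pos hij]
        exact hb1 _
      · rw [hM'2]
        calc (8 : ℝ) ^ n * (H / 4) < H * H := by nlinarith
          _ = (H : ℝ) ^ (2 : ℝ) := by
              rw [Real.rpow_two]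
              ring
          _ ≤ (H : ℝ) ^ (274 / 100 : ℝ) := Real.rpow_le_rpow_of_exponent_le h1 (by norm_num)
          _ ≤ |(P.1 : ℝ)| := hX2.trans hX
      · refine hd2.trans_lt ?_
        have h8 : (H : ℝ) / (s / 2) = 2 * s := by
          rw [← hs2]
          field_simp
        rw [h8]
        linarith
    · rw [hHM]
      exact hd1

end Pool.Agent.H15.SC
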