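import Pool.Agent.H15.SC.Core

/-! # [SC TR] Transposition

`Small.tr`: the permutation `σ (i,j) = (j,i)` of the indices: `arr (a ∘ σ) = tr (arr a)`; apply `h`
to the image of `S` under `a ↦ a ∘ σ` (as in the proof of `NoPt.simp_count_tr`).
`leadIrr_tr`: `f = lead n F` has degree `n` (`F 0 n ≠ 0`) and `F n 0 ≠ 0` (otherwise `X` divides
the irreducible `f` of degree `n ≥ 2`); `lead n (tr F)` is the reverse polynomial of `f`
(coefficient `j` is `F j (n-j)`), and a nontrivial factorisation of the reverse polynomial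
gives one of `f` (`Polynomial.reverse_mul_of_domain`, `reverse` preserves the degree when the
constant coefficient is not zero). -/

namespace Pool.Agent.H15.SC

open Finset Polynomial Pool.Agent.H72.ES Pool.Agent.H8.NoPt Pool.Agent.H8.MP

theorem Small.tr {n : ℕ} {s : ℝ} {Q : ℕ → (ℕ → ℕ → ℤ) → Prop}
    (h : Small n s fun H a => Q H (arr a)) : Small n s fun H a => Q H (tr (arr a)) := by
  classical
  obtain ⟨C, hC⟩ := h
  refine ⟨C, fun H hH S hS => ?_⟩
  let σ : Ix n → Ix n := fun q => ⟨(q.1.2, q.1.1), by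
    have := q.2
    show (q.1.2 : ℕ) + (q.1.1 : ℕ) ≤ n
    omega⟩
  have hσ : ∀ q, σ (σ q) = q := fun q => rfl
  have harr : ∀ a : Ix n → ℤ, arr (fun q => a (σ q)) = Pool.Agent.H8.NoPt.tr (arr a) := by
    intro a
    funext i j
    unfold Pool.Agent.H8.NoPt.tr arr
    by_cases h : i + j ≤ n
    · rw [dif_pos h, dif_pos (by omega)]; rfl
    · rw [dif_neg h, dif_neg (by omega)]
  have hinj : Function.Injective (fun (a : Ix n → ℤ) (q : Ix n) => a (σ q)) := by
    intro a a' h
    funext q
    have := congrFun h (σ q)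
    simpa [hσ] using this
  have h1 := hC H hH (S.image (fun (a : Ix n → ℤ) (q : Ix n) => a (σ q))) ?_
  · rwa [Finset.card_image_of_injective _ hinj] at h1
  · intro a' ha'
    obtain ⟨a, ha, rfl⟩ := Finset.mem_image.1 ha'
    refine ⟨fun i => (hS a ha).1 _, ?_⟩
    show Q H (arr fun q => a (σ q))
    rw [harr]
    exact (hS a ha).2

private theorem rev_deg {f : ℚ[X]} (h0 : f.coeff 0 ≠ 0) : f.reverse.natDegree = f.natDegree := by
  rw [reverse_natDegree, natTrailingDegree_eq_zero.2 (Or.inr h0), Nat.sub_zero]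

private theorem rev_rev {f : ℚ[X]} (h0 : f.coeff 0 ≠ 0) : f.reverse.reverse = f := by
  ext i
  rw [coeff_reverse, coeff_reverse, rev_deg h0, revAt_invol]

private theorem rev_irr {f : ℚ[X]} (h : Irreducible f) (h0 : f.coeff 0 ≠ 0) :
    Irreducible f.reverse := by
  have hf0 : f ≠ 0 := h.ne_zero
  have key : ∀ a : ℚ[X], a.coeff 0 ≠ 0 → IsUnit a.reverse → IsUnit a := by
    intro a ha hu
    have h1 : a.natDegree = 0 := by
      rw [← rev_deg ha]
      exact natDegree_eq_zero_of_isUnit hu
    have h2 : a = C (a.coeff 0) := eq_C_of_natDegree_eq_zero h1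
    rw [h2]
    exact isUnit_C.2 (isUnit_iff_ne_zero.2 ha)
  refine ⟨fun hu => ?_, ?_⟩
  · apply h.not_isUnit
    apply key f h0 hu
  · intro a b hab
    have h1 : f = a.reverse * b.reverse := by
      rw [← reverse_mul_of_domain, ← hab, rev_rev h0]
    have h2 : a.coeff 0 * b.coeff 0 ≠ 0 := by
      rw [← mul_coeff_zero, ← hab, coeff_zero_reverse]
      exact leadingCoeff_ne_zero.2 hf0
    rcases h.isUnit_or_isUnit h1 with hu | hu
    · exact Or.inl (key a (left_ne_zero_of_mul h2) hu)
    · exact Or.inr (key b (right_ne_zero_of_mul h2) hu)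

theorem leadIrr_tr {n : ℕ} (hn : 2 ≤ n) {F : ℕ → ℕ → ℤ} (h : LeadIrr n F) :
    LeadIrr n (tr F) := by
  obtain ⟨h1, h2⟩ := h
  obtain ⟨g, hg⟩ : ∃ g : ℚ[X], g = (lead n F).map (Int.castRingHom ℚ) := ⟨_, rfl⟩
  rw [← hg] at h2
  have hc : ∀ j, g.coeff j = if j < n + 1 then (F (n - j) j : ℚ) else 0 := by
    intro j
    rw [hg, coeff_map, Pool.Agent.H8.NoPt.lead_coeff]
    split_ifs <;> simp
  have hn' : g.coeff n ≠ 0 := by
    rw [hc, if_pos (by omega), Nat.sub_self]
    exact_mod_cast h1
  have hdeg : g.natDegree = n := by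
    apply le_antisymm
    · rw [natDegree_le_iff_coeff_eq_zero]
      intro k hk
      rw [hc, if_neg (by omega)]
    · exact le_natDegree_of_ne_zero hn'
  have h0 : g.coeff 0 ≠ 0 := by
    intro h0
    have h3 : X ∣ g := X_dvd_iff.2 h0
    obtain ⟨q, hq⟩ := h3
    rcases h2.isUnit_or_isUnit hq with hu | hu
    · exact not_isUnit_X hu
    · have h4 := natDegree_eq_zero_of_isUnit hu
      have h5 : g.natDegree ≤ 1 := by
        rw [hq]
        refine natDegree_mul_le.trans ?_
        rw [h4, natDegree_X]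
      omega
  have hF0 : F n 0 ≠ 0 := by
    intro h3
    apply h0
    rw [hc, if_pos (by omega), Nat.sub_zero, h3, Int.cast_zero]
  refine ⟨hF0, ?_⟩
  have h3 : (lead n (tr F)).map (Int.castRingHom ℚ) = g.reverse := by
    ext j
    rw [coeff_reverse, hdeg, coeff_map, Pool.Agent.H8.NoPt.lead_coeff, hc]
    by_cases hj : j ≤ n
    · rw [revAt_le hj, if_pos (by omega), if_pos (by omega)]
      unfold tr
      rw [Nat.sub_sub_self hj]
      rfl
    · rw [revAt_eq_self_of_lt (by omega), if_neg (by omega), if_neg (by omega)]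
      simp
  rw [h3]
  exact rev_irr h2 h0

end Pool.Agent.H15.SC
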